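import Mathlib
import Pool.Agent.Work.GBM.C12

/-! # Module SmoothCount: Rankin's bound for squarefree integers without large prime factors -/

namespace Pool.Agent.PW

open Finset

/-- `∑_{p < Y} 1/p ≤ log log Y + C` -/
theorem inv_prime_sum : ∃ C : ℝ, 0 < C ∧ ∀ Y : ℕ, 3 ≤ Y →
    ∑ p ∈ (range Y).filter Nat.Prime, (1 : ℝ) / p ≤ Real.log (Real.log Y) + C := by
  obtain ⟨C, hC, h⟩ := Pool.Agent.HS.mertens_two
  refine ⟨C * (Real.log (2 : ℕ))⁻¹ + 1 / 2 + |Real.log (Real.log (2 : ℕ))|, ?_, fun Y hY => ?_⟩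
  · have h2 : 0 < Real.log ((2 : ℕ) : ℝ) := Real.log_pos (by norm_num)
    positivity
  have h1 : |∑ p ∈ (Ioc 2 Y).filter Nat.Prime, (1 : ℝ) / p -
      (Real.log (Real.log Y) - Real.log (Real.log ((2 : ℕ) : ℝ)))| ≤
      C * (Real.log ((2 : ℕ) : ℝ))⁻¹ := by
    convert h 2 Y le_rfl (by omega) using 6
  have e1 : (range Y).filter Nat.Prime ⊆ insert 2 ((Ioc 2 Y).filter Nat.Prime) := by
    intro p hp
    rw [mem_filter, mem_range] at hp
    rw [mem_insert, mem_filter, mem_Ioc]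
    have := hp.2.two_le
    rcases eq_or_lt_of_le this with h3 | h3
    · exact Or.inl h3.symm
    · exact Or.inr ⟨⟨h3, hp.1.le⟩, hp.2⟩
  have h3 : ∑ p ∈ (range Y).filter Nat.Prime, (1 : ℝ) / p ≤
      ∑ p ∈ insert 2 ((Ioc 2 Y).filter Nat.Prime), (1 : ℝ) / p :=
    sum_le_sum_of_subset_of_nonneg e1 (fun i _ _ => by positivity)
  have h4 : ∑ p ∈ insert 2 ((Ioc 2 Y).filter Nat.Prime), (1 : ℝ) / p =
      1 / 2 + ∑ p ∈ (Ioc 2 Y).filter Nat.Prime, (1 : ℝ) / p := by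
    rw [sum_insert (by simp)]
    norm_num
  rw [h4] at h3
  have h5 := (abs_le.1 h1).2
  have h6 := neg_le_abs (Real.log (Real.log ((2 : ℕ) : ℝ)))
  generalize Real.log (Real.log ((2 : ℕ) : ℝ)) = c2 at h5 h6 ⊢
  generalize C * (Real.log ((2 : ℕ) : ℝ))⁻¹ = c3 at h5 ⊢
  generalize ∑ p ∈ (Ioc 2 Y).filter Nat.Prime, (1 : ℝ) / p = S1 at h3 h5
  generalize ∑ p ∈ (range Y).filter Nat.Prime, (1 : ℝ) / p = S2 at h3 ⊢
  linarith

/-- a sum over squarefree integers with small prime factors is at most a product -/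
theorem sqf_sum_le (g : ℕ → ℝ) (hg : ∀ n, 0 ≤ g n) (s : Finset ℕ) (Y : ℕ)
    (hs : ∀ c ∈ s, Squarefree c ∧ ∀ p : ℕ, p.Prime → p ∣ c → p < Y)
    (f : ℕ → ℝ) (hf : ∀ c ∈ s, f c ≤ ∏ p ∈ c.primeFactors, g p) :
    ∑ c ∈ s, f c ≤ ∏ p ∈ (range Y).filter Nat.Prime, (1 + g p) := by
  classical
  rw [prod_one_add]
  have h1 : ∑ c ∈ s, f c ≤ ∑ c ∈ s, ∏ p ∈ c.primeFactors, g p := sum_le_sum hf
  refine h1.trans ?_
  have h2 : ∑ c ∈ s, ∏ p ∈ c.primeFactors, g p = ∑ t ∈ s.image Nat.primeFactors, ∏ p ∈ t, g p := by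
    rw [sum_image]
    intro a ha b hb hab
    have e1 := Nat.prod_primeFactors_of_squarefree (hs a ha).1
    have e2 := Nat.prod_primeFactors_of_squarefree (hs b hb).1
    rw [← e1, ← e2, hab]
  rw [h2]
  apply sum_le_sum_of_subset_of_nonneg
  · intro t ht
    rw [mem_image] at ht
    obtain ⟨c, hc, rfl⟩ := ht
    rw [mem_powerset]
    intro p hp
    rw [mem_filter, mem_range]
    exact ⟨(hs c hc).2 p (Nat.prime_of_mem_primeFactors hp) (Nat.dvd_of_mem_primeFactors hp),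
      Nat.prime_of_mem_primeFactors hp⟩
  · intro t _ _
    exact prod_nonneg fun p _ => hg p

open Classical in
/-- Rankin's bound -/
theorem smooth_count : ∃ C : ℝ, 0 < C ∧ ∀ Y u : ℕ, 3 ≤ Y → 1 ≤ u →
    (((Icc 1 u).filter (fun c => Squarefree c ∧ ∀ p : ℕ, p.Prime → p ∣ c → p < Y)).card : ℝ) ≤
      u * (C * Real.log Y ^ 3 * Real.exp (-(Real.log u / Real.log Y))) := by
  obtain ⟨C, hC, hM⟩ := inv_prime_sum
  refine ⟨Real.exp (3 * C), Real.exp_pos _, fun Y u hY hu => ?_⟩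
  have hY3 : (3 : ℝ) ≤ Y := by exact_mod_cast hY
  have hlY : 1 ≤ Real.log Y := by
    rw [Real.le_log_iff_exp_le (by linarith)]
    linarith [Real.exp_one_lt_d9]
  have hu0 : (0 : ℝ) < u := by exact_mod_cast hu
  set κ : ℝ := 1 / Real.log Y with hκ
  have hκ0 : 0 < κ := by positivity
  have hκ1 : κ ≤ 1 := by rw [hκ, div_le_one (by linarith)]; exact hlY
  set s := (Icc 1 u).filter (fun c => Squarefree c ∧ ∀ p : ℕ, p.Prime → p ∣ c → p < Y) with hs
  have h1 : (s.card : ℝ) ≤ ∑ c ∈ s, (u : ℝ) ^ (1 - κ) * (c : ℝ) ^ (κ - 1) := by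
    have h2 : (s.card : ℝ) = ∑ c ∈ s, (1 : ℝ) := by simp
    rw [h2]
    refine sum_le_sum fun c hc => ?_
    rw [hs, mem_filter, mem_Icc] at hc
    have hc0 : (0 : ℝ) < c := by exact_mod_cast hc.1.1
    have hcu : (c : ℝ) ≤ u := by exact_mod_cast hc.1.2
    have e1 : (u : ℝ) ^ (1 - κ) * (c : ℝ) ^ (κ - 1) = ((u : ℝ) / c) ^ (1 - κ) := by
      rw [Real.div_rpow hu0.le hc0.le, div_eq_mul_inv, ← Real.rpow_neg hc0.le]
      congr 2
      ring
    rw [e1]
    apply Real.one_le_rpow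
    · rw [le_div_iff₀ hc0]; linarith
    · linarith
  have h2 : ∑ c ∈ s, (c : ℝ) ^ (κ - 1) ≤
      ∏ p ∈ (range Y).filter Nat.Prime, (1 + (p : ℝ) ^ (κ - 1)) := by
    refine sqf_sum_le (fun n => (n : ℝ) ^ (κ - 1)) (fun n => by positivity) s Y (fun c hc => ?_) _
      (fun c hc => ?_)
    · rw [hs, mem_filter] at hc
      exact hc.2
    · rw [hs, mem_filter] at hc
      have e1 := Nat.prod_primeFactors_of_squarefree hc.2.1
      have e2 : (c : ℝ) = ∏ p ∈ c.primeFactors, (p : ℝ) := by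
        conv_lhs => rw [← e1]
        push_cast
        rfl
      have e3 : (c : ℝ) ^ (κ - 1) = ∏ p ∈ c.primeFactors, (p : ℝ) ^ (κ - 1) := by
        conv_lhs => rw [e2]
        rw [Real.finsetProd_rpow]
        intro i _
        positivity
      exact e3.le
  have h3 : ∏ p ∈ (range Y).filter Nat.Prime, (1 + (p : ℝ) ^ (κ - 1)) ≤
      Real.exp (∑ p ∈ (range Y).filter Nat.Prime, (p : ℝ) ^ (κ - 1)) := by
    rw [Real.exp_sum]
    apply prod_le_prod
    · intro p _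
      positivity
    · intro p _
      rw [add_comm]
      exact Real.add_one_le_exp _
  have h4 : ∑ p ∈ (range Y).filter Nat.Prime, (p : ℝ) ^ (κ - 1) ≤
      3 * (Real.log (Real.log Y) + C) := by
    refine le_trans ?_ (mul_le_mul_of_nonneg_left (hM Y hY) (by norm_num))
    rw [mul_sum]
    refine sum_le_sum fun p hp => ?_
    rw [mem_filter, mem_range] at hp
    have hp0 : (0 : ℝ) < p := by exact_mod_cast hp.2.pos
    rw [Real.rpow_sub_one hp0.ne', mul_one_div]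
    apply div_le_div_of_nonneg_right _ hp0.le
    rw [Real.rpow_def_of_pos hp0]
    have h5 : Real.log p * κ ≤ 1 := by
      rw [hκ, mul_one_div, div_le_one (by linarith)]
      exact Real.log_le_log hp0 (by exact_mod_cast hp.1.le)
    calc Real.exp (Real.log p * κ) ≤ Real.exp 1 := Real.exp_le_exp.2 h5
      _ ≤ 3 := by linarith [Real.exp_one_lt_d9]
  have h5 : Real.exp (3 * (Real.log (Real.log Y) + C)) = Real.exp (3 * C) * Real.log Y ^ 3 := by
    rw [mul_add, add_comm, Real.exp_add]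
    congr 1
    rw [show (3 : ℝ) * Real.log (Real.log Y) = ((3 : ℕ) : ℝ) * Real.log (Real.log Y) by norm_num,
      Real.exp_nat_mul, Real.exp_log (by linarith)]
  have h6 : (u : ℝ) ^ (1 - κ) = u * Real.exp (-(Real.log u / Real.log Y)) := by
    rw [Real.rpow_def_of_pos hu0, mul_sub, mul_one, sub_eq_add_neg, Real.exp_add,
      Real.exp_log hu0]
    congr 2
    rw [hκ]
    ring
  rw [← mul_sum] at h1
  refine h1.trans ?_
  have h7 : ∑ c ∈ s, (c : ℝ) ^ (κ - 1) ≤ Real.exp (3 * C) * Real.log Y ^ 3 := by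
    rw [← h5]
    exact h2.trans (h3.trans (Real.exp_le_exp.2 h4))
  calc (u : ℝ) ^ (1 - κ) * ∑ c ∈ s, (c : ℝ) ^ (κ - 1)
      ≤ (u : ℝ) ^ (1 - κ) * (Real.exp (3 * C) * Real.log Y ^ 3) :=
        mul_le_mul_of_nonneg_left h7 (by positivity)
    _ = u * (Real.exp (3 * C) * Real.log Y ^ 3 * Real.exp (-(Real.log u / Real.log Y))) := by
        rw [h6]
        ring

end Pool.Agent.PW
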