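import Mathlib
import Pool.Agent.Work.GBM.C29
import Pool.Agent.Work.MP_92f640_nt.PW.SmoothCount

/-! # Module BadP: characters with small prime sums are not bad for the family `AJ`

`AJ c ≠ 0`, `c ≤ u`: either all primes of `c` are `< Y` (few `c`: `smooth_count`) or `c = m P`, `P ≥ Y` the
largest prime factor: for fixed `m` the conditions on `P` define an interval (`AJ_top`). -/

namespace Pool.Agent.PW

open Finset Pool.Agent.BV Pool.Agent.HL Pool.Agent.HS Filter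
open scoped ArithmeticFunction.Moebius

/-- `ψ(u, χ)` is at most `u / (log x)^B`, for `exp ((log x)^a) ≤ u ≤ x` -/
def PS (x : ℕ) (a : ℝ) (B : ℕ) {r : ℕ} (χ : DirichletCharacter ℂ r) : Prop :=
  ∀ u : ℕ, Real.exp ((Real.log x) ^ a) ≤ u → u ≤ x → ‖psiC χ u‖ ≤ u / (Real.log x) ^ B

open Classical in
theorem AJ_innerP {r : ℕ} (χ : DirichletCharacter ℂ r) (y z w : ℕ) (η : ℝ) (j m u Y : ℕ)
    (hm : 1 ≤ m) (K : ℝ) (hK : ∀ a b : ℕ, Y ≤ a → b ≤ u / m + 1 →
      ‖∑ p ∈ (Ico a b).filter Nat.Prime, χ (p : ZMod r)‖ ≤ K) :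
    ‖∑ P ∈ (Icc y (u / m)).filter (fun P => P.Prime ∧ Top m P),
      (if Y ≤ P then ((AJ y z w η j (m * P) : ℝ) : ℂ) * χ ((m * P : ℕ) : ZMod r) else 0)‖ ≤ K := by
  obtain ⟨κ, a, b, hκ, ha, hb, hsub, heq⟩ := AJ_top y z w η j m u hm
  have e : ∑ P ∈ (Icc y (u / m)).filter (fun P => P.Prime ∧ Top m P),
      (if Y ≤ P then ((AJ y z w η j (m * P) : ℝ) : ℂ) * χ ((m * P : ℕ) : ZMod r) else 0) =
      ((κ : ℂ) * χ (m : ZMod r)) * ∑ p ∈ (Ico (max a Y) b).filter Nat.Prime, χ (p : ZMod r) := by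
    rw [mul_sum]
    symm
    rw [← sum_subset (s₁ := (Ico (max a Y) b).filter Nat.Prime)
      (s₂ := (Icc y (u / m)).filter (fun P => P.Prime ∧ Top m P))]
    · refine sum_congr rfl fun P hP => ?_
      rw [mem_filter, mem_Ico, max_le_iff] at hP
      rw [if_pos hP.1.1.2, heq P (hsub P hP.2 hP.1.1.1 hP.1.2), if_pos ⟨hP.1.1.1, hP.1.2⟩]
      push_cast
      rw [map_mul]
      ring
    · intro P hP
      rw [mem_filter, mem_Ico, max_le_iff] at hP
      exact hsub P hP.2 hP.1.1.1 hP.1.2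
    · intro P hP hP'
      split_ifs with hY
      · rw [heq P hP, if_neg]
        · simp
        · intro hI
          apply hP'
          rw [mem_filter, mem_Ico, max_le_iff]
          rw [mem_filter] at hP
          exact ⟨⟨⟨hI.1, hY⟩, hI.2⟩, hP.2.1⟩
      · rfl
  rw [e, norm_mul, norm_mul, Complex.norm_real, Real.norm_eq_abs]
  have h1 := hK (max a Y) b (le_max_right _ _) hb
  have h2 : |κ| * ‖χ (m : ZMod r)‖ ≤ 1 := by
    calc |κ| * ‖χ (m : ZMod r)‖ ≤ 1 * 1 := by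
          gcongr
          exact DirichletCharacter.norm_le_one _ _
      _ = 1 := one_mul 1
  calc |κ| * ‖χ (m : ZMod r)‖ * ‖∑ p ∈ (Ico (max a Y) b).filter Nat.Prime, χ (p : ZMod r)‖
      ≤ 1 * K := by gcongr
    _ = K := one_mul K

/-- sums over the primes in an interval -/
theorem ps_interval {x : ℕ} {a : ℝ} {B : ℕ} {r : ℕ} {χ : DirichletCharacter ℂ r} (h : PS x a B χ)
    (hL : 0 < Real.log x) (hbig : (32 * (Real.log x) ^ B) ^ 4 ≤ Real.exp ((Real.log x) ^ a))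
    {Y : ℕ} (hY3 : 3 ≤ Y) (hY : Real.exp ((Real.log x) ^ a) + 1 ≤ Y) {N : ℕ} (hN : N ≤ x)
    (s t : ℕ) (hs : Y ≤ s) (ht : t ≤ N + 1) :
    ‖∑ p ∈ (Ico s t).filter Nat.Prime, χ (p : ZMod r)‖ ≤ 4 * N / (Real.log x) ^ B := by
  set L := Real.log x with hLd
  have hLB : 0 < L ^ B := by positivity
  rcases le_or_gt t s with hst | hst
  · rw [Ico_eq_empty (by omega), filter_empty, sum_empty, norm_zero]
    positivity
  have hsN : s ≤ N := by omega
  have hN3 : 3 ≤ N := by omega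
  have hYN : (Y : ℝ) ≤ N := by exact_mod_cast hs.trans hsN
  have hN0 : (0 : ℝ) < N := by
    have : (0 : ℝ) < Y := by exact_mod_cast (by omega : 0 < Y)
    linarith
  -- the prime powers
  have hpp : 2 * Real.sqrt N * Real.log N ≤ (N : ℝ) / (4 * L ^ B) := by
    have h1 : (32 * L ^ B) ^ 4 ≤ (N : ℝ) := by linarith
    set v : ℝ := (N : ℝ) ^ (1 / 4 : ℝ) with hv
    have hv0 : 0 < v := by positivity
    have hv4 : v ^ 4 = N := by
      rw [hv, ← Real.rpow_natCast, ← Real.rpow_mul hN0.le]; norm_num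
    have hv2 : Real.sqrt N = v ^ 2 := by
      rw [← hv4, show v ^ 4 = (v ^ 2) ^ 2 by ring, Real.sqrt_sq (by positivity)]
    have h2 : 32 * L ^ B ≤ v := by
      have : (32 * L ^ B) ^ 4 ≤ v ^ 4 := by rw [hv4]; exact h1
      exact le_of_pow_le_pow_left₀ (by norm_num) hv0.le this
    have h3 : Real.log N ≤ 4 * v := by
      have := Real.log_le_rpow_div hN0.le (by norm_num : (0 : ℝ) < 1 / 4)
      rw [← hv] at this
      linarith
    rw [le_div_iff₀ (by positivity), hv2]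
    calc 2 * v ^ 2 * Real.log N * (4 * L ^ B) ≤ 2 * v ^ 2 * (4 * v) * (4 * L ^ B) := by gcongr
      _ = v ^ 3 * (32 * L ^ B) := by ring
      _ ≤ v ^ 3 * v := by gcongr
      _ = N := by rw [← hv4]; ring
  have hT : ∀ n, s - 1 ≤ n → n ≤ N → ‖thC χ n‖ ≤ 2 * ((N : ℝ) / L ^ B) := by
    intro n hn hnN
    have h0 : (Y : ℝ) ≤ n + 1 := by exact_mod_cast (by omega : Y ≤ n + 1)
    have h1 : ‖psiC χ n‖ ≤ (N : ℝ) / L ^ B := by
      refine (h n (by linarith) (hnN.trans hN)).trans ?_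
      have : (n : ℝ) ≤ N := by exact_mod_cast hnN
      gcongr
    have h2 := (thC_sub χ n N hnN (by omega)).trans hpp
    have h3 : (N : ℝ) / (4 * L ^ B) ≤ N / L ^ B := by
      apply div_le_div_of_nonneg_left hN0.le hLB
      linarith
    calc ‖thC χ n‖ = ‖psiC χ n - (psiC χ n - thC χ n)‖ := by rw [sub_sub_cancel]
      _ ≤ ‖psiC χ n‖ + ‖psiC χ n - thC χ n‖ := norm_sub_le _ _
      _ ≤ (N : ℝ) / L ^ B + (N : ℝ) / L ^ B := add_le_add h1 (h2.trans h3)
      _ = _ := by ring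
  have h := prime_sum_aux χ s t N _ (by omega) ht hT (by positivity)
  calc ‖∑ p ∈ (Ico s t).filter Nat.Prime, χ (p : ZMod r)‖ ≤ 2 * (2 * ((N : ℝ) / L ^ B)) := h
    _ = _ := by ring

/-- analytic part: the number of smooth integers is small -/
theorem smooth_small (κ a : ℝ) (hκ : 0 < κ) (ha : 0 < a) (ha1 : a < 1) (C : ℝ) (hC : 0 < C) (B : ℕ) :
    ∀ᶠ x : ℕ in atTop, ∀ Y u : ℕ, 3 ≤ Y → (Y : ℝ) ≤ Real.exp ((Real.log x) ^ a) + 2 →
      (x : ℝ) ^ κ ≤ u → C * Real.log Y ^ 3 * Real.exp (-(Real.log u / Real.log Y)) ≤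
        1 / (4 * (Real.log x) ^ B) := by
  -- `log Y ≤ 2 L^a`, `log u ≥ κ L`, `log u / log Y ≥ (κ/2) L^(1-a)`
  have hlog : Tendsto (fun x : ℕ => Real.log (x : ℝ)) atTop atTop :=
    Real.tendsto_log_atTop.comp tendsto_natCast_atTop_atTop
  have hb : 0 < 1 - a := by linarith
  -- `L^(B+3) * 32 C exp (-(κ/2) L^(1-a)) → 0`
  have h1 : Tendsto (fun t : ℝ => t ^ ((B + 3 : ℕ) / (1 - a)) * Real.exp (-(κ / 2) * t)) atTop
      (nhds 0) := tendsto_rpow_mul_exp_neg_mul_atTop_nhds_zero _ _ (by linarith)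
  have h2 : Tendsto (fun L : ℝ => L ^ (1 - a)) atTop atTop := tendsto_rpow_atTop hb
  have h3 := (h1.comp (h2.comp hlog)).eventually (gt_mem_nhds (show (0 : ℝ) < 1 / (32 * C) by
    positivity))
  have h4 := (tendsto_rpow_atTop ha).comp hlog
  filter_upwards [h3, hlog.eventually_ge_atTop 1, h4.eventually_ge_atTop 2] with x h3 hL1 h4
  intro Y u hY hYx hu
  set L := Real.log x with hL
  simp only [Function.comp_apply] at h3 h4
  have hL0 : 0 < L := by linarith
  have hY3 : (3 : ℝ) ≤ Y := by exact_mod_cast hY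
  have hlY0 : 0 < Real.log Y := Real.log_pos (by linarith)
  have hLa0 : 0 < L ^ a := by positivity
  have hlY : Real.log Y ≤ 2 * L ^ a := by
    have e1 : Real.exp (L ^ a) + 2 ≤ Real.exp (2 * L ^ a) := by
      rw [two_mul, Real.exp_add]
      have e2 : L ^ a + 1 ≤ Real.exp (L ^ a) := Real.add_one_le_exp _
      nlinarith
    calc Real.log Y ≤ Real.log (Real.exp (2 * L ^ a)) :=
          Real.log_le_log (by linarith) (hYx.trans e1)
      _ = 2 * L ^ a := Real.log_exp _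
  have hLa : L ^ a ≤ L := by
    calc L ^ a ≤ L ^ (1 : ℝ) := Real.rpow_le_rpow_of_exponent_le hL1 ha1.le
      _ = L := Real.rpow_one L
  have hx0 : (0 : ℝ) < x := by
    have : (x : ℝ) ≠ 0 := by
      intro h0
      rw [hL, h0, Real.log_zero] at hL0
      exact lt_irrefl _ hL0
    positivity
  have hlu : κ * L ≤ Real.log u := by
    have := Real.log_le_log (by positivity) hu
    rwa [Real.log_rpow hx0] at this
  have hq : κ / 2 * L ^ (1 - a) ≤ Real.log u / Real.log Y := by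
    rw [le_div_iff₀ hlY0]
    calc κ / 2 * L ^ (1 - a) * Real.log Y ≤ κ / 2 * L ^ (1 - a) * (2 * L ^ a) := by gcongr
      _ = κ * (L ^ (1 - a) * L ^ a) := by ring
      _ = κ * L := by
          rw [← Real.rpow_add hL0]
          simp
      _ ≤ Real.log u := hlu
  have h5 : (L ^ (1 - a)) ^ (((B + 3 : ℕ) : ℝ) / (1 - a)) = L ^ (B + 3) := by
    rw [← Real.rpow_mul hL0.le, mul_div_cancel₀ _ hb.ne', Real.rpow_natCast]
  rw [h5] at h3
  have h6 : Real.exp (-(Real.log u / Real.log Y)) ≤ Real.exp (-(κ / 2) * L ^ (1 - a)) :=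
    Real.exp_le_exp.2 (by linarith)
  have h7 : Real.log Y ^ 3 ≤ 8 * L ^ 3 := by
    calc Real.log Y ^ 3 ≤ (2 * L) ^ 3 := by gcongr; linarith
      _ = 8 * L ^ 3 := by ring
  rw [le_div_iff₀ (by positivity)]
  calc C * Real.log Y ^ 3 * Real.exp (-(Real.log u / Real.log Y)) * (4 * L ^ B)
      ≤ C * (8 * L ^ 3) * Real.exp (-(κ / 2) * L ^ (1 - a)) * (4 * L ^ B) := by gcongr
    _ = 32 * C * (L ^ (B + 3) * Real.exp (-(κ / 2) * L ^ (1 - a))) := by ring
    _ ≤ 32 * C * (1 / (32 * C)) := by gcongr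
    _ = 1 := by field_simp

theorem ev_big (a : ℝ) (ha : 0 < a) (B : ℕ) :
    ∀ᶠ x : ℕ in atTop, (32 * (Real.log x) ^ B) ^ 4 ≤ Real.exp ((Real.log x) ^ a) := by
  have hlog : Tendsto (fun x : ℕ => Real.log (x : ℝ)) atTop atTop :=
    Real.tendsto_log_atTop.comp tendsto_natCast_atTop_atTop
  have h1 : Tendsto (fun t : ℝ => t ^ (((4 * B : ℕ) : ℝ) / a) * Real.exp (-1 * t)) atTop
      (nhds 0) := tendsto_rpow_mul_exp_neg_mul_atTop_nhds_zero _ _ (by norm_num)
  have h2 : Tendsto (fun L : ℝ => L ^ a) atTop atTop := tendsto_rpow_atTop ha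
  have h3 := (h1.comp (h2.comp hlog)).eventually (gt_mem_nhds (show (0 : ℝ) < 1 / 32 ^ 4 by
    positivity))
  filter_upwards [h3, hlog.eventually_ge_atTop 1] with x h3 hL1
  simp only [Function.comp_apply] at h3
  set L := Real.log x with hL
  have hL0 : 0 < L := by linarith
  have h5 : (L ^ a) ^ (((4 * B : ℕ) : ℝ) / a) = L ^ (4 * B) := by
    rw [← Real.rpow_mul hL0.le, mul_div_cancel₀ _ ha.ne', Real.rpow_natCast]
  rw [h5] at h3
  have h6 : Real.exp (-1 * L ^ a) * Real.exp (L ^ a) = 1 := by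
    rw [← Real.exp_add]
    simp
  calc (32 * L ^ B) ^ 4 = 32 ^ 4 * (L ^ (4 * B) * (Real.exp (-1 * L ^ a) * Real.exp (L ^ a))) := by
        rw [h6, mul_pow, ← pow_mul, mul_comm B 4, mul_one]
    _ = 32 ^ 4 * (L ^ (4 * B) * Real.exp (-1 * L ^ a)) * Real.exp (L ^ a) := by ring
    _ ≤ 32 ^ 4 * (1 / 32 ^ 4) * Real.exp (L ^ a) := by gcongr
    _ = Real.exp (L ^ a) := by norm_num

open Classical in
theorem not_bad (θ κ a : ℝ) (hθ : 1 / 2 ≤ θ) (hκ : 0 < κ) (hκ1 : κ ≤ 1 / 8)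
    (ha : 0 < a) (ha1 : a < 1) (B' B9 : ℕ) :
    ∃ x₁ : ℕ, ∀ x : ℕ, x₁ ≤ x → ∀ (r : ℕ) (χ : DirichletCharacter ℂ r), PS x a (B9 + 2) χ →
    ∀ J : ℕ, ¬ BadF x (wk κ x) (wk κ x * zx θ x) J B9
      (AJ (y0 x) (zx θ x) (wk κ x) (1 / (Real.log x) ^ B')) χ := by
  obtain ⟨C, hC, hsc⟩ := smooth_count
  have hev := (smooth_small κ a hκ ha ha1 C hC B9).and ((ev_wz θ κ hθ hκ1 hκ).and
    ((evt_log 16).and ((evt_pow 2 0 κ hκ).and ((eventually_ge_atTop 3).and
      (ev_big a ha (B9 + 2))))))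
  obtain ⟨x₁, hx₁⟩ := eventually_atTop.1 hev
  refine ⟨x₁, fun x hx r χ hPS J hbad => ?_⟩
  obtain ⟨hsm, hwz, hL8, hw2, hx3, hbig⟩ := hx₁ x hx
  obtain ⟨j, _, u, hu1, hu2, hu3⟩ := hbad
  set L : ℝ := Real.log x with hL
  have hL0 : 0 < L := by linarith
  have hx1 : (1 : ℝ) ≤ x := by
    have : (3 : ℝ) ≤ x := by exact_mod_cast hx3
    linarith
  have hw : 2 ≤ wk κ x := by
    have h1 : (2 : ℝ) ≤ wk κ x := by
      rw [pow_zero, mul_one] at hw2
      exact hw2.trans (Nat.le_ceil _)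
    exact_mod_cast h1
  have hy1 : 1 ≤ y0 x := by
    unfold y0
    exact Nat.one_le_ceil_iff.2 (Real.exp_pos _)
  have hux : u ≤ x := hu2.trans hwz
  have hu0 : (0 : ℝ) < u := by
    have : 0 < u := by omega
    exact_mod_cast this
  have hlogu : Real.log u ≤ L := Real.log_le_log hu0 (by exact_mod_cast hux)
  set Y : ℕ := ⌈Real.exp (L ^ a)⌉₊ + 1 with hYdef
  have hY1 : Real.exp (L ^ a) + 1 ≤ Y := by
    rw [hYdef]
    push_cast
    have := Nat.le_ceil (Real.exp (L ^ a))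
    linarith
  have hY2 : (Y : ℝ) ≤ Real.exp (L ^ a) + 2 := by
    rw [hYdef]
    push_cast
    have := (Nat.ceil_lt_add_one (Real.exp_pos (L ^ a)).le).le
    linarith
  have hY3 : 3 ≤ Y := by
    have h1 : (1 : ℝ) ≤ L ^ a := Real.one_le_rpow (by linarith) ha.le
    have h2 : L ^ a + 1 ≤ Real.exp (L ^ a) := Real.add_one_le_exp _
    have h3 : (3 : ℝ) ≤ Y := by linarith
    exact_mod_cast h3
  set f : ℕ → ℂ := fun c => ((AJ (y0 x) (zx θ x) (wk κ x) (1 / L ^ B') j c : ℝ) : ℂ) * χ (c : ZMod r)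
    with hf
  have hf1 : ∀ c, ‖f c‖ ≤ 1 := by
    intro c
    rw [hf]
    simp only [norm_mul, Complex.norm_real, Real.norm_eq_abs]
    calc |AJ (y0 x) (zx θ x) (wk κ x) (1 / L ^ B') j c| * ‖χ (c : ZMod r)‖ ≤ 1 * 1 := by
          gcongr
          · exact abs_AJ_le _ _ _ _ _ _
          · exact DirichletCharacter.norm_le_one _ _
      _ = 1 := one_mul 1
  have hfs : ∀ c, f c ≠ 0 → 2 ≤ c ∧ Squarefree c ∧ ∀ p : ℕ, p.Prime → p ∣ c → y0 x ≤ p := by
    intro c hc
    have hA : AJ (y0 x) (zx θ x) (wk κ x) (1 / L ^ B') j c ≠ 0 := by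
      intro h0
      apply hc
      simp only [hf]
      rw [h0]
      simp
    refine ⟨?_, ?_, fun p hp hpc => AJ_prime_ge _ _ _ _ _ _ hA p hp hpc⟩
    · unfold AJ at hA
      split_ifs at hA with h1
      · exact hw.trans h1.2.1
      · exact absurd rfl hA
    · unfold AJ at hA
      split_ifs at hA with h1
      · exact h1.1.1
      · exact absurd rfl hA
  -- the part with a large prime factor
  set g : ℕ → ℂ := fun c => if ∃ p : ℕ, p.Prime ∧ p ∣ c ∧ Y ≤ p then f c else 0 with hg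
  have hsplit : ∑ c ∈ Icc 1 u, f c = ∑ c ∈ Icc 1 u, g c + ∑ c ∈ Icc 1 u, (f c - g c) := by
    rw [← sum_add_distrib]
    exact sum_congr rfl fun c _ => by ring
  have hrest : ‖∑ c ∈ Icc 1 u, (f c - g c)‖ ≤ u * (1 / (4 * L ^ B9)) := by
    have h1 : ‖∑ c ∈ Icc 1 u, (f c - g c)‖ ≤
        (((Icc 1 u).filter (fun c => Squarefree c ∧ ∀ p : ℕ, p.Prime → p ∣ c → p < Y)).card : ℝ) := by
      refine (norm_sum_le _ _).trans ?_
      rw [card_eq_sum_ones, Nat.cast_sum, sum_filter]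
      refine sum_le_sum fun c _ => ?_
      split_ifs with h2
      · have h3 : g c = 0 := by
          simp only [hg]
          rw [if_neg]
          rintro ⟨p, hp, hpc, hpY⟩
          have := h2.2 p hp hpc
          omega
        rw [h3, sub_zero]
        push_cast
        exact hf1 c
      · by_cases h3 : ∃ p : ℕ, p.Prime ∧ p ∣ c ∧ Y ≤ p
        · simp only [hg, if_pos h3, sub_self, norm_zero]
          exact le_rfl
        · have h4 : f c = 0 := by
            by_contra h5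
            apply h2
            refine ⟨(hfs c h5).2.1, fun p hp hpc => ?_⟩
            by_contra h6
            exact h3 ⟨p, hp, hpc, by omega⟩
          simp only [hg, if_neg h3, h4, sub_zero, norm_zero]
          exact le_rfl
    have h2 := hsc Y u hY3 (by omega)
    have h3 := hsm Y u hY3 hY2 ((Nat.le_ceil _).trans (by exact_mod_cast hu1))
    exact h1.trans (h2.trans (mul_le_mul_of_nonneg_left h3 hu0.le))
  have hmainp : ‖∑ c ∈ Icc 1 u, g c‖ ≤ (u : ℝ) / (2 * L ^ B9) := by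
    rw [sum_top g (y0 x) u hy1 (fun c hc => hfs c (by
      intro h0
      apply hc
      simp only [hg, h0]
      split_ifs <;> rfl))]
    calc ‖∑ m ∈ Icc 1 (u / y0 x), ∑ P ∈ (Icc (y0 x) (u / m)).filter
          (fun P => P.Prime ∧ Top m P), g (m * P)‖
        ≤ ∑ m ∈ Icc 1 (u / y0 x), (4 * (u : ℝ) / L ^ (B9 + 2)) * (1 / (m : ℝ)) := by
          refine (norm_sum_le _ _).trans (sum_le_sum fun m hm => ?_)
          obtain ⟨hm1, hm2⟩ := mem_Icc.1 hm
          have e1 : ∑ P ∈ (Icc (y0 x) (u / m)).filter (fun P => P.Prime ∧ Top m P), g (m * P) =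
              ∑ P ∈ (Icc (y0 x) (u / m)).filter (fun P => P.Prime ∧ Top m P),
                (if Y ≤ P then ((AJ (y0 x) (zx θ x) (wk κ x) (1 / L ^ B') j (m * P) : ℝ) : ℂ) *
                  χ ((m * P : ℕ) : ZMod r) else 0) := by
            refine sum_congr rfl fun P hP => ?_
            rw [mem_filter] at hP
            obtain ⟨_, hPp, hT⟩ := hP
            by_cases hYP : Y ≤ P
            · rw [if_pos hYP]
              simp only [hg]
              rw [if_pos ⟨P, hPp, Dvd.intro_left m rfl, hYP⟩]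
            · rw [if_neg hYP]
              simp only [hg]
              rw [if_neg]
              rintro ⟨p, hp, hpc, hpY⟩
              rcases (Nat.Prime.dvd_mul hp).1 hpc with h4 | h4
              · have := hT p hp h4; omega
              · have := (Nat.prime_dvd_prime_iff_eq hp hPp).1 h4; omega
          rw [e1]
          have hmx : u / m ≤ x := (Nat.div_le_self u m).trans hux
          refine (AJ_innerP χ _ _ _ _ j m u Y hm1 _
            (fun s t hs ht => ps_interval hPS hL0 hbig hY3 hY1 hmx s t hs ht)).trans ?_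
          have h1 : ((u / m : ℕ) : ℝ) ≤ (u : ℝ) / m := Nat.cast_div_le
          calc 4 * ((u / m : ℕ) : ℝ) / L ^ (B9 + 2) ≤ 4 * ((u : ℝ) / m) / L ^ (B9 + 2) := by gcongr
            _ = (4 * (u : ℝ) / L ^ (B9 + 2)) * (1 / (m : ℝ)) := by ring
      _ = (4 * (u : ℝ) / L ^ (B9 + 2)) * ∑ m ∈ Icc 1 (u / y0 x), (1 / (m : ℝ)) := by rw [mul_sum]
      _ ≤ (4 * (u : ℝ) / L ^ (B9 + 2)) * (L ^ 2 / 8) := by
          have h1 : ∑ m ∈ Icc 1 (u / y0 x), (1 / (m : ℝ)) ≤ ∑ m ∈ Icc 1 u, (1 / (m : ℝ)) := by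
            apply sum_le_sum_of_subset_of_nonneg
            · exact Icc_subset_Icc_right (Nat.div_le_self _ _)
            · intro i _ _; positivity
          have h2 : ∑ m ∈ Icc 1 u, (1 / (m : ℝ)) ≤ 1 + Real.log u := by
            have h3 := harmonic_le_one_add_log u
            rw [harmonic_eq_sum_Icc] at h3
            push_cast at h3
            simpa [one_div] using h3
          have h4 : ∑ m ∈ Icc 1 (u / y0 x), (1 / (m : ℝ)) ≤ L ^ 2 / 8 := by nlinarith
          gcongr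
      _ = (u : ℝ) / (2 * L ^ B9) := by
          rw [pow_add]; field_simp; ring
  have htot : ‖∑ c ∈ Icc 1 u, f c‖ ≤ (u : ℝ) / L ^ B9 := by
    rw [hsplit]
    refine (norm_add_le _ _).trans ((add_le_add hmainp hrest).trans ?_)
    have h1 : (0 : ℝ) < L ^ B9 := by positivity
    have h2 : (u : ℝ) / (2 * L ^ B9) + u * (1 / (4 * L ^ B9)) = 3 / 4 * (u / L ^ B9) := by
      field_simp
      ring
    rw [h2]
    have h3 : 0 ≤ (u : ℝ) / L ^ B9 := by positivity
    linarith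
  exact absurd hu3 (not_lt.2 htot)

end Pool.Agent.PW
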