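import Mathlib
import Pool.Agent.Work.GBM.C29

/-! # Module BsetP: the exceptional moduli, with their bad characters

Copy of `bsetF` (GBM/C23): every `b ∈ B` comes with `r`, `g ≤ (log x)^B₁`, `b = r / g`, and a bad
primitive character mod `r`. -/

namespace Pool.Agent.PW

open Finset Pool.Agent.BV Pool.Agent.HL Pool.Agent.HS Pool.Agent.HS.BadFaux

theorem bsetP (θ κ ε : ℝ) (hθ : 0 < θ) (hκ : 0 < κ) (hε : 0 < ε) (c₁ B₁ B9 : ℕ) : ∃ C : ℕ,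
    ∀ A : ℕ, ∃ x₁ : ℕ, ∀ x : ℕ, x₁ ≤ x → ∀ (w₂ J : ℕ) (Af : ℕ → ℕ → ℝ), (∀ j c, |Af j c| ≤ 1) →
    w₂ ≤ x → (J : ℝ) ≤ (Real.log x) ^ c₁ →
    ∃ B : Finset ℕ, (B.card : ℝ) ≤ (Real.log x) ^ C ∧ (∀ b ∈ B, ∃ r g : ℕ, 1 ≤ g ∧
      (g : ℝ) ≤ (Real.log x) ^ B₁ ∧ g ∣ r ∧ b = r / g ∧ (Real.log x) ^ (A + B₁ + 1) < (r : ℝ) ∧
      (r : ℝ) ≤ (x : ℝ) ^ θ ∧ ∃ χ ∈ prim r, BadF x (wk κ x) w₂ J B9 Af χ) ∧
      ∀ q : ℕ, 1 ≤ q → (q : ℝ) ≤ (x : ℝ) ^ (θ - ε) → (∀ b ∈ B, ¬ b ∣ q) →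
        GoodF x (wk κ x) w₂ J B9 Af ((Real.log x) ^ (A + B₁ + 1)) ((Real.log x) ^ B₁) q := by
  classical
  set J' : ℕ := ⌈2 * θ / κ⌉₊ + 1 with hJ'
  have hJ1 : 1 ≤ J' := by omega
  have hJκ : 2 * θ + κ ≤ κ * J' := by
    have h1 : 2 * θ / κ + 1 ≤ J' := by
      have h0 : 2 * θ / κ ≤ ⌈2 * θ / κ⌉₊ := Nat.le_ceil _
      rw [hJ']
      push_cast
      linarith
    have h2 : κ * (2 * θ / κ + 1) = 2 * θ + κ := by field_simp
    rw [← h2]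
    exact mul_le_mul_of_nonneg_left h1 hκ.le
  obtain ⟨C₀, x₀, hcount⟩ := badF_count J' c₁ B9 hJ1
  obtain ⟨x₁, hx₁⟩ := bset_log B₁ ε hε
  obtain ⟨x₂, hx₂⟩ := bset_log (B9 + 3) κ hκ
  obtain ⟨x₃, hx₃⟩ := bset_log J' κ hκ
  obtain ⟨x₄, hx₄⟩ := bset_log_large 2
  refine ⟨C₀ + B₁, fun A => ⟨max 3 (max x₀ (max x₁ (max x₂ (max x₃ x₄)))), ?_⟩⟩
  intro x hx w₂ J Af hAf hw₂ hJc
  simp only [max_le_iff] at hx
  obtain ⟨hx3, hx0', hx1', hx2', hx3', hx4'⟩ := hx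
  have hlogε := hx₁ x hx1'
  have hlogκ := hx₂ x hx2'
  have hlogJ := hx₃ x hx3'
  have hL2 := hx₄ x hx4'
  have hx3R : (3 : ℝ) ≤ x := by exact_mod_cast hx3
  have hx1R : (1 : ℝ) ≤ x := by linarith
  have hx0R : (0 : ℝ) < x := by linarith
  set L := Real.log x with hL
  have hL0 : 0 < L := by linarith
  have hlx : 1 ≤ L := by linarith
  set R : ℕ := ⌊(x : ℝ) ^ θ⌋₊ with hR
  have hR1 : 1 ≤ R := Nat.le_floor (by push_cast; exact Real.one_le_rpow hx1R hθ.le)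
  have hwk : (x : ℝ) ^ κ ≤ wk κ x := Nat.le_ceil _
  have hRw : (R : ℝ) ^ 2 ≤ ((wk κ x : ℝ) / 2) ^ J' := by
    have h1 : (R : ℝ) ≤ (x : ℝ) ^ θ := Nat.floor_le (by positivity)
    have h2 : (R : ℝ) ^ 2 ≤ (x : ℝ) ^ (2 * θ) := by
      calc (R : ℝ) ^ 2 ≤ ((x : ℝ) ^ θ) ^ 2 := pow_le_pow_left₀ (by positivity) h1 2
        _ = (x : ℝ) ^ (2 * θ) := by
            rw [← Real.rpow_natCast, ← Real.rpow_mul hx0R.le]
            norm_num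
            ring_nf
    have h3 : (2 : ℝ) ^ J' ≤ (x : ℝ) ^ κ :=
      (pow_le_pow_left₀ (by norm_num) hL2 J').trans hlogJ
    have h4 : (x : ℝ) ^ (2 * θ) * 2 ^ J' ≤ ((x : ℝ) ^ κ) ^ J' := by
      calc (x : ℝ) ^ (2 * θ) * 2 ^ J' ≤ (x : ℝ) ^ (2 * θ) * (x : ℝ) ^ κ :=
            mul_le_mul_of_nonneg_left h3 (by positivity)
        _ = (x : ℝ) ^ (2 * θ + κ) := by rw [Real.rpow_add hx0R]
        _ ≤ (x : ℝ) ^ (κ * J') := Real.rpow_le_rpow_of_exponent_le hx1R hJκ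
        _ = ((x : ℝ) ^ κ) ^ J' := by rw [Real.rpow_mul hx0R.le, Real.rpow_natCast]
    calc (R : ℝ) ^ 2 ≤ (x : ℝ) ^ (2 * θ) := h2
      _ ≤ ((x : ℝ) ^ κ) ^ J' / 2 ^ J' := by rw [le_div_iff₀ (by positivity)]; exact h4
      _ = ((x : ℝ) ^ κ / 2) ^ J' := by rw [div_pow]
      _ ≤ ((wk κ x : ℝ) / 2) ^ J' := pow_le_pow_left₀ (by positivity)
          (div_le_div_of_nonneg_right hwk (by norm_num)) _
  have hcnt := hcount x hx0' (wk κ x) w₂ J R Af hAf hw₂ hJc (hlogκ.trans hwk) hR1 hRw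
  set Rb : Finset ℕ := (Icc 1 R).filter (fun r => ∃ χ ∈ prim r, BadF x (wk κ x) w₂ J B9 Af χ)
    with hRb
  have hRbcard : (Rb.card : ℝ) ≤ L ^ C₀ := by
    refine le_trans ?_ hcnt
    rw [hRb, card_filter]
    push_cast
    refine sum_le_sum fun r hr => ?_
    split_ifs with h
    · obtain ⟨χ, hχ, hbad⟩ := h
      have : 0 < ((prim r).filter (fun χ => BadF x (wk κ x) w₂ J B9 Af χ)).card :=
        card_pos.2 ⟨χ, mem_filter.2 ⟨hχ, hbad⟩⟩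
      exact_mod_cast this
    · positivity
  set G : ℕ := ⌊L ^ B₁⌋₊ with hG
  set P : Finset (ℕ × ℕ) := (Rb ×ˢ Icc 1 G).filter (fun p => L ^ (A + B₁ + 1) < (p.1 : ℝ) ∧ p.2 ∣ p.1)
    with hP
  refine ⟨P.image (fun p => p.1 / p.2), ?_, ?_, ?_⟩
  · have h1 : ((P.image (fun p => p.1 / p.2)).card : ℝ) ≤ Rb.card * G := by
      have h2 : (P.image (fun p => p.1 / p.2)).card ≤ Rb.card * G := by
        refine card_image_le.trans ((card_filter_le _ _).trans ?_)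
        rw [card_product, Nat.card_Icc, Nat.add_sub_cancel]
      exact_mod_cast h2
    have h3 : (G : ℝ) ≤ L ^ B₁ := Nat.floor_le (by positivity)
    calc ((P.image (fun p => p.1 / p.2)).card : ℝ) ≤ Rb.card * G := h1
      _ ≤ L ^ C₀ * L ^ B₁ := mul_le_mul hRbcard h3 (by positivity) (by positivity)
      _ = L ^ (C₀ + B₁) := by rw [pow_add]
  · intro b hb
    obtain ⟨p, hp, rfl⟩ := mem_image.1 hb
    rw [hP, mem_filter, mem_product, mem_Icc, hRb, mem_filter, mem_Icc] at hp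
    obtain ⟨⟨⟨⟨hp1, hp6⟩, hp7⟩, hp2, hp3⟩, hp4, hp5⟩ := hp
    have hg : (p.2 : ℝ) ≤ L ^ B₁ := by
      have h3 : (G : ℝ) ≤ L ^ B₁ := Nat.floor_le (by positivity)
      have : (p.2 : ℝ) ≤ G := by exact_mod_cast hp3
      linarith
    have hrle : (p.1 : ℝ) ≤ (x : ℝ) ^ θ := by
      have h1 : (R : ℝ) ≤ (x : ℝ) ^ θ := Nat.floor_le (by positivity)
      have : (p.1 : ℝ) ≤ R := by exact_mod_cast hp6
      linarith
    exact ⟨p.1, p.2, hp2, hg, hp5, rfl, hp4, hrle, hp7⟩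
  · intro q hq hqx hqB s hs hsS r hr hrR χ hχ hbad
    have hs0 : (0 : ℝ) < s := by exact_mod_cast hs
    have hqs : q * s ≠ 0 := Nat.mul_ne_zero (by omega) (by omega)
    have hr1 : 1 ≤ r := Nat.pos_of_dvd_of_pos hr (Nat.pos_of_ne_zero hqs)
    have hrle : (r : ℝ) ≤ (x : ℝ) ^ θ := by
      calc (r : ℝ) ≤ ((q * s : ℕ) : ℝ) := by
            exact_mod_cast Nat.le_of_dvd (Nat.pos_of_ne_zero hqs) hr
        _ = q * s := by push_cast; ring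
        _ ≤ (x : ℝ) ^ (θ - ε) * (x : ℝ) ^ ε :=
            mul_le_mul hqx (hsS.trans hlogε) hs0.le (by positivity)
        _ = (x : ℝ) ^ θ := by
            rw [← Real.rpow_add hx0R]; congr 1; ring
    have hrR2 : r ≤ R := Nat.le_floor hrle
    set g := Nat.gcd r s with hg
    have hg1 : 1 ≤ g := Nat.gcd_pos_of_pos_left s hr1
    have hgr : g ∣ r := Nat.gcd_dvd_left r s
    have hgs : g ∣ s := Nat.gcd_dvd_right r s
    have hgG : g ≤ G := by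
      refine Nat.le_floor ?_
      have : (g : ℝ) ≤ s := by exact_mod_cast Nat.le_of_dvd hs hgs
      exact this.trans hsS
    refine hqB (r / g) ?_ ?_
    · refine mem_image.2 ⟨(r, g), ?_, rfl⟩
      rw [hP, mem_filter, mem_product, mem_Icc, hRb, mem_filter, mem_Icc]
      exact ⟨⟨⟨⟨hr1, hrR2⟩, χ, hχ, hbad⟩, hg1, hgG⟩, hrR, hgr⟩
    · have hcop : Nat.Coprime (r / g) (s / g) := Nat.coprime_div_gcd_div_gcd hg1
      have h2 : r / g ∣ q * (s / g) := by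
        rw [← Nat.mul_div_assoc q hgs]
        exact Nat.div_dvd_div hgr hr
      exact hcop.dvd_of_dvd_mul_right h2


end Pool.Agent.PW
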