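import Mathlib
import Pool.Agent.Work.BV.Additive

/-!
# Character sums to moduli with small radical: definitions (MP_92f640_nt, PW, part C1)
-/

namespace Pool.Agent.PW

open Finset Pool.Agent.BV

noncomputable section

/-- the difference of the progressions: `v_p(D) = ⌈v_p(r)/(5Q)⌉ + 1` for all primes `p ∣ r` -/
def DD (Q r : ℕ) : ℕ := ∏ p ∈ r.primeFactors, p ^ ((r.factorization p + 5 * Q - 1) / (5 * Q) + 1)

/-- the radical -/
def rd (r : ℕ) : ℕ := ∏ p ∈ r.primeFactors, p

end

end Pool.Agent.PW
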