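import Pool.Agent.Work.MP_92f640_nt.PW.Shift

/-!
# Character sums to moduli with small radical (MP_92f640_nt, PW, part C1), owner helper59
-/

namespace Pool.Agent.PW

open Finset Pool.Agent.BV

/-- the sum of a nontrivial character over an initial segment is at most the modulus -/
lemma norm_sum_le_modulus {r : ℕ} [NeZero r] {χ : DirichletCharacter ℂ r} (hχ : χ ≠ 1) (N : ℕ) :
    ‖∑ n ∈ Icc 1 N, χ (n : ZMod r)‖ ≤ r := by
  have hr0 : 0 < r := Nat.pos_of_ne_zero (NeZero.ne r)
  have hone : ∀ n : ℕ, ‖χ (n : ZMod r)‖ ≤ 1 := fun n => DirichletCharacter.norm_le_one χ _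
  -- a complete sum vanishes
  have hfull : ∑ n ∈ range r, χ (n : ZMod r) = 0 := by
    have h1 : ∑ a : ZMod r, χ a = 0 := MulChar.sum_eq_zero_of_ne_one hχ
    have h2 : ∑ a : ZMod r, χ a = ∑ n ∈ range r, χ (n : ZMod r) := by
      refine (Finset.sum_nbij' (fun n : ℕ => (n : ZMod r)) (fun a : ZMod r => a.val)
        ?_ ?_ ?_ ?_ ?_).symm
      · intro _ _; exact mem_univ _
      · intro a _; exact mem_range.2 (ZMod.val_lt a)
      · intro n hn; exact ZMod.val_cast_of_lt (mem_range.1 hn)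
      · intro a _; exact ZMod.natCast_zmod_val a
      · intro n _; rfl
    rw [← h2, h1]
  have hblock : ∀ k : ℕ, ∑ n ∈ range (r * k), χ (n : ZMod r) = 0 := by
    intro k
    induction k with
    | zero => simp
    | succ k ih =>
      rw [Nat.mul_succ, sum_range_add, ih, zero_add, ← hfull]
      refine sum_congr rfl fun n _ => ?_
      congr 1
      push_cast
      simp
  have h1 : ∑ n ∈ Icc 1 N, χ (n : ZMod r) = ∑ n ∈ range (N + 1), χ (n : ZMod r) - χ 0 := by
    rw [sum_range_succ' (fun n => χ (n : ZMod r))]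
    simp only [Nat.cast_zero, add_sub_cancel_right]
    refine (Finset.sum_nbij' (fun n : ℕ => n - 1) (fun n : ℕ => n + 1) ?_ ?_ ?_ ?_ ?_)
    · intro n hn; rw [Finset.mem_Icc] at hn; rw [Finset.mem_range]; omega
    · intro n hn; rw [Finset.mem_range] at hn; rw [Finset.mem_Icc]; omega
    · intro n hn; rw [Finset.mem_Icc] at hn; show n - 1 + 1 = n; omega
    · intro n _; rfl
    · intro n hn
      rw [Finset.mem_Icc] at hn
      congr 2
      omega
  by_cases hr1 : r = 1
  · subst hr1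
    exact absurd (Subsingleton.elim χ 1) hχ
  have hχ0 : χ 0 = 0 := by
    refine MulChar.map_nonunit _ ?_
    have : Nontrivial (ZMod r) := by
      have : Fact (1 < r) := ⟨by omega⟩
      infer_instance
    exact not_isUnit_zero
  rw [h1, hχ0, sub_zero]
  have h2 : N + 1 = r * ((N + 1) / r) + (N + 1) % r := (Nat.div_add_mod _ _).symm
  rw [h2, sum_range_add, hblock, zero_add]
  refine (norm_sum_le _ _).trans ?_
  calc ∑ n ∈ range ((N + 1) % r), ‖χ ((r * ((N + 1) / r) + n : ℕ) : ZMod r)‖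
      ≤ ∑ n ∈ range ((N + 1) % r), (1 : ℝ) := sum_le_sum fun n _ => hone _
    _ = ((N + 1) % r : ℕ) := by simp
    _ ≤ r := by exact_mod_cast (Nat.mod_lt _ hr0).le

/-- the numerical step: with `B = L^(η/4)`, `P = L^(1-η)` both large, `λ = log N ≥ P B³`,
`R = log r ≤ P B⁴`, `λ < 2R`, and `m = 12 + ⌈R/λ⌉` -/
lemma core {r : ℕ} (hr : 1 < r) {χ : DirichletCharacter ℂ r} (hχ : χ.IsPrimitive) {N : ℕ}
    {B P : ℝ} (hB : 10 ^ 12 ≤ B) (hP : 10 ^ 12 ≤ P) (hN : P * B ^ 3 ≤ Real.log N)
    (hR : Real.log r ≤ P * B ^ 4) (hrad : Real.log (rd r) ≤ P) (h2 : Real.log N ≤ 2 * Real.log r) :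
    ‖∑ n ∈ Icc 1 N, χ (n : ZMod r)‖ ≤ N * Real.exp (-P) := by
  have hB0 : 0 < B := by linarith
  have hP0 : 0 < P := by linarith
  set l := Real.log N with hl
  set R := Real.log r with hRdef
  have hl0 : 0 < l := lt_of_lt_of_le (by positivity) hN
  have hR0 : 0 < R := by linarith
  have hN0 : 0 < N := by
    rcases Nat.eq_zero_or_pos N with h | h
    · rw [h] at hl; simp at hl; linarith
    · exact h
  have hNr : (0 : ℝ) < N := by exact_mod_cast hN0
  have hrr : (0 : ℝ) < r := by exact_mod_cast (by omega : 0 < r)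
  obtain ⟨m, hm⟩ : ∃ m : ℕ, m = 12 + ⌈R / l⌉₊ := ⟨_, rfl⟩
  have hm12 : 12 ≤ m := by omega
  have hRl : 1 / 2 ≤ R / l := by
    rw [div_le_div_iff₀ (by norm_num) hl0]; linarith
  have hm1 : R / l ≤ m := by
    have h1 := Nat.le_ceil (R / l)
    rw [hm]; push_cast; linarith
  have hm2 : (m : ℝ) ≤ 27 * (R / l) := by
    have h1 := (Nat.ceil_lt_add_one (by positivity : 0 ≤ R / l)).le
    rw [hm]; push_cast; linarith
  have hm0 : (0 : ℝ) < m := by
    have : (12 : ℝ) ≤ m := by exact_mod_cast hm12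
    linarith
  have hRlB : R / l ≤ B := by
    rw [div_le_iff₀ hl0]
    calc R ≤ P * B ^ 4 := hR
      _ = B * (P * B ^ 3) := by ring
      _ ≤ B * l := mul_le_mul_of_nonneg_left hN hB0.le
  have hmB : (m : ℝ) ≤ 27 * B := by linarith
  -- the parameter
  set τ := R / (22 * m) with hτ
  have hτ0 : 0 < τ := by positivity
  have hτ1 : l / 594 ≤ τ := by
    rw [hτ, div_le_div_iff₀ (by norm_num) (by positivity)]
    have h1 : (m : ℝ) * l ≤ 27 * R := by
      have h3 := mul_le_mul_of_nonneg_right hm2 hl0.le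
      have h4 : 27 * (R / l) * l = 27 * R := by field_simp
      linarith
    linarith
  have hτ2 : P * B ^ 3 / 594 ≤ τ := by
    refine le_trans ?_ hτ1
    exact div_le_div_of_nonneg_right hN (by norm_num)
  set t := Real.exp τ with ht
  have ht0 : 0 < t := Real.exp_pos _
  have htr : t ^ (22 * m) = r := by
    rw [ht, ← Real.exp_nat_mul]
    have h1 : ((22 * m : ℕ) : ℝ) * τ = R := by
      rw [hτ]; push_cast; field_simp
    rw [h1, hRdef, Real.exp_log hrr]
  have htN : t ^ 6 ≤ N := by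
    rw [ht, ← Real.exp_nat_mul]
    have h1 : ((6 : ℕ) : ℝ) * τ ≤ l := by
      rw [hτ]
      push_cast
      rw [mul_div_assoc', div_le_iff₀ (by positivity)]
      have h3 : R ≤ m * l := by
        have h4 := mul_le_mul_of_nonneg_right hm1 hl0.le
        have h5 : R / l * l = R := by field_simp
        linarith
      nlinarith
    calc Real.exp (((6 : ℕ) : ℝ) * τ) ≤ Real.exp l := Real.exp_le_exp.2 h1
      _ = N := by rw [hl, Real.exp_log hNr]
  -- largeness
  have hB3 : (10 : ℝ) ^ 36 ≤ B ^ 3 := by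
    calc (10 : ℝ) ^ 36 = (10 ^ 12) ^ 3 := by norm_num
      _ ≤ B ^ 3 := pow_le_pow_left₀ (by positivity) hB 3
  have hτbig : 10 ^ 30 * P ≤ τ := by
    refine le_trans ?_ hτ2
    rw [le_div_iff₀ (by norm_num)]
    nlinarith
  have ht200 : (2 : ℝ) ^ 200 ≤ t := by
    have h1 : (2 : ℝ) ^ 200 ≤ Real.exp 1 ^ 200 := by
      refine pow_le_pow_left₀ (by norm_num) ?_ _
      have := Real.exp_one_gt_d9
      linarith
    refine h1.trans ?_
    rw [← Real.exp_nat_mul, ht]
    refine Real.exp_le_exp.2 ?_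
    push_cast
    nlinarith
  have htm : 9 * (m : ℝ) ≤ t := by
    have h1 : τ + 1 ≤ t := Real.add_one_le_exp τ
    have h3 : 9 * (27 * B) ≤ P * B ^ 3 / 594 := by
      rw [le_div_iff₀ (by norm_num)]
      have h4 : (10 : ℝ) ^ 24 ≤ B ^ 2 := by
        calc (10 : ℝ) ^ 24 = (10 ^ 12) ^ 2 := by norm_num
          _ ≤ B ^ 2 := pow_le_pow_left₀ (by positivity) hB 2
      have h5 : (10 : ℝ) ^ 24 ≤ P * B ^ 2 := by nlinarith
      calc 9 * (27 * B) * 594 ≤ 10 ^ 24 * B := by nlinarith
        _ ≤ P * B ^ 2 * B := mul_le_mul_of_nonneg_right h5 hB0.le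
        _ = P * B ^ 3 := by ring
    linarith
  have hrad2 : (4 * (rd r : ℝ)) ^ 18 ≤ t := by
    have hrd0 : (0 : ℝ) < rd r := by exact_mod_cast rd_pos r
    have h1 : (4 : ℝ) * rd r ≤ Real.exp (2 + P) := by
      rw [Real.exp_add]
      refine mul_le_mul ?_ ?_ hrd0.le (Real.exp_pos _).le
      · have h3 := Real.exp_one_gt_d9
        have h4 : Real.exp 2 = Real.exp 1 ^ 2 := by rw [← Real.exp_nat_mul]; norm_num
        rw [h4]
        nlinarith
      · rw [← Real.exp_log hrd0]
        exact Real.exp_le_exp.2 hrad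
    calc (4 * (rd r : ℝ)) ^ 18 ≤ Real.exp (2 + P) ^ 18 := pow_le_pow_left₀ (by positivity) h1 _
      _ = Real.exp (((18 : ℕ) : ℝ) * (2 + P)) := by rw [Real.exp_nat_mul]
      _ ≤ t := by
          rw [ht]
          refine Real.exp_le_exp.2 ?_
          push_cast
          nlinarith
  have hmain := shift_main hr hχ hm12 ht200 htr htm hrad2 htN
  refine hmain.trans ?_
  rw [show 4 * (N : ℝ) * t ^ (-(1 / (800000 * (m : ℝ) ^ 2))) =
    N * (4 * t ^ (-(1 / (800000 * (m : ℝ) ^ 2)))) by ring]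
  refine mul_le_mul_of_nonneg_left ?_ hNr.le
  have h4e : (4 : ℝ) ≤ Real.exp 2 := by
    have h3 := Real.exp_one_gt_d9
    have h4 : Real.exp 2 = Real.exp 1 ^ 2 := by rw [← Real.exp_nat_mul]; norm_num
    rw [h4]
    nlinarith
  have hte : t ^ (-(1 / (800000 * (m : ℝ) ^ 2))) = Real.exp (-(τ / (800000 * (m : ℝ) ^ 2))) := by
    rw [ht, ← Real.exp_mul]
    congr 1
    ring
  rw [hte]
  calc 4 * Real.exp (-(τ / (800000 * (m : ℝ) ^ 2)))
      ≤ Real.exp 2 * Real.exp (-(τ / (800000 * (m : ℝ) ^ 2))) :=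
        mul_le_mul_of_nonneg_right h4e (Real.exp_pos _).le
    _ = Real.exp (2 + -(τ / (800000 * (m : ℝ) ^ 2))) := by rw [Real.exp_add]
    _ ≤ Real.exp (-P) := by
        refine Real.exp_le_exp.2 ?_
        have h5 : P + 2 ≤ τ / (800000 * (m : ℝ) ^ 2) := by
          rw [le_div_iff₀ (by positivity)]
          have h6 : (m : ℝ) ^ 2 ≤ (27 * B) ^ 2 := pow_le_pow_left₀ hm0.le hmB 2
          calc (P + 2) * (800000 * (m : ℝ) ^ 2) ≤ (2 * P) * (800000 * (27 * B) ^ 2) := by
                gcongr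
                linarith
            _ ≤ P * B ^ 3 / 594 := by
                rw [le_div_iff₀ (by norm_num)]
                have h7 : 0 ≤ P * B ^ 2 := by positivity
                have h8 : 2 * 800000 * 27 ^ 2 * 594 * (P * B ^ 2) ≤ B * (P * B ^ 2) := by
                  refine mul_le_mul_of_nonneg_right ?_ h7
                  linarith
                calc 2 * P * (800000 * (27 * B) ^ 2) * 594 =
                      2 * 800000 * 27 ^ 2 * 594 * (P * B ^ 2) := by ring
                  _ ≤ B * (P * B ^ 2) := h8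
                  _ = P * B ^ 3 := by ring
            _ ≤ τ := hτ2
        linarith

/-- **The sum of a primitive character whose conductor has a small radical.** -/
theorem char_sum (η : ℝ) (h0 : 0 < η) (h1 : η ≤ 1 / 2) : ∃ x₀ : ℕ, ∀ x : ℕ, x₀ ≤ x → ∀ r : ℕ,
    1 < r → r ≤ x → (rd r : ℝ) ≤ Real.exp ((Real.log x) ^ (1 - η)) →
    ∀ χ : DirichletCharacter ℂ r, χ.IsPrimitive → ∀ N : ℕ,
    Real.exp ((Real.log x) ^ (1 - η / 4)) ≤ N →
    ‖∑ n ∈ Icc 1 N, χ (n : ZMod r)‖ ≤ N * Real.exp (-(Real.log x) ^ (1 - η)) := by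
  have hlim : Filter.Tendsto (fun x : ℕ => (Real.log x) ^ (η / 4)) Filter.atTop Filter.atTop :=
    (tendsto_rpow_atTop (by positivity)).comp
      (Real.tendsto_log_atTop.comp tendsto_natCast_atTop_atTop)
  have hlim2 : Filter.Tendsto (fun x : ℕ => Real.log x) Filter.atTop Filter.atTop :=
    Real.tendsto_log_atTop.comp tendsto_natCast_atTop_atTop
  obtain ⟨x₀, hx₀⟩ := Filter.eventually_atTop.1
    ((hlim.eventually_ge_atTop (10 ^ 12)).and (hlim2.eventually_ge_atTop 1))
  refine ⟨x₀, fun x hx r hr hrx hrad χ hχ N hN => ?_⟩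
  obtain ⟨hB, hL⟩ := hx₀ x hx
  set L := Real.log x with hLdef
  have hL0 : 0 < L := by linarith
  set B := L ^ (η / 4) with hBdef
  set P := L ^ (1 - η) with hPdef
  have hB0 : 0 < B := by linarith
  have hP : 10 ^ 12 ≤ P := by
    refine hB.trans ?_
    exact Real.rpow_le_rpow_of_exponent_le hL (by linarith)
  have hP0 : 0 < P := by linarith
  have hPB3 : P * B ^ 3 = L ^ (1 - η / 4) := by
    rw [hPdef, hBdef, ← Real.rpow_natCast, ← Real.rpow_mul hL0.le, ← Real.rpow_add hL0]
    congr 1; push_cast; ring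
  have hPB4 : P * B ^ 4 = L := by
    rw [hPdef, hBdef, ← Real.rpow_natCast, ← Real.rpow_mul hL0.le, ← Real.rpow_add hL0]
    have : 1 - η + η / 4 * ((4 : ℕ) : ℝ) = 1 := by push_cast; ring
    rw [this, Real.rpow_one]
  have hNr : (0 : ℝ) < N := lt_of_lt_of_le (Real.exp_pos _) hN
  have hrr : (0 : ℝ) < r := by exact_mod_cast (by omega : 0 < r)
  have hNl : P * B ^ 3 ≤ Real.log N := by
    rw [hPB3, Real.le_log_iff_exp_le hNr]
    exact hN
  have hRl : Real.log r ≤ P * B ^ 4 := by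
    rw [hPB4, hLdef]
    exact Real.log_le_log hrr (by exact_mod_cast hrx)
  have hrdl : Real.log (rd r) ≤ P := by
    rw [Real.log_le_iff_le_exp (by exact_mod_cast rd_pos r)]
    exact hrad
  rcases le_or_gt (Real.log N) (2 * Real.log r) with h | h
  · exact core hr hχ hB hP hNl hRl hrdl h
  · -- `N > r²`: the sum is at most `r`
    haveI : NeZero r := ⟨by omega⟩
    have hχ1 : χ ≠ 1 := by
      rintro rfl
      have h2 : (1 : DirichletCharacter ℂ r).conductor = 1 := DirichletCharacter.conductor_one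
      rw [DirichletCharacter.IsPrimitive, h2] at hχ
      omega
    refine (norm_sum_le_modulus hχ1 N).trans ?_
    have h3 : (r : ℝ) = Real.exp (Real.log r) := (Real.exp_log hrr).symm
    have h4 : (N : ℝ) = Real.exp (Real.log N) := (Real.exp_log hNr).symm
    rw [h3, h4, ← Real.exp_add]
    refine Real.exp_le_exp.2 ?_
    have hB3 : (2 : ℝ) ≤ B ^ 3 := by
      calc (2 : ℝ) ≤ (10 ^ 12) ^ 3 := by norm_num
        _ ≤ B ^ 3 := pow_le_pow_left₀ (by positivity) hB 3
    nlinarith

end Pool.Agent.PW
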