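import Pool.Agent.Work.MP_92f640_nt.PW.LserB
import Pool.Agent.Work.BV.LogDer

/-! # Module M5: bounds for the derivatives of the logarithmic derivative

As `BV.Dser_bound`, with `Lser_rough` in place of `Lser_bound` (`logDer_solve`, strong induction on `k`). -/

namespace Pool.Agent.PW

open Finset Pool.Agent.BV

/-- Bounds for the solution of the recursion `a 0 * b k = a (k+1) - ∑ ...`. -/
theorem rec_abs (C : ℕ → ℝ) (hC : ∀ j, 0 < C j) (k : ℕ) :
    ∃ K : ℝ, 0 < K ∧ ∀ (a b : ℕ → ℂ) (W Y m : ℝ), 1 ≤ W → 0 ≤ Y → 0 < m → m ≤ 1 →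
      (∀ j ≤ k + 1, ‖a j‖ ≤ C j * W ^ (j + 1) * Y ^ j) → m ≤ ‖a 0‖ →
      (∀ i ≤ k, a 0 * b i = a (i + 1) -
        ∑ j ∈ range i, (i.choose (j + 1) : ℂ) * a (j + 1) * b (i - (j + 1))) →
      ‖b k‖ ≤ K * W ^ (2 * k + 2) * Y ^ (k + 1) / m ^ (k + 1) := by
  induction k using Nat.strong_induction_on with
  | _ k ih =>
    have ih' : ∀ i : ℕ, ∃ D : ℝ, 0 < D ∧ (i < k → ∀ (a b : ℕ → ℂ) (W Y m : ℝ),
      1 ≤ W → 0 ≤ Y → 0 < m → m ≤ 1 →
      (∀ j ≤ i + 1, ‖a j‖ ≤ C j * W ^ (j + 1) * Y ^ j) → m ≤ ‖a 0‖ →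
      (∀ l ≤ i, a 0 * b l = a (l + 1) -
        ∑ j ∈ range l, (l.choose (j + 1) : ℂ) * a (j + 1) * b (l - (j + 1))) →
      ‖b i‖ ≤ D * W ^ (2 * i + 2) * Y ^ (i + 1) / m ^ (i + 1)) := by
      intro i
      by_cases hi : i < k
      · obtain ⟨D, hD0, hD⟩ := ih i hi
        exact ⟨D, hD0, fun _ => hD⟩
      · exact ⟨1, one_pos, fun h => absurd h hi⟩
    choose D hD0 hD using ih'
    set K : ℝ := C (k + 1) + ∑ j ∈ range k, (k.choose (j + 1) : ℝ) * C (j + 1) * D (k - (j + 1))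
      with hK
    have hK0 : 0 < K := by
      have : 0 ≤ ∑ j ∈ range k, (k.choose (j + 1) : ℝ) * C (j + 1) * D (k - (j + 1)) :=
        Finset.sum_nonneg fun j _ => by
          have h1 := (hC (j + 1)).le
          have h2 := (hD0 (k - (j + 1))).le
          positivity
      linarith [hC (k + 1)]
    refine ⟨K, hK0, fun a b W Y m hW hY hm0 hm1 ha h0 hrec => ?_⟩
    have hW0 : 0 < W := by linarith
    have hmk : 0 < m ^ k := pow_pos hm0 k
    have hmk1 : m ^ k ≤ 1 := pow_le_one₀ hm0.le hm1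
    have h1 : ‖a (k + 1)‖ ≤ C (k + 1) * (W ^ (2 * k + 2) * Y ^ (k + 1) / m ^ k) := by
      refine (ha (k + 1) le_rfl).trans ?_
      rw [mul_assoc]
      have h3 : W ^ (k + 1 + 1) ≤ W ^ (2 * k + 2) := pow_le_pow_right₀ hW (by omega)
      have h5 := (hC (k + 1)).le
      have h4 : W ^ (2 * k + 2) * Y ^ (k + 1) ≤ W ^ (2 * k + 2) * Y ^ (k + 1) / m ^ k := by
        rw [le_div_iff₀ hmk]
        have : 0 ≤ W ^ (2 * k + 2) * Y ^ (k + 1) := by positivity
        nlinarith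
      have h6 : W ^ (k + 1 + 1) * Y ^ (k + 1) ≤ W ^ (2 * k + 2) * Y ^ (k + 1) := by gcongr
      exact mul_le_mul_of_nonneg_left (h6.trans h4) h5
    have h2 : ∀ j ∈ range k, ‖(k.choose (j + 1) : ℂ) * a (j + 1) * b (k - (j + 1))‖ ≤
        (k.choose (j + 1) : ℝ) * C (j + 1) * D (k - (j + 1)) *
          (W ^ (2 * k + 2) * Y ^ (k + 1) / m ^ k) := by
      intro j hj
      have hjk : j < k := Finset.mem_range.mp hj
      have hb := hD (k - (j + 1)) (by omega) a b W Y m hW hY hm0 hm1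
        (fun i hi => ha i (by omega)) h0 (fun i hi => hrec i (by omega))
      have haj := ha (j + 1) (by omega)
      rw [norm_mul, norm_mul, Complex.norm_natCast]
      have hC1 := (hC (j + 1)).le
      have hD1 := (hD0 (k - (j + 1))).le
      have h6 : W ^ (j + 1 + 1) * W ^ (2 * (k - (j + 1)) + 2) ≤ W ^ (2 * k + 2) := by
        rw [← pow_add]
        exact pow_le_pow_right₀ hW (by omega)
      have h8 : Y ^ (j + 1) * Y ^ (k - (j + 1) + 1) = Y ^ (k + 1) := by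
        rw [← pow_add]
        congr 1
        omega
      have h9 : m ^ k ≤ m ^ (k - (j + 1) + 1) := pow_le_pow_of_le_one hm0.le hm1 (by omega)
      calc (k.choose (j + 1) : ℝ) * ‖a (j + 1)‖ * ‖b (k - (j + 1))‖
          ≤ (k.choose (j + 1) : ℝ) * (C (j + 1) * W ^ (j + 1 + 1) * Y ^ (j + 1)) *
            (D (k - (j + 1)) * W ^ (2 * (k - (j + 1)) + 2) * Y ^ (k - (j + 1) + 1) /
              m ^ (k - (j + 1) + 1)) := by
            gcongr
        _ = (k.choose (j + 1) : ℝ) * C (j + 1) * D (k - (j + 1)) *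
            ((W ^ (j + 1 + 1) * W ^ (2 * (k - (j + 1)) + 2)) *
              (Y ^ (j + 1) * Y ^ (k - (j + 1) + 1)) / m ^ (k - (j + 1) + 1)) := by ring
        _ ≤ _ := by
            rw [h8]
            gcongr
    have h3 : ‖a 0‖ * ‖b k‖ ≤ K * (W ^ (2 * k + 2) * Y ^ (k + 1) / m ^ k) := by
      rw [← norm_mul, hrec k le_rfl]
      refine (norm_sub_le _ _).trans ?_
      rw [hK, add_mul, Finset.sum_mul]
      exact add_le_add h1 ((norm_sum_le _ _).trans (Finset.sum_le_sum h2))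
    have h4 : m * ‖b k‖ ≤ K * (W ^ (2 * k + 2) * Y ^ (k + 1) / m ^ k) :=
      (mul_le_mul_of_nonneg_right h0 (norm_nonneg _)).trans h3
    rw [le_div_iff₀ (pow_pos hm0 _)]
    calc ‖b k‖ * m ^ (k + 1) = (m * ‖b k‖) * m ^ k := by ring
      _ ≤ (K * (W ^ (2 * k + 2) * Y ^ (k + 1) / m ^ k)) * m ^ k := by gcongr
      _ = K * W ^ (2 * k + 2) * Y ^ (k + 1) := by field_simp

theorem one_le_WW {y : ℕ} (hy : 3 ≤ y) (t : ℝ) : 1 ≤ WW y t := by
  have hy3' : (3 : ℝ) ≤ y := by exact_mod_cast hy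
  have him := abs_nonneg t
  have hℓ : 1 ≤ Real.log y := by
    rw [Real.le_log_iff_exp_le (by linarith)]
    have := Real.exp_one_lt_d9
    linarith
  have hlt : 1 ≤ Real.log (|t| + 3) := by
    rw [Real.le_log_iff_exp_le (by positivity)]
    have := Real.exp_one_lt_d9
    linarith
  have hlℓ : 0 ≤ Real.log (Real.log y) := Real.log_nonneg hℓ
  unfold WW
  linarith

theorem Dser_rough (k : ℕ) : ∃ C : ℝ, 0 < C ∧ ∃ y₁ : ℕ, ∀ y R : ℕ, y₁ ≤ y → RM y R → ∀ [NeZero R],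
    ∀ χ : DirichletCharacter ℂ R, SB y χ → ∀ s : ℂ, 1 < s.re → s.re ≤ 2 →
    ∀ m : ℝ, 0 < m → m ≤ 1 → m ≤ ‖χ.LFunction s‖ →
    ‖Dser χ k s‖ ≤ C * WW y s.im ^ (2 * k + 2) * Real.log y ^ (k + 1) / m ^ (k + 1) := by
  choose C hC0 y₁ hC using Lser_rough
  obtain ⟨K, hK0, hK⟩ := rec_abs C hC0 k
  refine ⟨K, hK0, max 3 ((range (k + 2)).sup y₁), ?_⟩
  intro y R hy hR _ χ hSB s hs hs2 m hm0 hm1 hmL
  have hy3 : 3 ≤ y := (le_max_left _ _).trans hy
  have hysup : (range (k + 2)).sup y₁ ≤ y := (le_max_right _ _).trans hy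
  refine hK (fun j => Lser χ j s) (fun i => Dser χ i s) (WW y s.im) (Real.log y) m
    (one_le_WW hy3 _) (Real.log_natCast_nonneg y) hm0 hm1 ?_ ?_ ?_
  · intro j hj
    have h1 : y₁ j ≤ y := (Finset.le_sup (f := y₁) (Finset.mem_range.mpr (by omega))).trans hysup
    exact hC j y R h1 hR χ hSB s hs hs2
  · rw [Lser_zero_eq χ hs]
    exact hmL
  · intro i _
    exact logDer_solve χ i hs

end Pool.Agent.PW
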