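import Mathlib
import Pool.Agent.Work.MP_e4117e_nt.Mertens2

/-! # Cell PW: Rankin's trick and the sieve identity for sums of a character over rough integers -/

namespace Pool.Agent.PW

open Finset

/-- the primes `≤ y` -/
def prs (y : ℕ) : Finset ℕ := (Icc 0 y).filter Nat.Prime

lemma mem_prs {y p : ℕ} : p ∈ prs y ↔ p ≤ y ∧ p.Prime := by
  simp [prs]

lemma rk_trick (S : Finset ℕ) (hS : ∀ p ∈ S, 0 < p) (R δ : ℝ) (hR : 0 < R) (hδ : 0 ≤ δ) :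
    ∑ T ∈ S.powerset.filter (fun T => R ≤ ((∏ p ∈ T, p : ℕ) : ℝ)),
      (1 : ℝ) / ((∏ p ∈ T, p : ℕ) : ℝ) ≤ R ^ (-δ) * ∏ p ∈ S, (1 + (p : ℝ) ^ (δ - 1)) := by
  rw [prod_one_add, mul_sum]
  have h1 : ∑ T ∈ S.powerset.filter (fun T => R ≤ ((∏ p ∈ T, p : ℕ) : ℝ)),
      R ^ (-δ) * ∏ i ∈ T, (i : ℝ) ^ (δ - 1) ≤
      ∑ T ∈ S.powerset, R ^ (-δ) * ∏ i ∈ T, (i : ℝ) ^ (δ - 1) := by
    refine sum_le_sum_of_subset_of_nonneg (filter_subset _ _) ?_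
    intro T _ _
    have : 0 ≤ ∏ i ∈ T, (i : ℝ) ^ (δ - 1) := prod_nonneg fun i _ => by positivity
    positivity
  refine le_trans ?_ h1
  · refine sum_le_sum fun T hT => ?_
    obtain ⟨hT1, hT2⟩ := mem_filter.1 hT
    have hpos : ∀ p ∈ T, (0 : ℝ) < p := fun p hp => by exact_mod_cast hS p (mem_powerset.1 hT1 hp)
    have hd : (0 : ℝ) < ((∏ p ∈ T, p : ℕ) : ℝ) := hR.trans_le hT2
    have e1 : ∏ i ∈ T, (i : ℝ) ^ (δ - 1) = ((∏ p ∈ T, p : ℕ) : ℝ) ^ (δ - 1) := by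
      rw [Real.finsetProd_rpow _ _ (fun i hi => (hpos i hi).le)]
      push_cast
      rfl
    rw [e1]
    set D : ℝ := ((∏ p ∈ T, p : ℕ) : ℝ) with hD
    have e2 : D ^ (δ - 1) = D ^ δ / D := by
      rw [Real.rpow_sub hd, Real.rpow_one]
    have e3 : R ^ δ ≤ D ^ δ := Real.rpow_le_rpow hR.le hT2 hδ
    have e4 : 1 ≤ R ^ (-δ) * D ^ δ := by
      rw [Real.rpow_neg hR.le]
      have : 0 < R ^ δ := Real.rpow_pos_of_pos hR δ
      rw [inv_mul_eq_div, le_div_iff₀ this, one_mul]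
      exact e3
    rw [e2]
    calc (1 : ℝ) / D ≤ (R ^ (-δ) * D ^ δ) / D := by gcongr
      _ = R ^ (-δ) * (D ^ δ / D) := by ring

/-- Rankin: the sum of `1/d` over the squarefree `y`-smooth `d ≥ D` -/
theorem rankin_sum : ∃ C : ℝ, 0 < C ∧ ∀ y : ℕ, 3 ≤ y → ∀ D : ℝ, 0 < D →
    ∑ T ∈ (prs y).powerset.filter (fun T => D ≤ ((∏ p ∈ T, p : ℕ) : ℝ)),
      (1 : ℝ) / ((∏ p ∈ T, p : ℕ) : ℝ) ≤
        C * (Real.log y) ^ 2 * D ^ (-(1 / (2 * Real.log y))) := by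
  obtain ⟨C, hC0, hC⟩ := Work.MP_e4117e_nt.mertens2
  refine ⟨Real.exp (2 * C), Real.exp_pos _, fun y hy D hD => ?_⟩
  have hy1 : (1 : ℝ) < y := by exact_mod_cast (by omega : 1 < y)
  have hl : 0 < Real.log y := Real.log_pos hy1
  set δ : ℝ := 1 / (2 * Real.log y) with hδ
  have hδ0 : 0 ≤ δ := by positivity
  have h1 := rk_trick (prs y) (fun p hp => (mem_prs.1 hp).2.pos) D δ hD hδ0
  have h2 : ∏ p ∈ prs y, (1 + (p : ℝ) ^ (δ - 1)) ≤ Real.exp (2 * C) * (Real.log y) ^ 2 := by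
    have h3 : ∏ p ∈ prs y, (1 + (p : ℝ) ^ (δ - 1)) ≤
        Real.exp (∑ p ∈ prs y, (p : ℝ) ^ (δ - 1)) := by
      rw [Real.exp_sum]
      refine prod_le_prod (fun p _ => by positivity) fun p _ => ?_
      rw [add_comm]
      exact Real.add_one_le_exp _
    refine h3.trans ?_
    have h4 : ∑ p ∈ prs y, (p : ℝ) ^ (δ - 1) ≤ 2 * ∑ p ∈ prs y, (1 : ℝ) / p := by
      rw [mul_sum]
      refine sum_le_sum fun p hp => ?_
      obtain ⟨hpy, hpp⟩ := mem_prs.1 hp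
      have hp0 : (0 : ℝ) < p := by exact_mod_cast hpp.pos
      have hpd : (p : ℝ) ^ δ ≤ 2 := by
        have h5 : (p : ℝ) ^ δ ≤ (y : ℝ) ^ δ :=
          Real.rpow_le_rpow hp0.le (by exact_mod_cast hpy) hδ0
        have h6 : (y : ℝ) ^ δ = Real.exp (1 / 2) := by
          rw [Real.rpow_def_of_pos (by linarith), hδ]
          congr 1
          field_simp
        have h7 : Real.exp (1 / 2) ≤ 2 := by
          have h8 := Real.exp_one_lt_d9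
          have h9 : Real.exp (1 / 2) * Real.exp (1 / 2) = Real.exp 1 := by
            rw [← Real.exp_add]; norm_num
          nlinarith [Real.exp_pos (1 / 2)]
        linarith
      rw [Real.rpow_sub hp0, Real.rpow_one]
      rw [mul_one_div]
      gcongr
    have h5 := (abs_le.1 (hC y (by omega))).2
    have h6 : ∑ p ∈ prs y, (1 : ℝ) / p ≤ Real.log (Real.log y) + C := by
      unfold prs; linarith
    calc Real.exp (∑ p ∈ prs y, (p : ℝ) ^ (δ - 1)) ≤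
        Real.exp (2 * C + 2 * Real.log (Real.log y)) := Real.exp_le_exp.2 (by linarith)
      _ = Real.exp (2 * C) * (Real.log y) ^ 2 := by
        rw [Real.exp_add, two_mul (Real.log (Real.log y)), Real.exp_add, Real.exp_log hl, sq]
  refine h1.trans ?_
  have h7 : 0 ≤ D ^ (-δ) := Real.rpow_nonneg hD.le _
  calc D ^ (-δ) * ∏ p ∈ prs y, (1 + (p : ℝ) ^ (δ - 1)) ≤
      D ^ (-δ) * (Real.exp (2 * C) * (Real.log y) ^ 2) := by gcongr
    _ = Real.exp (2 * C) * (Real.log y) ^ 2 * D ^ (-δ) := by ring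

/-- the product of a set of primes divides `n` iff all do -/
lemma prod_primes_dvd_iff {T : Finset ℕ} (hT : ∀ p ∈ T, p.Prime) (n : ℕ) :
    (∏ p ∈ T, p) ∣ n ↔ ∀ p ∈ T, p ∣ n := by
  constructor
  · intro h p hp
    exact (dvd_prod_of_mem _ hp).trans h
  · intro h
    exact Finset.prod_primes_dvd n (fun p hp => (hT p hp).prime) h

lemma prod_primes_inj {S T : Finset ℕ} (hS : ∀ p ∈ S, p.Prime) (hT : ∀ p ∈ T, p.Prime)
    (h : ∏ p ∈ S, p = ∏ p ∈ T, p) : S = T := by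
  rw [← Nat.primeFactors_prod hS, ← Nat.primeFactors_prod hT, h]

/-- the indicator of the integers free of primes in `S` -/
lemma sieve_ind (S : Finset ℕ) (hS : ∀ p ∈ S, p.Prime) (n : ℕ) :
    (if ∀ p ∈ S, ¬ p ∣ n then (1 : ℂ) else 0) =
      ∑ T ∈ S.powerset, if (∏ p ∈ T, p) ∣ n then (-1 : ℂ) ^ T.card else 0 := by
  have h1 : (if ∀ p ∈ S, ¬ p ∣ n then (1 : ℂ) else 0) =
      ∏ p ∈ S, (1 + (if p ∣ n then (-1 : ℂ) else 0)) := by
    split_ifs with h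
    · rw [prod_eq_one]
      intro p hp
      rw [if_neg (h p hp), add_zero]
    · push Not at h
      obtain ⟨p, hp, hpn⟩ := h
      refine (prod_eq_zero hp ?_).symm
      rw [if_pos hpn]; norm_num
  rw [h1, prod_one_add]
  refine sum_congr rfl fun T hT => ?_
  have hT' : ∀ p ∈ T, p.Prime := fun p hp => hS p (mem_powerset.1 hT hp)
  split_ifs with h
  · rw [prod_primes_dvd_iff hT'] at h
    rw [prod_congr rfl (fun p hp => if_pos (h p hp)), prod_const]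
  · rw [prod_primes_dvd_iff hT'] at h
    push Not at h
    obtain ⟨p, hp, hpn⟩ := h
    exact prod_eq_zero hp (if_neg hpn)

/-- the sum over the multiples of `d` -/
lemma sum_mult {r : ℕ} (χ : DirichletCharacter ℂ r) (d N : ℕ) (hd : 0 < d) :
    ∑ n ∈ Icc 1 N, (if d ∣ n then χ (n : ZMod r) else 0) =
      χ (d : ZMod r) * ∑ m ∈ Icc 1 (N / d), χ (m : ZMod r) := by
  rw [← sum_filter, mul_sum]
  symm
  refine sum_nbij (fun m => d * m) ?_ ?_ ?_ ?_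
  · intro m hm
    rw [mem_Icc] at hm
    rw [mem_filter, mem_Icc]
    refine ⟨⟨Nat.mul_pos hd hm.1, ?_⟩, dvd_mul_right _ _⟩
    calc d * m ≤ d * (N / d) := Nat.mul_le_mul_left _ hm.2
      _ ≤ N := Nat.mul_div_le _ _
  · intro a _ b _ hab
    exact Nat.eq_of_mul_eq_mul_left hd hab
  · intro n hn
    rw [mem_coe, mem_filter, mem_Icc] at hn
    obtain ⟨⟨h1, h2⟩, m, rfl⟩ := hn
    refine ⟨m, ?_, rfl⟩
    rw [mem_coe, mem_Icc]
    refine ⟨Nat.pos_of_mul_pos_left h1, ?_⟩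
    rw [Nat.le_div_iff_mul_le hd, mul_comm]
    exact h2
  · intro m _
    rw [← map_mul]
    push_cast
    rfl

/-- the sieve identity -/
theorem sieve_sum {r : ℕ} (χ : DirichletCharacter ℂ r) (y N : ℕ) :
    ∑ n ∈ Icc 1 N, (if ∀ p ∈ prs y, ¬ p ∣ n then χ (n : ZMod r) else 0) =
      ∑ T ∈ (prs y).powerset, (-1 : ℂ) ^ T.card * (χ ((∏ p ∈ T, p : ℕ) : ZMod r) *
        ∑ m ∈ Icc 1 (N / ∏ p ∈ T, p), χ (m : ZMod r)) := by
  have hS : ∀ p ∈ prs y, p.Prime := fun p hp => (mem_prs.1 hp).2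
  have h1 : ∀ n ∈ Icc 1 N, (if ∀ p ∈ prs y, ¬ p ∣ n then χ (n : ZMod r) else 0) =
      ∑ T ∈ (prs y).powerset, (-1 : ℂ) ^ T.card *
        (if (∏ p ∈ T, p) ∣ n then χ (n : ZMod r) else 0) := by
    intro n _
    have h2 : (if ∀ p ∈ prs y, ¬ p ∣ n then χ (n : ZMod r) else 0) =
        (if ∀ p ∈ prs y, ¬ p ∣ n then (1 : ℂ) else 0) * χ (n : ZMod r) := by
      split_ifs <;> simp
    rw [h2, sieve_ind _ hS, sum_mul]
    refine sum_congr rfl fun T _ => ?_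
    split_ifs <;> simp
  rw [sum_congr rfl h1, sum_comm]
  refine sum_congr rfl fun T hT => ?_
  rw [← mul_sum, sum_mult]
  exact prod_pos fun p hp => (hS p (mem_powerset.1 hT hp)).pos

/-- the sum of `1/d` over the squarefree `y`-smooth `d < D` -/
lemma small_sum (y : ℕ) (D : ℝ) (hD : 1 ≤ D) :
    ∑ T ∈ (prs y).powerset.filter (fun T => ¬ D ≤ ((∏ p ∈ T, p : ℕ) : ℝ)),
      (1 : ℝ) / ((∏ p ∈ T, p : ℕ) : ℝ) ≤ 1 + Real.log D := by
  have hS : ∀ p ∈ prs y, p.Prime := fun p hp => (mem_prs.1 hp).2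
  have h1 : ∑ T ∈ (prs y).powerset.filter (fun T => ¬ D ≤ ((∏ p ∈ T, p : ℕ) : ℝ)),
      (1 : ℝ) / ((∏ p ∈ T, p : ℕ) : ℝ) ≤ ∑ d ∈ Icc 1 ⌊D⌋₊, (1 : ℝ) / d := by
    rw [← sum_image (s := (prs y).powerset.filter (fun T => ¬ D ≤ ((∏ p ∈ T, p : ℕ) : ℝ)))
      (g := fun T => ∏ p ∈ T, p) (f := fun d : ℕ => (1 : ℝ) / d)]
    · refine sum_le_sum_of_subset_of_nonneg ?_ fun _ _ _ => by positivity
      intro d hd
      rw [mem_image] at hd
      obtain ⟨T, hT, rfl⟩ := hd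
      obtain ⟨hT1, hT2⟩ := mem_filter.1 hT
      push Not at hT2
      rw [mem_Icc]
      exact ⟨Nat.succ_le_of_lt (prod_pos fun p hp => (hS p (mem_powerset.1 hT1 hp)).pos),
        Nat.le_floor hT2.le⟩
    · intro T hT T' hT' h
      rw [mem_coe, mem_filter] at hT hT'
      exact prod_primes_inj (fun p hp => hS p (mem_powerset.1 hT.1 hp))
        (fun p hp => hS p (mem_powerset.1 hT'.1 hp)) h
  refine h1.trans ?_
  have h2 : ∑ d ∈ Icc 1 ⌊D⌋₊, (1 : ℝ) / d = (harmonic ⌊D⌋₊ : ℝ) := by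
    rw [harmonic_eq_sum_Icc]
    push_cast
    simp
  rw [h2]
  refine (harmonic_le_one_add_log _).trans ?_
  have h3 : (⌊D⌋₊ : ℝ) ≤ D := Nat.floor_le (by linarith)
  have h4 : (1 : ℝ) ≤ ⌊D⌋₊ := by exact_mod_cast Nat.le_floor (by simpa using hD)
  have := Real.log_le_log (by linarith) h3
  linarith

/-- general bound for the sum of a character over `y`-rough integers -/
theorem rough_bound : ∃ C : ℝ, 0 < C ∧ ∀ (y N r : ℕ) (χ : DirichletCharacter ℂ r) (D ρ : ℝ),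
    3 ≤ y → 1 ≤ D → 0 ≤ ρ →
    (∀ M : ℕ, (N : ℝ) / D < (M : ℝ) + 1 → ‖∑ m ∈ Icc 1 M, χ (m : ZMod r)‖ ≤ M * ρ) →
    ‖∑ n ∈ Icc 1 N, (if ∀ p ∈ prs y, ¬ p ∣ n then χ (n : ZMod r) else 0)‖ ≤
      N * ((1 + Real.log D) * ρ + C * (Real.log y) ^ 2 * D ^ (-(1 / (2 * Real.log y)))) := by
  obtain ⟨C, hC0, hC⟩ := rankin_sum
  refine ⟨C, hC0, fun y N r χ D ρ hy hD hρ hV => ?_⟩
  have hS : ∀ p ∈ prs y, p.Prime := fun p hp => (mem_prs.1 hp).2
  have hN0 : (0 : ℝ) ≤ N := Nat.cast_nonneg N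
  rw [sieve_sum]
  refine (norm_sum_le _ _).trans ?_
  have hterm : ∀ T : Finset ℕ, ‖(-1 : ℂ) ^ T.card * (χ ((∏ p ∈ T, p : ℕ) : ZMod r) *
        ∑ m ∈ Icc 1 (N / ∏ p ∈ T, p), χ (m : ZMod r))‖ ≤
        ‖∑ m ∈ Icc 1 (N / ∏ p ∈ T, p), χ (m : ZMod r)‖ := by
    intro T
    rw [norm_mul, norm_mul, norm_pow, norm_neg, norm_one, one_pow, one_mul]
    exact mul_le_of_le_one_left (norm_nonneg _) (DirichletCharacter.norm_le_one χ _)
  rw [← sum_filter_add_sum_filter_not (prs y).powerset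
    (fun T => D ≤ ((∏ p ∈ T, p : ℕ) : ℝ))]
  have h1 : ∑ T ∈ (prs y).powerset.filter (fun T => D ≤ ((∏ p ∈ T, p : ℕ) : ℝ)),
      ‖(-1 : ℂ) ^ T.card * (χ ((∏ p ∈ T, p : ℕ) : ZMod r) *
        ∑ m ∈ Icc 1 (N / ∏ p ∈ T, p), χ (m : ZMod r))‖ ≤
      N * (C * (Real.log y) ^ 2 * D ^ (-(1 / (2 * Real.log y)))) := by
    refine le_trans ?_ (mul_le_mul_of_nonneg_left (hC y hy D (by linarith)) hN0)
    rw [mul_sum]
    refine sum_le_sum fun T _ => (hterm T).trans ?_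
    refine (norm_sum_le _ _).trans ?_
    calc ∑ m ∈ Icc 1 (N / ∏ p ∈ T, p), ‖χ (m : ZMod r)‖
        ≤ ∑ m ∈ Icc 1 (N / ∏ p ∈ T, p), (1 : ℝ) :=
          sum_le_sum fun m _ => DirichletCharacter.norm_le_one χ _
      _ = ((N / ∏ p ∈ T, p : ℕ) : ℝ) := by simp
      _ ≤ (N : ℝ) / ((∏ p ∈ T, p : ℕ) : ℝ) := Nat.cast_div_le
      _ = N * (1 / ((∏ p ∈ T, p : ℕ) : ℝ)) := by ring
  have h2 : ∑ T ∈ (prs y).powerset.filter (fun T => ¬ D ≤ ((∏ p ∈ T, p : ℕ) : ℝ)),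
      ‖(-1 : ℂ) ^ T.card * (χ ((∏ p ∈ T, p : ℕ) : ZMod r) *
        ∑ m ∈ Icc 1 (N / ∏ p ∈ T, p), χ (m : ZMod r))‖ ≤
      N * ρ * (1 + Real.log D) := by
    refine le_trans ?_ (mul_le_mul_of_nonneg_left (small_sum y D hD) (mul_nonneg hN0 hρ))
    rw [mul_sum]
    refine sum_le_sum fun T hT => (hterm T).trans ?_
    obtain ⟨hT1, hT2⟩ := mem_filter.1 hT
    push Not at hT2
    have hpos : 0 < ∏ p ∈ T, p := prod_pos fun p hp => (hS p (mem_powerset.1 hT1 hp)).pos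
    have hpos' : (0 : ℝ) < ((∏ p ∈ T, p : ℕ) : ℝ) := by exact_mod_cast hpos
    have h3 : (N : ℝ) / D < ((N / ∏ p ∈ T, p : ℕ) : ℝ) + 1 ∨ N = 0 := by
      rcases Nat.eq_zero_or_pos N with h0 | h0
      · exact Or.inr h0
      · left
        have h4 : (N : ℝ) / D < (N : ℝ) / ((∏ p ∈ T, p : ℕ) : ℝ) := by
          have : (0 : ℝ) < N := by exact_mod_cast h0
          gcongr
        have h5 : (N : ℝ) / ((∏ p ∈ T, p : ℕ) : ℝ) < ((N / ∏ p ∈ T, p : ℕ) : ℝ) + 1 := by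
          rw [div_lt_iff₀ hpos']
          have h6 := Nat.lt_div_mul_add hpos (a := N)
          have h7 : (N : ℝ) < ((N / ∏ p ∈ T, p : ℕ) : ℝ) * ((∏ p ∈ T, p : ℕ) : ℝ) +
            ((∏ p ∈ T, p : ℕ) : ℝ) := by exact_mod_cast h6
          linarith
        linarith
    rcases h3 with h3 | h3
    · refine (hV _ h3).trans ?_
      have h8 : ((N / ∏ p ∈ T, p : ℕ) : ℝ) ≤ (N : ℝ) / ((∏ p ∈ T, p : ℕ) : ℝ) := Nat.cast_div_le
      calc ((N / ∏ p ∈ T, p : ℕ) : ℝ) * ρ ≤ (N : ℝ) / ((∏ p ∈ T, p : ℕ) : ℝ) * ρ := by gcongr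
        _ = N * ρ * (1 / ((∏ p ∈ T, p : ℕ) : ℝ)) := by ring
    · subst h3
      simp
  calc _ ≤ N * (C * (Real.log y) ^ 2 * D ^ (-(1 / (2 * Real.log y)))) +
        N * ρ * (1 + Real.log D) := add_le_add h1 h2
    _ = _ := by ring

end Pool.Agent.PW
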