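import Pool.Agent.Work.MP_92f640_nt.PW.Rough
import Pool.Agent.Work.MP_92f640_nt.PW.Rankin

/-! # Module M1: the partial sums of a character over rough integers

`χ n = ψ n 1_{(n, R) = 1}`. For `N < y ^ 2` trivial (`exp (-1/2) (log y)^5 ≥ 1`). Otherwise
`1_{(n,R)=1} = ∑_{T ⊆ primes ≤ y, ∏ T ∣ n} (-1)^|T|`, `z = √N`. `d = ∏ T ≤ z`: `|ψ d| |∑_{m ≤ N/d} ψ m| ≤ (N/d) exp (-log (N/d)/log y)`
(`N / d ≥ y`), sum `≤ N (1 + log N) exp (-log N/(2 log y))`, and `(1 + log N) exp (-log N/(4 log y)) ≤ 1 + 4 log y`.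
`d > z`: Rankin (`PW/Rankin.lean`). -/

namespace Pool.Agent.PW

open Finset Pool.Agent.BV

/-- coprimality to `R` -/
lemma RM.coprime_iff {y R : ℕ} (h : RM y R) (n : ℕ) :
    n.Coprime R ↔ ∀ p ∈ prs y, ¬ p ∣ n := by
  constructor
  · intro hc p hp hpn
    obtain ⟨h1, h2⟩ := mem_prs.1 hp
    have h3 : p ∣ Nat.gcd n R := Nat.dvd_gcd hpn ((h.iff p h2).2 h1)
    rw [hc] at h3
    exact h2.one_lt.ne' (Nat.dvd_one.1 h3)
  · intro hn
    by_contra hc
    obtain ⟨p, hp, h1, h2⟩ := Nat.Prime.not_coprime_iff_dvd.1 hc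
    exact hn p (mem_prs.2 ⟨(h.iff p hp).1 h2, hp⟩) h1

/-- the values of the character mod `R` -/
lemma changeLevel_rough {y R r : ℕ} (h : RM y R) (hr : r ∣ R) (ψ : DirichletCharacter ℂ r)
    (n : ℕ) : (DirichletCharacter.changeLevel hr ψ) (n : ZMod R) =
      if ∀ p ∈ prs y, ¬ p ∣ n then ψ (n : ZMod r) else 0 := by
  split_ifs with hn
  · have hc := (h.coprime_iff n).2 hn
    have h1 := DirichletCharacter.changeLevel_eq_cast_of_dvd' ψ hr (a := (n : ℤ))
      (Nat.isCoprime_iff_coprime.2 hc)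
    simpa using h1
  · apply MulChar.map_nonunit
    rw [ZMod.isUnit_iff_coprime]
    exact fun hc => hn ((h.coprime_iff n).1 hc)

lemma rs_vexp (v : ℝ) : v * Real.exp (-v) ≤ 1 := by
  have h1 : v ≤ Real.exp v := by linarith [Real.add_one_le_exp v]
  have h2 : 0 < Real.exp (-v) := Real.exp_pos _
  calc v * Real.exp (-v) ≤ Real.exp v * Real.exp (-v) := by gcongr
    _ = 1 := by rw [← Real.exp_add]; simp

theorem rough_sum : ∃ y₁ : ℕ, ∀ y R r : ℕ, y₁ ≤ y → RM y R → ∀ hr : r ∣ R,
    ∀ ψ : DirichletCharacter ℂ r,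
    (∀ N : ℕ, y ≤ N → ‖∑ n ∈ Icc 1 N, ψ (n : ZMod r)‖ ≤
      (N : ℝ) * Real.exp (-(Real.log N / Real.log y))) →
    SB y (DirichletCharacter.changeLevel hr ψ) := by
  obtain ⟨C, hC0, hC⟩ := rough_bound
  obtain ⟨y₁, hy₁⟩ := exists_nat_ge (Real.exp (C + 7))
  refine ⟨y₁, fun y R r hy hR hr ψ hψ N => ?_⟩
  have hyR : Real.exp (C + 7) ≤ y := hy₁.trans (by exact_mod_cast hy)
  have hy0 : (0 : ℝ) < y := (Real.exp_pos _).trans_le hyR
  set l : ℝ := Real.log y with hl
  have hlC : C + 7 ≤ l := by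
    rw [hl, Real.le_log_iff_exp_le hy0]
    exact hyR
  have hl0 : 0 < l := by linarith
  have hy3 : 3 ≤ y := by
    have h1 : (3 : ℝ) ≤ Real.exp (C + 7) := by linarith [Real.add_one_le_exp (C + 7)]
    exact_mod_cast h1.trans hyR
  have hsum : ∑ n ∈ Icc 1 N, (DirichletCharacter.changeLevel hr ψ) (n : ZMod R) =
      ∑ n ∈ Icc 1 N, (if ∀ p ∈ prs y, ¬ p ∣ n then ψ (n : ZMod r) else 0) :=
    sum_congr rfl fun n _ => changeLevel_rough hR hr ψ n
  rcases Nat.eq_zero_or_pos N with h0 | hN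
  · subst h0; simp
  have hN1 : (1 : ℝ) ≤ N := by exact_mod_cast hN
  have hN0 : (0 : ℝ) < N := by linarith
  have hlN : 0 ≤ Real.log N := Real.log_nonneg hN1
  set E : ℝ := Real.exp (-(Real.log N / (4 * l))) with hE
  have hE0 : 0 < E := Real.exp_pos _
  by_cases hcase : (N : ℝ) < (y : ℝ) ^ 2
  · -- trivial bound
    have h1 : ‖∑ n ∈ Icc 1 N, (DirichletCharacter.changeLevel hr ψ) (n : ZMod R)‖ ≤ N := by
      refine (norm_sum_le _ _).trans ?_
      calc ∑ n ∈ Icc 1 N, ‖(DirichletCharacter.changeLevel hr ψ) (n : ZMod R)‖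
          ≤ ∑ n ∈ Icc 1 N, (1 : ℝ) := sum_le_sum fun n _ => DirichletCharacter.norm_le_one _ _
        _ = N := by simp
    refine h1.trans ?_
    rw [mul_assoc]
    refine le_mul_of_one_le_right hN0.le ?_
    have h2 : Real.log N ≤ 2 * l := by
      have h3 := Real.log_le_log hN0 hcase.le
      rw [Real.log_pow] at h3
      push_cast at h3
      exact h3
    have h3 : Real.exp (-(1 / 2)) ≤ E := by
      rw [hE]
      apply Real.exp_le_exp.2
      rw [neg_le_neg_iff, div_le_div_iff₀ (by positivity) (by norm_num)]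
      linarith
    have h4 : (1 : ℝ) / 2 ≤ Real.exp (-(1 / 2)) := by
      have := Real.add_one_le_exp (-(1 / 2 : ℝ))
      linarith
    have h5 : (2 : ℝ) ≤ l ^ 5 := by
      calc (2 : ℝ) ≤ 2 ^ 5 := by norm_num
        _ ≤ l ^ 5 := by gcongr; linarith
    nlinarith
  · push Not at hcase
    set D : ℝ := Real.sqrt N with hD
    have hD0 : 0 < D := Real.sqrt_pos.2 hN0
    have hDD : D * D = N := Real.mul_self_sqrt hN0.le
    have hyD : (y : ℝ) ≤ D := Real.le_sqrt_of_sq_le hcase
    have hy3' : (3 : ℝ) ≤ y := by exact_mod_cast hy3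
    have hD1 : 1 ≤ D := by linarith
    have hlD : Real.log D = Real.log N / 2 := by
      rw [hD, Real.log_sqrt hN0.le]
    set ρ : ℝ := 2 * Real.exp (-(Real.log N / (2 * l))) with hρ
    have hρ0 : 0 ≤ ρ := by positivity
    have hND : (N : ℝ) / D = D := by
      rw [div_eq_iff hD0.ne']; exact hDD.symm
    have hV : ∀ M : ℕ, (N : ℝ) / D < (M : ℝ) + 1 →
        ‖∑ m ∈ Icc 1 M, ψ (m : ZMod r)‖ ≤ M * ρ := by
      intro M hM
      rw [hND] at hM
      have hyM : y ≤ M := by
        have h1 : (y : ℝ) < (M : ℝ) + 1 := by linarith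
        have h2 : y < M + 1 := by exact_mod_cast h1
        omega
      refine (hψ M hyM).trans ?_
      have hM1 : (1 : ℝ) ≤ M := by
        have : (y : ℝ) ≤ M := by exact_mod_cast hyM
        linarith
      have h1 : Real.log N / 2 - Real.log 2 ≤ Real.log M := by
        rw [← hlD, ← Real.log_div hD0.ne' (by norm_num)]
        exact Real.log_le_log (by positivity) (by linarith)
      have h2 : Real.exp (-(Real.log M / l)) ≤ ρ := by
        have h3 : -(Real.log M / l) ≤ Real.log 2 + -(Real.log N / (2 * l)) := by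
          have h4 : (Real.log N / 2 - Real.log 2) / l ≤ Real.log M / l := by gcongr
          have h5 : (Real.log N / 2 - Real.log 2) / l =
            Real.log N / (2 * l) - Real.log 2 / l := by
            field_simp
          have h6 : Real.log 2 / l ≤ Real.log 2 :=
            div_le_self (Real.log_nonneg (by norm_num)) (by linarith)
          linarith
        calc Real.exp (-(Real.log M / l)) ≤
            Real.exp (Real.log 2 + -(Real.log N / (2 * l))) := Real.exp_le_exp.2 h3
          _ = ρ := by rw [Real.exp_add, Real.exp_log (by norm_num)]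
      gcongr
    have hmain := hC y N r ψ D ρ hy3 hD1 hρ0 hV
    rw [hsum]
    refine hmain.trans ?_
    rw [mul_assoc (N : ℝ) (l ^ 5) E]
    refine mul_le_mul_of_nonneg_left ?_ hN0.le
    rw [← hl]
    have hE2 : Real.exp (-(Real.log N / (2 * l))) = E * E := by
      rw [hE, ← Real.exp_add]
      congr 1
      field_simp
      ring
    have hDE : D ^ (-(1 / (2 * l))) ≤ E := by
      rw [Real.rpow_def_of_pos hD0, hlD, hE]
      apply Real.exp_le_exp.2
      have : Real.log N / 2 * -(1 / (2 * l)) = -(Real.log N / (4 * l)) := by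
        field_simp
        ring
      rw [this]
    have hE1 : E ≤ 1 := by
      rw [hE]
      apply Real.exp_le_one_iff.2
      have : 0 ≤ Real.log N / (4 * l) := by positivity
      linarith
    have hNE : Real.log N * E ≤ 4 * l := by
      have h1 := rs_vexp (Real.log N / (4 * l))
      rw [← hE] at h1
      have h2 : Real.log N * E = 4 * l * (Real.log N / (4 * l) * E) := by
        field_simp
      rw [h2]
      calc 4 * l * (Real.log N / (4 * l) * E) ≤ 4 * l * 1 := by gcongr
        _ = 4 * l := mul_one _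
    have hfirst : (1 + Real.log D) * ρ ≤ (2 + 4 * l) * E := by
      rw [hρ, hE2, hlD]
      have : (1 + Real.log N / 2) * (2 * (E * E)) = (2 * E + Real.log N * E) * E := by ring
      rw [this]
      gcongr
      linarith
    have hsec : C * l ^ 2 * D ^ (-(1 / (2 * l))) ≤ C * l ^ 2 * E := by gcongr
    calc (1 + Real.log D) * ρ + C * l ^ 2 * D ^ (-(1 / (2 * l)))
        ≤ (2 + 4 * l) * E + C * l ^ 2 * E := add_le_add hfirst hsec
      _ = (2 + 4 * l + C * l ^ 2) * E := by ring
      _ ≤ l ^ 5 * E := by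
        refine mul_le_mul_of_nonneg_right ?_ hE0.le
        have hl7 : 7 ≤ l := by linarith
        have h2 : 2 + 4 * l ≤ l ^ 2 * 2 := by nlinarith
        have h3 : C * l ^ 2 ≤ l * l ^ 2 := by gcongr; linarith
        have h4 : l ^ 2 * 2 + l * l ^ 2 ≤ l ^ 5 := by
          have h5 : l ^ 5 = l ^ 2 * (l * l * l) := by ring
          rw [h5]
          have h6 : 2 + l ≤ l * l * l := by nlinarith [mul_self_nonneg l, hl7]
          nlinarith [sq_nonneg l]
        linarith

end Pool.Agent.PW
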