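import Pool.Agent.Work.MP_92f640_nt.PW.CharSum
import Pool.Agent.Work.MP_92f640_nt.PW.RoughSum
import Pool.Agent.Work.MP_92f640_nt.LConv
import Pool.Agent.Work.BV.DivSum

/-! # Module FinA: radicals, the modulus `m * primorial y`, and `SB` for all non-principal characters -/

namespace Pool.Agent.PW

open Finset Pool.Agent.BV Filter
open scoped ArithmeticFunction.vonMangoldt

lemma fin_rd_pos (r : ℕ) : 0 < rd r :=
  Finset.prod_pos fun _ hp => (Nat.prime_of_mem_primeFactors hp).pos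

lemma fin_rd_mono {r m : ℕ} (h : r ∣ m) (hm : m ≠ 0) : rd r ≤ rd m := by
  unfold rd
  exact Finset.prod_le_prod_of_subset_of_one_le' (Nat.primeFactors_mono h hm)
    (fun p hp _ => (Nat.prime_of_mem_primeFactors hp).one_le)

lemma fin_rd_mul {r m : ℕ} (hr : r ≠ 0) (hm : m ≠ 0) : rd (r * m) ≤ rd r * rd m := by
  unfold rd
  rw [Nat.primeFactors_mul hr hm]
  rw [← Finset.prod_union_inter]
  exact Nat.le_mul_of_pos_right _ (Finset.prod_pos fun p hp =>
    (Nat.prime_of_mem_primeFactors (Finset.mem_inter.1 hp).1).pos)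

lemma fin_le_rd {p m : ℕ} (hp : p.Prime) (h : p ∣ m) (hm : m ≠ 0) : p ≤ rd m := by
  have h1 : p ∣ rd m := Finset.dvd_prod_of_mem _ (Nat.mem_primeFactors.2 ⟨hp, h, hm⟩)
  exact Nat.le_of_dvd (fin_rd_pos m) h1

lemma fin_RM {m y : ℕ} (hm : m ≠ 0) (h : rd m ≤ y) : RM y (m * primorial y) := by
  refine ⟨mul_ne_zero hm (primorial_pos y).ne', fun p hp => ?_⟩
  rw [hp.dvd_mul, hp.dvd_primorial_iff]
  constructor
  · rintro (h1 | h1)
    · exact (fin_le_rd hp h1 hm).trans h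
    · exact h1
  · exact fun h1 => Or.inr h1

/-- powers of the logarithm -/
lemma fin_rpow (a b c : ℝ) (h : a < b) : ∀ᶠ L : ℝ in atTop, c * L ^ a ≤ L ^ b := by
  filter_upwards [(tendsto_rpow_atTop (sub_pos.2 h)).eventually_ge_atTop c,
    eventually_gt_atTop 0] with L h1 h2
  have h3 : L ^ b = L ^ (b - a) * L ^ a := by
    rw [← Real.rpow_add h2]; ring_nf
  rw [h3]
  exact mul_le_mul_of_nonneg_right h1 (Real.rpow_nonneg h2.le _)

lemma fin_rpow_x (a b c : ℝ) (h : a < b) : ∀ᶠ x : ℕ in atTop,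
    c * (Real.log x) ^ a ≤ (Real.log x) ^ b :=
  (Real.tendsto_log_atTop.comp tendsto_natCast_atTop_atTop).eventually (fin_rpow a b c h)

lemma fin_log_x (c : ℝ) : ∀ᶠ x : ℕ in atTop, c ≤ Real.log x :=
  (Real.tendsto_log_atTop.comp tendsto_natCast_atTop_atTop).eventually_ge_atTop c

/-- the level `y` -/
noncomputable def yy (η : ℝ) (x : ℕ) : ℕ := ⌈Real.exp ((Real.log x) ^ (1 - η / 5))⌉₊

lemma fin_yy_tendsto (η : ℝ) (h1 : η ≤ 1 / 4) : Tendsto (yy η) atTop atTop := by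
  unfold yy
  refine tendsto_nat_ceil_atTop.comp (Real.tendsto_exp_atTop.comp ?_)
  exact (tendsto_rpow_atTop (by linarith)).comp
    (Real.tendsto_log_atTop.comp tendsto_natCast_atTop_atTop)

/-- the hypothesis of `rough_sum` for primitive characters -/
theorem fin_hyp (η : ℝ) (h0 : 0 < η) (h1 : η ≤ 1 / 4) : ∀ᶠ x : ℕ in atTop, ∀ r : ℕ,
    1 < r → r ≤ x ^ 2 → (rd r : ℝ) ≤ Real.exp (2 * (Real.log x) ^ (1 - η)) →
    ∀ ψ : DirichletCharacter ℂ r, ψ.IsPrimitive → ∀ N : ℕ, yy η x ≤ N →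
    ‖∑ n ∈ Icc 1 N, ψ (n : ZMod r)‖ ≤ (N : ℝ) * Real.exp (-(Real.log N / Real.log (yy η x))) := by
  obtain ⟨x₀, hx₀⟩ := char_sum (9 * η / 10) (by linarith) (by linarith)
  have hp : ∀ L : ℝ, 0 < L → ∀ a : ℝ, (2 * L) ^ a = 2 ^ a * L ^ a := fun L hL a =>
    Real.mul_rpow (by norm_num) hL.le
  have e1 := fin_rpow_x (1 - η) (1 - 9 * η / 10) (2 / 2 ^ (1 - 9 * η / 10 : ℝ)) (by linarith)
  have e2 := fin_rpow_x (1 - 9 * η / 10 / 4) (1 - η / 5) (2 ^ (1 - 9 * η / 10 / 4 : ℝ)) (by linarith)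
  have e3 := fin_rpow_x (η / 5) (1 - 9 * η / 10) (4 / 2 ^ (1 - 9 * η / 10 : ℝ)) (by linarith)
  filter_upwards [e1, e2, e3, fin_log_x 16, eventually_ge_atTop x₀, eventually_ge_atTop 2]
    with x h1 h2 h3 h4 h5 h6
  intro r hr hrx hrd ψ hψ N hN
  set L : ℝ := Real.log x with hL
  have hL0 : 0 < L := by linarith
  have hxr : (2 : ℝ) ≤ x := by exact_mod_cast h6
  set y := yy η x with hy
  have hyL : Real.exp (L ^ (1 - η / 5)) ≤ y := Nat.le_ceil _
  have hL15 : 2 ≤ L ^ (1 - η / 5) := by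
    have e4 : (2 : ℝ) ≤ L ^ ((1 : ℝ) / 2) := by
      have e5 : (16 : ℝ) ^ ((1 : ℝ) / 2) ≤ L ^ ((1 : ℝ) / 2) :=
        Real.rpow_le_rpow (by norm_num) h4 (by norm_num)
      have e6 : (16 : ℝ) ^ ((1 : ℝ) / 2) = 4 := by
        rw [← Real.sqrt_eq_rpow, show (16 : ℝ) = 4 ^ 2 by norm_num, Real.sqrt_sq (by norm_num)]
      linarith
    refine e4.trans (Real.rpow_le_rpow_of_exponent_le (by linarith) (by linarith))
  have hlogy : L ^ (1 - η / 5) ≤ Real.log y := by
    rw [Real.le_log_iff_exp_le (lt_of_lt_of_le (Real.exp_pos _) hyL)]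
    exact hyL
  have hlogy0 : 0 < Real.log y := by linarith
  have hNr : (y : ℝ) ≤ N := by exact_mod_cast hN
  have hN0 : (0 : ℝ) < N := lt_of_lt_of_le (lt_of_lt_of_le (Real.exp_pos _) hyL) hNr
  have hlogN0 : 0 ≤ Real.log N := Real.log_nonneg (by
    have := Real.add_one_le_exp (L ^ (1 - η / 5))
    linarith)
  rcases le_or_gt (Real.log N) (4 * L) with hc | hc
  · -- the range of `char_sum`
    have hx2 : Real.log ((x ^ 2 : ℕ) : ℝ) = 2 * L := by
      rw [hL]
      push_cast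
      rw [Real.log_pow]
      norm_num
    have hcs := hx₀ (x ^ 2) (h5.trans (Nat.le_self_pow (by norm_num) x)) r hr hrx (by
      rw [hx2, hp L hL0]
      refine hrd.trans (Real.exp_le_exp.2 ?_)
      have h21 : (0 : ℝ) < 2 ^ (1 - 9 * η / 10 : ℝ) := by positivity
      have h22 := mul_le_mul_of_nonneg_left h1 h21.le
      have h23 : (2 : ℝ) ^ (1 - 9 * η / 10 : ℝ) * (2 / 2 ^ (1 - 9 * η / 10 : ℝ) * L ^ (1 - η)) =
          2 * L ^ (1 - η) := by field_simp
      rw [h23] at h22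
      exact h22) ψ hψ N (by
      rw [hx2, hp L hL0]
      refine le_trans (Real.exp_le_exp.2 ?_) (hyL.trans hNr)
      exact h2)
    refine hcs.trans (mul_le_mul_of_nonneg_left (Real.exp_le_exp.2 (neg_le_neg ?_)) hN0.le)
    rw [hx2, hp L hL0]
    have h31 : Real.log N / Real.log y ≤ 4 * L ^ (η / 5) := by
      rw [div_le_iff₀ hlogy0]
      calc Real.log N ≤ 4 * L := hc
        _ = 4 * L ^ (η / 5) * L ^ (1 - η / 5) := by
            rw [mul_assoc, ← Real.rpow_add hL0]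
            norm_num
        _ ≤ 4 * L ^ (η / 5) * Real.log y := by gcongr
    refine h31.trans ?_
    have h21 : (0 : ℝ) < 2 ^ (1 - 9 * η / 10 : ℝ) := by positivity
    have h22 := mul_le_mul_of_nonneg_left h3 h21.le
    have h23 : (2 : ℝ) ^ (1 - 9 * η / 10 : ℝ) * (4 / 2 ^ (1 - 9 * η / 10 : ℝ) * L ^ (η / 5)) =
        4 * L ^ (η / 5) := by field_simp
    rw [h23] at h22
    exact h22
  · -- complete sums
    have hne : NeZero r := ⟨by omega⟩
    have hψ1 : ψ ≠ 1 := by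
      intro h
      rw [h, DirichletCharacter.isPrimitive_def, DirichletCharacter.conductor_one] at hψ
      omega
    have hcb := Pool.Agent.Work.MP_92f640_nt.char_sum_bound ψ hψ1 N
    have hIcc : Icc 1 N = Ioc 0 N := by ext; simp only [mem_Icc, mem_Ioc]; omega
    rw [hIcc]
    refine hcb.trans ?_
    have h41 : (r : ℝ) ≤ (x : ℝ) ^ 2 := by exact_mod_cast hrx
    have h42 : (x : ℝ) ^ 2 = Real.exp (2 * L) := by
      rw [two_mul, Real.exp_add, hL, Real.exp_log (by linarith)]; ring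
    have h43 : (N : ℝ) * Real.exp (-(Real.log N / Real.log y)) =
        Real.exp (Real.log N - Real.log N / Real.log y) := by
      rw [sub_eq_add_neg, Real.exp_add, Real.exp_log hN0]
    rw [h43]
    refine h41.trans (h42.le.trans (Real.exp_le_exp.2 ?_))
    have h44 : Real.log N / Real.log y ≤ Real.log N / 2 :=
      div_le_div_of_nonneg_left hlogN0 (by norm_num) (hL15.trans hlogy)
    linarith

/-- all non-principal characters mod `m` become `SB` after removing the small primes -/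
theorem fin_SB (η : ℝ) (h0 : 0 < η) (h1 : η ≤ 1 / 4) : ∀ᶠ x : ℕ in atTop, ∀ m : ℕ,
    m ≠ 0 → m ≤ x ^ 2 → (rd m : ℝ) ≤ Real.exp (2 * (Real.log x) ^ (1 - η)) →
    ∀ θ : DirichletCharacter ℂ m, θ ≠ 1 → ∀ R : ℕ, RM (yy η x) R → ∀ h : m ∣ R,
    SB (yy η x) (DirichletCharacter.changeLevel h θ) := by
  obtain ⟨y₁, hy₁⟩ := rough_sum
  filter_upwards [fin_hyp η h0 h1, (fin_yy_tendsto η h1).eventually_ge_atTop y₁] with x hx hyx
  intro m hm hmx hrd θ hθ R hR h
  have hne : NeZero m := ⟨hm⟩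
  have hcd := DirichletCharacter.conductor_dvd_level θ
  have hc0 : θ.conductor ≠ 0 := DirichletCharacter.conductor_ne_zero θ
  have hc1 : θ.conductor ≠ 1 := fun h2 =>
    hθ ((DirichletCharacter.eq_one_iff_conductor_eq_one).2 h2)
  have e1 : DirichletCharacter.changeLevel h θ =
      DirichletCharacter.changeLevel (hcd.trans h) θ.primitiveCharacter := by
    rw [DirichletCharacter.changeLevel_trans _ hcd h,
      DirichletCharacter.changeLevel_primitiveCharacter]
  rw [e1]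
  refine hy₁ _ R _ hyx hR _ _ ?_
  refine hx θ.conductor (by omega) ((Nat.le_of_dvd (Nat.pos_of_ne_zero hm) hcd).trans hmx) ?_ _
    (DirichletCharacter.primitiveCharacter_isPrimitive θ)
  refine le_trans ?_ hrd
  exact_mod_cast fin_rd_mono hcd hm

end Pool.Agent.PW
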