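import Pool.Agent.Work.MP_92f640_nt.PW.FinA

/-! # Module FinB: values of lifted characters, the defect of the prime sum -/

namespace Pool.Agent.PW

open Finset Pool.Agent.BV Filter
open scoped ArithmeticFunction.vonMangoldt

lemma fin_lift_val {r R : ℕ} (h : r ∣ R) (ψ : DirichletCharacter ℂ r) {n : ℕ}
    (hn : n.Coprime R) : DirichletCharacter.changeLevel h ψ (n : ZMod R) = ψ (n : ZMod r) := by
  have h1 : IsCoprime (n : ℤ) (R : ℤ) := Nat.isCoprime_iff_coprime.2 hn
  have h2 := DirichletCharacter.changeLevel_eq_cast_of_dvd' ψ h h1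
  simpa using h2

lemma fin_val_zero {R : ℕ} (χ : DirichletCharacter ℂ R) {n : ℕ} (hn : ¬ n.Coprime R) :
    χ (n : ZMod R) = 0 := by
  apply MulChar.map_nonunit
  rw [ZMod.isUnit_iff_coprime]
  exact hn

lemma fin_coprime_iff {y R : ℕ} (hR : RM y R) (n : ℕ) :
    n.Coprime R ↔ ∀ p : ℕ, p.Prime → p ∣ n → y < p := by
  constructor
  · intro h p hp hpn
    by_contra hc
    push Not at hc
    have h1 := (hR.iff p hp).2 hc
    exact Nat.Prime.not_coprime_iff_dvd.2 ⟨p, hp, hpn, h1⟩ h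
  · intro h
    by_contra hc
    obtain ⟨p, hp, hpn, hpR⟩ := Nat.Prime.not_coprime_iff_dvd.1 hc
    have h1 := h p hp hpn
    have h2 := (hR.iff p hp).1 hpR
    omega

/-- the product of two lifted characters -/
lemma fin_prod_val {y r₁ r₂ R₁ R₂ R₃ : ℕ} (h₁ : r₁ ∣ R₁) (h₂ : r₂ ∣ R₂) (h₃ : r₁ * r₂ ∣ R₃)
    (hR₁ : RM y R₁) (hR₂ : RM y R₂) (hR₃ : RM y R₃) (ψ₁ : DirichletCharacter ℂ r₁)
    (ψ₂ : DirichletCharacter ℂ r₂) (n : ℕ) :
    DirichletCharacter.changeLevel h₁ ψ₁ (n : ZMod R₁) *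
      DirichletCharacter.changeLevel h₂ ψ₂ (n : ZMod R₂) =
    DirichletCharacter.changeLevel h₃ (DirichletCharacter.changeLevel (Dvd.intro _ rfl) ψ₁ *
      DirichletCharacter.changeLevel (Dvd.intro_left _ rfl) ψ₂) (n : ZMod R₃) := by
  by_cases hn : n.Coprime R₃
  · have e1 : n.Coprime R₁ := (fin_coprime_iff hR₁ n).2 ((fin_coprime_iff hR₃ n).1 hn)
    have e2 : n.Coprime R₂ := (fin_coprime_iff hR₂ n).2 ((fin_coprime_iff hR₃ n).1 hn)
    have e3 : n.Coprime (r₁ * r₂) := Nat.Coprime.coprime_dvd_right h₃ hn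
    rw [fin_lift_val h₁ ψ₁ e1, fin_lift_val h₂ ψ₂ e2, fin_lift_val h₃ _ hn, MulChar.mul_apply,
      fin_lift_val _ ψ₁ e3, fin_lift_val _ ψ₂ e3]
  · have e1 : ¬ n.Coprime R₁ := fun h => hn ((fin_coprime_iff hR₃ n).2 ((fin_coprime_iff hR₁ n).1 h))
    rw [fin_val_zero _ hn, fin_val_zero _ e1, zero_mul]

/-- the prime powers with a prime `≤ y` -/
lemma fin_defect_sum {y R : ℕ} (hR : RM y R) (u : ℕ) (hu : 3 ≤ u) :
    ∑ n ∈ (Icc 1 u).filter (fun n => ¬ n.Coprime R), (Λ n : ℝ) ≤ y * Real.log u := by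
  classical
  have hl : 0 ≤ Real.log u := Real.log_nonneg (by exact_mod_cast (by omega : 1 ≤ u))
  let P : ℕ → Finset ℕ := fun p => (Icc 1 (Nat.log p u)).image (fun k => p ^ k)
  have hP : ∀ p ∈ R.primeFactors, ∑ n ∈ P p, (Λ n : ℝ) ≤ Real.log u := by
    intro p hp
    have hpp := Nat.prime_of_mem_primeFactors hp
    have h1 : ∑ n ∈ P p, (Λ n : ℝ) = ∑ k ∈ Icc 1 (Nat.log p u), Real.log p := by
      rw [sum_image]
      · apply sum_congr rfl
        intro k hk
        have : k ≠ 0 := by have := (mem_Icc.mp hk).1; omega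
        rw [ArithmeticFunction.vonMangoldt_apply_pow this,
          ArithmeticFunction.vonMangoldt_apply_prime hpp]
      · intro a _ b _ hab
        exact Nat.pow_right_injective hpp.two_le hab
    rw [h1, sum_const, nsmul_eq_mul, Nat.card_Icc, Nat.add_sub_cancel, ← Real.log_pow]
    apply Real.log_le_log
    · have := hpp.pos
      positivity
    · exact_mod_cast Nat.pow_log_le_self p (by omega)
  have h1 : ∑ n ∈ (Icc 1 u).filter (fun n => ¬ n.Coprime R), (Λ n : ℝ) ≤
      ∑ n ∈ (Icc 1 u).filter (fun n => ¬ n.Coprime R), ∑ p ∈ R.primeFactors,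
        if n ∈ P p then (Λ n : ℝ) else 0 := by
    apply sum_le_sum
    intro n hn
    obtain ⟨hn1, hnq⟩ := mem_filter.mp hn
    by_cases hz : (Λ n : ℝ) = 0
    · rw [hz]
      apply sum_nonneg
      intro p _
      split_ifs <;> simp
    · rw [← ne_eq, ArithmeticFunction.vonMangoldt_ne_zero_iff, isPrimePow_nat_iff] at hz
      obtain ⟨p, k, hp, hk, rfl⟩ := hz
      have hpq : p ∈ R.primeFactors := by
        rw [Nat.mem_primeFactors]
        refine ⟨hp, ?_, hR.ne⟩
        by_contra hno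
        exact hnq (Nat.Coprime.pow_left k ((Nat.Prime.coprime_iff_not_dvd hp).mpr hno))
      have hmem : p ^ k ∈ P p := by
        apply mem_image.mpr
        refine ⟨k, mem_Icc.mpr ⟨hk, ?_⟩, rfl⟩
        exact Nat.le_log_of_pow_le hp.one_lt (mem_Icc.mp hn1).2
      calc (Λ (p ^ k) : ℝ) = if p ^ k ∈ P p then (Λ (p ^ k) : ℝ) else 0 := by rw [if_pos hmem]
        _ ≤ _ := single_le_sum (f := fun p' => if p ^ k ∈ P p' then (Λ (p ^ k) : ℝ) else 0)
            (fun p' _ => by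
              show (0 : ℝ) ≤ if p ^ k ∈ P p' then (Λ (p ^ k) : ℝ) else 0
              split_ifs
              · exact ArithmeticFunction.vonMangoldt_nonneg
              · exact le_refl 0) hpq
  refine h1.trans ?_
  rw [sum_comm]
  have h2 : ∀ p ∈ R.primeFactors, ∑ n ∈ (Icc 1 u).filter (fun n => ¬ n.Coprime R),
      (if n ∈ P p then (Λ n : ℝ) else 0) ≤ Real.log u := by
    intro p hp
    rw [← sum_filter]
    refine le_trans ?_ (hP p hp)
    apply sum_le_sum_of_subset_of_nonneg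
    · intro n hn
      exact (mem_filter.mp hn).2
    · intro n _ _
      exact ArithmeticFunction.vonMangoldt_nonneg
  refine (sum_le_sum h2).trans ?_
  rw [sum_const, nsmul_eq_mul]
  have h3 : R.primeFactors.card ≤ y := by
    have h4 : R.primeFactors ⊆ Icc 1 y := by
      intro p hp
      rw [Nat.mem_primeFactors] at hp
      rw [mem_Icc]
      exact ⟨hp.1.one_le, (hR.iff p hp.1).1 hp.2.1⟩
    have h5 := card_le_card h4
    simpa using h5
  have h6 : (R.primeFactors.card : ℝ) ≤ y := by exact_mod_cast h3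
  exact mul_le_mul_of_nonneg_right h6 hl

lemma fin_defect {y r R : ℕ} (hR : RM y R) (h : r ∣ R) (ψ : DirichletCharacter ℂ r) (u : ℕ)
    (hu : 3 ≤ u) :
    ‖psiC ψ u - psiC (DirichletCharacter.changeLevel h ψ) u‖ ≤ y * Real.log u := by
  unfold psiC
  rw [← sum_sub_distrib]
  have h1 : ∑ n ∈ Icc 1 u, (((Λ n : ℝ) : ℂ) * ψ (n : ZMod r) -
      ((Λ n : ℝ) : ℂ) * DirichletCharacter.changeLevel h ψ (n : ZMod R)) =
      ∑ n ∈ (Icc 1 u).filter (fun n => ¬ n.Coprime R), (((Λ n : ℝ) : ℂ) * ψ (n : ZMod r) -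
      ((Λ n : ℝ) : ℂ) * DirichletCharacter.changeLevel h ψ (n : ZMod R)) := by
    symm
    apply sum_subset (filter_subset _ _)
    intro n hn hn'
    have h2 : n.Coprime R := by
      by_contra h
      exact hn' (mem_filter.2 ⟨hn, h⟩)
    rw [fin_lift_val h ψ h2, sub_self]
  rw [h1]
  refine (norm_sum_le _ _).trans ((sum_le_sum fun n hn => ?_).trans (fin_defect_sum hR u hu))
  rw [fin_val_zero _ (mem_filter.1 hn).2, mul_zero, sub_zero, norm_mul, Complex.norm_real,
    Real.norm_of_nonneg ArithmeticFunction.vonMangoldt_nonneg]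
  calc Λ n * ‖ψ (n : ZMod r)‖ ≤ Λ n * 1 :=
        mul_le_mul_of_nonneg_left (DirichletCharacter.norm_le_one _ _)
          ArithmeticFunction.vonMangoldt_nonneg
    _ = Λ n := mul_one _

end Pool.Agent.PW
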