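import Pool.Agent.Work.MP_92f640_nt.PW.ZetaAux

/-! # LowerAux: 3-4-1 for a character all of whose support is rough -/

namespace Pool.Agent.PW

open Finset DirichletCharacter Complex

lemma triv_norm_le_roughZ {R : ℕ} [NeZero R] {s : ℂ} (hs : 1 < s.re) :
    ‖(1 : DirichletCharacter ℂ R).LFunction s‖ ≤ roughZ R s.re := by
  rw [DirichletCharacter.LFunction_eq_LSeries 1 hs]
  unfold roughZ
  refine tsum_of_norm_bounded (roughZ_summable R hs).hasSum (fun n => ?_)
  rcases eq_or_ne n 0 with rfl | hn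
  · simp only [LSeries.term_zero, norm_zero]
    split_ifs
    · positivity
    · exact le_rfl
  · rw [LSeries.norm_term_eq, if_neg hn]
    by_cases hc : n.Coprime R
    · rw [if_pos hc]
      gcongr
      exact DirichletCharacter.norm_le_one _ _
    · rw [if_neg hc]
      have : (1 : DirichletCharacter ℂ R) (n : ZMod R) = 0 := by
        apply MulChar.map_nonunit
        rwa [ZMod.isUnit_iff_coprime]
      rw [this, norm_zero, zero_div]

/-- 3-4-1 at distance `u / log y` from the line -/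
lemma rough_341 {R y : ℕ} [NeZero R] (hy : 3 ≤ y) (hp : ∀ p : ℕ, p.Prime → p ≤ y → p ∣ R)
    (χ : DirichletCharacter ℂ R) {x : ℝ} (hx : 0 < x) (hx1 : x ≤ 1) (t : ℝ) {B : ℝ}
    (hB : ‖(χ ^ 2).LFunction (1 + x + 2 * I * t)‖ ≤ B) :
    1 ≤ (6 * (1 + 1 / (x * Real.log y))) ^ 3 * ‖χ.LFunction (1 + x + I * t)‖ ^ 4 * B := by
  have h1 := χ.norm_LFunction_product_ge_one hx t
  have h2 : ‖LFunctionTrivChar R (1 + x)‖ ≤ 6 * (1 + 1 / (x * Real.log y)) := by
    have h3 := triv_norm_le_roughZ (R := R) (s := 1 + x) (by simpa using hx)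
    have h4 := roughZ_le hy hp (σ := 1 + x) (by linarith) (by linarith)
    have h5 : ((1 : ℂ) + x).re = 1 + x := by simp
    rw [h5] at h3
    rw [add_sub_cancel_left] at h4
    exact h3.trans h4
  rw [ge_iff_le, norm_mul, norm_mul, norm_pow, norm_pow] at h1
  have h3 := pow_le_pow_left₀ (norm_nonneg _) h2 3
  have h4 : 0 ≤ ‖χ.LFunction (1 + x + I * t)‖ ^ 4 := by positivity
  refine h1.trans ?_
  apply mul_le_mul (mul_le_mul_of_nonneg_right h3 h4) hB (norm_nonneg _)
  have h6 : 0 ≤ ‖LFunctionTrivChar R (1 + x)‖ := norm_nonneg _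
  have h7 : 0 ≤ 6 * (1 + 1 / (x * Real.log y)) := h6.trans h2
  positivity

/-- the lower bound from the upper bounds -/
theorem lower_of (C1 C2 : ℝ) (hC1 : 0 < C1) (hC2 : 0 < C2) : ∃ C : ℝ, 0 < C ∧
    ∀ (R y : ℕ) [NeZero R], 3 ≤ y → (∀ p : ℕ, p.Prime → p ≤ y → p ∣ R) →
    ∀ (χ : DirichletCharacter ℂ R) (W t : ℝ), 1 ≤ W →
    (∀ x : ℝ, 0 < x → x ≤ 1 → ‖(χ ^ 2).LFunction (1 + x + 2 * I * t)‖ ≤ C1 * W) →
    (∀ σ₁ σ₂ : ℝ, 1 < σ₁ → σ₁ ≤ σ₂ → σ₂ ≤ 2 →
      ‖χ.LFunction ((σ₂ : ℂ) + t * I) - χ.LFunction ((σ₁ : ℂ) + t * I)‖ ≤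
        C2 * (σ₂ - σ₁) * (W ^ 2 * Real.log y)) →
    ∀ σ : ℝ, 1 < σ → σ ≤ 2 → 1 ≤ C * W ^ 7 * ‖χ.LFunction ((σ : ℂ) + t * I)‖ := by
  obtain ⟨C, hC, hcore⟩ := Pool.Agent.BV.lower_core (1728 * C1 + 1) C2 (by linarith) hC2
  refine ⟨C + (1728 * C1 + 1), by positivity, ?_⟩
  intro R y _ hy hp χ W t hW h1 h2 σ hσ hσ2
  have hy0 : (0 : ℝ) < y := by exact_mod_cast (by omega : 0 < y)
  have hlog : 1 ≤ Real.log y := by
    rw [Real.le_log_iff_exp_le hy0]
    have h3 := Real.exp_one_lt_d9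
    have h4 : (3 : ℝ) ≤ y := by exact_mod_cast hy
    linarith
  set l := Real.log y with hl
  have hl0 : 0 < l := by linarith
  have hW0 : 0 < W := by linarith
  have hW7 : 1 ≤ W ^ 7 := one_le_pow₀ hW
  have hform : ∀ x : ℝ, (((1 + x : ℝ) : ℂ) + t * I) = 1 + x + I * t := by
    intro x; push_cast; ring
  have hgen : ∀ x : ℝ, 0 < x → x ≤ 1 →
      1 ≤ (6 * (1 + 1 / (x * l))) ^ 3 * ‖χ.LFunction (1 + x + I * t)‖ ^ 4 * (C1 * W) :=
    fun x hx hx1 => rough_341 hy hp χ hx hx1 t (h1 x hx hx1)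
  rcases le_total ((σ - 1) * l) 1 with hu | hu
  · -- close to the line
    have h3 := hcore W 1 hW one_pos le_rfl
      (fun u => ‖χ.LFunction (1 + ((u / l : ℝ) : ℂ) + I * t)‖) (fun u => norm_nonneg _) ?_ ?_
      ((σ - 1) * l) (by apply mul_pos (by linarith) hl0) hu
    · have h4 : (σ - 1) * l / l = σ - 1 := by field_simp
      simp only [h4] at h3
      have h5 : (1 + ((σ - 1 : ℝ) : ℂ) + I * t) = (σ : ℂ) + t * I := by
        push_cast; ring
      rw [h5] at h3
      refine h3.trans ?_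
      gcongr
      linarith
    · intro u hu0 hu1
      have hx0 : 0 < u / l := div_pos hu0 hl0
      have hx1 : u / l ≤ 1 := by rw [div_le_one hl0]; linarith
      have h4 := hgen (u / l) hx0 hx1
      have h5 : u / l * l = u := by field_simp
      rw [h5] at h4
      have h6 : 6 * (1 + 1 / u) ≤ 12 / u := by
        have : 1 ≤ 1 / u := by rw [le_div_iff₀ hu0]; linarith
        have h7 : 12 / u = 6 * (1 / u + 1 / u) := by ring
        rw [h7]
        linarith
      have h7 : (6 * (1 + 1 / u)) ^ 3 ≤ (12 / u) ^ 3 := pow_le_pow_left₀ (by positivity) h6 3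
      set a := ‖χ.LFunction (1 + ((u / l : ℝ) : ℂ) + I * t)‖ with ha
      have h8 : 1 ≤ (12 / u) ^ 3 * a ^ 4 * (C1 * W) := by
        refine h4.trans ?_
        gcongr
      have h9 : (12 / u) ^ 3 * a ^ 4 * (C1 * W) = (1728 * C1 * W * a ^ 4) / u ^ 3 := by
        field_simp
        ring
      rw [h9, le_div_iff₀ (by positivity), one_mul] at h8
      rw [mul_one]
      have h10 : 0 ≤ W * a ^ 4 := by positivity
      nlinarith
    · intro u v hu0 huv hv1
      have h4 := h2 (1 + u / l) (1 + v / l) (by have := div_pos hu0 hl0; linarith)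
        (by gcongr) (by
          have : v / l ≤ 1 := by rw [div_le_one hl0]; linarith
          linarith)
      rw [hform, hform] at h4
      have h5 := norm_sub_norm_le (χ.LFunction (1 + ((v / l : ℝ) : ℂ) + I * t))
        (χ.LFunction (1 + ((u / l : ℝ) : ℂ) + I * t))
      have h6 : C2 * (1 + v / l - (1 + u / l)) * (W ^ 2 * l) = C2 * (v - u) * W ^ 2 := by
        field_simp
        ring
      rw [h6] at h4
      linarith
  · have h4 := hgen (σ - 1) (by linarith) (by linarith)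
    have h5 : 6 * (1 + 1 / ((σ - 1) * l)) ≤ 12 := by
      have : 1 / ((σ - 1) * l) ≤ 1 := by
        rw [div_le_one (by linarith)]; exact hu
      linarith
    have h50 : 0 ≤ 6 * (1 + 1 / ((σ - 1) * l)) := by
      have : 0 ≤ 1 / ((σ - 1) * l) := by
        apply div_nonneg zero_le_one; linarith
      linarith
    have h6 : (6 * (1 + 1 / ((σ - 1) * l))) ^ 3 ≤ 12 ^ 3 := pow_le_pow_left₀ h50 h5 3
    have h7 : (1 + ((σ - 1 : ℝ) : ℂ) + I * t) = (σ : ℂ) + t * I := by
      push_cast; ring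
    rw [h7] at h4
    set a := ‖χ.LFunction ((σ : ℂ) + t * I)‖ with ha
    have ha0 : 0 ≤ a := norm_nonneg _
    have h8 : 1 ≤ 12 ^ 3 * a ^ 4 * (C1 * W) := by
      refine h4.trans ?_
      gcongr
    have h9 : 0 ≤ C * W ^ 7 * a := by positivity
    have h10 : 1 ≤ (1728 * C1 + 1) * W ^ 7 * a := by
      rcases le_total 1 a with h | h
      · have : (1 : ℝ) ≤ 1728 * C1 + 1 := by linarith
        calc (1 : ℝ) = 1 * 1 * 1 := by ring
          _ ≤ (1728 * C1 + 1) * W ^ 7 * a := by gcongr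
      · have h11 : a ^ 4 ≤ a := by
          calc a ^ 4 ≤ a ^ 1 := pow_le_pow_of_le_one ha0 h (by norm_num)
            _ = a := pow_one a
        have h12 : W ≤ W ^ 7 := by
          calc W = W ^ 1 := (pow_one W).symm
            _ ≤ W ^ 7 := pow_le_pow_right₀ hW (by norm_num)
        calc (1 : ℝ) ≤ 12 ^ 3 * a ^ 4 * (C1 * W) := h8
          _ = 1728 * C1 * W * a ^ 4 := by ring
          _ ≤ (1728 * C1 + 1) * W ^ 7 * a := by
            gcongr
            linarith
    have h11 : (C + (1728 * C1 + 1)) * W ^ 7 * a = C * W ^ 7 * a + (1728 * C1 + 1) * W ^ 7 * a := by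
      ring
    rw [h11]
    linarith

end Pool.Agent.PW
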