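import Pool.Agent.Work.MP_92f640_nt.PW.LserB
import Pool.Agent.Work.MP_92f640_nt.PW.LowerAux
import Pool.Agent.Work.BV.LNear

/-! # Module M4: lower bound for the rough L-functions, complex characters

3-4-1 (`lower_of` of `LowerAux`) with `W = WW y t`: the factor at `1 + x + 2 i t` is bounded by
`Lser_rough 0` for `χ²`, the difference of `L` at two points of the horizontal line by `Lser_rough 1`
and the mean value inequality. -/

namespace Pool.Agent.PW

open Finset Pool.Agent.BV Complex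

/-- the size parameter is at least `1` -/
theorem one_le_WW {y : ℕ} (hy : 3 ≤ y) (t : ℝ) : 1 ≤ WW y t := by
  have hy' : (3 : ℝ) ≤ y := by exact_mod_cast hy
  have he := Real.exp_one_lt_d9
  have hlog : 1 ≤ Real.log y := by
    rw [Real.le_log_iff_exp_le (by linarith)]
    linarith
  have hlt : 1 ≤ Real.log (|t| + 3) := by
    rw [Real.le_log_iff_exp_le (by positivity)]
    have := abs_nonneg t
    linarith
  have := Real.log_nonneg hlog
  unfold WW
  linarith

/-- the size parameter at `2 t` -/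
theorem WW_two {y : ℕ} (hy : 3 ≤ y) (t : ℝ) : WW y (2 * t) ≤ 2 * WW y t := by
  have hy' : (3 : ℝ) ≤ y := by exact_mod_cast hy
  have he := Real.exp_one_lt_d9
  have hlog : 1 ≤ Real.log y := by
    rw [Real.le_log_iff_exp_le (by linarith)]
    linarith
  have h0 := Real.log_nonneg hlog
  have ht := abs_nonneg t
  have h1 : Real.log (|2 * t| + 3) ≤ 2 * Real.log (|t| + 3) := by
    have e : (2 : ℝ) * Real.log (|t| + 3) = Real.log ((|t| + 3) ^ 2) := by
      rw [Real.log_pow]; norm_num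
    rw [e]
    apply Real.log_le_log (by positivity)
    rw [abs_mul, abs_two]
    nlinarith
  unfold WW
  linarith

/-- the size parameter is monotone in `|t|` -/
theorem WW_mono {y : ℕ} {t u : ℝ} (h : |t| ≤ |u|) : WW y t ≤ WW y u := by
  unfold WW
  have := Real.log_le_log (show (0 : ℝ) < |t| + 3 by positivity) (show |t| + 3 ≤ |u| + 3 by linarith)
  linarith

/-- the change of `L` along a horizontal segment -/
theorem horiz_rough : ∃ C : ℝ, 0 < C ∧ ∃ y₁ : ℕ, ∀ y R : ℕ, y₁ ≤ y → RM y R → ∀ [NeZero R],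
    ∀ χ : DirichletCharacter ℂ R, SB y χ → ∀ σ₁ σ₂ t : ℝ, 1 < σ₁ → σ₁ ≤ σ₂ → σ₂ ≤ 2 →
    ‖χ.LFunction ((σ₂ : ℂ) + t * I) - χ.LFunction ((σ₁ : ℂ) + t * I)‖ ≤
      C * (σ₂ - σ₁) * (WW y t ^ 2 * Real.log y) := by
  obtain ⟨C, hC, y₁, h⟩ := Lser_rough 1
  refine ⟨C, hC, max y₁ 3, ?_⟩
  intro y R hy hR _ χ hSB σ₁ σ₂ t h1 h2 h3
  have hy3 : 3 ≤ y := (le_max_right _ _).trans hy
  have hy1 : y₁ ≤ y := (le_max_left _ _).trans hy
  have hlog0 : 0 ≤ Real.log y := Real.log_natCast_nonneg y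
  have h4 : ‖χ.LFunction ((σ₂ : ℂ) + t * I) - χ.LFunction ((σ₁ : ℂ) + t * I)‖ ≤
      C * (WW y t ^ 2 * Real.log y) * ‖((σ₂ : ℂ) + t * I) - ((σ₁ : ℂ) + t * I)‖ := by
    refine Convex.norm_image_sub_le_of_norm_deriv_le (𝕜 := ℂ) (s := lnearS |t|)
      (f := χ.LFunction) ?_ ?_ (lnearS_convex |t|) ⟨by simpa using h1, by simp; linarith, by simp⟩
      ⟨by simp; linarith, by simpa using h3, by simp⟩
    · intro x hx
      apply DirichletCharacter.differentiableAt_LFunction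
      left
      rintro rfl
      have := hx.1
      simp at this
    · intro x hx
      obtain ⟨h5, h6, h7⟩ := hx
      rw [lnear_deriv χ h5, norm_neg]
      refine (h y R hy1 hR χ hSB x h5 h6).trans ?_
      rw [pow_one, show (1 + 1 : ℕ) = 2 from rfl, mul_assoc]
      have h8 : WW y x.im ≤ WW y t := WW_mono h7
      have h9 : 0 ≤ WW y x.im := by
        have := one_le_WW hy3 x.im
        linarith
      gcongr
  refine h4.trans (le_of_eq ?_)
  have h5 : ((σ₂ : ℂ) + t * I) - ((σ₁ : ℂ) + t * I) = ((σ₂ - σ₁ : ℝ) : ℂ) := by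
    push_cast; ring
  rw [h5, Complex.norm_real, Real.norm_eq_abs, abs_of_nonneg (show (0 : ℝ) ≤ σ₂ - σ₁ by linarith)]
  ring

theorem lower_rough : ∃ c : ℝ, 0 < c ∧ ∃ y₁ : ℕ, ∀ y R : ℕ, y₁ ≤ y → RM y R → ∀ [NeZero R],
    ∀ χ : DirichletCharacter ℂ R, SB y χ → SB y (χ ^ 2) → ∀ s : ℂ, 1 < s.re → s.re ≤ 2 →
    c ≤ WW y s.im ^ 8 * ‖χ.LFunction s‖ := by
  obtain ⟨C1, hC1, y₁, h1⟩ := Lser_rough 0
  obtain ⟨C2, hC2, y₂, h2⟩ := horiz_rough
  obtain ⟨C, hC, h⟩ := lower_of (2 * C1) C2 (by positivity) hC2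
  refine ⟨1 / C, by positivity, max (max y₁ y₂) 3, ?_⟩
  intro y R hy hR _ χ hS1 hS2 s hs hs2
  have hy3 : 3 ≤ y := (le_max_right _ _).trans hy
  have hy1 : y₁ ≤ y := ((le_max_left _ _).trans (le_max_left _ _)).trans hy
  have hy2 : y₂ ≤ y := ((le_max_right _ _).trans (le_max_left _ _)).trans hy
  have hW := one_le_WW hy3 s.im
  have h3 := h R y hy3 (fun p hp hpy => (hR.iff p hp).2 hpy) χ (WW y s.im) s.im hW
    (by
      intro x hx hx1
      have h4 := h1 y R hy1 hR (χ ^ 2) hS2 (1 + x + 2 * I * s.im) (by simpa using hx)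
        (by simp; linarith)
      rw [Lser_zero_eq (χ ^ 2) (by simpa using hx)] at h4
      have h5 : (1 + (x : ℂ) + 2 * I * s.im).im = 2 * s.im := by simp
      rw [h5, pow_zero, mul_one, zero_add, pow_one] at h4
      refine h4.trans ?_
      have h6 := WW_two hy3 s.im
      nlinarith)
    (fun σ₁ σ₂ h4 h5 h6 => h2 y R hy2 hR χ hS1 σ₁ σ₂ s.im h4 h5 h6) s.re hs hs2
  have h4 : (s.re : ℂ) + s.im * I = s := Complex.re_add_im s
  rw [h4] at h3
  rw [div_le_iff₀ hC]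
  have h5 : WW y s.im ^ 7 ≤ WW y s.im ^ 8 := pow_le_pow_right₀ hW (by norm_num)
  calc (1 : ℝ) ≤ C * WW y s.im ^ 7 * ‖χ.LFunction s‖ := h3
    _ ≤ C * WW y s.im ^ 8 * ‖χ.LFunction s‖ := by gcongr
    _ = _ := by ring

end Pool.Agent.PW
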