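import Pool.Agent.Work.BV.SW

/-! # Module M6: from `Dser` to the sum over primes

`perron_bound` with `σ = 1 + 1/log x` for all `u ≤ 2x`, `unsmooth` with `h = ⌊u/(log x)^(m+1)⌋`, `remove_log k`: the proof of
`siegel_walfisz` with the bound `B` in place of `smooth_sum`. -/

namespace Pool.Agent.PW

open Finset Pool.Agent.BV
open scoped ArithmeticFunction.vonMangoldt

/-- the smoothed sum: Perron -/
theorem psum_smooth (k : ℕ) : ∃ C : ℝ, 0 < C ∧ ∀ (R : ℕ) [NeZero R] (χ : DirichletCharacter ℂ R)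
    (B : ℝ) (x : ℕ), 3 ≤ x → 0 ≤ B →
    (∀ t : ℝ, ‖Dser χ k (((1 + 1 / Real.log x : ℝ) : ℂ) + t * Complex.I)‖ ≤ B * Real.sqrt (1 + |t|)) →
    ∀ u : ℕ, 1 ≤ u → u ≤ 2 * x →
    ‖∑ n ∈ Icc 1 u, (((Λ n : ℝ) : ℂ) * χ (n : ZMod R) * ((Real.log n : ℝ) : ℂ) ^ k) *
      ((u : ℂ) - n)‖ ≤ C * B * (u : ℝ) ^ 2 := by
  obtain ⟨C2, hC20, hC2⟩ := perron_bound
  refine ⟨C2 * Real.exp 2, by positivity, ?_⟩
  intro R _ χ B x hx hB hD u hu1 hu2
  have hx3 : (3 : ℝ) ≤ x := by exact_mod_cast hx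
  have hx0 : (0 : ℝ) < x := by linarith
  set L : ℝ := Real.log x with hL
  have hL1 : 1 < L := by
    rw [hL, Real.lt_log_iff_exp_lt hx0]
    have := Real.exp_one_lt_d9
    linarith
  have hL0 : 0 < L := by linarith
  set σ : ℝ := 1 + 1 / L with hσ
  have hσ1 : 1 < σ := by
    rw [hσ]
    have : 0 < 1 / L := by positivity
    linarith
  have hσ2 : σ ≤ 2 := by
    have : 1 / L ≤ 1 := by rw [div_le_one hL0]; exact hL1.le
    rw [hσ]; linarith
  set a : ℕ → ℂ := fun n => χ (n : ZMod R) * ((Λ n : ℝ) : ℂ) * ((Real.log n : ℝ) : ℂ) ^ k with ha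
  have hsum : LSeriesSummable a σ := Dser_summable χ k (by simpa using hσ1)
  have hbd : ∀ t : ℝ, ‖LSeries a ((σ : ℂ) + t * Complex.I)‖ ≤ B * Real.sqrt (1 + |t|) :=
    fun t => hD t
  have hmain := hC2 a σ B u hσ1 hσ2 hsum hu1 hB hbd
  have hu0 : (0 : ℝ) < u := by exact_mod_cast hu1
  have hue : (u : ℝ) ^ (σ + 1) ≤ Real.exp 2 * (u : ℝ) ^ 2 := by
    have h1 : σ + 1 = 1 / L + (2 : ℕ) := by rw [hσ]; push_cast; ring
    rw [h1, Real.rpow_add hu0, Real.rpow_natCast]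
    have h2 : (u : ℝ) ^ (1 / L) ≤ Real.exp 2 := by
      rw [Real.rpow_def_of_pos hu0]
      apply Real.exp_le_exp.mpr
      have h3 : Real.log u ≤ 2 * L := by
        have h4 : (u : ℝ) ≤ x * x := by
          have : (u : ℝ) ≤ 2 * x := by exact_mod_cast hu2
          nlinarith
        have h5 := Real.log_le_log hu0 h4
        rw [Real.log_mul hx0.ne' hx0.ne'] at h5
        linarith
      rw [mul_one_div, div_le_iff₀ hL0]
      exact h3
    gcongr
  have heq : ∑ n ∈ Icc 1 u, (((Λ n : ℝ) : ℂ) * χ (n : ZMod R) * ((Real.log n : ℝ) : ℂ) ^ k) *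
      ((u : ℂ) - n) = ∑ n ∈ Icc 1 u, a n * ((u : ℂ) - n) := by
    refine Finset.sum_congr rfl fun n _ => ?_
    simp only [ha]
    ring
  rw [heq]
  calc ‖∑ n ∈ Icc 1 u, a n * ((u : ℂ) - n)‖ ≤ C2 * B * (u : ℝ) ^ (σ + 1) := hmain
    _ ≤ C2 * B * (Real.exp 2 * (u : ℝ) ^ 2) := by gcongr
    _ = _ := by ring

theorem psum_of_Dser (k m : ℕ) : ∃ C : ℝ, 0 < C ∧ ∀ (R : ℕ) [NeZero R] (χ : DirichletCharacter ℂ R)
    (B : ℝ) (x : ℕ), 3 ≤ x → 0 ≤ B →
    (∀ t : ℝ, ‖Dser χ k (((1 + 1 / Real.log x : ℝ) : ℂ) + t * Complex.I)‖ ≤ B * Real.sqrt (1 + |t|)) →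
    ‖psiC χ x‖ ≤ C * x * (B * (Real.log x) ^ (m + 1) / (Real.log x) ^ k + 1 / (Real.log x) ^ m) := by
  obtain ⟨C1, hC10, hC1⟩ := psum_smooth k
  set K1 : ℝ := 2 ^ (k + 1) * (16 * C1) with hK1
  set K2 : ℝ := 2 ^ (k + 1) * 2 ^ (k + 1) + 2 ^ (k + 1) * ((2 * m + 2).factorial : ℝ) +
    2 ^ (m + 1) * ((m + 1).factorial : ℝ) with hK2
  have hK10 : 0 < K1 := by positivity
  have hK20 : 0 < K2 := by positivity
  refine ⟨K1 + K2, by positivity, ?_⟩
  intro R _ χ B x hx hB hD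
  have hsm := hC1 R χ B x hx hB hD
  have hx3 : (3 : ℝ) ≤ x := by exact_mod_cast hx
  have hx0 : (0 : ℝ) < x := by linarith
  set L : ℝ := Real.log x with hL
  have hL1 : 1 < L := by
    rw [hL, Real.lt_log_iff_exp_lt hx0]
    have := Real.exp_one_lt_d9
    linarith
  have hL0 : 0 < L := by linarith
  have hlog2x : ∀ n : ℕ, n ≤ 2 * x → Real.log n ≤ 2 * L := by
    intro n hn
    rcases Nat.eq_zero_or_pos n with h0 | h0
    · rw [h0]; simp; linarith
    · have h1 : (n : ℝ) ≤ x * x := by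
        have : (n : ℝ) ≤ 2 * x := by exact_mod_cast hn
        nlinarith
      have h2 := Real.log_le_log (by exact_mod_cast h0) h1
      rw [Real.log_mul hx0.ne' hx0.ne'] at h2
      linarith
  set P : ℕ := m + 1 with hP
  have hLP0 : 0 < L ^ P := pow_pos hL0 P
  have hLP1 : 1 ≤ L ^ P := one_le_pow₀ hL1.le
  set E : ℝ := 16 * C1 * B * x * L ^ P + 2 ^ (k + 1) * x * L ^ (k + 1) / L ^ P + L ^ (P + (k + 1))
    with hEdef
  have hE : ∀ u ≤ x, ‖∑ n ∈ Icc 1 u, ((Λ n : ℝ) : ℂ) * χ (n : ZMod R) *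
      ((Real.log n : ℝ) : ℂ) ^ k‖ ≤ E := by
    intro u hu
    have hux : (u : ℝ) ≤ x := by exact_mod_cast hu
    have hu0 : (0 : ℝ) ≤ u := Nat.cast_nonneg u
    have hp1 : 0 ≤ 16 * C1 * B * x * L ^ P := by positivity
    have hp2 : 0 ≤ 2 ^ (k + 1) * x * L ^ (k + 1) / L ^ P := by positivity
    have hp3 : 0 ≤ L ^ (P + (k + 1)) := by positivity
    by_cases hcase : (u : ℝ) < L ^ P
    · have h1 : ‖∑ n ∈ Icc 1 u, ((Λ n : ℝ) : ℂ) * χ (n : ZMod R) *
          ((Real.log n : ℝ) : ℂ) ^ k‖ ≤ u * L ^ (k + 1) := by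
        refine (norm_sum_le _ _).trans ?_
        refine (Finset.sum_le_sum (g := fun _ => L ^ (k + 1)) fun n hn => ?_).trans ?_
        · refine sw_norm_le' χ k n L ?_
          have hn' := Finset.mem_Icc.mp hn
          exact Real.log_le_log (by exact_mod_cast hn'.1) (by exact_mod_cast hn'.2.trans hu)
        · rw [Finset.sum_const, Nat.card_Icc, nsmul_eq_mul]
          simp
      have h3 : (u : ℝ) * L ^ (k + 1) ≤ L ^ (P + (k + 1)) := by
        rw [pow_add L P (k + 1)]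
        exact mul_le_mul_of_nonneg_right hcase.le (by positivity)
      rw [hEdef]
      linarith
    · push Not at hcase
      have hu1 : 1 ≤ u := by
        have : (1 : ℝ) ≤ u := hLP1.trans hcase
        exact_mod_cast this
      have hu1r : (1 : ℝ) ≤ u := by exact_mod_cast hu1
      set h : ℕ := ⌊(u : ℝ) / L ^ P⌋₊ with hh
      have hdiv1 : 1 ≤ (u : ℝ) / L ^ P := by rw [le_div_iff₀ hLP0]; linarith
      have hh1 : 1 ≤ h := by
        rw [hh]
        exact Nat.le_floor (by exact_mod_cast hdiv1)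
      have hhle : (h : ℝ) ≤ (u : ℝ) / L ^ P := Nat.floor_le (by positivity)
      have hhlt : (u : ℝ) / L ^ P < h + 1 := Nat.lt_floor_add_one _
      have hh1r : (1 : ℝ) ≤ h := by exact_mod_cast hh1
      have hhalf : (u : ℝ) / L ^ P ≤ 2 * h := by linarith
      have hhu : (h : ℝ) ≤ u := hhle.trans (div_le_self hu0 hLP1)
      have hhu' : h ≤ u := by exact_mod_cast hhu
      have hs1 := hsm u hu1 (by omega)
      have hs2 := hsm (u + h) (by omega) (by omega)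
      have hE1 : C1 * B * (u : ℝ) ^ 2 ≤ 4 * C1 * B * (u : ℝ) ^ 2 := by
        have : 0 ≤ C1 * B * (u : ℝ) ^ 2 := by positivity
        linarith
      have hE2 : C1 * B * ((u + h : ℕ) : ℝ) ^ 2 ≤ 4 * C1 * B * (u : ℝ) ^ 2 := by
        have h5 : ((u + h : ℕ) : ℝ) ^ 2 ≤ 4 * (u : ℝ) ^ 2 := by
          push_cast
          nlinarith
        calc C1 * B * ((u + h : ℕ) : ℝ) ^ 2 ≤ C1 * B * (4 * (u : ℝ) ^ 2) := by gcongr
          _ = _ := by ring
      have hM : ∀ n ∈ Ioc u (u + h), ‖((Λ n : ℝ) : ℂ) * χ (n : ZMod R) *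
          ((Real.log n : ℝ) : ℂ) ^ k‖ ≤ (2 * L) ^ (k + 1) := by
        intro n hn
        have hn' := Finset.mem_Ioc.mp hn
        exact sw_norm_le' χ k n (2 * L) (hlog2x n (by omega))
      have hun := unsmooth (fun n => ((Λ n : ℝ) : ℂ) * χ (n : ZMod R) *
        ((Real.log n : ℝ) : ℂ) ^ k) u h hh1 (4 * C1 * B * (u : ℝ) ^ 2) ((2 * L) ^ (k + 1))
        (hs1.trans hE1) (hs2.trans hE2) hM
      refine hun.trans ?_
      have h6 : 2 * (4 * C1 * B * (u : ℝ) ^ 2) / h ≤ 16 * C1 * B * x * L ^ P := by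
        rw [div_le_iff₀ (by linarith)]
        have h7 : (u : ℝ) ≤ 2 * h * L ^ P := by
          rw [div_le_iff₀ hLP0] at hhalf
          linarith
        calc 2 * (4 * C1 * B * (u : ℝ) ^ 2) = 8 * C1 * B * u * u := by ring
          _ ≤ 8 * C1 * B * x * (2 * h * L ^ P) := by gcongr
          _ = 16 * C1 * B * x * L ^ P * h := by ring
      have h8 : (2 * L) ^ (k + 1) * h ≤ 2 ^ (k + 1) * x * L ^ (k + 1) / L ^ P := by
        calc (2 * L) ^ (k + 1) * h ≤ (2 * L) ^ (k + 1) * ((x : ℝ) / L ^ P) := by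
              gcongr
              exact hhle.trans (by gcongr)
          _ = _ := by rw [mul_pow]; ring
      rw [hEdef]
      linarith
  have hfin := remove_log k (fun n => ((Λ n : ℝ) : ℂ) * χ (n : ZMod R)) (sw_norm_le χ) x hx E hE
  unfold psiC
  refine hfin.trans ?_
  rw [← hL]
  have hLm : 0 < L ^ m := pow_pos hL0 m
  have hLk : 0 < L ^ k := pow_pos hL0 k
  have e1 : 2 ^ (k + 1) * E / L ^ k = K1 * x * (B * L ^ P / L ^ k) +
      2 ^ (k + 1) * 2 ^ (k + 1) * x / L ^ m + 2 ^ (k + 1) * L ^ (m + 2) := by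
    have h1 : L ^ (k + 1) / L ^ P / L ^ k = 1 / L ^ m := by
      rw [hP, pow_succ, pow_succ]
      field_simp
    have h2 : L ^ (P + (k + 1)) / L ^ k = L ^ (m + 2) := by
      rw [hP, show m + 1 + (k + 1) = (m + 2) + k by ring, pow_add]
      field_simp
    rw [hEdef, hK1]
    calc 2 ^ (k + 1) * (16 * C1 * B * x * L ^ P + 2 ^ (k + 1) * x * L ^ (k + 1) / L ^ P +
          L ^ (P + (k + 1))) / L ^ k
        = 2 ^ (k + 1) * (16 * C1) * x * (B * L ^ P / L ^ k) +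
          2 ^ (k + 1) * 2 ^ (k + 1) * x * (L ^ (k + 1) / L ^ P / L ^ k) +
          2 ^ (k + 1) * (L ^ (P + (k + 1)) / L ^ k) := by ring
      _ = _ := by rw [h1, h2]; ring
  have e2 : L ^ (m + 2) ≤ ((2 * m + 2).factorial : ℝ) * x / L ^ m := by
    rw [le_div_iff₀ hLm, ← pow_add]
    have h1 := sw_log_pow_le (2 * m + 2) x (by omega)
    rw [← hL] at h1
    have h2 : m + 2 + m = 2 * m + 2 := by ring
    rw [h2]
    exact h1
  have e3 : Real.sqrt x * L ≤ 2 ^ (m + 1) * ((m + 1).factorial : ℝ) * x / L ^ m := by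
    rw [le_div_iff₀ hLm]
    have h12 := sw_log_pow_le_sqrt (m + 1) x (by omega)
    rw [← hL] at h12
    have h13 : 0 ≤ Real.sqrt x := Real.sqrt_nonneg _
    have h14 : Real.sqrt x * Real.sqrt x = x := Real.mul_self_sqrt hx0.le
    calc Real.sqrt x * L * L ^ m = Real.sqrt x * L ^ (m + 1) := by ring
      _ ≤ Real.sqrt x * (2 ^ (m + 1) * ((m + 1).factorial : ℝ) * Real.sqrt x) := by gcongr
      _ = 2 ^ (m + 1) * ((m + 1).factorial : ℝ) * (Real.sqrt x * Real.sqrt x) := by ring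
      _ = _ := by rw [h14]
  have hBt : 0 ≤ B * L ^ P / L ^ k := by positivity
  have hmt : 0 ≤ 1 / L ^ m := by positivity
  rw [e1]
  calc K1 * x * (B * L ^ P / L ^ k) + 2 ^ (k + 1) * 2 ^ (k + 1) * x / L ^ m +
        2 ^ (k + 1) * L ^ (m + 2) + Real.sqrt x * L
      ≤ K1 * x * (B * L ^ P / L ^ k) + 2 ^ (k + 1) * 2 ^ (k + 1) * x / L ^ m +
        2 ^ (k + 1) * (((2 * m + 2).factorial : ℝ) * x / L ^ m) +
        2 ^ (m + 1) * ((m + 1).factorial : ℝ) * x / L ^ m := by gcongr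
    _ = K1 * x * (B * L ^ P / L ^ k) + K2 * x * (1 / L ^ m) := by rw [hK2]; ring
    _ ≤ (K1 + K2) * x * (B * L ^ P / L ^ k) + (K1 + K2) * x * (1 / L ^ m) := by
        gcongr
        · linarith
        · linarith
    _ = _ := by ring

end Pool.Agent.PW
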