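import Pool.Agent.Work.MP_92f640_nt.PW.DserB
import Pool.Agent.Work.MP_92f640_nt.PW.PSum

/-! # Module M7a: the sum over primes for a good rough character

`y = exp (L^(1-η/5))`, `L^(1-η/8) ≤ log u ≤ L`. `Dser_rough k` with `m = min 1 (c W^(-40))`: `|D_k| ≤ C W^(42 (k+1)) (log y)^(k+1)`,
`W^(42(k+1)) ≤ C (log log y)^(42(k+1)) (1+|t|)^(1/2)`, so `B ≤ L^((1-η/5)(k+1) + 1)` and `psum_of_Dser k m`, `m ≥ 2 (B+1)`, `k` with
`(η/5 - η/8) k ≥ B + m + 4`. -/

namespace Pool.Agent.PW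

open Finset Pool.Agent.BV Filter

/-- the conditions on `L = log x` -/
theorem psiR_ev (δ : ℝ) (hδ0 : 0 < δ) (N : ℕ) (K Y : ℝ) : ∀ᶠ L : ℝ in atTop,
    9 ≤ L ∧ 3 ≤ L ^ δ ∧ Y ≤ Real.exp (L ^ δ) ∧ (Real.log (2 * L)) ^ N ≤ L ∧ K ≤ L := by
  have h1 : Tendsto (fun L : ℝ => L ^ δ) atTop atTop := tendsto_rpow_atTop hδ0
  have h2 : Tendsto (fun L : ℝ => Real.exp (L ^ δ)) atTop atTop := Real.tendsto_exp_atTop.comp h1
  have h3 : ∀ᶠ L : ℝ in atTop, (Real.log (2 * L)) ^ N ≤ L := by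
    have h4 : (fun z : ℝ => (Real.log z) ^ N) =o[atTop] (fun z : ℝ => z) :=
      Real.isLittleO_pow_log_id_atTop
    have h5 : ∀ᶠ z : ℝ in atTop, (Real.log z) ^ N ≤ 1 / 2 * z := by
      have h6 := h4.bound (show (0 : ℝ) < 1 / 2 by norm_num)
      filter_upwards [h6, eventually_ge_atTop (1 : ℝ)] with z hz hz1
      have h7 : (Real.log z) ^ N ≤ ‖(Real.log z) ^ N‖ := Real.le_norm_self _
      have h8 : ‖z‖ = z := Real.norm_of_nonneg (by linarith)
      rw [h8] at hz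
      exact h7.trans hz
    have h9 : Tendsto (fun L : ℝ => 2 * L) atTop atTop :=
      tendsto_id.const_mul_atTop (by norm_num)
    filter_upwards [h9.eventually h5] with L hL
    linarith
  filter_upwards [eventually_ge_atTop (9 : ℝ), h1.eventually_ge_atTop 3, h2.eventually_ge_atTop Y,
    h3, eventually_ge_atTop K] with L a b c d e
  exact ⟨a, b, c, d, e⟩

/-- the bound for `Dser` -/
theorem psiR_Dser (k : ℕ) (c : ℝ) (hc : 0 < c) : ∃ C : ℝ, 0 < C ∧ ∃ y₁ : ℕ, ∀ y R : ℕ, y₁ ≤ y →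
    RM y R → ∀ [NeZero R] (χ : DirichletCharacter ℂ R), SB y χ →
    (∀ s : ℂ, 1 < s.re → s.re ≤ 2 → c ≤ WW y s.im ^ 40 * ‖χ.LFunction s‖) →
    Real.exp 1 ≤ Real.log y → ∀ s : ℂ, 1 < s.re → s.re ≤ 2 →
    ‖Dser χ k s‖ ≤ C * (Real.log (Real.log y)) ^ (42 * (k + 1)) * Real.log y ^ (k + 1) *
      Real.sqrt (1 + |s.im|) := by
  obtain ⟨C1, hC1, y₁, hD⟩ := Dser_rough k
  obtain ⟨C3, hC3, hE⟩ := smoothSum_ell_pow (42 * (k + 1)) 1 one_pos
  set c' : ℝ := min 1 c with hc'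
  have hc'0 : 0 < c' := lt_min one_pos hc
  have hc'1 : c' ≤ 1 := min_le_left _ _
  have hc'c : c' ≤ c := min_le_right _ _
  refine ⟨C1 / c' ^ (k + 1) * (2 ^ (42 * (k + 1)) * C3), by positivity, y₁, ?_⟩
  intro y R hy hR _ χ hSB hlow hly s hs1 hs2
  set a : ℝ := Real.log (Real.log y) with ha
  have hly0 : 0 < Real.log y := lt_of_lt_of_le (Real.exp_pos 1) hly
  have ha1 : 1 ≤ a := by
    rw [ha, Real.le_log_iff_exp_le hly0]; exact hly
  set b : ℝ := Real.log (|s.im| + 3) with hb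
  have hb1 : 1 ≤ b := by
    rw [hb, Real.le_log_iff_exp_le (by positivity)]
    have := Real.exp_one_lt_d9
    linarith [abs_nonneg s.im]
  have hW : WW y s.im = a + b := rfl
  set W : ℝ := WW y s.im with hWdef
  have hW1 : 1 ≤ W := by rw [hW]; linarith
  have hW0 : 0 < W := by linarith
  have hWab : W ≤ 2 * a * b := by rw [hW]; nlinarith
  have hm0 : 0 < c' / W ^ 40 := by positivity
  have hm1 : c' / W ^ 40 ≤ 1 := by
    rw [div_le_one (by positivity)]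
    exact hc'1.trans (one_le_pow₀ hW1)
  have hmL : c' / W ^ 40 ≤ ‖χ.LFunction s‖ := by
    rw [div_le_iff₀ (by positivity)]
    have := hlow s hs1 hs2
    linarith [mul_comm (W ^ 40) ‖χ.LFunction s‖]
  have h1 := hD y R hy hR χ hSB s hs1 hs2 _ hm0 hm1 hmL
  have h2 : C1 * W ^ (2 * k + 2) * Real.log y ^ (k + 1) / (c' / W ^ 40) ^ (k + 1) =
      C1 / c' ^ (k + 1) * W ^ (42 * (k + 1)) * Real.log y ^ (k + 1) := by
    have h3 : W ^ (42 * (k + 1)) = W ^ (2 * k + 2) * (W ^ 40) ^ (k + 1) := by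
      rw [← pow_mul, ← pow_add]; congr 1; ring
    rw [h3, div_pow]
    field_simp
  rw [h2] at h1
  have h4 : b ^ (42 * (k + 1)) ≤ C3 * Real.sqrt (1 + |s.im|) := by
    have h5 := hE 1 le_rfl s
    have h6 : ell 1 s = b := by
      rw [hb]; unfold ell; norm_num
    rw [h6] at h5
    simpa using h5
  have h7 : W ^ (42 * (k + 1)) ≤ 2 ^ (42 * (k + 1)) * a ^ (42 * (k + 1)) *
      (C3 * Real.sqrt (1 + |s.im|)) := by
    calc W ^ (42 * (k + 1)) ≤ (2 * a * b) ^ (42 * (k + 1)) := by gcongr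
      _ = 2 ^ (42 * (k + 1)) * a ^ (42 * (k + 1)) * b ^ (42 * (k + 1)) := by
          rw [mul_pow, mul_pow]
      _ ≤ _ := by gcongr
  calc ‖Dser χ k s‖ ≤ C1 / c' ^ (k + 1) * W ^ (42 * (k + 1)) * Real.log y ^ (k + 1) := h1
    _ ≤ C1 / c' ^ (k + 1) * (2 ^ (42 * (k + 1)) * a ^ (42 * (k + 1)) *
      (C3 * Real.sqrt (1 + |s.im|))) * Real.log y ^ (k + 1) := by gcongr
    _ = _ := by ring

theorem psi_rough (c : ℝ) (hc : 0 < c) (η : ℝ) (h0 : 0 < η) (h1 : η ≤ 1 / 2) (B : ℕ) :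
    ∃ x₁ : ℕ, ∀ x : ℕ, x₁ ≤ x → ∀ y R : ℕ, RM y R →
    y = ⌈Real.exp ((Real.log x) ^ (1 - η / 5))⌉₊ → ∀ [NeZero R] (χ : DirichletCharacter ℂ R),
    SB y χ → (∀ s : ℂ, 1 < s.re → s.re ≤ 2 → c ≤ WW y s.im ^ 40 * ‖χ.LFunction s‖) →
    ∀ u : ℕ, Real.exp ((Real.log x) ^ (1 - η / 8)) ≤ u → u ≤ x →
    ‖psiC χ u‖ ≤ (u : ℝ) / (Real.log x) ^ B := by
  set m : ℕ := 2 * (B + 1) with hm
  set k : ℕ := ⌈((m : ℝ) + B + 4) * 40 / (3 * η)⌉₊ with hk
  have hkη : (m : ℝ) + B + 4 ≤ k * (3 * η / 40) := by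
    have h2 : ((m : ℝ) + B + 4) * 40 / (3 * η) ≤ k := Nat.le_ceil _
    rw [div_le_iff₀ (by positivity)] at h2
    linarith
  obtain ⟨C1, hC1, y₁, hD⟩ := psiR_Dser k c hc
  obtain ⟨C2, hC2, hP⟩ := psum_of_Dser k m
  set N : ℕ := 42 * (k + 1) with hN
  set K0 : ℝ := C1 * 2 ^ (k + 1) with hK0
  have hK00 : 0 < K0 := by positivity
  have hδ0 : (0 : ℝ) < 1 - η / 5 := by linarith
  have hev := psiR_ev (1 - η / 5) hδ0 N (C2 * (K0 + 1)) y₁
  have hlog : Tendsto (fun x : ℕ => Real.log (x : ℝ)) atTop atTop :=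
    Real.tendsto_log_atTop.comp tendsto_natCast_atTop_atTop
  obtain ⟨x₁, hx₁⟩ := eventually_atTop.mp (hlog.eventually hev)
  refine ⟨x₁, ?_⟩
  intro x hx y R hR hy _ χ hSB hlow u hu1 hu2
  obtain ⟨hL9, hE3, hyY, hlogN, hKL⟩ := hx₁ x hx
  set L : ℝ := Real.log x with hL
  set E : ℝ := L ^ (1 - η / 5) with hE
  set G : ℝ := L ^ (1 - η / 8) with hG
  have hL0 : 0 < L := by linarith
  have hL1 : 1 ≤ L := by linarith
  have hE0 : 0 < E := by linarith
  have hEL : E ≤ L := by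
    calc E ≤ L ^ (1 : ℝ) := Real.rpow_le_rpow_of_exponent_le hL1 (by linarith)
      _ = L := Real.rpow_one L
  have hEG : E ≤ G := Real.rpow_le_rpow_of_exponent_le hL1 (by linarith)
  have hG3 : 3 ≤ G := hE3.trans hEG
  have hG0 : 0 < G := by linarith
  -- `y`
  have hyE : Real.exp E ≤ y := by rw [hy]; exact Nat.le_ceil _
  have hy0 : (0 : ℝ) < y := lt_of_lt_of_le (Real.exp_pos _) hyE
  have hyy₁ : y₁ ≤ y := by
    have : (y₁ : ℝ) ≤ y := hyY.trans hyE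
    exact_mod_cast this
  have hlyE : E ≤ Real.log y := by rwa [Real.le_log_iff_exp_le hy0]
  have hlyE2 : Real.log y ≤ 2 * E := by
    have h2 : (y : ℝ) < Real.exp E + 1 := by
      rw [hy]; exact Nat.ceil_lt_add_one (Real.exp_pos _).le
    have h3 : (1 : ℝ) ≤ Real.exp E := Real.one_le_exp hE0.le
    have h4 : (y : ℝ) ≤ Real.exp (E + 1) := by
      rw [Real.exp_add]
      have h5 : (2 : ℝ) ≤ Real.exp 1 := by have := Real.exp_one_gt_d9; linarith
      nlinarith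
    have h6 := Real.log_le_log hy0 h4
    rw [Real.log_exp] at h6
    linarith
  have hlye : Real.exp 1 ≤ Real.log y := by
    have := Real.exp_one_lt_d9
    linarith
  have hly0 : 0 < Real.log y := by linarith
  have ha0 : 0 ≤ Real.log (Real.log y) := Real.log_nonneg (by linarith)
  have haN : (Real.log (Real.log y)) ^ N ≤ L := by
    refine le_trans ?_ hlogN
    have h2 : Real.log (Real.log y) ≤ Real.log (2 * L) :=
      Real.log_le_log hly0 (by linarith)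
    gcongr
  -- `u`
  have hu0 : (0 : ℝ) < u := lt_of_lt_of_le (Real.exp_pos _) hu1
  have hluG : G ≤ Real.log u := by rwa [Real.le_log_iff_exp_le hu0]
  have hluL : Real.log u ≤ L := Real.log_le_log hu0 (by exact_mod_cast hu2)
  have hlu0 : 0 < Real.log u := by linarith
  have hlu1 : 1 ≤ Real.log u := by linarith
  have hu3 : 3 ≤ u := by
    have h2 : (3 : ℝ) + 1 ≤ Real.exp 3 := Real.add_one_le_exp 3
    have h3 : Real.exp 3 ≤ Real.exp G := Real.exp_le_exp.mpr hG3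
    have h4 : (3 : ℝ) ≤ u := by linarith
    exact_mod_cast h4
  set Bd : ℝ := C1 * L * (2 * E) ^ (k + 1) with hBd
  have hBd0 : 0 ≤ Bd := by positivity
  have hmain := hP R χ Bd u hu3 hBd0 (by
    intro t
    have hre : (((1 + 1 / Real.log u : ℝ) : ℂ) + t * Complex.I).re = 1 + 1 / Real.log u := by
      rw [Complex.add_re, Complex.ofReal_re, Complex.re_ofReal_mul, Complex.I_re]; ring
    have him : (((1 + 1 / Real.log u : ℝ) : ℂ) + t * Complex.I).im = t := by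
      rw [Complex.add_im, Complex.ofReal_im, Complex.im_ofReal_mul, Complex.I_im]; ring
    have h3 : 0 < 1 / Real.log u := by positivity
    have h4 : 1 / Real.log u ≤ 1 := by rw [div_le_one hlu0]; exact hlu1
    have h5 := hD y R hyy₁ hR χ hSB hlow hlye (((1 + 1 / Real.log u : ℝ) : ℂ) + t * Complex.I)
      (by rw [hre]; linarith) (by rw [hre]; linarith)
    rw [him] at h5
    refine h5.trans ?_
    rw [hBd]
    have h6 : C1 * Real.log (Real.log y) ^ N * Real.log y ^ (k + 1) ≤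
        C1 * L * (2 * E) ^ (k + 1) := by gcongr
    exact mul_le_mul_of_nonneg_right h6 (Real.sqrt_nonneg _))
  -- the final estimate
  have hT1 : Bd * Real.log u ^ (m + 1) / Real.log u ^ k ≤ K0 * L ^ (-((B : ℝ) + 1)) := by
    have h2 : Bd * Real.log u ^ (m + 1) / Real.log u ^ k ≤ Bd * L ^ (m + 1) / G ^ k := by gcongr
    refine h2.trans ?_
    have h3 : Bd * L ^ (m + 1) / G ^ k =
        K0 * L ^ ((1 : ℝ) + (1 - η / 5) * (k + 1) + (m + 1) - (1 - η / 8) * k) := by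
      rw [Real.rpow_sub hL0, Real.rpow_add hL0, Real.rpow_add hL0, Real.rpow_one,
        Real.rpow_mul hL0.le, Real.rpow_mul hL0.le, ← hE, ← hG]
      have h4 : E ^ ((k : ℝ) + 1) = E ^ (k + 1) := by
        rw [← Real.rpow_natCast]; push_cast; rfl
      have h5 : L ^ ((m : ℝ) + 1) = L ^ (m + 1) := by
        rw [← Real.rpow_natCast]; push_cast; rfl
      rw [h4, h5, Real.rpow_natCast, hBd, hK0, mul_pow]
      ring
    rw [h3]
    have h6 : L ^ ((1 : ℝ) + (1 - η / 5) * (k + 1) + (m + 1) - (1 - η / 8) * k) ≤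
        L ^ (-((B : ℝ) + 1)) := by
      apply Real.rpow_le_rpow_of_exponent_le hL1
      nlinarith
    gcongr
  have hT2 : 1 / Real.log u ^ m ≤ L ^ (-((B : ℝ) + 1)) := by
    have h2 : 1 / Real.log u ^ m ≤ 1 / G ^ m := by gcongr
    refine h2.trans ?_
    have h3 : 1 / G ^ m = L ^ (-((1 - η / 8) * m)) := by
      rw [Real.rpow_neg hL0.le, Real.rpow_mul hL0.le, ← hG, Real.rpow_natCast, one_div]
    rw [h3]
    apply Real.rpow_le_rpow_of_exponent_le hL1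
    have h4 : (m : ℝ) = 2 * (B + 1) := by rw [hm]; push_cast; ring
    rw [h4]
    have h5 : (0 : ℝ) ≤ B := Nat.cast_nonneg _
    nlinarith
  have hfin : L ^ (-((B : ℝ) + 1)) = 1 / (L * L ^ B) := by
    rw [Real.rpow_neg hL0.le, Real.rpow_add hL0, Real.rpow_natCast, Real.rpow_one, one_div,
      mul_comm]
  calc ‖psiC χ u‖ ≤ C2 * u * (Bd * Real.log u ^ (m + 1) / Real.log u ^ k + 1 / Real.log u ^ m) :=
        hmain
    _ ≤ C2 * u * (K0 * L ^ (-((B : ℝ) + 1)) + L ^ (-((B : ℝ) + 1))) := by gcongr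
    _ = (C2 * (K0 + 1)) * u / (L * L ^ B) := by rw [hfin]; ring
    _ ≤ L * u / (L * L ^ B) := by gcongr
    _ = (u : ℝ) / L ^ B := by field_simp

end Pool.Agent.PW
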