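import Mathlib
import Pool.Agent.Work.BV.Defs

/-!
Real primitive characters have almost squarefree conductor, and the radical of a divisor.
-/

open Finset

namespace Pool.Agent.PW

/-- product of the primes of a set dividing a nonzero number: factorization -/
lemma fact_rad (s p : ℕ) :
    (∏ q ∈ s.primeFactors, q).factorization p = if p ∈ s.primeFactors then 1 else 0 := by
  classical
  have h0 : ∀ q ∈ s.primeFactors, q ≠ 0 := fun q hq => (Nat.prime_of_mem_primeFactors hq).ne_zero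
  rw [Nat.factorization_prod h0, Finsupp.finset_sum_apply]
  have h1 : ∀ q ∈ s.primeFactors, q.factorization p = if q = p then 1 else 0 := by
    intro q hq
    rw [(Nat.prime_of_mem_primeFactors hq).factorization, Finsupp.single_apply]
  rw [Finset.sum_congr rfl h1, Finset.sum_ite_eq']

lemma rad_ne_zero (s : ℕ) : (∏ q ∈ s.primeFactors, q) ≠ 0 :=
  Finset.prod_ne_zero_iff.2 fun q hq => (Nat.prime_of_mem_primeFactors hq).ne_zero

lemma dvd_four_rad {s : ℕ} (hs : s ≠ 0)
    (h : ∀ p, p.Prime → s.factorization p ≤ (4 : ℕ).factorization p + 1) :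
    s ∣ 4 * ∏ p ∈ s.primeFactors, p := by
  rw [← Nat.factorization_prime_le_iff_dvd hs (mul_ne_zero (by norm_num) (rad_ne_zero s))]
  intro p hp
  rw [Nat.factorization_mul (by norm_num) (rad_ne_zero s), Finsupp.add_apply, fact_rad]
  by_cases hps : p ∈ s.primeFactors
  · rw [if_pos hps]; exact h p hp
  · have : s.factorization p = 0 := by
      rw [← Nat.support_factorization] at hps
      exact Finsupp.notMem_support_iff.1 hps
    rw [this]; exact Nat.zero_le _

lemma fact_le_of_dvd {r : ℕ} (hr : r ≠ 0) (h : r ∣ 4 * ∏ p ∈ r.primeFactors, p) (p : ℕ) :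
    r.factorization p ≤ (4 : ℕ).factorization p + 1 := by
  have h1 := (Nat.factorization_le_iff_dvd hr (mul_ne_zero (by norm_num) (rad_ne_zero r))).2 h p
  rw [Nat.factorization_mul (by norm_num) (rad_ne_zero r), Finsupp.add_apply, fact_rad] at h1
  refine h1.trans ?_
  gcongr
  split_ifs <;> norm_num

theorem rad_of_dvd_four (r g : ℕ) (hr : r ≠ 0) (hg : g ∣ r)
    (h : r ∣ 4 * ∏ p ∈ r.primeFactors, p) : r / g ≤ 4 * ∏ p ∈ (r / g).primeFactors, p := by
  have hs : r / g ≠ 0 := (Nat.div_pos (Nat.le_of_dvd (Nat.pos_of_ne_zero hr) hg)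
    (Nat.pos_of_dvd_of_pos hg (Nat.pos_of_ne_zero hr))).ne'
  refine Nat.le_of_dvd (Nat.pos_of_ne_zero (mul_ne_zero (by norm_num) (rad_ne_zero _))) ?_
  refine dvd_four_rad hs fun p _ => ?_
  exact ((Nat.factorization_le_iff_dvd hs hr).2 (Nat.div_dvd_of_dvd hg) p).trans
    (fact_le_of_dvd hr h p)

theorem rad_div (r g : ℕ) (hr : r ≠ 0) (hg : g ∣ r) :
    ∏ p ∈ r.primeFactors, p ≤ g * ∏ p ∈ (r / g).primeFactors, p := by
  classical
  have hg0 : g ≠ 0 := fun h => hr (by simpa [h] using hg)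
  have hs : r / g ≠ 0 := (Nat.div_pos (Nat.le_of_dvd (Nat.pos_of_ne_zero hr) hg)
    (Nat.pos_of_ne_zero hg0)).ne'
  have e : g * (r / g) = r := Nat.mul_div_cancel' hg
  have h1 : r.primeFactors = g.primeFactors ∪ (r / g).primeFactors := by
    rw [← Nat.primeFactors_mul hg0 hs, e]
  have h2 := Finset.prod_union_inter (s₁ := g.primeFactors) (s₂ := (r / g).primeFactors)
    (f := fun p : ℕ => p)
  have h3 : 1 ≤ ∏ p ∈ g.primeFactors ∩ (r / g).primeFactors, p :=
    Finset.prod_pos fun p hp =>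
      (Nat.prime_of_mem_primeFactors (Finset.mem_inter.1 hp).1).pos
  have h4 : ∏ p ∈ g.primeFactors, p ≤ g :=
    Nat.le_of_dvd (Nat.pos_of_ne_zero hg0) (Nat.prod_primeFactors_dvd g)
  calc ∏ p ∈ r.primeFactors, p = ∏ p ∈ g.primeFactors ∪ (r / g).primeFactors, p := by rw [h1]
    _ ≤ (∏ p ∈ g.primeFactors ∪ (r / g).primeFactors, p) *
        ∏ p ∈ g.primeFactors ∩ (r / g).primeFactors, p := Nat.le_mul_of_pos_right _ h3
    _ = (∏ p ∈ g.primeFactors, p) * ∏ p ∈ (r / g).primeFactors, p := h2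
    _ ≤ g * ∏ p ∈ (r / g).primeFactors, p := Nat.mul_le_mul_right _ h4

lemma one_add_pow_of_sq {R : Type*} [CommRing R] {x : R} (hx : x * x = 0) (n : ℕ) :
    (1 + x) ^ n = 1 + n * x := by
  induction n with
  | zero => simp
  | succ n ih =>
    rw [pow_succ, ih]
    push_cast
    linear_combination (n : R) * hx

/-- an element of the kernel of the reduction is `1 + d y` -/
lemma exists_eq_of_unitsMap {r d : ℕ} [NeZero r] (hd : d ∣ r) {u : (ZMod r)ˣ}
    (hu : u ∈ (ZMod.unitsMap hd).ker) : ∃ y : ZMod r, (u : ZMod r) = 1 + (d : ZMod r) * y := by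
  rw [MonoidHom.mem_ker] at hu
  have h1 : ZMod.castHom hd (ZMod d) (u : ZMod r) = 1 := by
    have := congrArg (fun v : (ZMod d)ˣ => (v : ZMod d)) hu
    simpa [ZMod.unitsMap_def] using this
  have h2 : ZMod.castHom hd (ZMod d) ((u : ZMod r) - 1) = 0 := by rw [map_sub, h1, map_one, sub_self]
  obtain ⟨k, hk⟩ := ZMod.natCast_zmod_surjective (n := r) ((u : ZMod r) - 1)
  rw [← hk, map_natCast, ZMod.natCast_eq_zero_iff] at h2
  obtain ⟨m, hm⟩ := h2
  refine ⟨(m : ZMod r), ?_⟩
  rw [← Nat.cast_mul, ← hm, hk]; ring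

lemma not_factors {r d : ℕ} [NeZero r] {χ : DirichletCharacter ℂ r} (hχ : χ.IsPrimitive)
    (hd : d ∣ r) (hlt : d < r) : ¬ (ZMod.unitsMap hd).ker ≤ χ.toUnitHom.ker := by
  intro h
  have h1 : χ.FactorsThrough d := (χ.factorsThrough_iff_ker_unitsMap hd).2 h
  have h2 : χ.conductor ≤ d := Nat.sInf_le h1
  rw [DirichletCharacter.isPrimitive_def] at hχ
  omega

lemma mem_ker_of {r : ℕ} {χ : DirichletCharacter ℂ r} {u : (ZMod r)ˣ} (h : χ (u : ZMod r) = 1) :
    u ∈ χ.toUnitHom.ker := by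
  rw [MonoidHom.mem_ker]
  ext
  rw [MulChar.coe_toUnitHom]
  simpa using h

lemma sq_eq_one {r : ℕ} {χ : DirichletCharacter ℂ r} (h2 : χ ^ 2 = 1) {w : ZMod r}
    (hw : IsUnit w) : χ w ^ 2 = 1 := by
  have := congrArg (fun c : DirichletCharacter ℂ r => c w) h2
  simpa [MulChar.pow_apply_coe, MulChar.one_apply hw, MulChar.pow_apply' _ (two_ne_zero)] using this

theorem real_cond {r : ℕ} (hr : 1 < r) {χ : DirichletCharacter ℂ r} (hχ : χ.IsPrimitive)
    (h2 : χ ^ 2 = 1) : r ∣ 4 * ∏ p ∈ r.primeFactors, p := by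
  have : NeZero r := ⟨by omega⟩
  have hr0 : r ≠ 0 := by omega
  refine dvd_four_rad hr0 fun p hp => ?_
  by_contra hcon
  rw [not_le] at hcon
  rcases eq_or_ne p 2 with rfl | hp2
  · -- p = 2, 16 ∣ r
    have h4 : (4 : ℕ).factorization 2 = 2 := by
      rw [show (4 : ℕ) = 2 ^ 2 by norm_num, Nat.factorization_pow]
      simp [Nat.prime_two.factorization]
    rw [h4] at hcon
    have h16 : 16 ∣ r := by
      have := (Nat.prime_two.pow_dvd_iff_le_factorization (k := 4) hr0).2 (by omega)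
      simpa using this
    obtain ⟨t, ht⟩ := h16
    have hd : 8 * t ∣ r := ⟨2, by omega⟩
    have ht0 : 0 < t := by
      rcases Nat.eq_zero_or_pos t with h | h
      · omega
      · exact h
    refine not_factors hχ hd (by omega) fun u hu => ?_
    obtain ⟨y, hy⟩ := exists_eq_of_unitsMap hd hu
    have hz : ((16 * t : ℕ) : ZMod r) = 0 := by
      rw [← ht]; exact ZMod.natCast_self r
    have hw : (1 + ((4 * t : ℕ) : ZMod r) * y) ^ 2 = (u : ZMod r) := by
      rw [hy]
      push_cast at hz ⊢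
      linear_combination (t : ZMod r) * y ^ 2 * hz
    have hwu : IsUnit (1 + ((4 * t : ℕ) : ZMod r) * y) := by
      rw [← isUnit_pow_iff (two_ne_zero), hw]; exact u.isUnit
    apply mem_ker_of
    rw [← hw, map_pow]
    exact sq_eq_one h2 hwu
  · have hodd : Odd p := hp.odd_of_ne_two hp2
    have h4 : (4 : ℕ).factorization p = 0 := by
      rw [show (4 : ℕ) = 2 ^ 2 by norm_num, Nat.factorization_pow]
      simp [Nat.prime_two.factorization, hp2.symm]
    rw [h4] at hcon
    have hpp : p ^ 2 ∣ r := (hp.pow_dvd_iff_le_factorization hr0).2 (by omega)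
    obtain ⟨t, ht⟩ := hpp
    have hd : p * t ∣ r := ⟨p, by rw [ht]; ring⟩
    have ht0 : 0 < t := by
      rcases Nat.eq_zero_or_pos t with h | h
      · rw [h] at ht; omega
      · exact h
    have hlt : p * t < r := by
      rw [ht]; nlinarith [hp.two_le, Nat.mul_pos hp.pos ht0]
    refine not_factors hχ hd hlt fun u hu => ?_
    obtain ⟨y, hy⟩ := exists_eq_of_unitsMap hd hu
    have hz : ((p ^ 2 * t : ℕ) : ZMod r) = 0 := by
      rw [← ht]; exact ZMod.natCast_self r
    have hx : (((p * t : ℕ) : ZMod r) * y) * (((p * t : ℕ) : ZMod r) * y) = 0 := by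
      push_cast at hz ⊢
      linear_combination (t : ZMod r) * y ^ 2 * hz
    have hpow : (u : ZMod r) ^ p = 1 := by
      rw [hy, one_add_pow_of_sq hx]
      push_cast at hz ⊢
      linear_combination y * hz
    have hs := sq_eq_one h2 u.isUnit
    have hp1 : χ (u : ZMod r) ^ p = 1 := by rw [← map_pow, hpow, map_one]
    apply mem_ker_of
    obtain ⟨k, hk⟩ := hodd
    rw [hk, pow_succ, pow_mul, hs, one_pow, one_mul] at hp1
    exact hp1

end Pool.Agent.PW
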