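import Pool.Agent.Work.MP_92f640_nt.PW.Rough
import Pool.Agent.Work.MP_92f640_nt.PW.Rankin
import Pool.Agent.Work.MP_92f640_nt.PW.LowerAux

/-! # RealLA: the trivial character over the rough integers away from `s = 1` -/

namespace Pool.Agent.PW

open Finset Pool.Agent.BV

noncomputable section

/-- the density of the integers without prime factor `≤ y` -/
def kap (y : ℕ) : ℝ := ∏ p ∈ prs y, (1 - 1 / (p : ℝ))

lemma kap_nonneg (y : ℕ) : 0 ≤ kap y := by
  unfold kap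
  refine prod_nonneg fun p hp => ?_
  have h1 := (mem_prs.1 hp).2.one_lt
  have h2 : (1 : ℝ) < p := by exact_mod_cast h1
  have : 1 / (p : ℝ) ≤ 1 := by rw [div_le_one (by linarith)]; exact h2.le
  linarith

lemma kap_le_one (y : ℕ) : kap y ≤ 1 := by
  unfold kap
  refine prod_le_one (fun p hp => ?_) (fun p hp => ?_)
  · have h1 := (mem_prs.1 hp).2.one_lt
    have h2 : (1 : ℝ) < p := by exact_mod_cast h1
    have : 1 / (p : ℝ) ≤ 1 := by rw [div_le_one (by linarith)]; exact h2.le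
    linarith
  · have : 0 ≤ 1 / (p : ℝ) := by positivity
    linarith

lemma kap_le : ∃ C : ℝ, 0 < C ∧ ∀ y : ℕ, 3 ≤ y → kap y ≤ C / Real.log y := by
  obtain ⟨C, hC0, hC⟩ := Work.MP_e4117e_nt.mertens2
  refine ⟨Real.exp C, Real.exp_pos _, fun y hy => ?_⟩
  have hy1 : (1 : ℝ) < y := by exact_mod_cast (by omega : 1 < y)
  have hl : 0 < Real.log y := Real.log_pos hy1
  have h1 := (abs_le.1 (hC y (by omega))).1
  have h2 : kap y ≤ Real.exp (-∑ p ∈ (Icc 0 y).filter Nat.Prime, (1 : ℝ) / p) := by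
    unfold kap
    rw [← sum_neg_distrib, Real.exp_sum]
    refine prod_le_prod (fun p hp => ?_) (fun p hp => ?_)
    · have h1 := (mem_prs.1 hp).2.one_lt
      have h2 : (1 : ℝ) < p := by exact_mod_cast h1
      have : 1 / (p : ℝ) ≤ 1 := by rw [div_le_one (by linarith)]; exact h2.le
      linarith
    · have := Real.add_one_le_exp (-(1 / (p : ℝ)))
      linarith
  refine h2.trans ?_
  calc Real.exp (-∑ p ∈ (Icc 0 y).filter Nat.Prime, (1 : ℝ) / p)
      ≤ Real.exp (C - Real.log (Real.log y)) := Real.exp_le_exp.2 (by linarith)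
    _ = Real.exp C / Real.log y := by rw [Real.exp_sub, Real.exp_log hl]

/-- the number of rough integers, exact error term -/
lemma bR_count_aux : ∃ C : ℝ, 0 < C ∧ ∀ y N : ℕ, 3 ≤ y → 1 ≤ N →
    ‖∑ n ∈ Icc 1 N, ((if ∀ p ∈ prs y, ¬ p ∣ n then (1 : ℂ) else 0) - (kap y : ℂ))‖ ≤
      Real.sqrt N + N * (C * (Real.log y) ^ 2 * (Real.sqrt N) ^ (-(1 / (2 * Real.log y)))) := by
  obtain ⟨C, hC0, hC⟩ := rankin_sum
  refine ⟨C, hC0, fun y N hy hN => ?_⟩
  have hS : ∀ p ∈ prs y, p.Prime := fun p hp => (mem_prs.1 hp).2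
  have hN1 : (1 : ℝ) ≤ N := by exact_mod_cast hN
  set D : ℝ := Real.sqrt N with hD
  have hD1 : 1 ≤ D := by
    rw [hD]; exact Real.one_le_sqrt.2 hN1
  have h1 := sieve_sum (1 : DirichletCharacter ℂ 1) y N
  have hone : ∀ n : ℕ, (1 : DirichletCharacter ℂ 1) (n : ZMod 1) = 1 := by
    intro n
    rw [Subsingleton.elim ((n : ℕ) : ZMod 1) 1, map_one]
  simp only [hone, sum_const, Nat.card_Icc, nsmul_eq_mul, mul_one, one_mul,
    Nat.add_sub_cancel] at h1
  have h2 : (kap y : ℂ) = ∑ T ∈ (prs y).powerset, (-1 : ℂ) ^ T.card *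
      (1 / ((∏ p ∈ T, p : ℕ) : ℂ)) := by
    unfold kap
    push_cast
    rw [show ∏ p ∈ prs y, ((1 : ℂ) - 1 / (p : ℂ)) = ∏ p ∈ prs y, (1 + (-1) * (1 / (p : ℂ))) by
      refine prod_congr rfl fun p _ => ?_
      ring, prod_one_add]
    refine sum_congr rfl fun T _ => ?_
    rw [prod_mul_distrib, prod_const, prod_div_distrib, prod_const_one]
  have h3 : ∑ n ∈ Icc 1 N, ((if ∀ p ∈ prs y, ¬ p ∣ n then (1 : ℂ) else 0) - (kap y : ℂ)) =
      ∑ T ∈ (prs y).powerset, (-1 : ℂ) ^ T.card *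
        (((N / ∏ p ∈ T, p : ℕ) : ℂ) - (N : ℂ) / ((∏ p ∈ T, p : ℕ) : ℂ)) := by
    rw [sum_sub_distrib, h1, sum_const, Nat.card_Icc, Nat.add_sub_cancel, nsmul_eq_mul, h2,
      mul_sum, ← sum_sub_distrib]
    refine sum_congr rfl fun T _ => ?_
    ring
  rw [h3]
  refine (norm_sum_le _ _).trans ?_
  have hterm : ∀ T : Finset ℕ, ‖(-1 : ℂ) ^ T.card *
        (((N / ∏ p ∈ T, p : ℕ) : ℂ) - (N : ℂ) / ((∏ p ∈ T, p : ℕ) : ℂ))‖ =
        |((N / ∏ p ∈ T, p : ℕ) : ℝ) - (N : ℝ) / ((∏ p ∈ T, p : ℕ) : ℝ)| := by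
    intro T
    rw [norm_mul, norm_pow, norm_neg, norm_one, one_pow, one_mul, ← Real.norm_eq_abs,
      ← Complex.norm_real]
    push_cast
    rfl
  simp only [hterm]
  rw [← sum_filter_add_sum_filter_not (prs y).powerset
    (fun T => D ≤ ((∏ p ∈ T, p : ℕ) : ℝ)), add_comm]
  refine add_le_add ?_ ?_
  · -- small divisors
    have h4 : ∀ T ∈ (prs y).powerset.filter (fun T => ¬ D ≤ ((∏ p ∈ T, p : ℕ) : ℝ)),
        |((N / ∏ p ∈ T, p : ℕ) : ℝ) - (N : ℝ) / ((∏ p ∈ T, p : ℕ) : ℝ)| ≤ 1 := by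
      intro T hT
      obtain ⟨hT1, -⟩ := mem_filter.1 hT
      have hpos : 0 < ∏ p ∈ T, p := prod_pos fun p hp => (hS p (mem_powerset.1 hT1 hp)).pos
      have hpos' : (0 : ℝ) < ((∏ p ∈ T, p : ℕ) : ℝ) := by exact_mod_cast hpos
      have h5 : ((N / ∏ p ∈ T, p : ℕ) : ℝ) ≤ (N : ℝ) / ((∏ p ∈ T, p : ℕ) : ℝ) := Nat.cast_div_le
      have h6 : (N : ℝ) / ((∏ p ∈ T, p : ℕ) : ℝ) < ((N / ∏ p ∈ T, p : ℕ) : ℝ) + 1 := by
        rw [div_lt_iff₀ hpos']
        have h6 := Nat.lt_div_mul_add hpos (a := N)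
        have h7 : (N : ℝ) < ((N / ∏ p ∈ T, p : ℕ) : ℝ) * ((∏ p ∈ T, p : ℕ) : ℝ) +
          ((∏ p ∈ T, p : ℕ) : ℝ) := by exact_mod_cast h6
        linarith
      rw [abs_le]
      constructor <;> linarith
    refine (sum_le_sum h4).trans ?_
    rw [sum_const, nsmul_eq_mul, mul_one]
    have h5 : ((prs y).powerset.filter (fun T => ¬ D ≤ ((∏ p ∈ T, p : ℕ) : ℝ))).card ≤
        (Icc 1 ⌊D⌋₊).card := by
      refine card_le_card_of_injOn (fun T => ∏ p ∈ T, p) (fun T hT => ?_) ?_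
      · rw [mem_coe, mem_filter] at hT
        obtain ⟨hT1, hT2⟩ := hT
        push Not at hT2
        rw [mem_coe, mem_Icc]
        exact ⟨Nat.succ_le_of_lt (prod_pos fun p hp => (hS p (mem_powerset.1 hT1 hp)).pos),
          Nat.le_floor hT2.le⟩
      · intro T hT T' hT' h
        rw [mem_coe, mem_filter] at hT hT'
        exact prod_primes_inj (fun p hp => hS p (mem_powerset.1 hT.1 hp))
          (fun p hp => hS p (mem_powerset.1 hT'.1 hp)) h
    rw [Nat.card_Icc, Nat.add_sub_cancel] at h5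
    calc (((prs y).powerset.filter (fun T => ¬ D ≤ ((∏ p ∈ T, p : ℕ) : ℝ))).card : ℝ)
        ≤ (⌊D⌋₊ : ℝ) := by exact_mod_cast h5
      _ ≤ D := Nat.floor_le (by linarith)
  · refine le_trans ?_ (mul_le_mul_of_nonneg_left (hC y hy D (by linarith)) (by linarith))
    rw [mul_sum]
    refine sum_le_sum fun T hT => ?_
    have h5 : ((N / ∏ p ∈ T, p : ℕ) : ℝ) ≤ (N : ℝ) / ((∏ p ∈ T, p : ℕ) : ℝ) := Nat.cast_div_le
    have h6 : (0 : ℝ) ≤ ((N / ∏ p ∈ T, p : ℕ) : ℝ) := Nat.cast_nonneg _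
    rw [abs_le, mul_one_div]
    constructor <;> linarith

/-- the indicator of the rough integers minus its mean -/
def bR (y n : ℕ) : ℂ := (if ∀ p ∈ prs y, ¬ p ∣ n then (1 : ℂ) else 0) - (kap y : ℂ)

lemma bR_norm (y n : ℕ) : ‖bR y n‖ ≤ 1 := by
  unfold bR
  have h0 := kap_nonneg y
  have h1 := kap_le_one y
  split_ifs
  · rw [← Complex.ofReal_one, ← Complex.ofReal_sub, Complex.norm_real, Real.norm_eq_abs, abs_le]
    constructor <;> linarith
  · rw [zero_sub, norm_neg, Complex.norm_real, Real.norm_eq_abs, abs_le]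
    constructor <;> linarith

lemma bR_count : ∃ y₁ : ℕ, ∀ y N : ℕ, y₁ ≤ y →
    ‖∑ n ∈ Icc 1 N, bR y n‖ ≤
      N * (Real.log y) ^ 5 * Real.exp (-(Real.log N / (4 * Real.log y))) := by
  obtain ⟨C, hC0, hC⟩ := bR_count_aux
  have hev : ∀ᶠ y : ℕ in Filter.atTop, C + 1 ≤ Real.log y :=
    (Real.tendsto_log_atTop.comp tendsto_natCast_atTop_atTop).eventually_ge_atTop _
  obtain ⟨y₀, hy₀⟩ := Filter.eventually_atTop.1 hev
  refine ⟨max y₀ 3, fun y N hy => ?_⟩
  have hy3 : 3 ≤ y := (le_max_right _ _).trans hy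
  have hl := hy₀ y ((le_max_left _ _).trans hy)
  rcases Nat.eq_zero_or_pos N with rfl | hN
  · simp
  have h1 := hC y N hy3 hN
  set l := Real.log y with hldef
  have hN1 : (1 : ℝ) ≤ N := by exact_mod_cast hN
  have hN0 : (0 : ℝ) < N := by linarith
  have hl1 : 1 ≤ l := by linarith
  have hl0 : 0 < l := by linarith
  have e1 : (Real.sqrt N) ^ (-(1 / (2 * l))) = Real.exp (-(Real.log N / (4 * l))) := by
    rw [Real.rpow_def_of_pos (Real.sqrt_pos.2 hN0), Real.log_sqrt hN0.le]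
    congr 1
    field_simp
    ring
  have e2 : Real.sqrt N ≤ N * Real.exp (-(Real.log N / (4 * l))) := by
    have h2 : Real.sqrt N = N * Real.exp (-(Real.log N / 2)) := by
      have h3 : Real.sqrt N * Real.sqrt N = N := Real.mul_self_sqrt hN0.le
      have h4 : Real.exp (-(Real.log N / 2)) = (Real.sqrt N)⁻¹ := by
        rw [Real.exp_neg, Real.exp_half, Real.exp_log hN0]
      rw [h4]
      have h5 : 0 < Real.sqrt N := Real.sqrt_pos.2 hN0
      field_simp
      rw [sq, h3]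
    rw [h2]
    apply mul_le_mul_of_nonneg_left _ hN0.le
    apply Real.exp_le_exp.2
    apply neg_le_neg
    have h6 : 0 ≤ Real.log N := Real.log_nonneg hN1
    apply div_le_div_of_nonneg_left h6 (by norm_num)
    linarith
  rw [e1] at h1
  set E := Real.exp (-(Real.log N / (4 * l))) with hE
  have hE0 : 0 < E := Real.exp_pos _
  have h2 : (1 + C * l ^ 2) ≤ l ^ 5 := by
    have h3 : (1 + C * l ^ 2) ≤ (1 + C) * l ^ 2 := by nlinarith
    have h4 : (1 + C) * l ^ 2 ≤ l * l ^ 2 := by gcongr; linarith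
    have h5 : l * l ^ 2 ≤ l ^ 5 := by
      calc l * l ^ 2 = l ^ 3 := by ring
        _ ≤ l ^ 5 := pow_le_pow_right₀ hl1 (by norm_num)
    linarith
  unfold bR
  calc _ ≤ Real.sqrt N + N * (C * l ^ 2 * E) := h1
    _ ≤ N * E + N * (C * l ^ 2 * E) := by linarith
    _ = N * (1 + C * l ^ 2) * E := by ring
    _ ≤ N * l ^ 5 * E := by gcongr

/-- the tail of a Dirichlet series -/
lemma bR_tail {l : ℝ} (hl : 1 ≤ l) (a : ℕ → ℂ)
    (ha : ∀ N : ℕ, ‖∑ n ∈ Icc 1 N, a n‖ ≤ N * l ^ 5 * Real.exp (-(Real.log N / (4 * l))))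
    {s : ℂ} (hs : 1 < s.re) (hs2 : s.re ≤ 2) {Z M : ℕ} (hZ : 3 ≤ Z) (hZM : Z ≤ M)
    (hZW : 60 * (Real.log l + Real.log (|s.im| + 3)) * l ≤ Real.log Z) :
    ‖∑ n ∈ Ioc Z M, a n * (n : ℂ) ^ (-s)‖ ≤ 34 := by
  have hl0 : 0 < l := by linarith
  set δ : ℝ := 1 / (4 * l) with hδ
  have hδ0 : 0 < δ := by positivity
  have hδ1 : δ ≤ 1 / 4 := by
    rw [hδ]
    apply one_div_le_one_div_of_le (by norm_num)
    linarith
  have hZ0 : (0 : ℝ) < Z := by exact_mod_cast (by omega : 0 < Z)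
  have hpart : ∀ N : ℕ, 1 ≤ N → ‖∑ n ∈ Icc 1 N, a n‖ ≤ l ^ 5 * (N : ℝ) ^ (1 - δ) := by
    intro N hN
    have hN0 : (0 : ℝ) < N := by exact_mod_cast hN
    refine (ha N).trans (le_of_eq ?_)
    have h1 : (N : ℝ) ^ (1 - δ) = N * Real.exp (-(Real.log N / (4 * l))) := by
      rw [Real.rpow_sub hN0, Real.rpow_one, Real.rpow_def_of_pos hN0, div_eq_mul_inv,
        ← Real.exp_neg]
      congr 3
      rw [hδ]
      ring
    rw [h1]
    ring
  have hdiff : ∀ n, Z ≤ n → ‖∑ k ∈ Ioc Z n, a k‖ ≤ 2 * l ^ 5 * (n : ℝ) ^ (1 - δ) := by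
    intro n hn
    have h1 : ∑ k ∈ Ioc Z n, a k = ∑ k ∈ Icc 1 n, a k - ∑ k ∈ Icc 1 Z, a k := by
      have h2 : ∑ k ∈ Ioc 0 Z, a k + ∑ k ∈ Ioc Z n, a k = ∑ k ∈ Ioc 0 n, a k :=
        sum_Ioc_consecutive _ (Nat.zero_le _) hn
      have h3 : ∀ m : ℕ, Ioc 0 m = Icc 1 m := by
        intro m; ext; simp only [mem_Ioc, mem_Icc]; omega
      rw [h3, h3] at h2
      rw [← h2]; ring
    rw [h1]
    refine (norm_sub_le _ _).trans ?_
    have h4 := hpart n (by omega)
    have h5 := hpart Z (by omega)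
    have h6 : (Z : ℝ) ^ (1 - δ) ≤ (n : ℝ) ^ (1 - δ) :=
      Real.rpow_le_rpow hZ0.le (by exact_mod_cast hn) (by linarith)
    have h7 : l ^ 5 * (Z : ℝ) ^ (1 - δ) ≤ l ^ 5 * (n : ℝ) ^ (1 - δ) := by gcongr
    linarith
  set g : ℕ → ℂ := LBound_g 0 s with hg
  have hgeq : ∀ n : ℕ, (n : ℂ) ^ (-s) = g n := by
    intro n; rw [hg]; unfold LBound_g; simp
  simp only [hgeq]
  rw [LBound_abel a g Z M hZM]
  refine (norm_sub_le _ _).trans ?_
  -- the saving
  set E : ℝ := (Z : ℝ) ^ (-(δ / 2)) with hE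
  have hE0 : 0 < E := Real.rpow_pos_of_pos hZ0 _
  have ht : 0 ≤ |s.im| := abs_nonneg _
  have hEle : E ≤ (l * (|s.im| + 3))⁻¹ ^ 7 := by
    have h1 : E = Real.exp (-(Real.log Z / (8 * l))) := by
      rw [hE, Real.rpow_def_of_pos hZ0]
      congr 1
      rw [hδ]
      field_simp
      ring
    have hpos : 0 < l * (|s.im| + 3) := by positivity
    have h2 : (l * (|s.im| + 3))⁻¹ ^ 7 =
        Real.exp (-(7 * (Real.log l + Real.log (|s.im| + 3)))) := by
      rw [← Real.log_mul hl0.ne' (by positivity), Real.exp_neg, inv_pow]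
      congr 1
      rw [show (7 : ℝ) * Real.log (l * (|s.im| + 3)) =
        ((7 : ℕ) : ℝ) * Real.log (l * (|s.im| + 3)) by norm_num, Real.exp_nat_mul,
        Real.exp_log hpos]
    rw [h1, h2]
    apply Real.exp_le_exp.2
    apply neg_le_neg
    rw [le_div_iff₀ (by positivity)]
    have h3 : 0 ≤ (Real.log l + Real.log (|s.im| + 3)) * l := by
      have h4 : 0 ≤ Real.log l := Real.log_nonneg hl
      have h5 : 0 ≤ Real.log (|s.im| + 3) := Real.log_nonneg (by linarith)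
      positivity
    nlinarith
  have hE1 : E ≤ 1 := by
    rw [hE]
    apply Real.rpow_le_one_of_one_le_of_nonpos
    · exact_mod_cast (by omega : 1 ≤ Z)
    · linarith
  have hsn : ‖s‖ ≤ |s.im| + 3 := by
    have := Complex.norm_le_abs_re_add_abs_im s
    rw [abs_of_pos (by linarith : (0 : ℝ) < s.re)] at this
    linarith
  have hfirst : ‖(∑ n ∈ Ioc Z M, a n) * g (M + 1)‖ ≤ 2 * l ^ 5 * E := by
    rw [norm_mul]
    have h1 := hdiff M hZM
    have h2 := LBound_g_norm 0 hs.le (n := M + 1) (by omega)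
    rw [pow_zero] at h2
    have hM0 : (0 : ℝ) < M := hZ0.trans_le (by exact_mod_cast hZM)
    have h3 : (M : ℝ) ^ (1 - δ) * (1 / ((M + 1 : ℕ) : ℝ)) ≤ E := by
      have h4 : (1 : ℝ) / ((M + 1 : ℕ) : ℝ) ≤ (M : ℝ) ^ (-1 : ℝ) := by
        rw [Real.rpow_neg_one, ← one_div]
        apply one_div_le_one_div_of_le hM0
        push_cast; linarith
      calc (M : ℝ) ^ (1 - δ) * (1 / ((M + 1 : ℕ) : ℝ)) ≤ (M : ℝ) ^ (1 - δ) * (M : ℝ) ^ (-1 : ℝ) := by
            gcongr
        _ = (M : ℝ) ^ (-δ) := by rw [← Real.rpow_add hM0]; congr 1; ring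
        _ ≤ (M : ℝ) ^ (-(δ / 2)) := by
            apply Real.rpow_le_rpow_of_exponent_le
            · exact_mod_cast (by omega : 1 ≤ M)
            · linarith
        _ ≤ E := by
            rw [hE, Real.rpow_neg hM0.le, Real.rpow_neg hZ0.le]
            apply inv_anti₀ (Real.rpow_pos_of_pos hZ0 _)
            exact Real.rpow_le_rpow hZ0.le (by exact_mod_cast hZM) (by linarith)
    calc ‖∑ n ∈ Ioc Z M, a n‖ * ‖g (M + 1)‖
        ≤ (2 * l ^ 5 * (M : ℝ) ^ (1 - δ)) * (1 / ((M + 1 : ℕ) : ℝ)) := by gcongr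
      _ = 2 * l ^ 5 * ((M : ℝ) ^ (1 - δ) * (1 / ((M + 1 : ℕ) : ℝ))) := by ring
      _ ≤ 2 * l ^ 5 * E := by gcongr
  have hsecond : ‖∑ n ∈ Ioc Z M, (∑ k ∈ Ioc Z n, a k) * (g (n + 1) - g n)‖ ≤
      2 * l ^ 5 * ‖s‖ * (16 * l * E) := by
    refine (norm_sum_le _ _).trans ?_
    have h1 : ∀ n ∈ Ioc Z M, ‖(∑ k ∈ Ioc Z n, a k) * (g (n + 1) - g n)‖ ≤
        2 * l ^ 5 * ‖s‖ * E * (1 / (n : ℝ) ^ (1 + δ / 2)) := by
      intro n hn
      rw [mem_Ioc] at hn
      have hn0 : (0 : ℝ) < n := hZ0.trans (by exact_mod_cast hn.1)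
      rw [norm_mul]
      have h2 := hdiff n hn.1.le
      have h3 := LBound_g_diff 0 hs (n := n) (by omega)
      simp only [pow_zero, mul_one, Nat.cast_zero, add_zero] at h3
      have h4 : (n : ℝ) ^ (1 - δ) * (1 / (n : ℝ) ^ 2) ≤ E * (1 / (n : ℝ) ^ (1 + δ / 2)) := by
        have h5 : (1 : ℝ) / (n : ℝ) ^ 2 = (n : ℝ) ^ (-2 : ℝ) := by
          rw [Real.rpow_neg hn0.le, one_div, Real.rpow_ofNat]
        have h6 : (1 : ℝ) / (n : ℝ) ^ (1 + δ / 2) = (n : ℝ) ^ (-(1 + δ / 2)) := by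
          rw [Real.rpow_neg hn0.le, one_div]
        rw [h5, h6, ← Real.rpow_add hn0]
        have h7 : (n : ℝ) ^ (1 - δ + -2) = (n : ℝ) ^ (-(δ / 2)) * (n : ℝ) ^ (-(1 + δ / 2)) := by
          rw [← Real.rpow_add hn0]; congr 1; ring
        rw [h7]
        apply mul_le_mul_of_nonneg_right _ (Real.rpow_nonneg hn0.le _)
        rw [hE, Real.rpow_neg hn0.le, Real.rpow_neg hZ0.le]
        apply inv_anti₀ (Real.rpow_pos_of_pos hZ0 _)
        exact Real.rpow_le_rpow hZ0.le (by exact_mod_cast hn.1.le) (by linarith)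
      calc ‖∑ k ∈ Ioc Z n, a k‖ * ‖g (n + 1) - g n‖
          ≤ (2 * l ^ 5 * (n : ℝ) ^ (1 - δ)) * (‖s‖ / (n : ℝ) ^ 2) := by gcongr
        _ = 2 * l ^ 5 * ‖s‖ * ((n : ℝ) ^ (1 - δ) * (1 / (n : ℝ) ^ 2)) := by ring
        _ ≤ 2 * l ^ 5 * ‖s‖ * (E * (1 / (n : ℝ) ^ (1 + δ / 2))) := by gcongr
        _ = _ := by ring
    refine (sum_le_sum h1).trans ?_
    rw [← mul_sum]
    have h2 : ∑ n ∈ Ioc Z M, 1 / (n : ℝ) ^ (1 + δ / 2) ≤ 16 * l := by
      have h3 := lower_zeta (σ := 1 + δ / 2) (by linarith) (by linarith)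
      have h4 : 2 / (1 + δ / 2 - 1) = 16 * l := by
        rw [hδ]; field_simp; ring
      rw [h4] at h3
      refine le_trans ?_ h3
      exact (Real.summable_one_div_nat_rpow.2 (by linarith)).sum_le_tsum _
        (fun n _ => by positivity)
    calc 2 * l ^ 5 * ‖s‖ * E * ∑ n ∈ Ioc Z M, 1 / (n : ℝ) ^ (1 + δ / 2)
        ≤ 2 * l ^ 5 * ‖s‖ * E * (16 * l) := by gcongr
      _ = _ := by ring
  have hfin : 2 * l ^ 5 * E + 2 * l ^ 5 * ‖s‖ * (16 * l * E) ≤ 34 := by
    have hT : 3 ≤ |s.im| + 3 := by linarith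
    set T := |s.im| + 3 with hTdef
    have h1 : 2 * l ^ 5 * E ≤ 2 * l ^ 6 * T * E := by
      have : l ^ 5 ≤ l ^ 6 * T := by
        calc l ^ 5 ≤ l ^ 6 := pow_le_pow_right₀ hl (by norm_num)
          _ ≤ l ^ 6 * T := le_mul_of_one_le_right (by positivity) (by linarith)
      nlinarith
    have h2 : 2 * l ^ 5 * ‖s‖ * (16 * l * E) ≤ 32 * l ^ 6 * T * E := by
      calc 2 * l ^ 5 * ‖s‖ * (16 * l * E) = 32 * l ^ 6 * ‖s‖ * E := by ring
        _ ≤ 32 * l ^ 6 * T * E := by gcongr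
    have h3 : l ^ 6 * T * E ≤ 1 := by
      calc l ^ 6 * T * E ≤ l ^ 6 * T * (l * T)⁻¹ ^ 7 := by gcongr
        _ = (l * T ^ 6)⁻¹ := by
            field_simp
        _ ≤ 1 := by
            apply inv_le_one_of_one_le₀
            exact one_le_mul_of_one_le_of_one_le hl (one_le_pow₀ (by linarith))
    nlinarith
  linarith

/-- the harmonic sum over the integers coprime to `R` -/
lemma bR_head {y R : ℕ} (hy : 3 ≤ y) (hp : ∀ p : ℕ, p.Prime → p ≤ y → p ∣ R) {Z : ℕ}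
    (hZ : 3 ≤ Z) :
    ∑ n ∈ Ioc 0 Z, (if n.Coprime R then 1 / (n : ℝ) else 0) ≤
      18 * (1 + Real.log Z / Real.log y) := by
  have hZ0 : (0 : ℝ) < Z := by exact_mod_cast (by omega : 0 < Z)
  have hlZ : 1 ≤ Real.log Z := by
    rw [Real.le_log_iff_exp_le hZ0]
    have h3 := Real.exp_one_lt_d9
    have h4 : (3 : ℝ) ≤ Z := by exact_mod_cast hZ
    linarith
  set τ : ℝ := 1 / Real.log Z with hτ
  have hτ0 : 0 < τ := by positivity
  have hτ1 : τ ≤ 1 := by rw [hτ, div_le_one (by linarith)]; exact hlZ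
  have h1 := roughZ_le hy hp (σ := 1 + τ) (by linarith) (by linarith)
  rw [add_sub_cancel_left] at h1
  have h2 : ∑ n ∈ Ioc 0 Z, (if n.Coprime R then 1 / (n : ℝ) else 0) ≤
      Real.exp 1 * ∑ n ∈ Ioc 0 Z, (if n.Coprime R then 1 / (n : ℝ) ^ (1 + τ) else 0) := by
    rw [mul_sum]
    refine sum_le_sum fun n hn => ?_
    rw [mem_Ioc] at hn
    have hn0 : (0 : ℝ) < n := by exact_mod_cast hn.1
    have hnZ : (n : ℝ) ≤ Z := by exact_mod_cast hn.2
    split_ifs
    · have h3 : (n : ℝ) ^ (1 + τ) ≤ n * Real.exp 1 := by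
        rw [Real.rpow_add hn0, Real.rpow_one]
        apply mul_le_mul_of_nonneg_left _ hn0.le
        calc (n : ℝ) ^ τ ≤ (Z : ℝ) ^ τ := Real.rpow_le_rpow hn0.le hnZ hτ0.le
          _ = Real.exp 1 := by
            rw [Real.rpow_def_of_pos hZ0, hτ, mul_one_div, div_self (by linarith)]
      rw [mul_one_div, div_le_div_iff₀ hn0 (by positivity)]
      linarith
    · simp
  have h3 : ∑ n ∈ Ioc 0 Z, (if n.Coprime R then 1 / (n : ℝ) ^ (1 + τ) else 0) ≤
      roughZ R (1 + τ) := by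
    unfold roughZ
    have h4 := (roughZ_summable R (σ := 1 + τ) (by linarith)).sum_le_tsum (Ioc 0 Z)
      (fun n _ => by
        split_ifs
        · positivity
        · exact le_rfl)
    convert h4 using 2
  have h5 := Real.exp_one_lt_d9
  have h6 : 1 / (τ * Real.log y) = Real.log Z / Real.log y := by
    rw [hτ]
    field_simp
  rw [h6] at h1
  have hy0 : (1 : ℝ) < y := by exact_mod_cast (by omega : 1 < y)
  have hly : 0 < Real.log y := Real.log_pos hy0
  have h7 : 0 ≤ Real.log Z / Real.log y := by positivity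
  have h8 : 0 ≤ roughZ R (1 + τ) := roughZ_nonneg _ _
  calc _ ≤ Real.exp 1 * roughZ R (1 + τ) := h2.trans (mul_le_mul_of_nonneg_left h3 (Real.exp_pos _).le)
    _ ≤ 3 * (6 * (1 + Real.log Z / Real.log y)) := by
        apply mul_le_mul (by linarith) h1 h8 (by norm_num)
    _ = _ := by ring

lemma coprime_iff_prs {y R : ℕ} (hR : RM y R) (n : ℕ) :
    (∀ p ∈ prs y, ¬ p ∣ n) ↔ n.Coprime R := by
  constructor
  · intro h
    rw [Nat.coprime_iff_gcd_eq_one]
    by_contra hne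
    obtain ⟨p, hpp, hpd⟩ := Nat.exists_prime_and_dvd hne
    have hpa : p ∣ n := hpd.trans (Nat.gcd_dvd_left _ _)
    have hpm : p ∣ R := hpd.trans (Nat.gcd_dvd_right _ _)
    exact h p (mem_prs.2 ⟨(hR.iff p hpp).1 hpm, hpp⟩) hpa
  · intro h p hp hpn
    obtain ⟨h1, h2⟩ := mem_prs.1 hp
    have := Nat.dvd_gcd hpn ((hR.iff p h2).2 h1)
    rw [h] at this
    exact h2.one_lt.ne' (Nat.dvd_one.1 this)

lemma triv_char_eq {y R : ℕ} (hR : RM y R) (n : ℕ) :
    (1 : DirichletCharacter ℂ R) (n : ZMod R) = if ∀ p ∈ prs y, ¬ p ∣ n then (1 : ℂ) else 0 := by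
  split_ifs with h
  · rw [coprime_iff_prs hR] at h
    exact MulChar.one_apply ((ZMod.isUnit_iff_coprime n R).2 h)
  · rw [coprime_iff_prs hR] at h
    exact MulChar.map_nonunit _ (fun h' => h ((ZMod.isUnit_iff_coprime n R).1 h'))

/-- the trivial character over the rough integers -/
theorem zeta_off : ∃ C : ℝ, 0 < C ∧ ∃ y₁ : ℕ, ∀ y R : ℕ, y₁ ≤ y → RM y R → ∀ [NeZero R],
    ∀ s : ℂ, 1 < s.re → s.re ≤ 2 →
    ‖(1 : DirichletCharacter ℂ R).LFunction s‖ ≤
      C * (WW y s.im + 1 / (‖s - 1‖ * Real.log y)) := by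
  obtain ⟨y₀, hcount⟩ := bR_count
  obtain ⟨Ck, hCk0, hCk⟩ := kap_le
  obtain ⟨Cz, hCz0, hCz⟩ := Lser_triv_bound
  have hev : ∀ᶠ y : ℕ in Filter.atTop, (3 : ℝ) ≤ Real.log y :=
    (Real.tendsto_log_atTop.comp tendsto_natCast_atTop_atTop).eventually_ge_atTop _
  obtain ⟨y₂, hy₂⟩ := Filter.eventually_atTop.1 hev
  refine ⟨Ck * Cz + 1116 + 62 * Ck + 34, by positivity, max (max y₀ y₂) 3, ?_⟩
  intro y R hy hR _ s hs hs2
  have hy3 : 3 ≤ y := (le_max_right _ _).trans hy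
  have hy0' : y₀ ≤ y := ((le_max_left _ _).trans (le_max_left _ _)).trans hy
  have hl3 := hy₂ y (((le_max_right _ _).trans (le_max_left _ _)).trans hy)
  set l := Real.log y with hl
  have hl1 : 1 ≤ l := by linarith
  have hl0 : 0 < l := by linarith
  have ht : 0 ≤ |s.im| := abs_nonneg _
  have hlogl : 1 ≤ Real.log l := by
    rw [Real.le_log_iff_exp_le hl0]
    have h3 := Real.exp_one_lt_d9
    linarith
  have hlogt : 1 ≤ Real.log (|s.im| + 3) := by
    rw [Real.le_log_iff_exp_le (by linarith)]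
    have h3 := Real.exp_one_lt_d9
    linarith
  set W := WW y s.im with hW
  have hWeq : W = Real.log l + Real.log (|s.im| + 3) := rfl
  have hW2 : 2 ≤ W := by rw [hWeq]; linarith
  have hp : ∀ p : ℕ, p.Prime → p ≤ y → p ∣ R := fun p h1 h2 => (hR.iff p h1).2 h2
  set K : ℝ := 1116 + 62 * Ck + 34 with hK
  -- the series of `bR`
  have hbsum : LSeriesSummable (fun n => bR y n) s := by
    refine LSeriesSummable_of_bounded_of_one_lt_re (m := 1) (fun n _ => bR_norm y n) hs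
  obtain ⟨Z, hZ1, hZ2, hZ3⟩ : ∃ Z : ℕ, 3 ≤ Z ∧ 60 * W * l ≤ Real.log Z ∧
      Real.log Z ≤ 61 * W * l := by
    have hWl : 6 ≤ W * l := by nlinarith
    have h1 : 3 ≤ Real.exp (60 * W * l) := by
      have := Real.add_one_le_exp (60 * W * l)
      nlinarith
    have h2 := Nat.le_ceil (Real.exp (60 * W * l))
    have h3 := Nat.ceil_lt_add_one (a := Real.exp (60 * W * l)) (by positivity)
    refine ⟨⌈Real.exp (60 * W * l)⌉₊, by exact_mod_cast h1.trans h2, ?_, ?_⟩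
    · rw [Real.le_log_iff_exp_le (by linarith)]
      exact h2
    · rw [Real.log_le_iff_le_exp (by linarith)]
      calc (⌈Real.exp (60 * W * l)⌉₊ : ℝ) ≤ Real.exp (60 * W * l) + 1 := h3.le
        _ ≤ Real.exp (60 * W * l) * Real.exp (W * l) := by
            have h4 : 2 ≤ Real.exp (W * l) := by
              have := Real.add_one_le_exp (W * l)
              linarith
            nlinarith
        _ = Real.exp (61 * W * l) := by rw [← Real.exp_add]; congr 1; ring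
  have hkap := hCk y hy3
  have hkap0 := kap_nonneg y
  have hZ0 : (0 : ℝ) < Z := by exact_mod_cast (by omega : 0 < Z)
  have hbL : ‖LSeries (fun n => bR y n) s‖ ≤ K * W := by
    refine LBound_le_of_partial hbsum Z ?_
    intro M hM
    rw [← Finset.sum_Ioc_consecutive _ (Nat.zero_le Z) hM]
    refine (norm_add_le _ _).trans ?_
    have h1 := bR_tail hl1 (fun n => bR y n) (fun N => hcount y N hy0') hs hs2 hZ1 hM
      (by rw [hWeq] at hZ2; exact hZ2)
    have h2 : ‖∑ n ∈ Ioc 0 Z, bR y n * (n : ℂ) ^ (-s)‖ ≤ (1116 + 62 * Ck) * W := by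
      have h3 := bR_head hy3 hp hZ1
      have h4 := LBound_harm Z
      have h5 : ∀ n ∈ Ioc 0 Z, ‖bR y n * (n : ℂ) ^ (-s)‖ ≤
          (if n.Coprime R then 1 / (n : ℝ) else 0) + kap y * (1 / (n : ℝ)) := by
        intro n hn
        rw [mem_Ioc] at hn
        have hn0 : (0 : ℝ) < n := by exact_mod_cast hn.1
        have h6 := LBound_cpow_norm hs.le (n := n) hn.1
        rw [norm_mul]
        have h7 : ‖bR y n‖ ≤ (if n.Coprime R then 1 else 0) + kap y := by
          unfold bR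
          refine (norm_sub_le _ _).trans ?_
          have h8 : ‖(kap y : ℂ)‖ = kap y := by
            rw [Complex.norm_real, Real.norm_of_nonneg hkap0]
          rw [h8]
          apply add_le_add _ le_rfl
          by_cases h9 : ∀ p ∈ prs y, ¬ p ∣ n
          · rw [if_pos h9, if_pos ((coprime_iff_prs hR n).1 h9), norm_one]
          · rw [if_neg h9, if_neg (fun h => h9 ((coprime_iff_prs hR n).2 h)), norm_zero]
        calc ‖bR y n‖ * ‖(n : ℂ) ^ (-s)‖ ≤ ((if n.Coprime R then 1 else 0) + kap y) * (1 / (n : ℝ)) := by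
              apply mul_le_mul h7 h6 (norm_nonneg _)
              split_ifs <;> linarith
          _ = _ := by split_ifs <;> ring
      refine (norm_sum_le _ _).trans ((sum_le_sum h5).trans ?_)
      rw [sum_add_distrib, ← mul_sum]
      have h6 : Real.log Z / l ≤ 61 * W := by
        rw [div_le_iff₀ hl0]
        exact hZ3
      have h7 : kap y * ∑ n ∈ Ioc 0 Z, 1 / (n : ℝ) ≤ 62 * Ck * W := by
        calc kap y * ∑ n ∈ Ioc 0 Z, 1 / (n : ℝ) ≤ (Ck / l) * (1 + 61 * W * l) := by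
              apply mul_le_mul hkap (by linarith) _ (by positivity)
              exact sum_nonneg fun n _ => by positivity
          _ = Ck / l + 61 * Ck * W := by field_simp
          _ ≤ Ck + 61 * Ck * W := by
              have : Ck / l ≤ Ck := div_le_self hCk0.le hl1
              linarith
          _ ≤ 62 * Ck * W := by nlinarith
      have h8 : (18 : ℝ) * (1 + Real.log Z / l) ≤ 1116 * W := by linarith
      linarith
    calc _ ≤ (1116 + 62 * Ck) * W + 34 := add_le_add h2 h1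
      _ ≤ K * W := by rw [hK]; nlinarith
  -- the decomposition
  have hdec : (1 : DirichletCharacter ℂ R).LFunction s =
      LSeries (fun n => bR y n) s + (kap y : ℂ) * (1 : DirichletCharacter ℂ 1).LFunction s := by
    rw [DirichletCharacter.LFunction_eq_LSeries 1 hs, DirichletCharacter.LFunction_eq_LSeries 1 hs,
      ← LSeries_smul, ← LSeries_add hbsum]
    · refine LSeries_congr (fun {n} _ => ?_) s
      simp only [Pi.add_apply, Pi.smul_apply, smul_eq_mul]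
      rw [triv_char_eq hR]
      have hone : (1 : DirichletCharacter ℂ 1) (n : ZMod 1) = 1 := by
        rw [Subsingleton.elim ((n : ℕ) : ZMod 1) 1, map_one]
      rw [hone]
      unfold bR
      ring
    · exact (DirichletCharacter.LSeriesSummable_of_one_lt_re 1 hs).smul _
  have hz := hCz 1 s hs hs2
  rw [Lser_zero_eq (1 : DirichletCharacter ℂ 1) hs] at hz
  have hell : ell 1 s ≤ W := by
    unfold ell
    rw [hWeq, Nat.cast_one, one_mul]
    linarith
  have hs1 : 0 < ‖s - 1‖ := by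
    rw [norm_pos_iff, sub_ne_zero]
    rintro rfl
    simp at hs
  rw [hdec]
  refine (norm_add_le _ _).trans ?_
  rw [norm_mul, Complex.norm_real, Real.norm_of_nonneg hkap0]
  have h1 : kap y * ‖(1 : DirichletCharacter ℂ 1).LFunction s‖ ≤
      Ck * Cz * (W + 1 / (‖s - 1‖ * l)) := by
    calc kap y * ‖(1 : DirichletCharacter ℂ 1).LFunction s‖
        ≤ (Ck / l) * (Cz * (W + 1 / ‖s - 1‖)) := by
          apply mul_le_mul hkap _ (norm_nonneg _) (by positivity)
          refine hz.trans ?_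
          gcongr
      _ = Ck * Cz * (W / l + 1 / (‖s - 1‖ * l)) := by field_simp
      _ ≤ Ck * Cz * (W + 1 / (‖s - 1‖ * l)) := by
          have : W / l ≤ W := div_le_self (by linarith) hl1
          gcongr
  have h2 : K * W ≤ K * (W + 1 / (‖s - 1‖ * l)) := by
    have : 0 ≤ 1 / (‖s - 1‖ * l) := by positivity
    gcongr
    linarith
  calc _ ≤ K * (W + 1 / (‖s - 1‖ * l)) + Ck * Cz * (W + 1 / (‖s - 1‖ * l)) :=
        add_le_add (hbL.trans h2) h1
    _ = _ := by rw [hK]; ring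

end

end Pool.Agent.PW
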