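import Mathlib
import Pool.Agent.Work.BV.SiegelCoef

/-! # Cell PW: positivity of the product of four L-functions to the same modulus -/

namespace Pool.Agent.PW

open Finset Pool.Agent.BV DirichletCharacter
open scoped ArithmeticFunction.vonMangoldt

/-- pointwise product with a function -/
noncomputable def pm (h : ℕ → ℂ) (f : ArithmeticFunction ℂ) : ArithmeticFunction ℂ :=
  ⟨fun n => h n * f n, by simp⟩

lemma pm_apply (h : ℕ → ℂ) (f : ArithmeticFunction ℂ) (n : ℕ) : pm h f n = h n * f n := rfl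

lemma pm_mul (h : ℕ → ℂ) (hm : ∀ m n, h (m * n) = h m * h n) (f g : ArithmeticFunction ℂ) :
    pm h (f * g) = pm h f * pm h g := by
  ext n
  rw [pm_apply, ArithmeticFunction.mul_apply, ArithmeticFunction.mul_apply, mul_sum]
  refine sum_congr rfl fun x hx => ?_
  obtain ⟨h1, -⟩ := Nat.mem_divisorsAntidiagonal.1 hx
  rw [pm_apply, pm_apply, ← h1, hm]
  ring

lemma pm_char {R : ℕ} (ψ : DirichletCharacter ℂ R) :
    pm (fun n => (1 : DirichletCharacter ℂ R) (n : ZMod R))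
      (toArithmeticFunction (fun n : ℕ => ψ (n : ZMod R))) =
      toArithmeticFunction (fun n : ℕ => ψ (n : ZMod R)) := by
  ext n
  rw [pm_apply]
  rcases Nat.eq_zero_or_pos n with hn | hn
  · subst hn; simp
  · have h0 : n ≠ 0 := hn.ne'
    have h1 : toArithmeticFunction (fun n : ℕ => ψ (n : ZMod R)) n = ψ (n : ZMod R) := by
      simp [toArithmeticFunction, h0]
    rw [h1]
    by_cases hu : IsUnit (n : ZMod R)
    · rw [MulChar.one_apply hu, one_mul]
    · rw [MulChar.map_nonunit ψ hu, mul_zero]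

lemma pm_one {R : ℕ} :
    pm (fun n => (1 : DirichletCharacter ℂ R) (n : ZMod R))
      (toArithmeticFunction (fun _ => (1 : ℂ))) =
      toArithmeticFunction (fun n : ℕ => (1 : DirichletCharacter ℂ R) (n : ZMod R)) := by
  ext n
  rw [pm_apply]
  rcases Nat.eq_zero_or_pos n with hn | hn
  · subst hn; simp
  · have h0 : n ≠ 0 := hn.ne'
    simp [toArithmeticFunction, h0]

lemma one_le_re (r : ℕ → ℝ) (hr : ∀ n, 0 ≤ r n) (h1 : r 1 = 1) {σ : ℝ}
    (hs : LSeriesSummable (fun n => (r n : ℂ)) σ) :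
    1 ≤ (LSeries (fun n => (r n : ℂ)) σ).re := by
  have h2 := Complex.hasSum_re hs.hasSum
  have h3 : ∀ n, (LSeries.term (fun n => (r n : ℂ)) σ n).re =
      if n = 0 then 0 else r n / (n : ℝ) ^ σ := by
    intro n
    rcases eq_or_ne n 0 with rfl | hn
    · simp
    · rw [LSeries.term_of_ne_zero hn, if_neg hn]
      have h4 : (n : ℂ) ^ (σ : ℂ) = (((n : ℝ) ^ σ : ℝ) : ℂ) := by
        rw [Complex.ofReal_cpow (Nat.cast_nonneg n)]
        push_cast
        rfl
      rw [h4, ← Complex.ofReal_div, Complex.ofReal_re]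
  have h5 := sum_le_hasSum {1} (fun n _ => by
    rw [h3]
    split_ifs
    · exact le_rfl
    · have := hr n
      positivity) h2
  rw [sum_singleton, h3, if_neg one_ne_zero, h1] at h5
  have h6 : (1 : ℝ) / ((1 : ℕ) : ℝ) ^ σ = 1 := by simp
  rw [h6] at h5
  exact h5

/-- the product of the four L-functions mod `R` is at least `1` at real `σ > 1` -/
theorem repulse_one {R : ℕ} [NeZero R] (ψ₁ ψ₂ : DirichletCharacter ℂ R) (h1 : ψ₁ ^ 2 = 1)
    (h2 : ψ₂ ^ 2 = 1) {σ : ℝ} (hσ : 1 < σ) :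
    1 ≤ ‖(1 : DirichletCharacter ℂ R).LFunction (σ : ℂ)‖ * (‖ψ₁.LFunction (σ : ℂ)‖ *
      ‖ψ₂.LFunction (σ : ℂ)‖ * ‖(ψ₁ * ψ₂).LFunction (σ : ℂ)‖) := by
  set h : ℕ → ℂ := fun n => (1 : DirichletCharacter ℂ R) (n : ZMod R) with hh
  have hm : ∀ m n, h (m * n) = h m * h n := by
    intro m n
    simp only [hh]
    push_cast
    rw [map_mul]
  have hs : 1 < (σ : ℂ).re := by simpa using hσ
  have hP : pm h (SiegelCoef_P ψ₁ ψ₂) =
      toArithmeticFunction (fun n : ℕ => (1 : DirichletCharacter ℂ R) (n : ZMod R)) *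
      (toArithmeticFunction (fun n : ℕ => ψ₁ (n : ZMod R)) *
      toArithmeticFunction (fun n : ℕ => ψ₂ (n : ZMod R)) *
      toArithmeticFunction (fun n : ℕ => (ψ₁ * ψ₂) (n : ZMod R))) := by
    rw [SiegelCoef_P, pm_mul h hm, pm_mul h hm, pm_mul h hm, hh, pm_one, pm_char, pm_char, pm_char]
  have hreal : ∀ n, ∃ a : ℝ, pm h (SiegelCoef_P ψ₁ ψ₂) n = a ∧ 0 ≤ a := by
    intro n
    obtain ⟨a, ha, ha0⟩ := SiegelCoef_real ψ₁ ψ₂ h1 h2 n
    rw [pm_apply, ha]
    simp only [hh]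
    by_cases hu : IsUnit (n : ZMod R)
    · exact ⟨a, by rw [MulChar.one_apply hu, one_mul], ha0⟩
    · exact ⟨0, by rw [MulChar.map_nonunit _ hu, zero_mul]; simp, le_rfl⟩
  choose r hr hr0 using hreal
  have hfun : (fun n => (r n : ℂ)) = fun n => pm h (SiegelCoef_P ψ₁ ψ₂) n :=
    funext fun n => (hr n).symm
  have hr1 : r 1 = 1 := by
    have h3 := hr 1
    rw [pm_apply, SiegelCoef_one, hh] at h3
    simp at h3
    exact_mod_cast h3.symm
  have h12 := ArithmeticFunction.LSeriesSummable_mul (SiegelCoef_summable ψ₁ hs)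
    (SiegelCoef_summable ψ₂ hs)
  have h123 := ArithmeticFunction.LSeriesSummable_mul h12 (SiegelCoef_summable (ψ₁ * ψ₂) hs)
  have hz := SiegelCoef_summable (1 : DirichletCharacter ℂ R) hs
  have h5 := ArithmeticFunction.LSeries_mul' hz h123
  rw [ArithmeticFunction.LSeries_mul' h12 (SiegelCoef_summable (ψ₁ * ψ₂) hs),
    ArithmeticFunction.LSeries_mul' (SiegelCoef_summable ψ₁ hs) (SiegelCoef_summable ψ₂ hs),
    SiegelCoef_LSeries _ hs, SiegelCoef_LSeries ψ₁ hs, SiegelCoef_LSeries ψ₂ hs,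
    SiegelCoef_LSeries (ψ₁ * ψ₂) hs] at h5
  have hsum : LSeriesSummable (fun n => (r n : ℂ)) σ := by
    rw [hfun, hP]
    exact ArithmeticFunction.LSeriesSummable_mul hz h123
  have h6 := one_le_re r hr0 hr1 hsum
  rw [hfun, hP, h5] at h6
  calc (1 : ℝ) ≤ _ := h6
    _ ≤ _ := Complex.re_le_norm _
    _ = _ := by rw [norm_mul, norm_mul, norm_mul]

end Pool.Agent.PW
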