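import Pool.Agent.Work.MP_92f640_nt.PW.Rough
import Pool.Agent.Work.MP_92f640_nt.PW.LowerAux

/-! # Module M3: the trivial bound for the rough L-functions

`‖L(s,χ)‖ ≤ ∑_{(n,R)=1} n^(-Re s)`, and this sum is bounded in `ZetaAux`. -/

namespace Pool.Agent.PW

open Finset Pool.Agent.BV

lemma norm_le_roughZ {R : ℕ} [NeZero R] (χ : DirichletCharacter ℂ R) {s : ℂ} (hs : 1 < s.re) :
    ‖χ.LFunction s‖ ≤ roughZ R s.re := by
  rw [DirichletCharacter.LFunction_eq_LSeries χ hs]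
  unfold roughZ
  refine tsum_of_norm_bounded (roughZ_summable R hs).hasSum (fun n => ?_)
  rcases eq_or_ne n 0 with rfl | hn
  · simp only [LSeries.term_zero, norm_zero]
    split_ifs
    · positivity
    · exact le_rfl
  · rw [LSeries.norm_term_eq, if_neg hn]
    by_cases hc : n.Coprime R
    · rw [if_pos hc]
      gcongr
      exact DirichletCharacter.norm_le_one _ _
    · rw [if_neg hc]
      have : χ (n : ZMod R) = 0 := by
        apply MulChar.map_nonunit
        rwa [ZMod.isUnit_iff_coprime]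
      rw [this, norm_zero, zero_div]

theorem triv_rough : ∃ C : ℝ, 0 < C ∧ ∃ y₁ : ℕ, ∀ y R : ℕ, y₁ ≤ y → RM y R → ∀ [NeZero R],
    ∀ χ : DirichletCharacter ℂ R, ∀ s : ℂ, 1 < s.re → s.re ≤ 2 →
    ‖χ.LFunction s‖ ≤ C * (1 + 1 / ((s.re - 1) * Real.log y)) := by
  refine ⟨6, by norm_num, 3, fun y R hy hR _ χ s h1 h2 => ?_⟩
  exact (norm_le_roughZ χ h1).trans (roughZ_le hy (fun p hp hpy => (hR.iff p hp).2 hpy) h1 h2)

end Pool.Agent.PW
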