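import Pool.Agent.Work.MP_92f640_nt.PW.LserB
import Pool.Agent.Work.MP_92f640_nt.PW.TrivR
import Pool.Agent.Work.MP_92f640_nt.PW.Lower
import Pool.Agent.Work.MP_92f640_nt.PW.RealLA
import Pool.Agent.Work.MP_92f640_nt.PW.RepAux

/-! # Module M4r: lower bound for the rough L-functions, real characters (all but one)

`|t| ≥ x₀`: 3-4-1 with `χ² = 1`: `|L(1+x+2it, 1)| ≤ C (W + 1/(|t| log y))` (`zeta_off`). `|t| ≤ x₀`:
`L_y(σ, 1) L_y(σ, χ₁) L_y(σ, χ₂) L_y(σ, χ₁ χ₂) ≥ 1`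
at one real `σ = 1 + x₀`, `x₀ = c₀ V^(-5)/log y`, and the derivative bound. -/

namespace Pool.Agent.PW

open Finset Pool.Agent.BV

/-- continuity of the rough L-functions -/
lemma real_diff : ∃ C : ℝ, 1 ≤ C ∧ ∃ y₁ : ℕ, ∀ y R : ℕ, y₁ ≤ y → RM y R → ∀ [NeZero R],
    ∀ χ : DirichletCharacter ℂ R, SB y χ → ∀ T : ℝ, 0 ≤ T → ∀ z ∈ lnearS T, ∀ w ∈ lnearS T,
    ‖χ.LFunction z - χ.LFunction w‖ ≤
      C * (WW y T ^ 2 * Real.log y) * ‖z - w‖ := by
  obtain ⟨C, hC, y₀, h⟩ := Lser_rough 1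
  have hev : ∀ᶠ y : ℕ in Filter.atTop, (1 : ℝ) ≤ Real.log y :=
    (Real.tendsto_log_atTop.comp tendsto_natCast_atTop_atTop).eventually_ge_atTop _
  obtain ⟨y₂, hy₂⟩ := Filter.eventually_atTop.1 hev
  refine ⟨C + 1, by linarith, max y₀ y₂, ?_⟩
  intro y R hy hR _ χ hχ T hT z hz w hw
  have hl := hy₂ y ((le_max_right _ _).trans hy)
  refine Convex.norm_image_sub_le_of_norm_deriv_le (𝕜 := ℂ) (s := lnearS T)
    (f := χ.LFunction) ?_ ?_ (lnearS_convex T) hw hz
  · intro x hx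
    obtain ⟨h1, -, -⟩ := hx
    refine DirichletCharacter.differentiableAt_LFunction χ x (Or.inl ?_)
    rintro rfl
    simp at h1
  · intro x hx
    obtain ⟨h1, h2, h3⟩ := hx
    rw [lnear_deriv χ h1, norm_neg]
    refine (h y R ((le_max_left _ _).trans hy) hR χ hχ x h1 h2).trans ?_
    have h4 : WW y x.im ≤ WW y T := by
      unfold WW
      have h5 : 0 ≤ |x.im| := abs_nonneg _
      have h6 : Real.log (|x.im| + 3) ≤ Real.log (|T| + 3) := by
        apply Real.log_le_log (by linarith)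
        rw [abs_of_nonneg hT]
        linarith
      linarith
    have h7 : 0 ≤ WW y x.im := by
      unfold WW
      have h5 : 0 ≤ Real.log (Real.log y) := Real.log_nonneg hl
      have h6 : 0 ≤ Real.log (|x.im| + 3) := Real.log_nonneg (by linarith [abs_nonneg x.im])
      linarith
    rw [pow_one]
    calc C * WW y x.im ^ (1 + 1) * Real.log y ≤ (C + 1) * WW y T ^ 2 * Real.log y := by
          gcongr
          linarith
      _ = _ := by ring

/-- the trivial lower bound -/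
lemma real_trivial {R : ℕ} [NeZero R] (χ : DirichletCharacter ℂ R) {s : ℂ} (hs : 1 < s.re) :
    1 ≤ ‖χ.LFunction s‖ * roughZ R s.re := by
  have h1 := DirichletCharacter.LSeries.mul_mu_eq_one χ hs
  rw [← DirichletCharacter.LFunction_eq_LSeries χ hs] at h1
  have h2 : ‖LSeries ((fun n : ℕ => χ (n : ZMod R)) *
      (fun n : ℕ => ((ArithmeticFunction.moebius n : ℤ) : ℂ))) s‖ ≤ roughZ R s.re := by
    unfold roughZ
    refine tsum_of_norm_bounded (roughZ_summable R hs).hasSum (fun n => ?_)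
    rcases eq_or_ne n 0 with rfl | hn
    · simp only [LSeries.term_zero, norm_zero]
      split_ifs
      · positivity
      · exact le_rfl
    · rw [LSeries.norm_term_eq, if_neg hn]
      simp only [Pi.mul_apply, norm_mul]
      by_cases hc : n.Coprime R
      · rw [if_pos hc]
        have h3 : ‖χ (n : ZMod R)‖ ≤ 1 := χ.norm_le_one _
        have h4 : ‖((ArithmeticFunction.moebius n : ℤ) : ℂ)‖ ≤ 1 := by
          rw [Complex.norm_intCast]
          exact_mod_cast ArithmeticFunction.abs_moebius_le_one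
        gcongr
        calc _ ≤ (1 : ℝ) * 1 := mul_le_mul h3 h4 (norm_nonneg _) zero_le_one
          _ = 1 := one_mul 1
      · rw [if_neg hc]
        have : χ (n : ZMod R) = 0 := by
          apply MulChar.map_nonunit
          rwa [ZMod.isUnit_iff_coprime]
        rw [this, norm_zero, zero_mul, zero_div]
  have h5 := congrArg norm h1
  rw [norm_mul, norm_one] at h5
  exact h5.symm.le.trans (mul_le_mul_of_nonneg_left h2 (norm_nonneg _))

/-- one real character which is not small at one point -/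
lemma real_one (m : ℝ) (hm : 0 < m) (C0 C1 : ℝ) (hC0 : 1 ≤ C0) (hC1 : 1 ≤ C1)
    (hmC : 48 * C0 * C1 * m ≤ 1) :
    ∃ c : ℝ, 0 < c ∧ ∃ y₁ : ℕ, ∀ y R : ℕ, y₁ ≤ y → RM y R →
    ∀ [NeZero R], ∀ χ : DirichletCharacter ℂ R, χ ^ 2 = 1 →
    (∀ T : ℝ, 0 ≤ T → ∀ z ∈ lnearS T, ∀ w ∈ lnearS T, ‖χ.LFunction z - χ.LFunction w‖ ≤
      C1 * (WW y T ^ 2 * Real.log y) * ‖z - w‖) →
    (m ≤ WW y 1 ^ 3 * ‖χ.LFunction
      ((1 + 12 * C0 * m ^ 2 / (WW y 1 ^ 5 * Real.log y) : ℝ) : ℂ)‖) →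
    ∀ s : ℂ, 1 < s.re → s.re ≤ 2 → c ≤ WW y s.im ^ 40 * ‖χ.LFunction s‖ := by
  obtain ⟨Cz, hCz, y₀, hz⟩ := zeta_off
  set c₀ : ℝ := 12 * C0 * m ^ 2 with hc₀
  have hm1 : m ≤ 1 / 48 := by
    rw [le_div_iff₀ (by norm_num)]
    calc m * 48 = 48 * 1 * 1 * m := by ring
      _ ≤ 48 * C0 * C1 * m := by gcongr
      _ ≤ 1 := hmC
  have hc00 : 0 < c₀ := by positivity
  have hc01 : c₀ ≤ 1 := by
    have h1 : C0 * m ≤ 1 / 48 := by
      rw [le_div_iff₀ (by norm_num)]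
      calc C0 * m * 48 = 48 * C0 * 1 * m := by ring
        _ ≤ 48 * C0 * C1 * m := by gcongr
        _ ≤ 1 := hmC
    calc c₀ = 12 * (C0 * m) * m := by rw [hc₀]; ring
      _ ≤ 12 * (1 / 48) * 1 := by gcongr; linarith
      _ ≤ 1 := by norm_num
  obtain ⟨CL, hCL, hlow⟩ := lower_of (Cz * (2 + 16 / c₀)) C1 (by positivity) (by linarith)
  have hev : ∀ᶠ y : ℕ in Filter.atTop, (3 : ℝ) ≤ Real.log y :=
    (Real.tendsto_log_atTop.comp tendsto_natCast_atTop_atTop).eventually_ge_atTop _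
  obtain ⟨y₂, hy₂⟩ := Filter.eventually_atTop.1 hev
  refine ⟨min (min (m / 16) (c₀ / 384)) (1 / CL), by positivity, max (max y₀ y₂) 3, ?_⟩
  intro y R hy hR _ χ hχ2 hdiff hpt s hs hs2
  have hy3 : 3 ≤ y := (le_max_right _ _).trans hy
  have hy0' : y₀ ≤ y := ((le_max_left _ _).trans (le_max_left _ _)).trans hy
  have hl3 := hy₂ y (((le_max_right _ _).trans (le_max_left _ _)).trans hy)
  have hp : ∀ p : ℕ, p.Prime → p ≤ y → p ∣ R := fun p h1 h2 => (hR.iff p h1).2 h2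
  set l := Real.log y with hl
  have hl0 : 0 < l := by linarith
  have ht : 0 ≤ |s.im| := abs_nonneg _
  have hlogl : 1 ≤ Real.log l := by
    rw [Real.le_log_iff_exp_le hl0]
    have h3 := Real.exp_one_lt_d9
    linarith
  have hlog3 : ∀ t : ℝ, 1 ≤ Real.log (|t| + 3) := by
    intro t
    rw [Real.le_log_iff_exp_le (by linarith [abs_nonneg t])]
    have h3 := Real.exp_one_lt_d9
    linarith [abs_nonneg t]
  set V := WW y 1 with hV
  set W := WW y s.im with hW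
  have hVeq : V = Real.log l + Real.log (|(1 : ℝ)| + 3) := rfl
  have hWeq : W = Real.log l + Real.log (|s.im| + 3) := rfl
  have hV2 : 2 ≤ V := by rw [hVeq]; linarith [hlog3 1]
  have hW2 : 2 ≤ W := by rw [hWeq]; linarith [hlog3 s.im]
  have hVW : V ≤ 2 * W := by
    have h1 : Real.log (|(1 : ℝ)| + 3) ≤ 2 * Real.log (|s.im| + 3) := by
      rw [abs_one]
      rw [show (2 : ℝ) * Real.log (|s.im| + 3) = Real.log ((|s.im| + 3) ^ 2) by
        rw [Real.log_pow]; norm_num]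
      apply Real.log_le_log (by norm_num)
      nlinarith
    rw [hVeq, hWeq]
    linarith
  have hW0 : 0 < W := by linarith
  have hV0 : 0 < V := by linarith
  set a := ‖χ.LFunction s‖ with ha
  have ha0 : 0 ≤ a := norm_nonneg _
  have hWpow : ∀ k : ℕ, k ≤ 40 → W ^ k ≤ W ^ 40 := fun k hk => pow_le_pow_right₀ (by linarith) hk
  set x₀ : ℝ := c₀ / (V ^ 5 * l) with hx₀
  have hx₀0 : 0 < x₀ := by positivity
  have hx₀1 : x₀ ≤ 1 := by
    rw [hx₀, div_le_one (by positivity)]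
    calc c₀ ≤ 1 * 1 := by linarith
      _ ≤ V ^ 5 * l := mul_le_mul (one_le_pow₀ (by linarith)) (by linarith) (by norm_num)
          (by positivity)
  have hx₀l : 1 / (x₀ * l) = V ^ 5 / c₀ := by
    rw [hx₀]; field_simp
  rcases le_or_gt |s.im| x₀ with hsm | hsm
  · rcases le_or_gt s.re (1 + x₀) with hre | hre
    · -- the small box
      have h1 := hdiff 1 zero_le_one ((1 + x₀ : ℝ) : ℂ)
        ⟨by rw [Complex.ofReal_re]; linarith, by rw [Complex.ofReal_re]; linarith, by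
          rw [Complex.ofReal_im, abs_zero]; norm_num⟩ s ⟨hs, hs2, hsm.trans hx₀1⟩
      have h2 : ‖((1 + x₀ : ℝ) : ℂ) - s‖ ≤ 2 * x₀ := by
        have h3 := Complex.norm_le_abs_re_add_abs_im (((1 + x₀ : ℝ) : ℂ) - s)
        rw [Complex.sub_re, Complex.sub_im, Complex.ofReal_re, Complex.ofReal_im, zero_sub,
          abs_neg, abs_of_nonneg (by linarith : 0 ≤ 1 + x₀ - s.re)] at h3
        linarith
      have h3 : C1 * (V ^ 2 * l) * ‖((1 + x₀ : ℝ) : ℂ) - s‖ ≤ m / 2 / V ^ 3 := by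
        calc C1 * (V ^ 2 * l) * ‖((1 + x₀ : ℝ) : ℂ) - s‖ ≤ C1 * (V ^ 2 * l) * (2 * x₀) := by
              gcongr
          _ = 2 * C1 * c₀ / V ^ 3 := by rw [hx₀]; field_simp
          _ ≤ m / 2 / V ^ 3 := by
              gcongr
              calc 2 * C1 * c₀ = (48 * C0 * C1 * m) * (m / 2) := by rw [hc₀]; ring
                _ ≤ 1 * (m / 2) := by gcongr
                _ = m / 2 := one_mul _
      have h4 := norm_sub_norm_le (χ.LFunction ((1 + x₀ : ℝ) : ℂ)) (χ.LFunction s)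
      have h5 : m / V ^ 3 ≤ ‖χ.LFunction ((1 + x₀ : ℝ) : ℂ)‖ := by
        rw [div_le_iff₀ (by positivity)]
        linarith
      have h6 : m / V ^ 3 = m / 2 / V ^ 3 + m / 2 / V ^ 3 := by ring
      have h7 : m / 2 / V ^ 3 ≤ a := by linarith
      rw [div_le_iff₀ (by positivity)] at h7
      refine ((min_le_left _ _).trans (min_le_left _ _)).trans ?_
      have h8 : V ^ 3 ≤ 8 * W ^ 3 := by
        calc V ^ 3 ≤ (2 * W) ^ 3 := pow_le_pow_left₀ hV0.le hVW 3
          _ = 8 * W ^ 3 := by ring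
      have h9 := hWpow 3 (by norm_num)
      have h10 : a * V ^ 3 ≤ a * (8 * W ^ 40) := by gcongr; linarith
      linarith
    · -- trivial lower bound
      have h1 := real_trivial χ hs
      have h2 := roughZ_le hy3 hp (σ := s.re) hs hs2
      have h3 : 1 / ((s.re - 1) * l) ≤ V ^ 5 / c₀ := by
        rw [← hx₀l]
        apply one_div_le_one_div_of_le (by positivity)
        gcongr
        linarith
      have h4 : roughZ R s.re ≤ 12 * V ^ 5 / c₀ := by
        refine h2.trans ?_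
        have h5 : 1 ≤ V ^ 5 / c₀ := by
          rw [le_div_iff₀ hc00]
          have : 1 ≤ V ^ 5 := one_le_pow₀ (by linarith)
          linarith
        have h6 : 12 * V ^ 5 / c₀ = 6 * (V ^ 5 / c₀ + V ^ 5 / c₀) := by ring
        rw [h6]
        linarith
      have h5 : 1 ≤ a * (12 * V ^ 5 / c₀) := h1.trans (mul_le_mul_of_nonneg_left h4 ha0)
      have h6 : a * (12 * V ^ 5 / c₀) = (12 * a * V ^ 5) / c₀ := by ring
      rw [h6, le_div_iff₀ hc00, one_mul] at h5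
      refine ((min_le_left _ _).trans (min_le_right _ _)).trans ?_
      have h8 : V ^ 5 ≤ 32 * W ^ 5 := by
        calc V ^ 5 ≤ (2 * W) ^ 5 := pow_le_pow_left₀ hV0.le hVW 5
          _ = 32 * W ^ 5 := by ring
      have h9 := hWpow 5 (by norm_num)
      have h10 : a * V ^ 5 ≤ a * (32 * W ^ 40) := by gcongr; linarith
      linarith
  · -- 3-4-1
    have h1 := hlow R y hy3 hp χ (W ^ 5) s.im (one_le_pow₀ (by linarith)) ?_ ?_ s.re hs hs2
    · have h2 : ((s.re : ℂ) + s.im * Complex.I) = s := Complex.re_add_im s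
      rw [h2] at h1
      refine (min_le_right _ _).trans ?_
      rw [div_le_iff₀ hCL]
      have h3 : (W ^ 5) ^ 7 ≤ W ^ 40 := by
        rw [← pow_mul]
        exact hWpow 35 (by norm_num)
      calc 1 ≤ CL * (W ^ 5) ^ 7 * a := h1
        _ ≤ CL * W ^ 40 * a := by gcongr
        _ = W ^ 40 * a * CL := by ring
    · intro x hx hx1
      rw [hχ2]
      have hre : (1 + x + 2 * Complex.I * s.im : ℂ).re = 1 + x := by simp
      have him : (1 + x + 2 * Complex.I * s.im : ℂ).im = 2 * s.im := by simp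
      have h2 := hz y R hy0' hR (1 + x + 2 * Complex.I * s.im) (by rw [hre]; linarith)
        (by rw [hre]; linarith)
      rw [him] at h2
      have h3 : WW y (2 * s.im) ≤ 2 * W := by
        unfold WW
        rw [hWeq]
        have h4 : Real.log (|2 * s.im| + 3) ≤ 2 * Real.log (|s.im| + 3) := by
          rw [show (2 : ℝ) * Real.log (|s.im| + 3) = Real.log ((|s.im| + 3) ^ 2) by
            rw [Real.log_pow]; norm_num]
          apply Real.log_le_log (by positivity)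
          rw [abs_mul, abs_of_pos (show (0 : ℝ) < 2 by norm_num)]
          nlinarith
        rw [← hl]
        linarith
      have h4 : 2 * x₀ ≤ ‖(1 + x + 2 * Complex.I * s.im : ℂ) - 1‖ := by
        have h5 := Complex.abs_im_le_norm ((1 + x + 2 * Complex.I * s.im : ℂ) - 1)
        have h6 : ((1 + x + 2 * Complex.I * s.im : ℂ) - 1).im = 2 * s.im := by simp
        rw [h6, abs_mul, abs_of_pos (show (0 : ℝ) < 2 by norm_num)] at h5
        linarith
      have h5 : 1 / (‖(1 + x + 2 * Complex.I * s.im : ℂ) - 1‖ * l) ≤ 16 / c₀ * W ^ 5 := by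
        calc 1 / (‖(1 + x + 2 * Complex.I * s.im : ℂ) - 1‖ * l) ≤ 1 / (2 * x₀ * l) := by
              apply one_div_le_one_div_of_le (by positivity)
              gcongr
          _ = 1 / 2 * (1 / (x₀ * l)) := by field_simp
          _ = 1 / 2 * (V ^ 5 / c₀) := by rw [hx₀l]
          _ ≤ 1 / 2 * ((2 * W) ^ 5 / c₀) := by gcongr
          _ = 16 / c₀ * W ^ 5 := by ring
      have h6 : W ≤ W ^ 5 := by
        calc W = W ^ 1 := (pow_one W).symm
          _ ≤ W ^ 5 := pow_le_pow_right₀ (by linarith) (by norm_num)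
      calc _ ≤ Cz * (WW y (2 * s.im) + 1 / (‖(1 + x + 2 * Complex.I * s.im : ℂ) - 1‖ * l)) := h2
        _ ≤ Cz * (2 * W ^ 5 + 16 / c₀ * W ^ 5) := by
            gcongr
            linarith
        _ = _ := by ring
    · intro σ₁ σ₂ h2 h3 h4
      have h5 := hdiff |s.im| ht ((σ₂ : ℂ) + s.im * Complex.I) ⟨by simp; linarith, by simpa using h4,
        by simp⟩ ((σ₁ : ℂ) + s.im * Complex.I) ⟨by simpa using h2, by simp; linarith, by simp⟩
      have h6 : WW y |s.im| = W := by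
        rw [hW]
        unfold WW
        rw [abs_abs]
      rw [h6] at h5
      have h7 : ‖((σ₂ : ℂ) + s.im * Complex.I) - ((σ₁ : ℂ) + s.im * Complex.I)‖ = σ₂ - σ₁ := by
        have h8 : ((σ₂ : ℂ) + s.im * Complex.I) - ((σ₁ : ℂ) + s.im * Complex.I) =
            ((σ₂ - σ₁ : ℝ) : ℂ) := by push_cast; ring
        rw [h8, Complex.norm_real, Real.norm_of_nonneg (by linarith)]
      rw [h7] at h5
      refine h5.trans ?_
      have h8 : W ^ 2 ≤ (W ^ 5) ^ 2 := by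
        rw [← pow_mul]
        exact pow_le_pow_right₀ (by linarith) (by norm_num)
      have h9 : 0 ≤ σ₂ - σ₁ := by linarith
      calc C1 * (W ^ 2 * l) * (σ₂ - σ₁) = C1 * (σ₂ - σ₁) * (W ^ 2 * l) := by ring
        _ ≤ _ := by gcongr

/-- values of a character lifted to a modulus with the same prime factors -/
lemma real_lift {y R r : ℕ} (hR : RM y R) (hr' : RM y r) (hr : r ∣ R) (ψ : DirichletCharacter ℂ r)
    (n : ℕ) : (DirichletCharacter.changeLevel hr ψ) (n : ZMod R) = ψ (n : ZMod r) := by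
  by_cases hc : n.Coprime R
  · have h1 := DirichletCharacter.changeLevel_eq_cast_of_dvd' ψ hr (a := (n : ℤ))
      (Nat.isCoprime_iff_coprime.2 hc)
    simpa using h1
  · have h1 : ¬ n.Coprime r := fun h => hc ((coprime_iff_prs hR n).1 ((coprime_iff_prs hr' n).2 h))
    rw [MulChar.map_nonunit _ (fun h => hc ((ZMod.isUnit_iff_coprime n R).1 h)),
      MulChar.map_nonunit _ (fun h => h1 ((ZMod.isUnit_iff_coprime n r).1 h))]

/-- of two different real characters at least one is good -/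
theorem real_rough : ∃ c : ℝ, 0 < c ∧ ∃ y₁ : ℕ, ∀ y R₁ R₂ : ℕ, y₁ ≤ y → RM y R₁ → RM y R₂ →
    ∀ [NeZero R₁] [NeZero R₂], ∀ χ₁ : DirichletCharacter ℂ R₁, ∀ χ₂ : DirichletCharacter ℂ R₂,
    χ₁ ^ 2 = 1 → χ₂ ^ 2 = 1 → SB y χ₁ → SB y χ₂ →
    (∀ N : ℕ, ‖∑ n ∈ Icc 1 N, χ₁ (n : ZMod R₁) * χ₂ (n : ZMod R₂)‖ ≤
      N * (Real.log y) ^ 5 * Real.exp (-(Real.log N / (4 * Real.log y)))) →
    (∀ s : ℂ, 1 < s.re → s.re ≤ 2 → c ≤ WW y s.im ^ 40 * ‖χ₁.LFunction s‖) ∨
    (∀ s : ℂ, 1 < s.re → s.re ≤ 2 → c ≤ WW y s.im ^ 40 * ‖χ₂.LFunction s‖) := by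
  obtain ⟨C0', hC0', y₀, hup⟩ := Lser_rough 0
  obtain ⟨C1, hC1, y₂, hdiff⟩ := real_diff
  set C0 : ℝ := C0' + 1 with hC0def
  have hC0 : 1 ≤ C0 := by linarith
  set m : ℝ := 1 / (48 * C0 * C1) with hm
  have hm0 : 0 < m := by positivity
  have hmC : 48 * C0 * C1 * m ≤ 1 := by
    rw [hm]
    apply le_of_eq
    field_simp
  obtain ⟨c, hc, y₃, hone⟩ := real_one m hm0 C0 C1 hC0 hC1 hmC
  have hev : ∀ᶠ y : ℕ in Filter.atTop, (3 : ℝ) ≤ Real.log y :=
    (Real.tendsto_log_atTop.comp tendsto_natCast_atTop_atTop).eventually_ge_atTop _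
  obtain ⟨y₄, hy₄⟩ := Filter.eventually_atTop.1 hev
  refine ⟨c, hc, max (max (max y₀ y₂) (max y₃ y₄)) 3, ?_⟩
  intro y R₁ R₂ hy hR₁ hR₂ _ _ χ₁ χ₂ hq₁ hq₂ hS₁ hS₂ hS₁₂
  have hy3 : 3 ≤ y := (le_max_right _ _).trans hy
  have hyy := (le_max_left _ _).trans hy
  have hy0' : y₀ ≤ y := ((le_max_left _ _).trans (le_max_left _ _)).trans hyy
  have hy2' : y₂ ≤ y := ((le_max_right _ _).trans (le_max_left _ _)).trans hyy
  have hy3' : y₃ ≤ y := ((le_max_left _ _).trans (le_max_right _ _)).trans hyy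
  have hl3 := hy₄ y (((le_max_right _ _).trans (le_max_right _ _)).trans hyy)
  -- the common modulus
  set R := R₁ * R₂ with hRdef
  have hR : RM y R := by
    refine ⟨mul_ne_zero hR₁.ne hR₂.ne, fun p hp => ?_⟩
    rw [hRdef, hp.dvd_mul, hR₁.iff p hp, hR₂.iff p hp, or_self]
  have : NeZero R := ⟨hR.ne⟩
  have hd₁ : R₁ ∣ R := dvd_mul_right _ _
  have hd₂ : R₂ ∣ R := dvd_mul_left _ _
  set ψ₁ : DirichletCharacter ℂ R := DirichletCharacter.changeLevel hd₁ χ₁ with hψ₁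
  set ψ₂ : DirichletCharacter ℂ R := DirichletCharacter.changeLevel hd₂ χ₂ with hψ₂
  have hv₁ : ∀ n : ℕ, ψ₁ (n : ZMod R) = χ₁ (n : ZMod R₁) := real_lift hR hR₁ hd₁ χ₁
  have hv₂ : ∀ n : ℕ, ψ₂ (n : ZMod R) = χ₂ (n : ZMod R₂) := real_lift hR hR₂ hd₂ χ₂
  have hL₁ : ∀ s : ℂ, 1 < s.re → ψ₁.LFunction s = χ₁.LFunction s := by
    intro s hs
    rw [DirichletCharacter.LFunction_eq_LSeries _ hs, DirichletCharacter.LFunction_eq_LSeries _ hs]
    exact LSeries_congr (fun {n} _ => hv₁ n) s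
  have hL₂ : ∀ s : ℂ, 1 < s.re → ψ₂.LFunction s = χ₂.LFunction s := by
    intro s hs
    rw [DirichletCharacter.LFunction_eq_LSeries _ hs, DirichletCharacter.LFunction_eq_LSeries _ hs]
    exact LSeries_congr (fun {n} _ => hv₂ n) s
  have hs₁ : SB y ψ₁ := by
    intro N
    rw [sum_congr rfl fun n _ => hv₁ n]
    exact hS₁ N
  have hs₂ : SB y ψ₂ := by
    intro N
    rw [sum_congr rfl fun n _ => hv₂ n]
    exact hS₂ N
  have hs₁₂ : SB y (ψ₁ * ψ₂) := by
    intro N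
    have h1 : ∀ n ∈ Icc 1 N, (ψ₁ * ψ₂) (n : ZMod R) = χ₁ (n : ZMod R₁) * χ₂ (n : ZMod R₂) := by
      intro n _
      rw [MulChar.mul_apply, hv₁, hv₂]
    rw [sum_congr rfl h1]
    exact hS₁₂ N
  have hsq₁ : ψ₁ ^ 2 = 1 := by rw [hψ₁, ← map_pow, hq₁, map_one]
  have hsq₂ : ψ₂ ^ 2 = 1 := by rw [hψ₂, ← map_pow, hq₂, map_one]
  set l := Real.log y with hl
  have hl0 : 0 < l := by linarith
  set V := WW y 1 with hV
  have hlogl : 1 ≤ Real.log l := by
    rw [Real.le_log_iff_exp_le hl0]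
    have h3 := Real.exp_one_lt_d9
    linarith
  have hVeq : V = Real.log l + Real.log (|(1 : ℝ)| + 3) := rfl
  have hV2 : 1 ≤ V := by
    rw [hVeq]
    have : 0 ≤ Real.log (|(1 : ℝ)| + 3) := Real.log_nonneg (by norm_num)
    linarith
  have hV0 : 0 < V := by linarith
  set c₀ : ℝ := 12 * C0 * m ^ 2 with hc₀
  have hc00 : 0 < c₀ := by positivity
  have hc01 : c₀ ≤ 1 := by
    have h1 : C0 * m ≤ 1 / 48 := by
      rw [le_div_iff₀ (by norm_num)]
      calc C0 * m * 48 = 48 * C0 * 1 * m := by ring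
        _ ≤ 48 * C0 * C1 * m := by gcongr
        _ ≤ 1 := hmC
    have h2 : m ≤ 1 := by
      calc m = 1 * m := (one_mul m).symm
        _ ≤ C0 * m := by gcongr
        _ ≤ 1 / 48 := h1
        _ ≤ 1 := by norm_num
    calc c₀ = 12 * (C0 * m) * m := by rw [hc₀]; ring
      _ ≤ 12 * (1 / 48) * 1 := by gcongr
      _ ≤ 1 := by norm_num
  set x₀ : ℝ := c₀ / (V ^ 5 * l) with hx₀
  have hx₀0 : 0 < x₀ := by positivity
  have hx₀1 : x₀ ≤ 1 := by
    rw [hx₀, div_le_one (by positivity)]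
    calc c₀ ≤ 1 * 1 := by linarith
      _ ≤ V ^ 5 * l := mul_le_mul (one_le_pow₀ hV2) (by linarith) (by norm_num)
          (by positivity)
  have hx₀l : 1 / (x₀ * l) = V ^ 5 / c₀ := by
    rw [hx₀]; field_simp
  have hre : 1 < ((1 + x₀ : ℝ) : ℂ).re := by rw [Complex.ofReal_re]; linarith
  have hre2 : ((1 + x₀ : ℝ) : ℂ).re ≤ 2 := by rw [Complex.ofReal_re]; linarith
  -- repulsion
  have hrep := repulse_one ψ₁ ψ₂ hsq₁ hsq₂ (σ := 1 + x₀) (by linarith)
  have hp : ∀ p : ℕ, p.Prime → p ≤ y → p ∣ R := fun p h1 h2 => (hR.iff p h1).2 h2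
  have hZ : ‖(1 : DirichletCharacter ℂ R).LFunction ((1 + x₀ : ℝ) : ℂ)‖ ≤ 12 * V ^ 5 / c₀ := by
    refine (triv_norm_le_roughZ hre).trans ?_
    have h2 := roughZ_le hy3 hp (σ := 1 + x₀) (by linarith) (by linarith)
    rw [add_sub_cancel_left, ← hl, hx₀l] at h2
    rw [Complex.ofReal_re]
    refine h2.trans ?_
    have h5 : 1 ≤ V ^ 5 / c₀ := by
      rw [le_div_iff₀ hc00]
      have : 1 ≤ V ^ 5 := one_le_pow₀ hV2
      linarith
    have h6 : 12 * V ^ 5 / c₀ = 6 * (V ^ 5 / c₀ + V ^ 5 / c₀) := by ring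
    rw [h6]
    linarith
  have h12 : ‖(ψ₁ * ψ₂).LFunction ((1 + x₀ : ℝ) : ℂ)‖ ≤ C0 * V := by
    have h1 := hup y R hy0' hR (ψ₁ * ψ₂) hs₁₂ ((1 + x₀ : ℝ) : ℂ) hre hre2
    rw [Lser_zero_eq _ hre, zero_add, pow_one, pow_zero, mul_one, Complex.ofReal_im] at h1
    refine h1.trans ?_
    have h2 : WW y 0 ≤ V := by
      rw [hVeq]
      unfold WW
      have : Real.log (|(0 : ℝ)| + 3) ≤ Real.log (|(1 : ℝ)| + 3) := by
        apply Real.log_le_log (by norm_num)
        norm_num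
      rw [← hl]
      linarith
    calc C0' * WW y 0 ≤ C0' * V := by gcongr
      _ ≤ C0 * V := by gcongr; linarith
  set a₁ := ‖ψ₁.LFunction ((1 + x₀ : ℝ) : ℂ)‖ with ha₁
  set a₂ := ‖ψ₂.LFunction ((1 + x₀ : ℝ) : ℂ)‖ with ha₂
  have ha10 : 0 ≤ a₁ := norm_nonneg _
  have ha20 : 0 ≤ a₂ := norm_nonneg _
  have hprod : m ^ 2 ≤ (V ^ 3 * a₁) * (V ^ 3 * a₂) := by
    have h1 : 1 ≤ (12 * V ^ 5 / c₀) * (a₁ * a₂ * (C0 * V)) := by
      refine hrep.trans ?_
      gcongr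
    have h2 : (12 * V ^ 5 / c₀) * (a₁ * a₂ * (C0 * V)) =
        ((V ^ 3 * a₁) * (V ^ 3 * a₂)) / m ^ 2 := by
      rw [hc₀]
      field_simp
    rw [h2, le_div_iff₀ (by positivity), one_mul] at h1
    exact h1
  have hor : m ≤ V ^ 3 * a₁ ∨ m ≤ V ^ 3 * a₂ := by
    by_contra hcon
    push Not at hcon
    obtain ⟨h1, h2⟩ := hcon
    have h3 : 0 ≤ V ^ 3 * a₁ := by positivity
    have h4 : 0 ≤ V ^ 3 * a₂ := by positivity
    have : (V ^ 3 * a₁) * (V ^ 3 * a₂) < m ^ 2 := by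
      rw [sq]
      exact mul_lt_mul'' h1 h2 h3 h4
    linarith
  rcases hor with h | h
  · left
    intro s hs hs2
    rw [← hL₁ s hs]
    exact hone y R hy3' hR ψ₁ hsq₁ (fun T hT z hz w hw => hdiff y R hy2' hR ψ₁ hs₁ T hT z hz w hw)
      h s hs hs2
  · right
    intro s hs hs2
    rw [← hL₂ s hs]
    exact hone y R hy3' hR ψ₂ hsq₂ (fun T hT z hz w hw => hdiff y R hy2' hR ψ₂ hs₂ T hT z hz w hw)
      h s hs hs2

end Pool.Agent.PW
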