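import Pool.Agent.Work.MP_92f640_nt.PW.FinB
import Pool.Agent.Work.MP_92f640_nt.PW.Lower
import Pool.Agent.Work.MP_92f640_nt.PW.RealL
import Pool.Agent.Work.MP_92f640_nt.PW.RealCond
import Pool.Agent.Work.MP_92f640_nt.PW.PsiR

/-! # Module M7b: prime sums of primitive characters whose conductor has a small radical

`R = r ∏_{p ≤ y} p`, `χ = changeLevel ψ`; `rd r ≤ exp (L^(1-η)) < y`, so all primes of `r` are `≤ y`. `char_sum` (and `|∑| ≤ r ≤ √N` for
`N ≥ r²`) gives the hypothesis of `rough_sum` for `ψ`; for `χ²` take the primitive character of conductor `r₂ ∣ r`.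
The primes `≤ y` contribute at most `y log u`. -/

namespace Pool.Agent.PW

open Finset Pool.Agent.BV Filter

/-- the lower bound for the rough L-function -/
def GoodL (c : ℝ) (y : ℕ) {R : ℕ} (χ : DirichletCharacter ℂ R) : Prop :=
  ∀ [NeZero R], ∀ s : ℂ, 1 < s.re → s.re ≤ 2 → c ≤ WW y s.im ^ 40 * ‖χ.LFunction s‖

lemma fin_exp_ge (a : ℝ) (ha : 0 < a) (c : ℝ) (k : ℕ) : ∀ᶠ x : ℕ in atTop,
    c * (Real.log x) ^ k ≤ Real.exp ((Real.log x) ^ a) := by
  -- `exp u ≥ u^m/m!` with `u = L^a`, `a m ≥ k + 1`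
  obtain ⟨m, hm⟩ := exists_nat_ge (((k : ℝ) + 1) / a)
  have h1 : (k : ℝ) + 1 ≤ a * m := by
    rw [div_le_iff₀ ha] at hm; linarith
  filter_upwards [fin_log_x (max 1 (|c| * m.factorial))] with x hx
  set L := Real.log x with hL
  have hL1 : 1 ≤ L := (le_max_left _ _).trans hx
  have hL2 : |c| * m.factorial ≤ L := (le_max_right _ _).trans hx
  have hL0 : 0 < L := by linarith
  have h2 := Real.pow_div_factorial_le_exp (L ^ a) (Real.rpow_nonneg hL0.le _) m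
  refine le_trans ?_ h2
  rw [le_div_iff₀ (by positivity)]
  have h3 : L ^ (k + 1) ≤ (L ^ a) ^ m := by
    rw [← Real.rpow_natCast, ← Real.rpow_natCast, ← Real.rpow_mul hL0.le]
    refine Real.rpow_le_rpow_of_exponent_le hL1 ?_
    push_cast
    exact h1
  have h4 : c * m.factorial ≤ L := by
    refine le_trans ?_ hL2
    exact mul_le_mul_of_nonneg_right (le_abs_self c) (by positivity)
  calc c * L ^ k * m.factorial = (c * m.factorial) * L ^ k := by ring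
    _ ≤ L * L ^ k := mul_le_mul_of_nonneg_right h4 (by positivity)
    _ = L ^ (k + 1) := by ring
    _ ≤ _ := h3

lemma fin_WW {y : ℕ} (hy : Real.exp 1 ≤ y) (t : ℝ) : 1 ≤ WW y t := by
  unfold WW
  have hy0 : (0 : ℝ) < y := lt_of_lt_of_le (Real.exp_pos _) hy
  have h1 : 1 ≤ Real.log y := by rwa [Real.le_log_iff_exp_le hy0]
  have h2 : 0 ≤ Real.log (Real.log y) := Real.log_nonneg h1
  have h3 : 1 ≤ Real.log (|t| + 3) := by
    rw [Real.le_log_iff_exp_le (by positivity)]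
    have := Real.exp_one_lt_d9
    have := abs_nonneg t
    linarith
  linarith

lemma fin_ne_one {r : ℕ} (hr : 1 < r) {ψ : DirichletCharacter ℂ r} (hψ : ψ.IsPrimitive) : ψ ≠ 1 := by
  intro h
  have hne : NeZero r := ⟨by omega⟩
  rw [h, DirichletCharacter.isPrimitive_def, DirichletCharacter.conductor_one] at hψ
  omega

/-- of two real characters of different conductor, one is good -/
lemma fin_pair (η : ℝ) (h0 : 0 < η) (h1 : η ≤ 1 / 4) : ∃ c : ℝ, 0 < c ∧ ∀ᶠ x : ℕ in atTop,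
    ∀ r₁ r₂ : ℕ, 1 < r₁ → r₁ ≤ x → 1 < r₂ → r₂ ≤ x → r₁ ≠ r₂ →
    (rd r₁ : ℝ) ≤ Real.exp ((Real.log x) ^ (1 - η)) → (rd r₂ : ℝ) ≤ Real.exp ((Real.log x) ^ (1 - η)) →
    ∀ ψ₁ ∈ prim r₁, ∀ ψ₂ ∈ prim r₂, ψ₁ ^ 2 = 1 → ψ₂ ^ 2 = 1 →
    GoodL c (yy η x) (DirichletCharacter.changeLevel (Dvd.intro (primorial (yy η x)) rfl) ψ₁) ∨
    GoodL c (yy η x) (DirichletCharacter.changeLevel (Dvd.intro (primorial (yy η x)) rfl) ψ₂) := by
  classical
  obtain ⟨c, hc, y₁, hy₁⟩ := real_rough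
  refine ⟨c, hc, ?_⟩
  filter_upwards [fin_SB η h0 h1, (fin_yy_tendsto η h1).eventually_ge_atTop y₁,
    fin_rpow_x (1 - η) (1 - η / 5) 2 (by linarith), fin_log_x 1] with x hSB hy h2L hL1
  intro r₁ r₂ hr₁ hr₁x hr₂ hr₂x hne hd₁ hd₂ ψ₁ hψ₁ ψ₂ hψ₂ hq₁ hq₂
  set L := Real.log x with hL
  set y := yy η x with hyd
  have hψ₁' : ψ₁.IsPrimitive := by unfold prim at hψ₁; exact (mem_filter.1 hψ₁).2
  have hψ₂' : ψ₂.IsPrimitive := by unfold prim at hψ₂; exact (mem_filter.1 hψ₂).2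
  have hL0 : 0 < L := by linarith
  have hLp : 0 < L ^ (1 - η) := Real.rpow_pos_of_pos hL0 _
  have hyL : Real.exp (L ^ (1 - η / 5)) ≤ y := Nat.le_ceil _
  have hdm : (rd (r₁ * r₂) : ℝ) ≤ Real.exp (2 * L ^ (1 - η)) := by
    have a1 : (rd (r₁ * r₂) : ℝ) ≤ rd r₁ * rd r₂ := by
      exact_mod_cast fin_rd_mul (by omega) (by omega)
    refine a1.trans ?_
    rw [two_mul, Real.exp_add]
    exact mul_le_mul hd₁ hd₂ (Nat.cast_nonneg _) (Real.exp_pos _).le
  have hdy : ∀ m : ℕ, (rd m : ℝ) ≤ Real.exp (2 * L ^ (1 - η)) → rd m ≤ y := by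
    intro m hm
    have : (rd m : ℝ) ≤ y := hm.trans ((Real.exp_le_exp.2 h2L).trans hyL)
    exact_mod_cast this
  have hd₁' : (rd r₁ : ℝ) ≤ Real.exp (2 * L ^ (1 - η)) :=
    hd₁.trans (Real.exp_le_exp.2 (by linarith))
  have hd₂' : (rd r₂ : ℝ) ≤ Real.exp (2 * L ^ (1 - η)) :=
    hd₂.trans (Real.exp_le_exp.2 (by linarith))
  have hR₁ : RM y (r₁ * primorial y) := fin_RM (by omega) (hdy _ hd₁')
  have hR₂ : RM y (r₂ * primorial y) := fin_RM (by omega) (hdy _ hd₂')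
  have hm0 : r₁ * r₂ ≠ 0 := by
    have : 0 < r₁ * r₂ := Nat.mul_pos (by omega) (by omega)
    omega
  have hR₃ : RM y (r₁ * r₂ * primorial y) := fin_RM hm0 (hdy _ hdm)
  have i₁ : NeZero (r₁ * primorial y) := ⟨hR₁.ne⟩
  have i₂ : NeZero (r₂ * primorial y) := ⟨hR₂.ne⟩
  have i₃ : NeZero (r₁ * r₂) := ⟨hm0⟩
  have hxx : x ≤ x ^ 2 := Nat.le_self_pow (by norm_num) x
  have hs₁ := hSB r₁ (by omega) (hr₁x.trans hxx) hd₁' ψ₁ (fin_ne_one hr₁ hψ₁') _ hR₁
    (Dvd.intro (primorial y) rfl)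
  have hs₂ := hSB r₂ (by omega) (hr₂x.trans hxx) hd₂' ψ₂ (fin_ne_one hr₂ hψ₂') _ hR₂
    (Dvd.intro (primorial y) rfl)
  have hθ : DirichletCharacter.changeLevel (Dvd.intro _ rfl : r₁ ∣ r₁ * r₂) ψ₁ *
      DirichletCharacter.changeLevel (Dvd.intro_left _ rfl : r₂ ∣ r₁ * r₂) ψ₂ ≠ 1 := by
    intro h
    have h3 := eq_inv_of_mul_eq_one_left h
    have h4 := congrArg DirichletCharacter.conductor h3
    rw [DirichletCharacter.conductor_changeLevel, DirichletCharacter.conductor_inv,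
      DirichletCharacter.conductor_changeLevel,
      (DirichletCharacter.isPrimitive_def _).1 hψ₁',
      (DirichletCharacter.isPrimitive_def _).1 hψ₂'] at h4
    exact hne h4
  have hs₃ := hSB (r₁ * r₂) hm0 (by
    calc r₁ * r₂ ≤ x * x := Nat.mul_le_mul hr₁x hr₂x
      _ = x ^ 2 := by ring) hdm _ hθ _ hR₃ (Dvd.intro (primorial y) rfl)
  have hsq : ∀ {r : ℕ} (ψ : DirichletCharacter ℂ r) {R : ℕ} (h : r ∣ R), ψ ^ 2 = 1 →
      DirichletCharacter.changeLevel h ψ ^ 2 = 1 := by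
    intro r ψ R h h2
    rw [← map_pow, h2, map_one]
  have hmain := hy₁ y _ _ hy hR₁ hR₂ (DirichletCharacter.changeLevel (Dvd.intro (primorial y) rfl) ψ₁)
    (DirichletCharacter.changeLevel (Dvd.intro (primorial y) rfl) ψ₂)
    (hsq _ _ hq₁) (hsq _ _ hq₂) hs₁ hs₂ (by
      intro N
      have h5 := hs₃ N
      rw [show (∑ n ∈ Icc 1 N, DirichletCharacter.changeLevel (Dvd.intro (primorial y) rfl :
          r₁ ∣ r₁ * primorial y) ψ₁ (n : ZMod (r₁ * primorial y)) *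
          DirichletCharacter.changeLevel (Dvd.intro (primorial y) rfl :
          r₂ ∣ r₂ * primorial y) ψ₂ (n : ZMod (r₂ * primorial y))) = _ from
        sum_congr rfl fun n _ => fin_prod_val _ _ (Dvd.intro (primorial y) rfl :
          r₁ * r₂ ∣ r₁ * r₂ * primorial y) hR₁ hR₂ hR₃ ψ₁ ψ₂ n]
      exact h5)
  rcases hmain with h | h
  · left
    intro _ s hs1 hs2
    exact h s hs1 hs2
  · right
    intro _ s hs1 hs2
    exact h s hs1 hs2

/-- from a good rough L-function to the prime sum of `ψ` -/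
lemma fin_good (c : ℝ) (hc : 0 < c) (η : ℝ) (h0 : 0 < η) (h1 : η ≤ 1 / 4) (B : ℕ) : ∀ᶠ x : ℕ in atTop,
    ∀ r : ℕ, 1 < r → r ≤ x → (rd r : ℝ) ≤ Real.exp ((Real.log x) ^ (1 - η)) →
    ∀ ψ ∈ prim r,
    GoodL c (yy η x) (DirichletCharacter.changeLevel (Dvd.intro (primorial (yy η x)) rfl) ψ) →
    ∀ u : ℕ, Real.exp ((Real.log x) ^ (1 - η / 8)) ≤ u → u ≤ x →
    ‖psiC ψ u‖ ≤ (u : ℝ) / (Real.log x) ^ B := by
  classical
  obtain ⟨x₁, hx₁⟩ := psi_rough c hc η h0 (by linarith) (B + 1)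
  filter_upwards [fin_SB η h0 h1, eventually_ge_atTop x₁,
    fin_rpow_x (1 - η) (1 - η / 5) 2 (by linarith), fin_log_x 2,
    fin_rpow_x (1 - η / 5) (1 - η / 8) 2 (by linarith),
    fin_exp_ge (1 - η / 5) (by linarith) 2 (B + 2)] with x hSB hx h2L hL2 hLL hexp
  intro r hr hrx hrd ψ hψ hgood u hu hux
  set L := Real.log x with hL
  set y := yy η x with hyd
  have hψ' : ψ.IsPrimitive := by unfold prim at hψ; exact (mem_filter.1 hψ).2
  have hL0 : 0 < L := by linarith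
  have hLp : 0 < L ^ (1 - η) := Real.rpow_pos_of_pos hL0 _
  have hyL : Real.exp (L ^ (1 - η / 5)) ≤ y := Nat.le_ceil _
  have hrd' : (rd r : ℝ) ≤ Real.exp (2 * L ^ (1 - η)) :=
    hrd.trans (Real.exp_le_exp.2 (by linarith))
  have hdy : rd r ≤ y := by
    have : (rd r : ℝ) ≤ y := hrd'.trans ((Real.exp_le_exp.2 h2L).trans hyL)
    exact_mod_cast this
  have hR : RM y (r * primorial y) := fin_RM (by omega) hdy
  have i₁ : NeZero (r * primorial y) := ⟨hR.ne⟩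
  have hxx : x ≤ x ^ 2 := Nat.le_self_pow (by norm_num) x
  have hs := hSB r (by omega) (hrx.trans hxx) hrd' ψ (fin_ne_one hr hψ') _ hR
    (Dvd.intro (primorial y) rfl)
  have hp := hx₁ x hx y _ hR rfl _ hs (fun s hs1 hs2 => hgood s hs1 hs2) u hu hux
  have hE : 1 ≤ Real.exp (L ^ (1 - η / 5)) := Real.one_le_exp (Real.rpow_nonneg hL0.le _)
  have hu1 : (4 : ℝ) ≤ u := by
    have a1 : (1 : ℝ) ≤ L ^ (B + 2) := one_le_pow₀ (by linarith)
    have a2 : (2 : ℝ) ≤ Real.exp (L ^ (1 - η / 5)) := by linarith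
    have a3 : Real.exp (2 * L ^ (1 - η / 5)) ≤ u := (Real.exp_le_exp.2 hLL).trans hu
    rw [two_mul, Real.exp_add] at a3
    nlinarith
  have hu3 : 3 ≤ u := by
    have : (3 : ℝ) ≤ u := by linarith
    exact_mod_cast this
  have hu0 : (0 : ℝ) < u := by linarith
  have hdef := fin_defect hR (Dvd.intro (primorial y) rfl) ψ u hu3
  have hlogu : Real.log u ≤ L := Real.log_le_log hu0 (by exact_mod_cast hux)
  have hyle : (y : ℝ) ≤ 2 * Real.exp (L ^ (1 - η / 5)) := by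
    have a1 := Nat.ceil_lt_add_one (Real.exp_pos (L ^ (1 - η / 5))).le
    have a2 : (y : ℝ) < Real.exp (L ^ (1 - η / 5)) + 1 := a1
    linarith
  have hb : (y : ℝ) * Real.log u ≤ (u : ℝ) / L ^ (B + 1) := by
    rw [le_div_iff₀ (by positivity)]
    have a3 : Real.exp (2 * L ^ (1 - η / 5)) ≤ u := (Real.exp_le_exp.2 hLL).trans hu
    rw [two_mul, Real.exp_add] at a3
    have hlu0 : 0 ≤ Real.log u := Real.log_nonneg (by linarith)
    calc (y : ℝ) * Real.log u * L ^ (B + 1)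
        ≤ (2 * Real.exp (L ^ (1 - η / 5))) * L * L ^ (B + 1) := by gcongr
      _ = Real.exp (L ^ (1 - η / 5)) * (2 * L ^ (B + 2)) := by ring
      _ ≤ Real.exp (L ^ (1 - η / 5)) * Real.exp (L ^ (1 - η / 5)) := by gcongr
      _ ≤ u := a3
  have htot : ‖psiC ψ u‖ ≤ (u : ℝ) / L ^ (B + 1) + (u : ℝ) / L ^ (B + 1) := by
    calc ‖psiC ψ u‖ = ‖psiC (DirichletCharacter.changeLevel (Dvd.intro (primorial y) rfl) ψ) u +
          (psiC ψ u - psiC (DirichletCharacter.changeLevel (Dvd.intro (primorial y) rfl) ψ) u)‖ := by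
          congr 1; ring
      _ ≤ _ := (norm_add_le _ _).trans (add_le_add hp (hdef.trans hb))
  refine htot.trans ?_
  rw [← two_mul, pow_succ, ← mul_div_assoc, div_le_div_iff₀ (by positivity) (by positivity)]
  have : 0 < L ^ B := by positivity
  calc 2 * (u : ℝ) * L ^ B ≤ L * u * L ^ B := by gcongr
    _ = (u : ℝ) * (L ^ B * L) := by ring

/-- small conductors: Siegel-Walfisz -/
lemma fin_small (η : ℝ) (h0 : 0 < η) (h1 : η ≤ 1 / 4) (A B : ℕ) : ∀ᶠ x : ℕ in atTop,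
    ∀ r : ℕ, 1 < r → (r : ℝ) ≤ (Real.log x) ^ A →
    ∀ ψ ∈ prim r, ∀ u : ℕ, Real.exp ((Real.log x) ^ (1 - η / 8)) ≤ u →
    ‖psiC ψ u‖ ≤ (u : ℝ) / (Real.log x) ^ B := by
  obtain ⟨C, hC, hsw⟩ := siegel_walfisz (2 * (B + 1)) (2 * A)
  filter_upwards [fin_log_x (max 4 C)] with x hx
  intro r hr hrA ψ hψ u hu
  set L := Real.log x with hL
  have hL4 : 4 ≤ L := (le_max_left _ _).trans hx
  have hLC : C ≤ L := (le_max_right _ _).trans hx
  have hL0 : 0 < L := by linarith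
  have hu0 : (0 : ℝ) < u := lt_of_lt_of_le (Real.exp_pos _) hu
  have hlu : L ^ (1 - η / 8) ≤ Real.log u := by
    rwa [Real.le_log_iff_exp_le hu0]
  have hhalf : L ^ ((1 : ℝ) / 2) ≤ Real.log u :=
    (Real.rpow_le_rpow_of_exponent_le (by linarith) (by linarith)).trans hlu
  have hsq : L ≤ (Real.log u) ^ 2 := by
    have a1 : 0 ≤ L ^ ((1 : ℝ) / 2) := Real.rpow_nonneg hL0.le _
    have a2 := pow_le_pow_left₀ a1 hhalf 2
    rwa [← Real.rpow_natCast, ← Real.rpow_mul hL0.le, show ((1 : ℝ) / 2 * ((2 : ℕ) : ℝ)) = 1 by norm_num,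
      Real.rpow_one] at a2
  have hL12 : 2 ≤ L ^ ((1 : ℝ) / 2) := by
    rw [← Real.sqrt_eq_rpow]
    apply Real.le_sqrt_of_sq_le
    linarith
  have hu3 : 3 ≤ u := by
    have a1 : Real.exp 2 ≤ u := by
      rw [← Real.le_log_iff_exp_le hu0]
      linarith
    have a2 : (3 : ℝ) ≤ Real.exp 2 := by
      have := Real.add_one_le_exp (2 : ℝ)
      linarith
    exact_mod_cast a2.trans a1
  have h2 := hsw u hu3 r hr (by
    rw [pow_mul]
    exact hrA.trans (pow_le_pow_left₀ hL0.le hsq A)) ψ hψ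
  refine h2.trans ?_
  rw [pow_mul]
  have h3 : L ^ (B + 1) ≤ ((Real.log u) ^ 2) ^ (B + 1) := pow_le_pow_left₀ hL0.le hsq _
  calc C * u / ((Real.log u) ^ 2) ^ (B + 1) ≤ C * u / L ^ (B + 1) := by gcongr
    _ ≤ L * u / L ^ (B + 1) := by gcongr
    _ = u / L ^ B := by
        rw [pow_succ]
        field_simp

theorem prime_sum_psi (η : ℝ) (h0 : 0 < η) (h1 : η ≤ 1 / 4) (A B : ℕ) : ∃ x₁ : ℕ, ∀ x : ℕ, x₁ ≤ x →
    ∃ r₁ : ℕ, (Real.log x) ^ A < (r₁ : ℝ) ∧ r₁ ∣ 4 * rd r₁ ∧ ∀ r : ℕ, 1 < r → r ≤ x → r ≠ r₁ →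
    (rd r : ℝ) ≤ Real.exp ((Real.log x) ^ (1 - η)) → ∀ ψ ∈ prim r, ∀ u : ℕ,
    Real.exp ((Real.log x) ^ (1 - η / 8)) ≤ u → u ≤ x →
    ‖psiC ψ u‖ ≤ (u : ℝ) / (Real.log x) ^ B := by
  classical
  obtain ⟨c₁, hc₁, ya, hya⟩ := lower_rough
  obtain ⟨c₂, hc₂, hpair⟩ := fin_pair η h0 h1
  set c : ℝ := min c₁ c₂ with hcd
  have hc : 0 < c := lt_min hc₁ hc₂
  have hev := (fin_good c hc η h0 h1 B).and ((fin_small η h0 h1 A B).and (hpair.and
    ((fin_SB η h0 h1).and (((fin_yy_tendsto η h1).eventually_ge_atTop (max ya 3)).and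
    ((fin_rpow_x (1 - η) (1 - η / 5) 2 (by linarith)).and (fin_log_x 1))))))
  obtain ⟨x₁, hx₁⟩ := eventually_atTop.1 hev
  refine ⟨x₁, fun x hx => ?_⟩
  obtain ⟨hgood, hsmall, hpr, hSB, hy, h2L, hL1⟩ := hx₁ x hx
  set L := Real.log x with hL
  set y := yy η x with hyd
  have hL0 : 0 < L := by linarith
  have hLp : 0 < L ^ (1 - η) := Real.rpow_pos_of_pos hL0 _
  have hyL : Real.exp (L ^ (1 - η / 5)) ≤ y := Nat.le_ceil _
  -- complex characters
  have hcomplex : ∀ r : ℕ, 1 < r → r ≤ x → (rd r : ℝ) ≤ Real.exp (L ^ (1 - η)) → ∀ ψ ∈ prim r,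
      ψ ^ 2 ≠ 1 →
      GoodL c y (DirichletCharacter.changeLevel (Dvd.intro (primorial y) rfl) ψ) := by
    intro r hr hrx hrd ψ hψ hq
    have hψ' : ψ.IsPrimitive := by unfold prim at hψ; exact (mem_filter.1 hψ).2
    have hrd' : (rd r : ℝ) ≤ Real.exp (2 * L ^ (1 - η)) :=
      hrd.trans (Real.exp_le_exp.2 (by linarith))
    have hdy : rd r ≤ y := by
      have : (rd r : ℝ) ≤ y := hrd'.trans ((Real.exp_le_exp.2 h2L).trans hyL)
      exact_mod_cast this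
    have hR : RM y (r * primorial y) := fin_RM (by omega) hdy
    have hxx : x ≤ x ^ 2 := Nat.le_self_pow (by norm_num) x
    have hs := hSB r (by omega) (hrx.trans hxx) hrd' ψ (fin_ne_one hr hψ') _ hR
      (Dvd.intro (primorial y) rfl)
    have hs2 := hSB r (by omega) (hrx.trans hxx) hrd' (ψ ^ 2) hq _ hR
      (Dvd.intro (primorial y) rfl)
    rw [map_pow] at hs2
    intro _ s hs1 hs3
    have h4 := hya y _ ((le_max_left _ _).trans hy) hR _ hs hs2 s hs1 hs3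
    have hW := fin_WW (y := y) (by
      have a1 : (3 : ℝ) ≤ y := by exact_mod_cast (le_max_right _ _).trans hy
      have := Real.exp_one_lt_d9
      linarith) s.im
    refine (min_le_left _ _).trans (h4.trans ?_)
    exact mul_le_mul_of_nonneg_right (pow_le_pow_right₀ hW (by norm_num)) (norm_nonneg _)
  by_cases hex : ∃ r₁ : ℕ, L ^ A < (r₁ : ℝ) ∧ 1 < r₁ ∧ r₁ ≤ x ∧ (rd r₁ : ℝ) ≤ Real.exp (L ^ (1 - η)) ∧
      ∃ ψ ∈ prim r₁, ψ ^ 2 = 1 ∧
      ¬ GoodL c y (DirichletCharacter.changeLevel (Dvd.intro (primorial y) rfl) ψ)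
  · obtain ⟨r₁, hr₁A, hr₁, hr₁x, hrd₁, ψ₁, hψ₁, hq₁, hbad₁⟩ := hex
    refine ⟨r₁, hr₁A, ?_, fun r hr hrx hne hrd ψ hψ u hu hux => ?_⟩
    · have hψ₁' : ψ₁.IsPrimitive := by unfold prim at hψ₁; exact (mem_filter.1 hψ₁).2
      exact real_cond hr₁ hψ₁' hq₁
    by_cases hrA : (r : ℝ) ≤ L ^ A
    · exact hsmall r hr hrA ψ hψ u hu
    · have hG : GoodL c y (DirichletCharacter.changeLevel (Dvd.intro (primorial y) rfl) ψ) := by
        by_cases hq : ψ ^ 2 = 1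
        · rcases hpr r r₁ hr hrx hr₁ hr₁x hne hrd hrd₁ ψ hψ ψ₁ hψ₁ hq hq₁ with h | h
          · intro s hs1 hs2
            exact (min_le_right _ _).trans (h s hs1 hs2)
          · exfalso
            apply hbad₁
            intro _ s hs1 hs2
            exact (min_le_right _ _).trans (h s hs1 hs2)
        · exact hcomplex r hr hrx hrd ψ hψ hq
      exact hgood r hr hrx hrd ψ hψ hG u hu hux
  · push Not at hex
    obtain ⟨p, hpA, hp⟩ := Nat.exists_infinite_primes (⌊L ^ A⌋₊ + 1)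
    refine ⟨p, ?_, ?_, fun r hr hrx hne hrd ψ hψ u hu hux => ?_⟩
    · have h1 := Nat.lt_floor_add_one (L ^ A)
      have h2 : ((⌊L ^ A⌋₊ + 1 : ℕ) : ℝ) ≤ p := by exact_mod_cast hpA
      push_cast at h2
      linarith
    · have h1 : rd p = p := by
        unfold rd
        rw [hp.primeFactors, prod_singleton]
      rw [h1]
      exact Dvd.intro_left _ rfl
    by_cases hrA : (r : ℝ) ≤ L ^ A
    · exact hsmall r hr hrA ψ hψ u hu
    · push Not at hrA
      have hG : GoodL c y (DirichletCharacter.changeLevel (Dvd.intro (primorial y) rfl) ψ) := by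
        by_cases hq : ψ ^ 2 = 1
        · exact hex r hrA hr hrx hrd ψ hψ hq
        · exact hcomplex r hr hrx hrd ψ hψ hq
      exact hgood r hr hrx hrd ψ hψ hG u hu hux

end Pool.Agent.PW
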