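import Pool.Agent.Work.MP_92f640_nt.PW.LserB

/-! # Abel summation for coefficients whose partial sums are `≤ H n^{1-2ε}`

`LG_abel`: the tail `∑_{N < n ≤ M} a(n) (log n)^j n^{-s}` is `≤ C H (1 + (|s| + j)/ε) (log N)^j N^{-2ε}`,
`C = C(j)`. -/

namespace Pool.Agent.PW

open Finset Pool.Agent.BV

theorem LG_abel (j : ℕ) : ∃ C : ℝ, 1 ≤ C ∧ ∀ ε H : ℝ, 0 < ε → ε ≤ 1 / 8 → 0 ≤ H → ∀ a : ℕ → ℂ,
    ∀ N : ℕ, 3 ≤ N → 1 ≤ 2 * ε * Real.log N →
    (∀ m : ℕ, N ≤ m → ‖∑ n ∈ range (m + 1), a n‖ ≤ H * (m * Real.exp (-(2 * ε * Real.log m)))) →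
    ∀ s : ℂ, 1 < s.re → s.re ≤ 2 → ∀ M, N ≤ M →
    ‖∑ n ∈ Ioc N M, a n * LBound_g j s n‖ ≤
      C * H * (1 + (‖s‖ + j) / ε) * (Real.log N) ^ j * Real.exp (-(2 * ε * Real.log N)) := by
  obtain ⟨C, hC1, hC⟩ := LB_log_pow j
  refine ⟨4 * C + 2 * 2 ^ j * C, by nlinarith [(by positivity : (0 : ℝ) < 2 ^ j)], ?_⟩
  intro ε H hε0 hε1 hH a N hN3 hεN ha s hs hs2 M hM
  have hN3' : (3 : ℝ) ≤ N := by exact_mod_cast hN3
  have hN0 : (0 : ℝ) < N := by linarith
  have hlogN : 0 < Real.log N := Real.log_pos (by linarith)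
  -- monotonicity of the bound
  have hmono : ∀ m n : ℕ, 1 ≤ m → m ≤ n → (m : ℝ) * Real.exp (-(2 * ε * Real.log m)) ≤
      n * Real.exp (-(2 * ε * Real.log n)) := by
    intro m n hm hmn
    have hm0 : (0 : ℝ) < m := by exact_mod_cast hm
    have hn0 : (0 : ℝ) < n := by exact_mod_cast (by omega : 0 < n)
    have e3 : ∀ k : ℝ, 0 < k → k * Real.exp (-(2 * ε * Real.log k)) =
        Real.exp ((1 - 2 * ε) * Real.log k) := by
      intro k hk
      have : (1 - 2 * ε) * Real.log k = Real.log k + -(2 * ε * Real.log k) := by ring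
      rw [this, Real.exp_add, Real.exp_log hk]
    rw [e3 m hm0, e3 n hn0]
    apply Real.exp_le_exp.2
    apply mul_le_mul_of_nonneg_left _ (by linarith)
    exact Real.log_le_log hm0 (by exact_mod_cast hmn)
  have hB : ∀ m, N ≤ m → ‖∑ k ∈ Ioc N m, a k‖ ≤
      2 * H * (m * Real.exp (-(2 * ε * Real.log m))) := by
    intro m hm
    have h1 : ∑ k ∈ Ioc N m, a k = ∑ k ∈ range (m + 1), a k - ∑ k ∈ range (N + 1), a k := by
      rw [← Finset.sum_range_add_sum_Ico a (show N + 1 ≤ m + 1 by omega)]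
      have : Ioc N m = Ico (N + 1) (m + 1) := by ext; simp only [mem_Ioc, mem_Ico]; omega
      rw [this]; ring
    rw [h1]
    refine (norm_sub_le _ _).trans ?_
    have h2 := ha m hm
    have h3 := ha N le_rfl
    have h4 := hmono N m (by omega) hm
    nlinarith [mul_le_mul_of_nonneg_left h4 hH]
  have h1 := LB_abel_norm a (LBound_g j s) N M hM
    (fun m => 2 * H * (m * Real.exp (-(2 * ε * Real.log m))))
    (fun n => (‖s‖ + j) * 2 ^ j * (Real.log n) ^ j / (n : ℝ) ^ 2) hB
    (fun n hn => LBound_g_diff j hs (by omega))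
  refine h1.trans ?_
  -- the boundary term
  have h2 : 2 * H * (M * Real.exp (-(2 * ε * Real.log M))) * ‖LBound_g j s (M + 1)‖ ≤
      4 * C * H * (Real.log N) ^ j * Real.exp (-(2 * ε * Real.log N)) := by
    have hM0 : (0 : ℝ) < M := by exact_mod_cast (by omega : 0 < M)
    have hM1 : (M : ℝ) ≤ ((M + 1 : ℕ) : ℝ) := by push_cast; linarith
    have hM2 : (0 : ℝ) < ((M + 1 : ℕ) : ℝ) := by positivity
    have hNM : Real.log N ≤ Real.log M := Real.log_le_log hN0 (by exact_mod_cast hM)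
    have hMM : Real.log M ≤ Real.log ((M + 1 : ℕ) : ℝ) := Real.log_le_log hM0 hM1
    have hMM2 : Real.log ((M + 1 : ℕ) : ℝ) ≤ Real.log M + 1 := by
      have h3 := Real.log_le_sub_one_of_pos (x := ((M + 1 : ℕ) : ℝ) / M) (by positivity)
      rw [Real.log_div hM2.ne' hM0.ne'] at h3
      have h4 : ((M + 1 : ℕ) : ℝ) / M - 1 ≤ 1 := by
        have : ((M + 1 : ℕ) : ℝ) / M - 1 = 1 / M := by push_cast; field_simp; ring
        rw [this, div_le_one hM0]
        exact_mod_cast (by omega : 1 ≤ M)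
      linarith
    have h3 := hC (Real.log N) (Real.log ((M + 1 : ℕ) : ℝ)) ε hlogN (by linarith) hε0 hεN
    have h4 : Real.exp (ε * (Real.log ((M + 1 : ℕ) : ℝ) - Real.log N)) ≤
        2 * Real.exp (ε * (Real.log M - Real.log N)) := by
      have h5 : Real.exp ε ≤ 2 := by
        have h6 : Real.exp (1 / 8 : ℝ) ≤ 2 := by
          have h7 : (1 / 8 : ℝ) ≤ Real.log 2 := by
            have := Real.log_two_gt_d9
            linarith
          calc Real.exp (1 / 8 : ℝ) ≤ Real.exp (Real.log 2) := Real.exp_le_exp.2 h7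
            _ = 2 := Real.exp_log (by norm_num)
        exact (Real.exp_le_exp.2 hε1).trans h6
      calc Real.exp (ε * (Real.log ((M + 1 : ℕ) : ℝ) - Real.log N))
          ≤ Real.exp (ε + ε * (Real.log M - Real.log N)) := by
            apply Real.exp_le_exp.2
            nlinarith
        _ = Real.exp ε * Real.exp (ε * (Real.log M - Real.log N)) := Real.exp_add _ _
        _ ≤ _ := by gcongr
    have h5 : ‖LBound_g j s (M + 1)‖ ≤
        C * Real.log N ^ j * (2 * Real.exp (ε * (Real.log M - Real.log N))) / M := by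
      refine (LBound_g_norm j hs.le (by omega)).trans ?_
      have h6 : Real.log ((M + 1 : ℕ) : ℝ) ^ j ≤
          C * Real.log N ^ j * (2 * Real.exp (ε * (Real.log M - Real.log N))) := by
        refine h3.trans ?_
        gcongr
      have h7 : (0 : ℝ) ≤ Real.log ((M + 1 : ℕ) : ℝ) ^ j := by
        have : 0 ≤ Real.log ((M + 1 : ℕ) : ℝ) := by linarith
        positivity
      gcongr
    calc 2 * H * (M * Real.exp (-(2 * ε * Real.log M))) * ‖LBound_g j s (M + 1)‖
        ≤ 2 * H * (M * Real.exp (-(2 * ε * Real.log M))) *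
          (C * Real.log N ^ j * (2 * Real.exp (ε * (Real.log M - Real.log N))) / M) := by gcongr
      _ = 4 * C * H * (Real.log N) ^ j * (Real.exp (-(2 * ε * Real.log M)) *
            Real.exp (ε * (Real.log M - Real.log N))) := by
          field_simp
          ring
      _ ≤ 4 * C * H * (Real.log N) ^ j * Real.exp (-(2 * ε * Real.log N)) := by
          gcongr
          rw [← Real.exp_add]
          apply Real.exp_le_exp.2
          nlinarith
  have h3 : ∑ n ∈ Ioc N M, 2 * H * (n * Real.exp (-(2 * ε * Real.log n))) *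
      ((‖s‖ + j) * 2 ^ j * (Real.log n) ^ j / (n : ℝ) ^ 2) ≤
      2 * C * H * ((‖s‖ + j) / ε) * 2 ^ j * (Real.log N) ^ j *
        Real.exp (-(2 * ε * Real.log N)) := by
    have h4 : ∀ n ∈ Ioc N M, 2 * H * (n * Real.exp (-(2 * ε * Real.log n))) *
        ((‖s‖ + j) * 2 ^ j * (Real.log n) ^ j / (n : ℝ) ^ 2) ≤
        2 * C * H * (‖s‖ + j) * 2 ^ j * (Real.log N) ^ j * Real.exp (-(ε * Real.log N)) *
        (Real.exp (-(ε * Real.log n)) / n) := by
      intro n hn
      rw [mem_Ioc] at hn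
      have hn0 : (0 : ℝ) < n := by exact_mod_cast (by omega : 0 < n)
      have hNn : Real.log N ≤ Real.log n := Real.log_le_log hN0 (by exact_mod_cast hn.1.le)
      have h5 := hC (Real.log N) (Real.log n) ε hlogN hNn hε0 hεN
      calc 2 * H * (n * Real.exp (-(2 * ε * Real.log n))) *
          ((‖s‖ + j) * 2 ^ j * (Real.log n) ^ j / (n : ℝ) ^ 2)
          ≤ 2 * H * (n * Real.exp (-(2 * ε * Real.log n))) *
          ((‖s‖ + j) * 2 ^ j * (C * Real.log N ^ j * Real.exp (ε * (Real.log n - Real.log N))) /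
            (n : ℝ) ^ 2) := by gcongr
        _ = 2 * C * H * (‖s‖ + j) * 2 ^ j * (Real.log N) ^ j *
            (Real.exp (-(2 * ε * Real.log n)) * Real.exp (ε * (Real.log n - Real.log N))) / n := by
            field_simp
        _ = 2 * C * H * (‖s‖ + j) * 2 ^ j * (Real.log N) ^ j *
            (Real.exp (-(ε * Real.log N)) * Real.exp (-(ε * Real.log n))) / n := by
            congr 2
            rw [← Real.exp_add, ← Real.exp_add]
            congr 1
            ring
        _ = _ := by ring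
    refine (sum_le_sum h4).trans ?_
    rw [← mul_sum]
    have h5 := LB_tail_sum hε0 N M (by omega) hM
    have h6 : 1 / ε * (Real.exp (-(ε * Real.log N)) - Real.exp (-(ε * Real.log M))) ≤
        1 / ε * Real.exp (-(ε * Real.log N)) := by
      have := Real.exp_pos (-(ε * Real.log M))
      have h8 : 0 < 1 / ε := by positivity
      nlinarith
    calc 2 * C * H * (‖s‖ + j) * 2 ^ j * (Real.log N) ^ j * Real.exp (-(ε * Real.log N)) *
          ∑ n ∈ Ioc N M, (Real.exp (-(ε * Real.log n)) / n)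
        ≤ 2 * C * H * (‖s‖ + j) * 2 ^ j * (Real.log N) ^ j * Real.exp (-(ε * Real.log N)) *
          (1 / ε * Real.exp (-(ε * Real.log N))) := by
          gcongr
          exact h5.trans h6
      _ = 2 * C * H * ((‖s‖ + j) / ε) * 2 ^ j * (Real.log N) ^ j *
          (Real.exp (-(ε * Real.log N)) * Real.exp (-(ε * Real.log N))) := by ring
      _ = _ := by
          rw [← Real.exp_add]
          congr 2
          ring
  refine (add_le_add h2 h3).trans ?_
  have hX : 0 ≤ C * H * (Real.log N) ^ j * Real.exp (-(2 * ε * Real.log N)) := by positivity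
  have hY : 0 ≤ (‖s‖ + j) / ε := by positivity
  have h2j : (0 : ℝ) < 2 ^ j := by positivity
  have e5 : (4 * C + 2 * 2 ^ j * C) * H * (1 + (‖s‖ + j) / ε) * (Real.log N) ^ j *
      Real.exp (-(2 * ε * Real.log N)) =
      (4 * C * H * (Real.log N) ^ j * Real.exp (-(2 * ε * Real.log N)) +
      2 * C * H * ((‖s‖ + j) / ε) * 2 ^ j * (Real.log N) ^ j * Real.exp (-(2 * ε * Real.log N))) +
      (4 * ((‖s‖ + j) / ε) + 2 * 2 ^ j) *
        (C * H * (Real.log N) ^ j * Real.exp (-(2 * ε * Real.log N))) := by ring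
  rw [e5]
  have : 0 ≤ (4 * ((‖s‖ + j) / ε) + 2 * 2 ^ j) *
      (C * H * (Real.log N) ^ j * Real.exp (-(2 * ε * Real.log N))) := by positivity
  linarith

end Pool.Agent.PW
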