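import Pool.Agent.Work.MP_92f640_nt.PW.Rough

/-! # Log-free rough L-functions: definitions

`SG y G A χ`: the partial sums of `χ` are `≤ 1 + G (N/log y) N^{-1/(A log y)}`. With `G` a constant there is
no loss of logarithms. `WG G t = log G + log (|t| + 3)` is the size parameter. -/

namespace Pool.Agent.PW

open Finset Pool.Agent.BV

noncomputable section

/-- cancellation in the partial sums of `χ`, without loss of logarithms -/
def SG (y : ℕ) (G A : ℝ) {R : ℕ} (χ : DirichletCharacter ℂ R) : Prop := ∀ N : ℕ,
  ‖∑ n ∈ Icc 1 N, χ (n : ZMod R)‖ ≤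
    1 + G * (N / Real.log y) * Real.exp (-(Real.log N / (A * Real.log y)))

/-- the size parameter -/
def WG (G t : ℝ) : ℝ := Real.log G + Real.log (|t| + 3)

end

end Pool.Agent.PW
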