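import Mathlib
import Pool.Agent.Work.MP_92f640_nt.PW.BadP
import Pool.Agent.Work.MP_92f640_nt.PW.MainP
import Pool.Agent.Work.MP_92f640_nt.PW.RealCond
import Pool.Agent.Work.MP_92f640_nt.PW.FinalP

/-! # Module LevelP: the level `x^(10/11-ε)` with exceptional divisors of large radical

`main_natP` (every exceptional divisor is `r / g` with a bad character mod `r`), `prime_sum_psi` and `not_bad`
(the conductor `r` of a bad character has radical `> exp (L^(1-η))` or is the one exceptional conductor). -/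

namespace Pool.Agent.PW

open Finset Pool.Agent.BV Pool.Agent.HL Pool.Agent.HS Pool.Agent.HN Filter

/-- `2 L^(1-η) ≤ L^(1-η')` and `L^C ≤ exp (L^(1-η') / 2)` for large `L` -/
theorem ev_rad (η η' : ℝ) (h : η' < η) (h1 : η' < 1) (C : ℕ) :
    ∀ᶠ x : ℕ in atTop, (Real.log x) ^ C * Real.exp ((Real.log x) ^ (1 - η)) <
      Real.exp ((Real.log x) ^ (1 - η')) := by
  have hlog : Tendsto (fun x : ℕ => Real.log (x : ℝ)) atTop atTop :=
    Real.tendsto_log_atTop.comp tendsto_natCast_atTop_atTop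
  have hb : 0 < 1 - η' := by linarith
  have h1 : Tendsto (fun t : ℝ => t ^ (((C : ℕ) : ℝ) / (1 - η')) * Real.exp (-(1 / 2) * t)) atTop
      (nhds 0) := tendsto_rpow_mul_exp_neg_mul_atTop_nhds_zero _ _ (by norm_num)
  have h2 : Tendsto (fun L : ℝ => L ^ (1 - η')) atTop atTop := tendsto_rpow_atTop hb
  have h3 := (h1.comp (h2.comp hlog)).eventually (gt_mem_nhds (show (0 : ℝ) < 1 by norm_num))
  have h4 : Tendsto (fun L : ℝ => L ^ (η - η')) atTop atTop := tendsto_rpow_atTop (by linarith)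
  filter_upwards [h3, hlog.eventually_ge_atTop 1, (h4.comp hlog).eventually_ge_atTop 2]
    with x h3 hL1 h4
  simp only [Function.comp_apply] at h3 h4
  set L := Real.log x with hL
  have hL0 : 0 < L := by linarith
  have h5 : (L ^ (1 - η')) ^ (((C : ℕ) : ℝ) / (1 - η')) = L ^ C := by
    rw [← Real.rpow_mul hL0.le, mul_div_cancel₀ _ hb.ne', Real.rpow_natCast]
  rw [h5] at h3
  have h6 : 2 * L ^ (1 - η) ≤ L ^ (1 - η') := by
    calc 2 * L ^ (1 - η) ≤ L ^ (η - η') * L ^ (1 - η) := by gcongr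
      _ = L ^ (1 - η') := by
          rw [← Real.rpow_add hL0]
          congr 1
          ring
  have h7 : Real.exp (-(1 / 2) * L ^ (1 - η')) * Real.exp (1 / 2 * L ^ (1 - η')) = 1 := by
    rw [← Real.exp_add]
    simp
  have h8 : L ^ C < Real.exp (1 / 2 * L ^ (1 - η')) := by
    calc L ^ C = L ^ C * Real.exp (-(1 / 2) * L ^ (1 - η')) * Real.exp (1 / 2 * L ^ (1 - η')) := by
          rw [mul_assoc, h7, mul_one]
      _ < 1 * Real.exp (1 / 2 * L ^ (1 - η')) := by gcongr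
      _ = _ := one_mul _
  calc L ^ C * Real.exp (L ^ (1 - η)) < Real.exp (1 / 2 * L ^ (1 - η')) * Real.exp (L ^ (1 - η)) := by
        gcongr
    _ ≤ Real.exp (1 / 2 * L ^ (1 - η')) * Real.exp (1 / 2 * L ^ (1 - η')) := by
        gcongr
        linarith
    _ = Real.exp (L ^ (1 - η')) := by
        rw [← Real.exp_add]
        congr 1
        ring

open Classical in
theorem nat_P (c₀ V0 : ℝ) (hc : 0 < c₀) (hV0 : 0 ≤ V0) (hv : VLowN c₀ V0) (ε : ℝ) (hε : 0 < ε)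
    (η : ℝ) (hη : 0 < η) (K : ℕ) : ∃ C : ℕ, ∀ A : ℕ, ∃ x₁ : ℕ, ∀ x : ℕ, x₁ ≤ x →
    ∃ (B : Finset ℕ) (r₁ : ℕ), (B.card : ℝ) ≤ (Real.log x) ^ C ∧
      (∀ b ∈ B, Real.exp ((Real.log x) ^ (1 - η)) < ((∏ p ∈ b.primeFactors, p : ℕ) : ℝ)) ∧
      (Real.log x) ^ A < (r₁ : ℝ) ∧ r₁ ∣ 4 * ∏ p ∈ r₁.primeFactors, p ∧
      ∀ q : ℕ, 1 ≤ q → (q : ℝ) ≤ (x : ℝ) ^ (10 / 11 - ε) → (∀ b ∈ B, ¬ b ∣ q) →
        (∀ g : ℕ, g ∣ r₁ → (g : ℝ) ≤ (Real.log x) ^ C → ¬ r₁ / g ∣ q) →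
        (((Icc 1 x).filter (fun n => x < 2 * n ∧ Even n ∧ q ∣ n ∧
          Pool.Agent.Work.MP_92f640_nt.Bad (c₀ / 4) n)).card : ℝ) ≤
          (x : ℝ) / (q * (Real.log x) ^ K) := by
  obtain ⟨C, B', B9, κ, hκ, hκ1, hmain⟩ := main_natP c₀ V0 hc hV0 hv ε hε K
  set η' : ℝ := min (η / 2) (1 / 4) with hη'
  have h0 : 0 < η' := lt_min (by linarith) (by norm_num)
  have h1 : η' ≤ 1 / 4 := min_le_right _ _
  have h2 : η' < η := lt_of_le_of_lt (min_le_left _ _) (by linarith)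
  obtain ⟨x₃, hx₃⟩ := not_bad (9 / 11) κ (1 - η' / 8) (by norm_num) hκ hκ1 (by linarith)
    (by linarith) B' B9
  refine ⟨C, fun A => ?_⟩
  obtain ⟨x₁, hx₁⟩ := hmain A
  obtain ⟨x₂, hx₂⟩ := prime_sum_psi η' h0 h1 A (B9 + 2)
  obtain ⟨x₄, hx₄⟩ := eventually_atTop.1 ((ev_rad η η' h2 (by linarith) C).and (evt_log 1))
  refine ⟨max x₁ (max x₂ (max x₃ x₄)), fun x hx => ?_⟩
  simp only [max_le_iff] at hx
  obtain ⟨hxx1, hxx2, hxx3, hxx4⟩ := hx
  obtain ⟨B₀, hB1, hB2, hB3⟩ := hx₁ x hxx1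
  obtain ⟨r₁, hr1, hr2, hr3⟩ := hx₂ x hxx2
  obtain ⟨hrad, hL1⟩ := hx₄ x hxx4
  set L := Real.log x with hL
  have hL0 : 0 < L := by linarith
  refine ⟨B₀.filter (fun b => Real.exp (L ^ (1 - η)) < ((∏ p ∈ b.primeFactors, p : ℕ) : ℝ)), r₁,
    ?_, fun b hb => (mem_filter.1 hb).2, hr1, hr2, fun q hq hqx hqB hqr => ?_⟩
  · refine le_trans ?_ hB1
    exact_mod_cast card_filter_le _ _
  refine hB3 q hq hqx fun b hb hbq => ?_
  obtain ⟨r, g, b1, b2, b3, rfl, b5, b6, χ, hχ, hbad⟩ := hB2 b hb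
  have hLA : 1 ≤ L ^ A := one_le_pow₀ hL1
  have hr : 1 < r := by
    have : (1 : ℝ) < r := lt_of_le_of_lt hLA b5
    exact_mod_cast this
  have hrx : r ≤ x := by exact_mod_cast b6
  by_cases hrr : r = r₁
  · subst hrr
    exact hqr g b3 b2 hbq
  · have hbig : Real.exp (L ^ (1 - η')) < (rd r : ℝ) := by
      by_contra hcon
      exact hx₃ x hxx3 r χ (fun u hu hux => hr3 r hr hrx hrr (not_lt.1 hcon) χ hχ u hu hux) _ hbad
    have h3 := rad_div r g (by omega) b3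
    have h4 : (rd r : ℝ) ≤ g * ((∏ p ∈ (r / g).primeFactors, p : ℕ) : ℝ) := by
      exact_mod_cast h3
    have h5 : Real.exp (L ^ (1 - η)) < ((∏ p ∈ (r / g).primeFactors, p : ℕ) : ℝ) := by
      by_contra hcon
      have h6 := not_lt.1 hcon
      have h7 : (rd r : ℝ) ≤ L ^ C * Real.exp (L ^ (1 - η)) := by
        refine h4.trans ?_
        gcongr
      linarith
    exact hqB (r / g) (mem_filter.2 ⟨hb, h5⟩) hbq

open Pool.Agent.Work.MP_92f640_nt in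
theorem level_P (c₀ V0 : ℝ) (hc : 0 < c₀) (hV0 : 0 ≤ V0) (hv : VLowN c₀ V0) (ε : ℝ) (hε : 0 < ε)
    (η : ℝ) (hη : 0 < η) (K : ℕ) : ∃ C : ℕ, ∀ A : ℕ, ∃ x₁ : ℝ, ∀ x : ℝ, x₁ ≤ x →
    ∃ (B : Finset ℕ) (r₁ : ℕ), (B.card : ℝ) ≤ (Real.log x) ^ C ∧
      (∀ b ∈ B, Real.exp ((Real.log x) ^ (1 - η)) < ((∏ p ∈ b.primeFactors, p : ℕ) : ℝ)) ∧
      (Real.log x) ^ A < (r₁ : ℝ) ∧ r₁ ∣ 4 * ∏ p ∈ r₁.primeFactors, p ∧
      ∀ q : ℕ, 1 ≤ q → (q : ℝ) ≤ x ^ (10 / 11 - ε) → (∀ b ∈ B, ¬ b ∣ q) →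
        (∀ g : ℕ, g ∣ r₁ → (g : ℝ) ≤ (Real.log x) ^ C → ¬ r₁ / g ∣ q) →
        ((exceptions (c₀ / 4) x q).card : ℝ) ≤ x / (q * (Real.log x) ^ K) := by
  classical
  set η₂ : ℝ := min (η / 2) (1 / 2) with hη₂
  have h20 : 0 < η₂ := lt_min (by linarith) (by norm_num)
  have h21 : η₂ ≤ 1 / 2 := min_le_right _ _
  have h22 : η₂ < η := lt_of_le_of_lt (min_le_left _ _) (by linarith)
  obtain ⟨C, hC⟩ := nat_P c₀ V0 hc hV0 hv (ε / 2) (by linarith) η₂ h20 (K + 1)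
  refine ⟨C, fun A => ?_⟩
  obtain ⟨x₁, hx₁⟩ := hC (A + 1)
  have hev : ∀ᶠ X : ℕ in Filter.atTop, (2 : ℝ) ^ K ≤ (Real.log X) ^ 1 ∧
      (2 : ℝ) ^ A ≤ (Real.log X) ^ 1 ∧ 2 ≤ (X : ℝ) ^ (ε / 2) ∧ 3 ≤ X ∧ x₁ ≤ X ∧
      2 * (Real.log X) ^ (1 - η) ≤ (Real.log X) ^ (1 - η₂) := by
    have h1 : ∀ᶠ X : ℕ in Filter.atTop, 2 ≤ (X : ℝ) ^ (ε / 2) :=
      ((tendsto_rpow_atTop (by linarith : (0 : ℝ) < ε / 2)).comp
        tendsto_natCast_atTop_atTop).eventually_ge_atTop _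
    have hlog : Tendsto (fun x : ℕ => Real.log (x : ℝ)) atTop atTop :=
      Real.tendsto_log_atTop.comp tendsto_natCast_atTop_atTop
    have h4 := ((tendsto_rpow_atTop (by linarith : 0 < η - η₂)).comp hlog).eventually_ge_atTop 2
    filter_upwards [ev_log_ge 1 le_rfl ((2 : ℝ) ^ K), ev_log_ge 1 le_rfl ((2 : ℝ) ^ A), h1,
      Filter.eventually_ge_atTop 3, Filter.eventually_ge_atTop x₁, h4, evt_log 1]
      with X a1 a2 a3 a4 a5 a6 a7
    simp only [Function.comp_apply] at a6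
    refine ⟨a1, a2, a3, a4, a5, ?_⟩
    have hL0 : 0 < Real.log X := by linarith
    calc 2 * (Real.log X) ^ (1 - η) ≤ (Real.log X) ^ (η - η₂) * (Real.log X) ^ (1 - η) := by
          gcongr
      _ = (Real.log X) ^ (1 - η₂) := by
          rw [← Real.rpow_add hL0]
          congr 1
          ring
  obtain ⟨X₀, hX₀⟩ := Filter.eventually_atTop.1 hev
  refine ⟨X₀ + 1, fun x hx => ?_⟩
  have hx0 : (0 : ℝ) ≤ x := by
    have : (0 : ℝ) ≤ X₀ := Nat.cast_nonneg _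
    linarith
  set X := ⌊x⌋₊ with hX
  have hXx : (X : ℝ) ≤ x := Nat.floor_le hx0
  have hxX : x < X + 1 := Nat.lt_floor_add_one x
  have hXX0 : X₀ ≤ X := by
    rw [hX, Nat.le_floor_iff hx0]
    linarith
  obtain ⟨a1, a2, a3, a4, a5, a6⟩ := hX₀ X hXX0
  rw [pow_one] at a1 a2
  have hX3 : (3 : ℝ) ≤ X := by exact_mod_cast a4
  have hX0 : (0 : ℝ) < X := by linarith
  have hL1 := one_le_log a4
  have hLx : Real.log X ≤ Real.log x := Real.log_le_log hX0 hXx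
  have hLx2 : Real.log x ≤ 2 * Real.log X := by
    have h1 : x ≤ (X : ℝ) ^ 2 := by nlinarith
    calc Real.log x ≤ Real.log ((X : ℝ) ^ 2) := Real.log_le_log (by linarith) h1
      _ = 2 * Real.log X := by rw [Real.log_pow]; norm_num
  have hkey : ∀ k : ℕ, (2 : ℝ) ^ k ≤ Real.log X → (Real.log x) ^ k ≤ (Real.log X) ^ (k + 1) := by
    intro k hk
    calc (Real.log x) ^ k ≤ (2 * Real.log X) ^ k := pow_le_pow_left₀ (by linarith) hLx2 k
      _ = 2 ^ k * (Real.log X) ^ k := by rw [mul_pow]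
      _ ≤ Real.log X * (Real.log X) ^ k := mul_le_mul_of_nonneg_right hk (by positivity)
      _ = _ := by ring
  have hexp : (Real.log x) ^ (1 - η) ≤ (Real.log X) ^ (1 - η₂) := by
    refine le_trans ?_ a6
    have hp0 : 0 < (Real.log X) ^ (1 - η) := by
      have : 0 < Real.log X := by linarith
      positivity
    rcases le_or_gt 0 (1 - η) with h1 | h1
    · calc (Real.log x) ^ (1 - η) ≤ (2 * Real.log X) ^ (1 - η) :=
            Real.rpow_le_rpow (by linarith) hLx2 h1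
        _ = 2 ^ (1 - η) * (Real.log X) ^ (1 - η) := Real.mul_rpow (by norm_num) (by linarith)
        _ ≤ 2 ^ (1 : ℝ) * (Real.log X) ^ (1 - η) := by
            gcongr
            · norm_num
            · linarith
        _ = 2 * (Real.log X) ^ (1 - η) := by rw [Real.rpow_one]
    · calc (Real.log x) ^ (1 - η) ≤ (Real.log X) ^ (1 - η) :=
            Real.rpow_le_rpow_of_nonpos (by linarith) hLx h1.le
        _ ≤ 2 * (Real.log X) ^ (1 - η) := by linarith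
  obtain ⟨B, r₁, hB1, hB2, hr1, hr2, hB3⟩ := hx₁ X a5
  refine ⟨B, r₁, hB1.trans (pow_le_pow_left₀ (by linarith) hLx C), fun b hb => ?_, ?_, hr2,
    fun q hq hqx hqB hqr => ?_⟩
  · exact (Real.exp_le_exp.2 hexp).trans_lt (hB2 b hb)
  · exact (hkey A a2).trans_lt hr1
  · have hq0 : (0 : ℝ) < q := by exact_mod_cast hq
    have hq1 : (1 : ℝ) ≤ q := by exact_mod_cast hq
    have hqX : (q : ℝ) ≤ (X : ℝ) ^ (10 / 11 - ε / 2) := by
      rcases lt_or_ge (10 / 11 - ε) 0 with hneg | hpos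
      · exfalso
        have : x ^ (10 / 11 - ε) < 1 := Real.rpow_lt_one_of_one_lt_of_neg (by linarith) hneg
        linarith
      · have h2X : x ≤ 2 * X := by linarith
        calc (q : ℝ) ≤ x ^ (10 / 11 - ε) := hqx
          _ ≤ (2 * X) ^ (10 / 11 - ε) := Real.rpow_le_rpow hx0 h2X hpos
          _ = 2 ^ (10 / 11 - ε) * (X : ℝ) ^ (10 / 11 - ε) := Real.mul_rpow (by norm_num) hX0.le
          _ ≤ (X : ℝ) ^ (ε / 2) * (X : ℝ) ^ (10 / 11 - ε) := by
              apply mul_le_mul_of_nonneg_right _ (by positivity)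
              refine le_trans ?_ a3
              calc (2 : ℝ) ^ (10 / 11 - ε) ≤ 2 ^ (1 : ℝ) :=
                    Real.rpow_le_rpow_of_exponent_le (by norm_num) (by linarith)
                _ = 2 := Real.rpow_one 2
          _ = (X : ℝ) ^ (10 / 11 - ε / 2) := by
              rw [← Real.rpow_add hX0]
              congr 1
              ring
    have hmain := hB3 q hq hqX hqB
      (fun g hg hgC => hqr g hg (hgC.trans (pow_le_pow_left₀ (by linarith) hLx C)))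
    have hsub : exceptions (c₀ / 4) x q ⊆ (Icc 1 X).filter (fun n => X < 2 * n ∧ Even n ∧ q ∣ n ∧
          Bad (c₀ / 4) n) := by
      intro n hn
      rw [mem_exceptions] at hn
      obtain ⟨⟨h1, h2⟩, h3, h4, h5, h6⟩ := hn
      rw [mem_filter, mem_Icc]
      refine ⟨⟨h1, h2⟩, ?_, h4, h5, h6⟩
      have : (X : ℝ) < 2 * n := by linarith
      exact_mod_cast this
    have hcard : ((exceptions (c₀ / 4) x q).card : ℝ) ≤ ((Icc 1 X).filter (fun n => X < 2 * n ∧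
        Even n ∧ q ∣ n ∧ Bad (c₀ / 4) n)).card := by
      exact_mod_cast card_le_card hsub
    refine hcard.trans (hmain.trans ?_)
    have hlx0 : 0 < (Real.log x) ^ K := by
      have : 0 < Real.log x := by linarith
      positivity
    apply div_le_div₀ hx0 hXx (by positivity)
    exact mul_le_mul_of_nonneg_left (hkey K a1) hq0.le

/-- `(log x)^A < exp ((log x)^(1/2))` for large `x` -/
theorem ev_half (A : ℕ) : ∀ᶠ x : ℝ in atTop,
    (Real.log x) ^ A < Real.exp ((Real.log x) ^ (1 / 2 : ℝ)) := by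
  have e1 : Tendsto (fun t : ℝ => t ^ (2 * A) * Real.exp (-t)) atTop (nhds 0) :=
    Real.tendsto_pow_mul_exp_neg_atTop_nhds_zero (2 * A)
  have e2 : Tendsto (fun x : ℝ => (Real.log x) ^ (1 / 2 : ℝ)) atTop atTop :=
    (tendsto_rpow_atTop (by norm_num)).comp Real.tendsto_log_atTop
  filter_upwards [(e1.comp e2).eventually (gt_mem_nhds (show (0 : ℝ) < 1 by norm_num)),
    Real.tendsto_log_atTop.eventually_ge_atTop 1] with x h3 hL1
  simp only [Function.comp_apply] at h3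
  have e3 : ((Real.log x) ^ (1 / 2 : ℝ)) ^ (2 * A) = (Real.log x) ^ A := by
    rw [pow_mul, ← Real.sqrt_eq_rpow, Real.sq_sqrt (by linarith)]
  rwa [e3, Real.exp_neg, ← div_eq_mul_inv, div_lt_one (Real.exp_pos _)] at h3

open Pool.Agent.Work.MP_92f640_nt in
/-- **Final form**: one set of exceptional divisors -/
theorem level_B (c₀ V0 : ℝ) (hc : 0 < c₀) (hV0 : 0 ≤ V0) (hv : VLowN c₀ V0) (ε η : ℝ) (hε : 0 < ε)
    (hη : 0 < η) (K : ℕ) : ∃ C : ℕ, ∀ A : ℕ, ∃ x₁ : ℝ, ∀ x : ℝ, x₁ ≤ x →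
    ∃ (B : Finset ℕ) (r₁ : ℕ), (B.card : ℝ) ≤ (Real.log x) ^ C ∧
      r₁ ∣ 4 * ∏ p ∈ r₁.primeFactors, p ∧
      (∀ b ∈ B, (Real.log x) ^ A < ((∏ p ∈ b.primeFactors, p : ℕ) : ℝ) ∧
        (Real.exp ((Real.log x) ^ (1 - η)) < ((∏ p ∈ b.primeFactors, p : ℕ) : ℝ) ∨
          ∃ g : ℕ, (g : ℝ) ≤ (Real.log x) ^ C ∧ b * g = r₁)) ∧
      ∀ q : ℕ, 1 ≤ q → (q : ℝ) ≤ x ^ (10 / 11 - ε) → (∀ b ∈ B, ¬ b ∣ q) →
        ((exceptions (c₀ / 4) x q).card : ℝ) ≤ x / (q * (Real.log x) ^ K) := by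
  classical
  set η₀ : ℝ := min η (1 / 2) with hη₀
  have h00 : 0 < η₀ := lt_min hη (by norm_num)
  have h01 : η₀ ≤ 1 / 2 := min_le_right _ _
  have h02 : η₀ ≤ η := min_le_left _ _
  obtain ⟨C, hC⟩ := level_P c₀ V0 hc hV0 hv ε hε η₀ h00 K
  refine ⟨C + 1, fun A => ?_⟩
  obtain ⟨x₁, hx₁⟩ := hC (A + 1 + C)
  obtain ⟨x₂, hx₂⟩ := eventually_atTop.1
    ((ev_half A).and (Real.tendsto_log_atTop.eventually_ge_atTop 4))
  refine ⟨max x₁ x₂, fun x hx => ?_⟩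
  obtain ⟨B, r₁, hB1, hB2, hr1, hr2, hB3⟩ := hx₁ x (le_trans (le_max_left _ _) hx)
  obtain ⟨h3, h4⟩ := hx₂ x (le_trans (le_max_right _ _) hx)
  set L := Real.log x with hL
  have hL0 : 0 < L := by linarith
  have hL1 : 1 ≤ L := by linarith
  have hr0 : r₁ ≠ 0 := by
    rintro rfl
    have : (0 : ℝ) < L ^ (A + 1 + C) := by positivity
    push_cast at hr1
    linarith
  have hLC : 1 ≤ L ^ C := one_le_pow₀ hL1
  set G := (Icc 1 ⌊L ^ C⌋₊).filter (fun g => g ∣ r₁) with hG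
  refine ⟨B ∪ G.image (fun g => r₁ / g), r₁, ?_, hr2, fun b hb => ?_, fun q hq hqx hqB => ?_⟩
  · have e1 : ((B ∪ G.image (fun g => r₁ / g)).card : ℝ) ≤ B.card + (⌊L ^ C⌋₊ : ℕ) := by
      have e2 : (B ∪ G.image (fun g => r₁ / g)).card ≤ B.card + ⌊L ^ C⌋₊ := by
        refine (card_union_le _ _).trans (Nat.add_le_add_left ?_ _)
        refine card_image_le.trans ((card_filter_le _ _).trans ?_)
        rw [Nat.card_Icc, Nat.add_sub_cancel]
      exact_mod_cast e2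
    have e3 : ((⌊L ^ C⌋₊ : ℕ) : ℝ) ≤ L ^ C := Nat.floor_le (by positivity)
    have e4 : L ^ (C + 1) = L * L ^ C := by ring
    rw [e4]
    nlinarith
  · rw [mem_union, mem_image] at hb
    rcases hb with hb | ⟨g, hg, rfl⟩
    · have e1 := hB2 b hb
      have e2 : L ^ (1 - η) ≤ L ^ (1 - η₀) :=
        Real.rpow_le_rpow_of_exponent_le hL1 (by linarith)
      have e3 : L ^ (1 / 2 : ℝ) ≤ L ^ (1 - η₀) :=
        Real.rpow_le_rpow_of_exponent_le hL1 (by linarith)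
      have e4 := Real.exp_le_exp.2 e2
      have e5 := Real.exp_le_exp.2 e3
      exact ⟨by linarith, Or.inl (by linarith)⟩
    · rw [hG, mem_filter, mem_Icc] at hg
      obtain ⟨⟨hg1, hg2⟩, hg3⟩ := hg
      have hgC : (g : ℝ) ≤ L ^ C := (Nat.le_floor_iff (by positivity)).1 hg2
      have hg0 : (0 : ℝ) < g := by exact_mod_cast hg1
      have e1 := rad_of_dvd_four r₁ g hr0 hg3 hr2
      have e2 : ((r₁ / g : ℕ) : ℝ) ≤ 4 * ((∏ p ∈ (r₁ / g).primeFactors, p : ℕ) : ℝ) := by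
        exact_mod_cast e1
      have e3 : (r₁ : ℝ) = ((r₁ / g : ℕ) : ℝ) * g := by
        exact_mod_cast (Nat.div_mul_cancel hg3).symm
      refine ⟨?_, Or.inr ⟨g, hgC.trans (pow_le_pow_right₀ hL1 (by omega)),
        Nat.div_mul_cancel hg3⟩⟩
      by_contra hcon
      have e4 := not_lt.1 hcon
      have e5 : (r₁ : ℝ) ≤ L ^ (A + 1 + C) := by
        rw [e3]
        calc ((r₁ / g : ℕ) : ℝ) * g ≤ (4 * L ^ A) * L ^ C := by
              gcongr
              linarith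
          _ ≤ (L * L ^ A) * L ^ C := by gcongr
          _ = L ^ (A + 1 + C) := by ring
      linarith
  · refine hB3 q hq hqx (fun b hb => hqB b (mem_union_left _ hb)) (fun g hg hgC => ?_)
    refine hqB (r₁ / g) (mem_union_right _ (mem_image.2 ⟨g, ?_, rfl⟩))
    rw [hG, mem_filter, mem_Icc]
    exact ⟨⟨Nat.pos_of_dvd_of_pos hg (Nat.pos_of_ne_zero hr0), Nat.le_floor hgC⟩, hg⟩

end Pool.Agent.PW
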