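import Pool.Agent.Work.MP_92f640_nt.PW.RoughH
import Pool.Agent.Work.BV.LBound

/-! # Module M2: upper bounds for `Lser` of a rough character

Cut at `Z = ⌈exp (24 W log y)⌉`. Head: `(log Z)^j C log Z/log y` (`rough_harm`; `χ n = 0` unless `n` is prime to `R`).
Tail (`LB_tail`): Abel summation with `SB`. `LBound_le_of_partial` passes to the limit. -/

namespace Pool.Agent.PW

open Finset Pool.Agent.BV

/-- `(log b)^j ≤ C (log a)^j exp (ε (log b - log a))` if `1 / log a ≤ 2 ε` -/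
theorem LB_log_pow (j : ℕ) : ∃ C : ℝ, 1 ≤ C ∧ ∀ a b ε : ℝ, 0 < a → a ≤ b → 0 < ε → 1 ≤ 2 * ε * a →
    b ^ j ≤ C * a ^ j * Real.exp (ε * (b - a)) := by
  refine ⟨(2 * j + 1 : ℝ) ^ j, one_le_pow₀ (by linarith [(Nat.cast_nonneg j : (0 : ℝ) ≤ j)]), ?_⟩
  intro a b ε ha hab hε hεa
  rcases Nat.eq_zero_or_pos j with rfl | hj
  · simp only [pow_zero, one_mul, Real.one_le_exp_iff]
    have : 0 ≤ b - a := by linarith
    positivity
  · have hj' : (0 : ℝ) < j := by exact_mod_cast hj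
    set d := ε * (b - a) with hd
    have hd0 : 0 ≤ d := mul_nonneg hε.le (by linarith)
    have h1 : b ≤ a * (1 + 2 * d) := by
      have : b - a ≤ 2 * ε * a * (b - a) := by
        have h0 : 0 ≤ b - a := by linarith
        nlinarith
      rw [hd]
      nlinarith
    have h2 : 1 + 2 * d ≤ (2 * j + 1) * Real.exp (d / j) := by
      have h4 := Real.add_one_le_exp (d / j)
      have h5 : (2 * j + 1 : ℝ) * (d / j + 1) ≤ (2 * j + 1) * Real.exp (d / j) := by gcongr
      have h6 : 1 + 2 * d ≤ (2 * j + 1 : ℝ) * (d / j + 1) := by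
        have : (2 * j + 1 : ℝ) * (d / j + 1) = 2 * d + d / j + 2 * j + 1 := by
          field_simp
          ring
        rw [this]
        have : 0 ≤ d / j := by positivity
        linarith
      linarith
    have hb : 0 ≤ b := by linarith
    calc b ^ j ≤ (a * (1 + 2 * d)) ^ j := by gcongr
      _ ≤ (a * ((2 * j + 1) * Real.exp (d / j))) ^ j := by gcongr
      _ = (2 * j + 1 : ℝ) ^ j * a ^ j * Real.exp d := by
          rw [mul_pow, mul_pow, ← Real.exp_nat_mul]
          have : (j : ℝ) * (d / j) = d := by field_simp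
          rw [this]
          ring

/-- `n^{-1-ε}` summed -/
theorem LB_tail_sum {ε : ℝ} (hε : 0 < ε) (N M : ℕ) (hN : 1 ≤ N) (hNM : N ≤ M) :
    ∑ n ∈ Ioc N M, Real.exp (-(ε * Real.log n)) / n ≤
      1 / ε * (Real.exp (-(ε * Real.log N)) - Real.exp (-(ε * Real.log M))) := by
  induction M, hNM using Nat.le_induction with
  | base => simp
  | succ M hM ih =>
    rw [Finset.sum_Ioc_succ_top (by omega)]
    have hM0 : (0 : ℝ) < M := by exact_mod_cast (by omega : 0 < M)
    have hM1 : (0 : ℝ) < ((M + 1 : ℕ) : ℝ) := by positivity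
    have h1 : Real.log ((M + 1 : ℕ) : ℝ) - Real.log M ≥ 1 / ((M + 1 : ℕ) : ℝ) := by
      have h2 := Real.log_le_sub_one_of_pos (x := (M : ℝ) / ((M + 1 : ℕ) : ℝ)) (by positivity)
      rw [Real.log_div hM0.ne' hM1.ne'] at h2
      have e : (M : ℝ) / ((M + 1 : ℕ) : ℝ) - 1 = -(1 / ((M + 1 : ℕ) : ℝ)) := by
        push_cast
        field_simp
        ring
      linarith
    have h2 : Real.exp (-(ε * Real.log ((M + 1 : ℕ) : ℝ))) * (1 + ε * (1 / ((M + 1 : ℕ) : ℝ))) ≤
        Real.exp (-(ε * Real.log M)) := by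
      have h3 : 1 + ε * (1 / ((M + 1 : ℕ) : ℝ)) ≤
          Real.exp (ε * (Real.log ((M + 1 : ℕ) : ℝ) - Real.log M)) := by
        have h4 := Real.add_one_le_exp (ε * (Real.log ((M + 1 : ℕ) : ℝ) - Real.log M))
        have h5 : ε * (1 / ((M + 1 : ℕ) : ℝ)) ≤ ε * (Real.log ((M + 1 : ℕ) : ℝ) - Real.log M) := by
          gcongr
        linarith
      calc _ ≤ Real.exp (-(ε * Real.log ((M + 1 : ℕ) : ℝ))) *
            Real.exp (ε * (Real.log ((M + 1 : ℕ) : ℝ) - Real.log M)) := by gcongr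
        _ = _ := by rw [← Real.exp_add]; congr 1; ring
    have h3 : Real.exp (-(ε * Real.log ((M + 1 : ℕ) : ℝ))) / ((M + 1 : ℕ) : ℝ) ≤
        1 / ε * (Real.exp (-(ε * Real.log M)) - Real.exp (-(ε * Real.log ((M + 1 : ℕ) : ℝ)))) := by
      rw [div_mul_eq_mul_div, one_mul, le_div_iff₀ hε]
      have : Real.exp (-(ε * Real.log ((M + 1 : ℕ) : ℝ))) * (1 + ε * (1 / ((M + 1 : ℕ) : ℝ))) =
          Real.exp (-(ε * Real.log ((M + 1 : ℕ) : ℝ))) +
          Real.exp (-(ε * Real.log ((M + 1 : ℕ) : ℝ))) / ((M + 1 : ℕ) : ℝ) * ε := by ring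
      linarith
    linarith

/-- Abel summation with growing partial sums -/
theorem LB_abel_norm (a g : ℕ → ℂ) (N M : ℕ) (hNM : N ≤ M) (B D : ℕ → ℝ)
    (hB : ∀ m, N ≤ m → ‖∑ k ∈ Ioc N m, a k‖ ≤ B m)
    (hD : ∀ n, N < n → ‖g (n + 1) - g n‖ ≤ D n) :
    ‖∑ n ∈ Ioc N M, a n * g n‖ ≤ B M * ‖g (M + 1)‖ + ∑ n ∈ Ioc N M, B n * D n := by
  rw [LBound_abel a g N M hNM]
  refine (norm_sub_le _ _).trans ?_
  gcongr
  · rw [norm_mul]
    gcongr
    exact hB M hNM
  · refine (norm_sum_le _ _).trans ?_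
    refine sum_le_sum (fun n hn => ?_)
    rw [mem_Ioc] at hn
    rw [norm_mul]
    exact mul_le_mul (hB n (by omega)) (hD n hn.1) (norm_nonneg _)
      ((norm_nonneg _).trans (hB n (by omega)))

theorem LB_tail (j : ℕ) : ∃ C : ℝ, 0 < C ∧ ∀ ℓ : ℝ, 1 ≤ ℓ → ∀ a : ℕ → ℂ,
    (∀ N : ℕ, ‖∑ n ∈ range (N + 1), a n‖ ≤ N * ℓ ^ 5 * Real.exp (-(Real.log N / (4 * ℓ)))) →
    ∀ s : ℂ, 1 < s.re → s.re ≤ 2 → ∀ N : ℕ, 3 ≤ N →
    24 * ℓ * (Real.log ℓ + Real.log (|s.im| + 3)) ≤ Real.log N → ∀ M, N ≤ M →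
    ‖∑ n ∈ Ioc N M, a n * LBound_g j s n‖ ≤ C * (Real.log N) ^ j := by
  obtain ⟨C, hC1, hC⟩ := LB_log_pow j
  refine ⟨4 * C + 16 * 2 ^ j * C * (1 + j), by positivity, ?_⟩
  intro ℓ hℓ a ha s hs hs2 N hN3 hN M hM
  have hℓ0 : 0 < ℓ := by linarith
  have him := abs_nonneg s.im
  have hN3' : (3 : ℝ) ≤ N := by exact_mod_cast hN3
  have hN0 : (0 : ℝ) < N := by linarith
  have hlℓ : 0 ≤ Real.log ℓ := Real.log_nonneg hℓ
  have hlt : 1 ≤ Real.log (|s.im| + 3) := by
    rw [Real.le_log_iff_exp_le (by positivity)]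
    have := Real.exp_one_lt_d9
    linarith
  set ε : ℝ := 1 / (8 * ℓ) with hε
  have hε0 : 0 < ε := by positivity
  have hε1 : ε ≤ 1 / 8 := by
    rw [hε]
    apply one_div_le_one_div_of_le <;> linarith
  have hlogN0 : 24 * ℓ ≤ Real.log N := by nlinarith
  have hlogN : 0 < Real.log N := by linarith
  have hεN : 1 ≤ 2 * ε * Real.log N := by
    have : 2 * ε * Real.log N = Real.log N / (4 * ℓ) := by rw [hε]; field_simp; ring
    rw [this, le_div_iff₀ (by positivity)]
    linarith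
  have e2 : ∀ u : ℝ, u / (4 * ℓ) = 2 * ε * u := by
    intro u; rw [hε]; field_simp; ring
  have hsn : ‖s‖ ≤ |s.im| + 3 := by
    have := Complex.norm_le_abs_re_add_abs_im s
    rw [abs_of_pos (by linarith : (0 : ℝ) < s.re)] at this
    linarith
  -- monotonicity of the bound
  have hmono : ∀ m n : ℕ, 1 ≤ m → m ≤ n → (m : ℝ) * Real.exp (-(2 * ε * Real.log m)) ≤
      n * Real.exp (-(2 * ε * Real.log n)) := by
    intro m n hm hmn
    have hm0 : (0 : ℝ) < m := by exact_mod_cast hm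
    have hn0 : (0 : ℝ) < n := by exact_mod_cast (by omega : 0 < n)
    have e3 : ∀ k : ℝ, 0 < k → k * Real.exp (-(2 * ε * Real.log k)) =
        Real.exp ((1 - 2 * ε) * Real.log k) := by
      intro k hk
      have : (1 - 2 * ε) * Real.log k = Real.log k + -(2 * ε * Real.log k) := by ring
      rw [this, Real.exp_add, Real.exp_log hk]
    rw [e3 m hm0, e3 n hn0]
    apply Real.exp_le_exp.2
    apply mul_le_mul_of_nonneg_left _ (by linarith)
    exact Real.log_le_log hm0 (by exact_mod_cast hmn)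
  have hB : ∀ m, N ≤ m → ‖∑ k ∈ Ioc N m, a k‖ ≤
      2 * ℓ ^ 5 * (m * Real.exp (-(2 * ε * Real.log m))) := by
    intro m hm
    have h1 : ∑ k ∈ Ioc N m, a k = ∑ k ∈ range (m + 1), a k - ∑ k ∈ range (N + 1), a k := by
      rw [← Finset.sum_range_add_sum_Ico a (show N + 1 ≤ m + 1 by omega)]
      have : Ioc N m = Ico (N + 1) (m + 1) := by ext; simp only [mem_Ioc, mem_Ico]; omega
      rw [this]; ring
    rw [h1]
    refine (norm_sub_le _ _).trans ?_
    have h2 := ha m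
    have h3 := ha N
    rw [e2] at h2 h3
    have h4 := hmono N m (by omega) hm
    have h5 : 0 ≤ ℓ ^ 5 := by positivity
    nlinarith [mul_le_mul_of_nonneg_left h4 h5]
  have h1 := LB_abel_norm a (LBound_g j s) N M hM
    (fun m => 2 * ℓ ^ 5 * (m * Real.exp (-(2 * ε * Real.log m))))
    (fun n => (‖s‖ + j) * 2 ^ j * (Real.log n) ^ j / (n : ℝ) ^ 2) hB
    (fun n hn => LBound_g_diff j hs (by omega))
  refine h1.trans ?_
  have hX : Real.exp (-(2 * ε * Real.log N)) ≤ 1 / (ℓ ^ 6 * (|s.im| + 3)) := by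
    rw [← e2]
    have h3 : 6 * (Real.log ℓ + Real.log (|s.im| + 3)) ≤ Real.log N / (4 * ℓ) := by
      rw [le_div_iff₀ (by positivity)]
      nlinarith
    have h4 : 6 * Real.log ℓ + Real.log (|s.im| + 3) ≤ Real.log N / (4 * ℓ) := by linarith
    calc Real.exp (-(Real.log N / (4 * ℓ))) ≤
          Real.exp (-(6 * Real.log ℓ + Real.log (|s.im| + 3))) := by
          apply Real.exp_le_exp.2; linarith
      _ = _ := by
          rw [Real.exp_neg, Real.exp_add, Real.exp_log (by positivity : (0 : ℝ) < |s.im| + 3)]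
          have : (6 : ℝ) * Real.log ℓ = ((6 : ℕ) : ℝ) * Real.log ℓ := by norm_num
          rw [this, Real.exp_nat_mul, Real.exp_log hℓ0, one_div]
  -- the boundary term
  have h2 : 2 * ℓ ^ 5 * (M * Real.exp (-(2 * ε * Real.log M))) * ‖LBound_g j s (M + 1)‖ ≤
      4 * C * ℓ ^ 5 * (Real.log N) ^ j * Real.exp (-(2 * ε * Real.log N)) := by
    have hM0 : (0 : ℝ) < M := by exact_mod_cast (by omega : 0 < M)
    have hM1 : (M : ℝ) ≤ ((M + 1 : ℕ) : ℝ) := by push_cast; linarith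
    have hM2 : (0 : ℝ) < ((M + 1 : ℕ) : ℝ) := by positivity
    have hNM : Real.log N ≤ Real.log M := Real.log_le_log hN0 (by exact_mod_cast hM)
    have hMM : Real.log M ≤ Real.log ((M + 1 : ℕ) : ℝ) := Real.log_le_log hM0 hM1
    have hMM2 : Real.log ((M + 1 : ℕ) : ℝ) ≤ Real.log M + 1 := by
      have h3 := Real.log_le_sub_one_of_pos (x := ((M + 1 : ℕ) : ℝ) / M) (by positivity)
      rw [Real.log_div hM2.ne' hM0.ne'] at h3
      have h4 : ((M + 1 : ℕ) : ℝ) / M - 1 ≤ 1 := by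
        have : ((M + 1 : ℕ) : ℝ) / M - 1 = 1 / M := by push_cast; field_simp; ring
        rw [this, div_le_one hM0]
        exact_mod_cast (by omega : 1 ≤ M)
      linarith
    have h3 := hC (Real.log N) (Real.log ((M + 1 : ℕ) : ℝ)) ε hlogN (by linarith) hε0 hεN
    have h4 : Real.exp (ε * (Real.log ((M + 1 : ℕ) : ℝ) - Real.log N)) ≤
        2 * Real.exp (ε * (Real.log M - Real.log N)) := by
      have h5 : Real.exp ε ≤ 2 := by
        have h6 : Real.exp (1 / 8 : ℝ) ≤ 2 := by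
          have h7 : (1 / 8 : ℝ) ≤ Real.log 2 := by
            have := Real.log_two_gt_d9
            linarith
          calc Real.exp (1 / 8 : ℝ) ≤ Real.exp (Real.log 2) := Real.exp_le_exp.2 h7
            _ = 2 := Real.exp_log (by norm_num)
        exact (Real.exp_le_exp.2 hε1).trans h6
      calc Real.exp (ε * (Real.log ((M + 1 : ℕ) : ℝ) - Real.log N))
          ≤ Real.exp (ε + ε * (Real.log M - Real.log N)) := by
            apply Real.exp_le_exp.2
            nlinarith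
        _ = Real.exp ε * Real.exp (ε * (Real.log M - Real.log N)) := Real.exp_add _ _
        _ ≤ _ := by gcongr
    have h5 : ‖LBound_g j s (M + 1)‖ ≤
        C * Real.log N ^ j * (2 * Real.exp (ε * (Real.log M - Real.log N))) / M := by
      refine (LBound_g_norm j hs.le (by omega)).trans ?_
      have h6 : Real.log ((M + 1 : ℕ) : ℝ) ^ j ≤
          C * Real.log N ^ j * (2 * Real.exp (ε * (Real.log M - Real.log N))) := by
        refine h3.trans ?_
        gcongr
      have h7 : (0 : ℝ) ≤ Real.log ((M + 1 : ℕ) : ℝ) ^ j := by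
        have : 0 ≤ Real.log ((M + 1 : ℕ) : ℝ) := by linarith
        positivity
      gcongr
    calc 2 * ℓ ^ 5 * (M * Real.exp (-(2 * ε * Real.log M))) * ‖LBound_g j s (M + 1)‖
        ≤ 2 * ℓ ^ 5 * (M * Real.exp (-(2 * ε * Real.log M))) *
          (C * Real.log N ^ j * (2 * Real.exp (ε * (Real.log M - Real.log N))) / M) := by gcongr
      _ = 4 * C * ℓ ^ 5 * (Real.log N) ^ j * (Real.exp (-(2 * ε * Real.log M)) *
            Real.exp (ε * (Real.log M - Real.log N))) := by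
          field_simp
          ring
      _ ≤ 4 * C * ℓ ^ 5 * (Real.log N) ^ j * Real.exp (-(2 * ε * Real.log N)) := by
          gcongr
          rw [← Real.exp_add]
          apply Real.exp_le_exp.2
          nlinarith
  have h3 : ∑ n ∈ Ioc N M, 2 * ℓ ^ 5 * (n * Real.exp (-(2 * ε * Real.log n))) *
      ((‖s‖ + j) * 2 ^ j * (Real.log n) ^ j / (n : ℝ) ^ 2) ≤
      16 * C * ℓ ^ 6 * (‖s‖ + j) * 2 ^ j * (Real.log N) ^ j * Real.exp (-(2 * ε * Real.log N)) := by
    have h4 : ∀ n ∈ Ioc N M, 2 * ℓ ^ 5 * (n * Real.exp (-(2 * ε * Real.log n))) *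
        ((‖s‖ + j) * 2 ^ j * (Real.log n) ^ j / (n : ℝ) ^ 2) ≤
        2 * C * ℓ ^ 5 * (‖s‖ + j) * 2 ^ j * (Real.log N) ^ j * Real.exp (-(ε * Real.log N)) *
        (Real.exp (-(ε * Real.log n)) / n) := by
      intro n hn
      rw [mem_Ioc] at hn
      have hn0 : (0 : ℝ) < n := by exact_mod_cast (by omega : 0 < n)
      have hNn : Real.log N ≤ Real.log n := Real.log_le_log hN0 (by exact_mod_cast hn.1.le)
      have h5 := hC (Real.log N) (Real.log n) ε hlogN hNn hε0 hεN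
      calc 2 * ℓ ^ 5 * (n * Real.exp (-(2 * ε * Real.log n))) *
          ((‖s‖ + j) * 2 ^ j * (Real.log n) ^ j / (n : ℝ) ^ 2)
          ≤ 2 * ℓ ^ 5 * (n * Real.exp (-(2 * ε * Real.log n))) *
          ((‖s‖ + j) * 2 ^ j * (C * Real.log N ^ j * Real.exp (ε * (Real.log n - Real.log N))) /
            (n : ℝ) ^ 2) := by gcongr
        _ = 2 * C * ℓ ^ 5 * (‖s‖ + j) * 2 ^ j * (Real.log N) ^ j *
            (Real.exp (-(2 * ε * Real.log n)) * Real.exp (ε * (Real.log n - Real.log N))) / n := by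
            field_simp
        _ = 2 * C * ℓ ^ 5 * (‖s‖ + j) * 2 ^ j * (Real.log N) ^ j *
            (Real.exp (-(ε * Real.log N)) * Real.exp (-(ε * Real.log n))) / n := by
            congr 2
            rw [← Real.exp_add, ← Real.exp_add]
            congr 1
            ring
        _ = _ := by ring
    refine (sum_le_sum h4).trans ?_
    rw [← mul_sum]
    have h5 := LB_tail_sum hε0 N M (by omega) hM
    have h6 : 1 / ε * (Real.exp (-(ε * Real.log N)) - Real.exp (-(ε * Real.log M))) ≤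
        8 * ℓ * Real.exp (-(ε * Real.log N)) := by
      have h7 : 1 / ε = 8 * ℓ := by rw [hε]; field_simp
      rw [h7]
      have := Real.exp_pos (-(ε * Real.log M))
      have h8 : 0 < 8 * ℓ := by positivity
      nlinarith
    calc 2 * C * ℓ ^ 5 * (‖s‖ + j) * 2 ^ j * (Real.log N) ^ j * Real.exp (-(ε * Real.log N)) *
          ∑ n ∈ Ioc N M, (Real.exp (-(ε * Real.log n)) / n)
        ≤ 2 * C * ℓ ^ 5 * (‖s‖ + j) * 2 ^ j * (Real.log N) ^ j * Real.exp (-(ε * Real.log N)) *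
          (8 * ℓ * Real.exp (-(ε * Real.log N))) := by
          gcongr
          exact h5.trans h6
      _ = 16 * C * ℓ ^ 6 * (‖s‖ + j) * 2 ^ j * (Real.log N) ^ j *
          (Real.exp (-(ε * Real.log N)) * Real.exp (-(ε * Real.log N))) := by ring
      _ = _ := by
          rw [← Real.exp_add]
          congr 2
          ring
  refine (add_le_add h2 h3).trans ?_
  have hY : 0 < ℓ ^ 6 * (|s.im| + 3) := by positivity
  have h5 : 4 * C * ℓ ^ 5 * (Real.log N) ^ j * Real.exp (-(2 * ε * Real.log N)) ≤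
      4 * C * (Real.log N) ^ j := by
    calc 4 * C * ℓ ^ 5 * (Real.log N) ^ j * Real.exp (-(2 * ε * Real.log N))
        ≤ 4 * C * ℓ ^ 5 * (Real.log N) ^ j * (1 / (ℓ ^ 6 * (|s.im| + 3))) := by gcongr
      _ = 4 * C * (Real.log N) ^ j * (ℓ ^ 5 / (ℓ ^ 6 * (|s.im| + 3))) := by ring
      _ ≤ 4 * C * (Real.log N) ^ j * 1 := by
          gcongr
          rw [div_le_one hY]
          have h6 : ℓ ^ 5 ≤ ℓ ^ 6 := pow_le_pow_right₀ hℓ (by norm_num)
          have h7 : 0 < ℓ ^ 6 := by positivity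
          nlinarith
      _ = _ := mul_one _
  have h6 : 16 * C * ℓ ^ 6 * (‖s‖ + j) * 2 ^ j * (Real.log N) ^ j *
      Real.exp (-(2 * ε * Real.log N)) ≤ 16 * 2 ^ j * C * (1 + j) * (Real.log N) ^ j := by
    calc 16 * C * ℓ ^ 6 * (‖s‖ + j) * 2 ^ j * (Real.log N) ^ j * Real.exp (-(2 * ε * Real.log N))
        ≤ 16 * C * ℓ ^ 6 * ((1 + j) * (|s.im| + 3)) * 2 ^ j * (Real.log N) ^ j *
          (1 / (ℓ ^ 6 * (|s.im| + 3))) := by
          gcongr
          have : (0 : ℝ) ≤ j := by positivity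
          nlinarith
      _ = _ := by field_simp
  calc _ ≤ 4 * C * (Real.log N) ^ j + 16 * 2 ^ j * C * (1 + j) * (Real.log N) ^ j :=
        add_le_add h5 h6
    _ = _ := by ring

theorem Lser_rough (j : ℕ) : ∃ C : ℝ, 0 < C ∧ ∃ y₁ : ℕ, ∀ y R : ℕ, y₁ ≤ y → RM y R →
    ∀ χ : DirichletCharacter ℂ R, SB y χ → ∀ s : ℂ, 1 < s.re → s.re ≤ 2 →
    ‖Lser χ j s‖ ≤ C * WW y s.im ^ (j + 1) * Real.log y ^ j := by
  obtain ⟨C₁, hC₁, y₁, h₁⟩ := rough_harm
  obtain ⟨C₂, hC₂, h₂⟩ := LB_tail j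
  refine ⟨25 ^ (j + 1) * C₁ + 25 ^ j * C₂, by positivity, max y₁ 3, ?_⟩
  intro y R hy hR χ hSB s hs hs2
  have hy3 : 3 ≤ y := (le_max_right _ _).trans hy
  have hy1 : y₁ ≤ y := (le_max_left _ _).trans hy
  haveI : NeZero R := ⟨hR.ne⟩
  have hy3' : (3 : ℝ) ≤ y := by exact_mod_cast hy3
  have him := abs_nonneg s.im
  have hℓ : 1 ≤ Real.log y := by
    rw [Real.le_log_iff_exp_le (by linarith)]
    have := Real.exp_one_lt_d9
    linarith
  have hlt : 1 ≤ Real.log (|s.im| + 3) := by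
    rw [Real.le_log_iff_exp_le (by positivity)]
    have := Real.exp_one_lt_d9
    linarith
  have hlℓ : 0 ≤ Real.log (Real.log y) := Real.log_nonneg hℓ
  have hW1 : 1 ≤ WW y s.im := by unfold WW; linarith
  have hW0 : 0 < WW y s.im := by linarith
  set E : ℝ := 24 * Real.log y * WW y s.im with hE
  have hE1 : 24 ≤ E := by nlinarith [mul_nonneg (sub_nonneg.2 hℓ) (sub_nonneg.2 hW1)]
  have hEy : Real.log y ≤ E := by nlinarith [mul_nonneg (sub_nonneg.2 hℓ) (sub_nonneg.2 hW1)]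
  set Z : ℕ := ⌈Real.exp E⌉₊ with hZ
  have hZ1 : Real.exp E ≤ Z := Nat.le_ceil _
  have hZ2 : (Z : ℝ) < Real.exp E + 1 := Nat.ceil_lt_add_one (Real.exp_pos _).le
  have hexp : 3 ≤ Real.exp E := by
    have := Real.add_one_le_exp E
    linarith
  have hZ3' : (3 : ℝ) ≤ Z := hexp.trans hZ1
  have hZ3 : 3 ≤ Z := by exact_mod_cast hZ3'
  have hZ0 : (0 : ℝ) < Z := by linarith
  have hyZ : y ≤ Z := by
    have h3 : (y : ℝ) ≤ Z := by
      calc (y : ℝ) = Real.exp (Real.log y) := (Real.exp_log (by linarith)).symm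
        _ ≤ Real.exp E := Real.exp_le_exp.2 hEy
        _ ≤ Z := hZ1
    exact_mod_cast h3
  have hlogZ1 : E ≤ Real.log Z := by
    rw [Real.le_log_iff_exp_le hZ0]
    exact hZ1
  have hlogZ2 : Real.log Z ≤ 25 * (Real.log y * WW y s.im) := by
    have h3 : Real.log Z ≤ E + 1 := by
      rw [Real.log_le_iff_le_exp hZ0, Real.exp_add]
      have h4 : (2 : ℝ) ≤ Real.exp 1 := by
        have := Real.add_one_le_exp (1 : ℝ)
        linarith
      nlinarith
    have h5 : 1 ≤ Real.log y * WW y s.im := by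
      nlinarith [mul_nonneg (sub_nonneg.2 hℓ) (sub_nonneg.2 hW1)]
    rw [hE] at h3
    linarith
  have hlogZ0 : 0 < Real.log Z := by linarith
  unfold Lser
  refine LBound_le_of_partial (Lser_summable χ j hs) Z ?_
  intro M hM
  have e1 : ∀ n : ℕ, χ (n : ZMod R) * ((Real.log n : ℝ) : ℂ) ^ j * (n : ℂ) ^ (-s) =
      χ (n : ZMod R) * LBound_g j s n := by
    intro n; unfold LBound_g; ring
  simp only [e1]
  rw [← Finset.sum_Ioc_consecutive _ (Nat.zero_le Z) hM]
  refine (norm_add_le _ _).trans ?_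
  -- the head
  have hhead : ‖∑ n ∈ Ioc 0 Z, χ (n : ZMod R) * LBound_g j s n‖ ≤
      Real.log Z ^ j * (C₁ * (Real.log Z / Real.log y)) := by
    refine (norm_sum_le _ _).trans ?_
    refine le_trans ?_ (mul_le_mul_of_nonneg_left (h₁ y R Z hy1 hR hyZ) (by positivity))
    rw [mul_sum, sum_filter]
    have e2 : Ioc 0 Z = Icc 1 Z := by ext; simp only [mem_Ioc, mem_Icc]; omega
    rw [e2]
    refine sum_le_sum (fun n hn => ?_)
    rw [mem_Icc] at hn
    have hn1 : (1 : ℝ) ≤ n := by exact_mod_cast hn.1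
    have hnZ : (n : ℝ) ≤ Z := by exact_mod_cast hn.2
    by_cases hc : n.Coprime R
    · rw [if_pos hc, norm_mul]
      have h0 : 0 ≤ Real.log n := Real.log_nonneg hn1
      have hl : Real.log n ≤ Real.log Z := Real.log_le_log (by linarith) hnZ
      calc ‖χ (n : ZMod R)‖ * ‖LBound_g j s n‖ ≤ 1 * ((Real.log n) ^ j / n) := by
            gcongr
            · exact χ.norm_le_one _
            · exact LBound_g_norm j hs.le hn.1
        _ ≤ 1 * ((Real.log Z) ^ j / n) := by gcongr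
        _ = _ := by ring
    · rw [if_neg hc]
      have h3 : χ (n : ZMod R) = 0 := χ.map_nonunit (fun h => hc ((ZMod.isUnit_iff_coprime n R).1 h))
      rw [h3]
      simp
  have htail := h₂ (Real.log y) hℓ (fun n : ℕ => if n = 0 then 0 else χ (n : ZMod R)) (by
    intro N
    have e3 : ∑ n ∈ range (N + 1), (if n = 0 then 0 else χ (n : ZMod R)) =
        ∑ n ∈ Icc 1 N, χ (n : ZMod R) := by
      rw [Finset.range_eq_Ico, Finset.sum_eq_sum_Ico_succ_bot (by omega)]
      simp only [if_true, zero_add]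
      have : Ico 1 (N + 1) = Icc 1 N := by ext; simp only [mem_Ico, mem_Icc]; omega
      rw [this]
      refine sum_congr rfl (fun n hn => ?_)
      rw [mem_Icc] at hn
      rw [if_neg (by omega)]
    rw [e3]
    exact hSB N) s hs hs2 Z hZ3 (by
      refine le_trans (le_of_eq ?_) hlogZ1
      rw [hE]
      rfl) M hM
  have e4 : ∑ n ∈ Ioc Z M, (if n = 0 then 0 else χ (n : ZMod R)) * LBound_g j s n =
      ∑ n ∈ Ioc Z M, χ (n : ZMod R) * LBound_g j s n := by
    refine sum_congr rfl (fun n hn => ?_)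
    rw [mem_Ioc] at hn
    rw [if_neg (by omega)]
  rw [e4] at htail
  refine (add_le_add hhead htail).trans ?_
  have hly0 : 0 < Real.log y := by linarith
  have h5 : Real.log Z ^ j * (C₁ * (Real.log Z / Real.log y)) ≤
      25 ^ (j + 1) * C₁ * (WW y s.im ^ (j + 1) * Real.log y ^ j) := by
    calc Real.log Z ^ j * (C₁ * (Real.log Z / Real.log y))
        ≤ (25 * (Real.log y * WW y s.im)) ^ j *
          (C₁ * (25 * (Real.log y * WW y s.im) / Real.log y)) := by gcongr
      _ = _ := by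
          rw [mul_pow, mul_pow]
          field_simp
          ring
  have h6 : C₂ * Real.log Z ^ j ≤ 25 ^ j * C₂ * (WW y s.im ^ (j + 1) * Real.log y ^ j) := by
    calc C₂ * Real.log Z ^ j ≤ C₂ * (25 * (Real.log y * WW y s.im)) ^ j := by gcongr
      _ = 25 ^ j * C₂ * (WW y s.im ^ j * 1 * Real.log y ^ j) := by
          rw [mul_pow, mul_pow]; ring
      _ ≤ 25 ^ j * C₂ * (WW y s.im ^ j * WW y s.im * Real.log y ^ j) := by gcongr
      _ = _ := by rw [pow_succ (WW y s.im) j]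
  calc _ ≤ 25 ^ (j + 1) * C₁ * (WW y s.im ^ (j + 1) * Real.log y ^ j) +
        25 ^ j * C₂ * (WW y s.im ^ (j + 1) * Real.log y ^ j) := add_le_add h5 h6
    _ = _ := by ring

end Pool.Agent.PW
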