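import Pool.Agent.Work.MP_92f640_nt.PW.LFDefs
import Pool.Agent.Work.MP_92f640_nt.PW.LFAbel

/-! # Log-free upper bounds for `Lser` of a rough character

`|Lser χ j s| ≤ C W^{j+1} (log y)^j` for `1 < Re s ≤ 2`, `W = log G + log (|t|+3)`, `C = C(j, A)`. -/

namespace Pool.Agent.PW

open Finset Pool.Agent.BV

theorem one_le_WG {G : ℝ} (hG : 1 ≤ G) (t : ℝ) : 1 ≤ WG G t := by
  have him := abs_nonneg t
  have hlt : 1 ≤ Real.log (|t| + 3) := by
    rw [Real.le_log_iff_exp_le (by positivity)]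
    have := Real.exp_one_lt_d9
    linarith
  have := Real.log_nonneg hG
  unfold WG
  linarith

theorem Lser_G (j : ℕ) (A : ℝ) (hA : 4 ≤ A) : ∃ C : ℝ, 0 < C ∧ ∃ y₁ : ℕ, ∀ y R : ℕ, y₁ ≤ y →
    RM y R → ∀ G : ℝ, 1 ≤ G → ∀ χ : DirichletCharacter ℂ R, SG y G A χ →
    ∀ s : ℂ, 1 < s.re → s.re ≤ 2 →
    ‖Lser χ j s‖ ≤ C * WG G s.im ^ (j + 1) * Real.log y ^ j := by
  obtain ⟨C₁, hC₁, y₁, h₁⟩ := rough_harm
  obtain ⟨C₂, hC₂, h₂⟩ := LG_abel j
  have hA0 : 0 < A := by linarith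
  refine ⟨(6 * A + 1) ^ (j + 1) * C₁ + (6 * A + 1) ^ j * (C₂ * (6 * A * (1 + j))), by positivity,
    max y₁ 3, ?_⟩
  intro y R hy hR G hG χ hSG s hs hs2
  have hy3 : 3 ≤ y := (le_max_right _ _).trans hy
  have hy1 : y₁ ≤ y := (le_max_left _ _).trans hy
  haveI : NeZero R := ⟨hR.ne⟩
  have hy3' : (3 : ℝ) ≤ y := by exact_mod_cast hy3
  have him := abs_nonneg s.im
  have hℓ : 1 ≤ Real.log y := by
    rw [Real.le_log_iff_exp_le (by linarith)]
    have := Real.exp_one_lt_d9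
    linarith
  set ℓ : ℝ := Real.log y with hℓdef
  have hℓ0 : 0 < ℓ := by linarith
  have hW1 : 1 ≤ WG G s.im := one_le_WG hG _
  set W : ℝ := WG G s.im with hW
  have hW0 : 0 < W := by linarith
  have hℓW : 1 ≤ ℓ * W := by nlinarith [mul_nonneg (sub_nonneg.2 hℓ) (sub_nonneg.2 hW1)]
  set E : ℝ := 6 * A * (ℓ * W) with hE
  have hE1 : 24 ≤ E := by nlinarith
  have hEy : ℓ ≤ E := by
    have : ℓ ≤ ℓ * W := le_mul_of_one_le_right hℓ0.le hW1
    nlinarith
  set Z : ℕ := ⌈Real.exp E⌉₊ with hZ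
  have hZ1 : Real.exp E ≤ Z := Nat.le_ceil _
  have hZ2 : (Z : ℝ) < Real.exp E + 1 := Nat.ceil_lt_add_one (Real.exp_pos _).le
  have hexp : 3 ≤ Real.exp E := by
    have := Real.add_one_le_exp E
    linarith
  have hZ3' : (3 : ℝ) ≤ Z := hexp.trans hZ1
  have hZ3 : 3 ≤ Z := by exact_mod_cast hZ3'
  have hZ0 : (0 : ℝ) < Z := by linarith
  have hyZ : y ≤ Z := by
    have h3 : (y : ℝ) ≤ Z := by
      calc (y : ℝ) = Real.exp ℓ := (Real.exp_log (by linarith)).symm
        _ ≤ Real.exp E := Real.exp_le_exp.2 hEy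
        _ ≤ Z := hZ1
    exact_mod_cast h3
  have hlogZ1 : E ≤ Real.log Z := by
    rw [Real.le_log_iff_exp_le hZ0]
    exact hZ1
  have hlogZ2 : Real.log Z ≤ (6 * A + 1) * (ℓ * W) := by
    have h3 : Real.log Z ≤ E + 1 := by
      rw [Real.log_le_iff_le_exp hZ0, Real.exp_add]
      have h4 : (2 : ℝ) ≤ Real.exp 1 := by
        have := Real.add_one_le_exp (1 : ℝ)
        linarith
      nlinarith
    rw [hE] at h3
    linarith
  have hlogZ0 : 0 < Real.log Z := by linarith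
  unfold Lser
  refine LBound_le_of_partial (Lser_summable χ j hs) Z ?_
  intro M hM
  have e1 : ∀ n : ℕ, χ (n : ZMod R) * ((Real.log n : ℝ) : ℂ) ^ j * (n : ℂ) ^ (-s) =
      χ (n : ZMod R) * LBound_g j s n := by
    intro n; unfold LBound_g; ring
  simp only [e1]
  rw [← Finset.sum_Ioc_consecutive _ (Nat.zero_le Z) hM]
  refine (norm_add_le _ _).trans ?_
  -- the head
  have hhead : ‖∑ n ∈ Ioc 0 Z, χ (n : ZMod R) * LBound_g j s n‖ ≤
      Real.log Z ^ j * (C₁ * (Real.log Z / ℓ)) := by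
    refine (norm_sum_le _ _).trans ?_
    refine le_trans ?_ (mul_le_mul_of_nonneg_left (h₁ y R Z hy1 hR hyZ) (by positivity))
    rw [mul_sum, sum_filter]
    have e2 : Ioc 0 Z = Icc 1 Z := by ext; simp only [mem_Ioc, mem_Icc]; omega
    rw [e2]
    refine sum_le_sum (fun n hn => ?_)
    rw [mem_Icc] at hn
    have hn1 : (1 : ℝ) ≤ n := by exact_mod_cast hn.1
    have hnZ : (n : ℝ) ≤ Z := by exact_mod_cast hn.2
    by_cases hc : n.Coprime R
    · rw [if_pos hc, norm_mul]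
      have h0 : 0 ≤ Real.log n := Real.log_nonneg hn1
      have hl : Real.log n ≤ Real.log Z := Real.log_le_log (by linarith) hnZ
      calc ‖χ (n : ZMod R)‖ * ‖LBound_g j s n‖ ≤ 1 * ((Real.log n) ^ j / n) := by
            gcongr
            · exact χ.norm_le_one _
            · exact LBound_g_norm j hs.le hn.1
        _ ≤ 1 * ((Real.log Z) ^ j / n) := by gcongr
        _ = _ := by ring
    · rw [if_neg hc]
      have h3 : χ (n : ZMod R) = 0 := χ.map_nonunit (fun h => hc ((ZMod.isUnit_iff_coprime n R).1 h))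
      rw [h3]
      simp
  -- the tail
  set ε : ℝ := 1 / (2 * A * ℓ) with hε
  have hε0 : 0 < ε := by positivity
  have hε1 : ε ≤ 1 / 8 := by
    rw [hε]
    apply one_div_le_one_div_of_le
    · norm_num
    · nlinarith
  have e2 : ∀ u : ℝ, u / (A * ℓ) = 2 * ε * u := by
    intro u; rw [hε]; field_simp
  have hεZ : 1 ≤ 2 * ε * Real.log Z := by
    rw [← e2, le_div_iff₀ (by positivity)]
    nlinarith
  have hTail := h₂ ε (2 * G / ℓ) hε0 hε1 (by positivity)
    (fun n : ℕ => if n = 0 then 0 else χ (n : ZMod R)) Z hZ3 hεZ (by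
    intro m hm
    have e3 : ∑ n ∈ range (m + 1), (if n = 0 then 0 else χ (n : ZMod R)) =
        ∑ n ∈ Icc 1 m, χ (n : ZMod R) := by
      rw [Finset.range_eq_Ico, Finset.sum_eq_sum_Ico_succ_bot (by omega)]
      simp only [if_true, zero_add]
      have : Ico 1 (m + 1) = Icc 1 m := by ext; simp only [mem_Ico, mem_Icc]; omega
      rw [this]
      refine sum_congr rfl (fun n hn => ?_)
      rw [mem_Icc] at hn
      rw [if_neg (by omega)]
    rw [e3]
    refine (hSG m).trans ?_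
    rw [e2, ← hℓdef]
    have hm0 : (0 : ℝ) < m := by exact_mod_cast (by omega : 0 < m)
    have hZm : Real.log Z ≤ Real.log m := Real.log_le_log hZ0 (by exact_mod_cast hm)
    -- `1 ≤ G (m/ℓ) m^{-2ε}`
    have h5 : ℓ ≤ m * Real.exp (-(2 * ε * Real.log m)) := by
      have e3 : (m : ℝ) * Real.exp (-(2 * ε * Real.log m)) =
          Real.exp ((1 - 2 * ε) * Real.log m) := by
        have : (1 - 2 * ε) * Real.log m = Real.log m + -(2 * ε * Real.log m) := by ring
        rw [this, Real.exp_add, Real.exp_log hm0]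
      rw [e3]
      have h6 : ℓ ≤ (1 - 2 * ε) * Real.log m := by
        have : (1 - 2 * ε) * Real.log m ≥ (3 / 4) * Real.log m := by
          apply mul_le_mul_of_nonneg_right _ (by linarith)
          linarith
        nlinarith
      have := Real.add_one_le_exp ((1 - 2 * ε) * Real.log m)
      linarith
    have h6 : 1 ≤ G / ℓ * (m * Real.exp (-(2 * ε * Real.log m))) := by
      rw [div_mul_eq_mul_div, le_div_iff₀ hℓ0]
      nlinarith [Real.exp_pos (-(2 * ε * Real.log m))]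
    calc 1 + G * (m / ℓ) * Real.exp (-(2 * ε * Real.log m))
        = 1 + G / ℓ * (m * Real.exp (-(2 * ε * Real.log m))) := by ring
      _ ≤ G / ℓ * (m * Real.exp (-(2 * ε * Real.log m))) +
          G / ℓ * (m * Real.exp (-(2 * ε * Real.log m))) := by linarith
      _ = _ := by ring) s hs hs2 M hM
  have e4 : ∑ n ∈ Ioc Z M, (if n = 0 then 0 else χ (n : ZMod R)) * LBound_g j s n =
      ∑ n ∈ Ioc Z M, χ (n : ZMod R) * LBound_g j s n := by
    refine sum_congr rfl (fun n hn => ?_)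
    rw [mem_Ioc] at hn
    rw [if_neg (by omega)]
  rw [e4] at hTail
  have hX : Real.exp (-(2 * ε * Real.log Z)) ≤ 1 / (G * (|s.im| + 3)) := by
    rw [← e2]
    have h3 : 6 * W ≤ Real.log Z / (A * ℓ) := by
      rw [le_div_iff₀ (by positivity)]
      calc 6 * W * (A * ℓ) = E := by rw [hE]; ring
        _ ≤ _ := hlogZ1
    have h4 : Real.log G + Real.log (|s.im| + 3) ≤ Real.log Z / (A * ℓ) := by
      have : Real.log G + Real.log (|s.im| + 3) = W := rfl
      rw [this]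
      linarith
    calc Real.exp (-(Real.log Z / (A * ℓ))) ≤
          Real.exp (-(Real.log G + Real.log (|s.im| + 3))) := by
          apply Real.exp_le_exp.2; linarith
      _ = _ := by
          rw [Real.exp_neg, Real.exp_add, Real.exp_log (by positivity : (0 : ℝ) < |s.im| + 3),
            Real.exp_log (by linarith : 0 < G), one_div]
  have hsn : ‖s‖ ≤ |s.im| + 3 := by
    have := Complex.norm_le_abs_re_add_abs_im s
    rw [abs_of_pos (by linarith : (0 : ℝ) < s.re)] at this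
    linarith
  have htail : ‖∑ n ∈ Ioc Z M, χ (n : ZMod R) * LBound_g j s n‖ ≤
      C₂ * (6 * A * (1 + j)) * Real.log Z ^ j := by
    refine hTail.trans ?_
    have hG0 : 0 < G := by linarith
    have h7 : 1 + (‖s‖ + j) / ε ≤ 3 * A * ℓ * ((1 + j) * (|s.im| + 3)) := by
      have h8 : (‖s‖ + j) / ε = 2 * A * ℓ * (‖s‖ + j) := by rw [hε]; field_simp
      rw [h8]
      have hj0 : (0 : ℝ) ≤ j := by positivity
      have h9 : ‖s‖ + j ≤ (1 + j) * (|s.im| + 3) := by nlinarith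
      have h10 : 1 ≤ (1 + j) * (|s.im| + 3) := by nlinarith
      have h11 : 1 ≤ A * ℓ := by nlinarith
      have h12 : 2 * A * ℓ * (‖s‖ + j) ≤ 2 * A * ℓ * ((1 + j) * (|s.im| + 3)) := by gcongr
      have h13 : 1 ≤ A * ℓ * ((1 + j) * (|s.im| + 3)) := by
        nlinarith [mul_nonneg (sub_nonneg.2 h11) (sub_nonneg.2 h10)]
      linarith
    calc C₂ * (2 * G / ℓ) * (1 + (‖s‖ + j) / ε) * Real.log Z ^ j * Real.exp (-(2 * ε * Real.log Z))
        ≤ C₂ * (2 * G / ℓ) * (3 * A * ℓ * ((1 + j) * (|s.im| + 3))) * Real.log Z ^ j *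
          (1 / (G * (|s.im| + 3))) := by gcongr
      _ = _ := by
          field_simp
          ring
  refine (add_le_add hhead htail).trans ?_
  have h5 : Real.log Z ^ j * (C₁ * (Real.log Z / ℓ)) ≤
      (6 * A + 1) ^ (j + 1) * C₁ * (W ^ (j + 1) * ℓ ^ j) := by
    calc Real.log Z ^ j * (C₁ * (Real.log Z / ℓ))
        ≤ ((6 * A + 1) * (ℓ * W)) ^ j * (C₁ * ((6 * A + 1) * (ℓ * W) / ℓ)) := by gcongr
      _ = _ := by
          rw [mul_pow, mul_pow]
          field_simp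
          ring
  have h6 : C₂ * (6 * A * (1 + j)) * Real.log Z ^ j ≤
      (6 * A + 1) ^ j * (C₂ * (6 * A * (1 + j))) * (W ^ (j + 1) * ℓ ^ j) := by
    calc C₂ * (6 * A * (1 + j)) * Real.log Z ^ j
        ≤ C₂ * (6 * A * (1 + j)) * ((6 * A + 1) * (ℓ * W)) ^ j := by gcongr
      _ = (6 * A + 1) ^ j * (C₂ * (6 * A * (1 + j))) * (W ^ j * 1 * ℓ ^ j) := by
          rw [mul_pow, mul_pow]; ring
      _ ≤ (6 * A + 1) ^ j * (C₂ * (6 * A * (1 + j))) * (W ^ j * W * ℓ ^ j) := by gcongr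
      _ = _ := by rw [pow_succ W j]
  calc _ ≤ (6 * A + 1) ^ (j + 1) * C₁ * (W ^ (j + 1) * ℓ ^ j) +
        (6 * A + 1) ^ j * (C₂ * (6 * A * (1 + j))) * (W ^ (j + 1) * ℓ ^ j) := add_le_add h5 h6
    _ = _ := by ring

end Pool.Agent.PW
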