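import Mathlib
import Pool.Agent.Work.BV.Additive

/-! # The logarithm modulo `r`

`Lam y = ∑_{j ≤ K} (-1)^(j-1) (B d^(j-1) / j) y^j`, i.e. `B log (1 + d y) / d`, is additive on the
group of the `1 + d y` modulo `r / gcd (d, r)`. -/

namespace Pool.Agent.PW

open Finset Polynomial

/-- hypotheses on the parameters -/
structure LogPar (r d B D K : ℕ) : Prop where
  hr : 0 < r
  hK : 1 ≤ K
  cop : B.Coprime r
  dvd1 : ∀ j, 2 ≤ j → j ≤ K → j * D ∣ B * d ^ (j - 1)
  dvd2 : ∀ i, 1 ≤ i → i ≤ K → i * r ∣ B * d ^ (K + 1)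
  primeD : ∀ p : ℕ, p.Prime → p ∣ r → p ∣ D
  primed : ∀ p : ℕ, p.Prime → p ∣ r → p ∣ d

/-- the coefficients `B d^(j-1) / j` -/
def cf (d B j : ℕ) : ℕ := B * d ^ (j - 1) / j

/-- the logarithm -/
noncomputable def LamP (d B K : ℕ) : ℤ[X] :=
  ∑ j ∈ Icc 1 K, C ((-1) ^ (j - 1) * (cf d B j : ℤ)) * X ^ j

/-- the logarithm -/
def Lam (d B K : ℕ) (y : ℤ) : ℤ := ∑ j ∈ Icc 1 K, (-1) ^ (j - 1) * (cf d B j : ℤ) * y ^ j

theorem eval_LamP (d B K : ℕ) (y : ℤ) : (LamP d B K).eval y = Lam d B K y := by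
  simp [LamP, Lam, eval_finsetSum]

variable {r d B D K : ℕ}

theorem LogPar.cf_mul (h : LogPar r d B D K) {j : ℕ} (h1 : 1 ≤ j) (hj : j ≤ K) :
    j * cf d B j = B * d ^ (j - 1) := by
  unfold cf
  refine Nat.mul_div_cancel' ?_
  rcases Nat.eq_or_lt_of_le h1 with rfl | h2
  · exact one_dvd _
  · exact (Dvd.intro _ rfl).trans (h.dvd1 j h2 hj)

theorem LogPar.cf_one (B d : ℕ) : cf d B 1 = B := by simp [cf]

/-- `(1 + d X) (d Lam)' = B d (1 - (-d X)^K)`, divided by `d` -/
theorem LogPar.deriv (h : LogPar r d B D K) :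
    (1 + C (d : ℤ) * X) * derivative (LamP d B K) = C (B : ℤ) * (1 - (-(C (d : ℤ) * X)) ^ K) := by
  have h1 : derivative (LamP d B K) = C (B : ℤ) * ∑ i ∈ range K, (-(C (d : ℤ) * X)) ^ i := by
    unfold LamP
    rw [derivative_sum, ← Finset.sum_subset (s₁ := (range K).image (· + 1)) (s₂ := Icc 1 K)]
    · rw [Finset.sum_image (by intro a _ b _ hab; simpa using hab), Finset.mul_sum]
      refine Finset.sum_congr rfl fun i hi => ?_
      have hi' : i < K := Finset.mem_range.1 hi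
      rw [derivative_C_mul_X_pow, Nat.add_sub_cancel]
      have h2 := h.cf_mul (j := i + 1) (by omega) (by omega)
      rw [Nat.add_sub_cancel] at h2
      have h3 : ((-1) ^ i * (cf d B (i + 1) : ℤ)) * ((i + 1 : ℕ) : ℤ) = B * (-(d : ℤ)) ^ i := by
        rw [neg_pow (d : ℤ) i]
        have h4 : ((i + 1 : ℕ) : ℤ) * (cf d B (i + 1) : ℤ) = B * d ^ i := by exact_mod_cast h2
        calc _ = (-1) ^ i * (((i + 1 : ℕ) : ℤ) * (cf d B (i + 1) : ℤ)) := by ring
          _ = _ := by rw [h4]; ring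
      rw [h3, ← neg_mul, mul_pow, ← C_neg, ← C_pow, ← mul_assoc, ← C_mul]
    · intro j hj
      simp only [Finset.mem_image, Finset.mem_range, Finset.mem_Icc] at hj ⊢
      omega
    · intro j hj hj'
      exfalso
      simp only [Finset.mem_image, Finset.mem_range, Finset.mem_Icc, not_exists, not_and] at hj hj'
      exact hj' (j - 1) (by omega) (by omega)
  have h5 := mul_neg_geom_sum (-(C (d : ℤ) * X)) K
  rw [h1]
  calc _ = C (B : ℤ) * ((1 - -(C (d : ℤ) * X)) * ∑ i ∈ range K, (-(C (d : ℤ) * X)) ^ i) := by ring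
    _ = _ := by rw [h5]

theorem dvd_of_mul_one_add {M : ℤ} (d : ℤ) {g : ℤ[X]}
    (h : C M ∣ (1 + C d * X) * g) : C M ∣ g := by
  rw [C_dvd_iff_dvd_coeff] at h ⊢
  intro i
  induction i with
  | zero =>
    have h1 := h 0
    rwa [mul_coeff_zero, coeff_add, coeff_one_zero, coeff_C_mul, coeff_X_zero, mul_zero, add_zero,
      one_mul] at h1
  | succ i ih =>
    have h1 := h (i + 1)
    rw [add_mul, one_mul, coeff_add, mul_assoc, coeff_C_mul, coeff_X_mul] at h1
    exact (dvd_add_left (ih.mul_left d)).1 h1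

theorem natDegree_LamP (d B K : ℕ) : (LamP d B K).natDegree ≤ K := by
  unfold LamP
  refine natDegree_sum_le_of_forall_le _ _ fun j hj => ?_
  exact (natDegree_C_mul_X_pow_le _ _).trans (Finset.mem_Icc.1 hj).2

theorem Lam_zero (d B K : ℕ) : Lam d B K 0 = 0 := by
  unfold Lam
  refine Finset.sum_eq_zero fun j hj => ?_
  rw [zero_pow (by have := (Finset.mem_Icc.1 hj).1; omega), mul_zero]

/-- the functional equation -/
theorem LogPar.add (h : LogPar r d B D K) (y z : ℤ) :
    (r : ℤ) ∣ d * (Lam d B K (y + z + d * y * z) - Lam d B K y - Lam d B K z) := by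
  set T : ℤ[X] := C z + C (1 + d * z) * X with hT
  set f : ℤ[X] := C (d : ℤ) * ((LamP d B K).comp T - LamP d B K - C (Lam d B K z)) with hf
  have hev : ∀ x : ℤ, f.eval x =
      d * (Lam d B K (x + z + d * x * z) - Lam d B K x - Lam d B K z) := by
    intro x
    rw [hf, hT]
    simp only [eval_mul, eval_C, eval_sub, eval_comp, eval_add, eval_X, eval_LamP]
    congr 4
    ring
  have h0 : f.coeff 0 = 0 := by
    rw [coeff_zero_eq_eval_zero, hev, Lam_zero]
    have : (0 : ℤ) + z + d * 0 * z = z := by ring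
    rw [this]
    ring
  -- the derivative
  have hd : (1 + C (d : ℤ) * X) * derivative f =
      C ((B : ℤ) * d ^ (K + 1)) * ((-1) ^ K * (X ^ K - T ^ K)) := by
    have h1 := h.deriv
    have h2 : ((1 + C (d : ℤ) * X) * derivative (LamP d B K)).comp T =
        (C (B : ℤ) * (1 - (-(C (d : ℤ) * X)) ^ K)).comp T := by rw [h1]
    simp only [mul_comp, add_comp, sub_comp, one_comp, C_comp, X_comp, neg_comp, pow_comp] at h2
    have h3 : derivative f = C (d : ℤ) * (C (1 + d * z : ℤ) * (derivative (LamP d B K)).comp T -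
        derivative (LamP d B K)) := by
      rw [hf, derivative_C_mul, derivative_sub, derivative_sub, derivative_C, sub_zero,
        derivative_comp]
      congr 3
      rw [hT, derivative_add, derivative_C, zero_add, derivative_C_mul, derivative_X, mul_one]
    have h4 : (1 + C (d : ℤ) * X) * C (1 + d * z : ℤ) = 1 + C (d : ℤ) * T := by
      rw [hT]
      simp only [C_add, C_mul, C_1]
      ring
    rw [h3]
    calc (1 + C (d : ℤ) * X) * (C (d : ℤ) * (C (1 + d * z : ℤ) * (derivative (LamP d B K)).comp T -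
          derivative (LamP d B K)))
        = C (d : ℤ) * (((1 + C (d : ℤ) * X) * C (1 + d * z : ℤ)) *
            (derivative (LamP d B K)).comp T -
            (1 + C (d : ℤ) * X) * derivative (LamP d B K)) := by ring
      _ = C (d : ℤ) * (C (B : ℤ) * (1 - (-(C (d : ℤ) * T)) ^ K) -
            C (B : ℤ) * (1 - (-(C (d : ℤ) * X)) ^ K)) := by rw [h4, h2, h1]
      _ = _ := by
          rw [← neg_mul, ← neg_mul, mul_pow, mul_pow, neg_pow, C_mul, C_pow, pow_succ]
          ring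
  have h5 : C ((B : ℤ) * d ^ (K + 1)) ∣ derivative f :=
    dvd_of_mul_one_add (d : ℤ) (hd ▸ dvd_mul_right _ _)
  rw [C_dvd_iff_dvd_coeff] at h5
  have hdeg : f.natDegree ≤ K := by
    rw [hf]
    refine (natDegree_C_mul_le _ _).trans ?_
    refine (natDegree_sub_le _ _).trans (max_le ((natDegree_sub_le _ _).trans (max_le ?_
      (natDegree_LamP d B K))) (by rw [natDegree_C]; exact Nat.zero_le _))
    refine natDegree_comp_le.trans ?_
    have h6 : T.natDegree ≤ 1 := by
      rw [hT, add_comm]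
      exact natDegree_linear_le
    calc _ ≤ K * 1 := Nat.mul_le_mul (natDegree_LamP d B K) h6
      _ = K := mul_one K
  have h7 : C (r : ℤ) ∣ f := by
    rw [C_dvd_iff_dvd_coeff]
    intro i
    rcases Nat.eq_zero_or_pos i with rfl | hi
    · rw [h0]; exact dvd_zero _
    rcases Nat.lt_or_ge K i with h8 | h8
    · rw [coeff_eq_zero_of_natDegree_lt (lt_of_le_of_lt hdeg h8)]
      exact dvd_zero _
    · have h9 := h5 (i - 1)
      rw [coeff_derivative, Nat.sub_add_cancel hi] at h9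
      have h10 : ((i * r : ℕ) : ℤ) ∣ ((B * d ^ (K + 1) : ℕ) : ℤ) :=
        Int.natCast_dvd_natCast.2 (h.dvd2 i hi h8)
      push_cast at h10
      have h11 := h10.trans h9
      have h12 : (((i - 1 : ℕ) : ℤ) + 1) = i := by
        have : i - 1 + 1 = i := Nat.sub_add_cancel hi
        exact_mod_cast this
      rw [h12, mul_comm (f.coeff i)] at h11
      exact Int.dvd_of_mul_dvd_mul_left (by exact_mod_cast hi.ne') h11
  obtain ⟨g, hg⟩ := h7
  have := hev y
  rw [hg, eval_mul, eval_C] at this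
  rw [← this]
  exact dvd_mul_right _ _

/-- the unit `Lam y / y` -/
def ww (d B K : ℕ) (y : ℤ) : ℤ := ∑ j ∈ Icc 1 K, (-1) ^ (j - 1) * (cf d B j : ℤ) * y ^ (j - 1)

theorem Lam_eq (d B K : ℕ) (y : ℤ) : Lam d B K y = y * ww d B K y := by
  unfold Lam ww
  rw [Finset.mul_sum]
  refine Finset.sum_congr rfl fun j hj => ?_
  have hj1 := (Finset.mem_Icc.1 hj).1
  obtain ⟨i, rfl⟩ := Nat.exists_eq_add_of_le' hj1
  rw [Nat.add_sub_cancel, pow_succ]
  ring

theorem LogPar.ww_coprime (h : LogPar r d B D K) (y : ℤ) : IsCoprime (ww d B K y) (r : ℤ) := by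
  have h1 : (D : ℤ) ∣ ww d B K y - B := by
    unfold ww
    rw [← Finset.add_sum_erase _ _ (Finset.mem_Icc.2 ⟨le_rfl, h.hK⟩ : 1 ∈ Icc 1 K)]
    have h2 : (-1 : ℤ) ^ (1 - 1) * (cf d B 1 : ℤ) * y ^ (1 - 1) = B := by simp [cf]
    rw [h2, add_sub_cancel_left]
    refine Finset.dvd_sum fun j hj => ?_
    rw [Finset.mem_erase, Finset.mem_Icc] at hj
    have h3 : D ∣ cf d B j := by
      have h4 := h.cf_mul hj.2.1 hj.2.2
      have h5 := h.dvd1 j (by omega) hj.2.2
      rw [← h4] at h5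
      exact Nat.dvd_of_mul_dvd_mul_left (by omega) h5
    exact ((Int.natCast_dvd_natCast.2 h3).mul_left _).mul_right _
  rw [Int.isCoprime_iff_gcd_eq_one]
  by_contra hcon
  obtain ⟨p, hp, hpd⟩ := Nat.exists_prime_and_dvd hcon
  have h2 : (p : ℤ) ∣ ww d B K y := (Int.natCast_dvd_natCast.2 hpd).trans (Int.gcd_dvd_left ..)
  have h3 : (p : ℤ) ∣ (r : ℤ) := (Int.natCast_dvd_natCast.2 hpd).trans (Int.gcd_dvd_right ..)
  have h3' : p ∣ r := Int.natCast_dvd_natCast.1 h3
  have h4 : (p : ℤ) ∣ B := by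
    have h5 : (p : ℤ) ∣ D := Int.natCast_dvd_natCast.2 (h.primeD p hp h3')
    have h6 := h5.trans h1
    exact (dvd_sub_right h2).1 h6
  have h5 : p ∣ B := Int.natCast_dvd_natCast.1 h4
  exact hp.one_lt.ne' (Nat.eq_one_of_dvd_coprimes h.cop h5 h3')

end Pool.Agent.PW
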