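import Pool.Agent.Work.MP_92f640_nt.PW.PosA

/-! # Characters of the group of the `1 + d y` modulo `r` -/

namespace Pool.Agent.PW

open Finset Pool.Agent.BV

theorem dvd_mul_iff {d r : ℕ} (hr : 0 < r) (X : ℤ) :
    (r : ℤ) ∣ d * X ↔ ((r / d.gcd r : ℕ) : ℤ) ∣ X := by
  have hg : 0 < d.gcd r := Nat.gcd_pos_of_pos_right _ hr
  have h1 : d.gcd r * (r / d.gcd r) = r := Nat.mul_div_cancel' (Nat.gcd_dvd_right _ _)
  have h2 : d.gcd r * (d / d.gcd r) = d := Nat.mul_div_cancel' (Nat.gcd_dvd_left _ _)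
  have h3 : (d / d.gcd r).Coprime (r / d.gcd r) := Nat.coprime_div_gcd_div_gcd hg
  have h4 : (r : ℤ) = (d.gcd r : ℤ) * ((r / d.gcd r : ℕ) : ℤ) := by exact_mod_cast h1.symm
  have h5 : (d : ℤ) = (d.gcd r : ℤ) * ((d / d.gcd r : ℕ) : ℤ) := by exact_mod_cast h2.symm
  have hg' : (d.gcd r : ℤ) ≠ 0 := by exact_mod_cast hg.ne'
  constructor
  · intro h
    have h6 : (d.gcd r : ℤ) * ((r / d.gcd r : ℕ) : ℤ) ∣
        (d.gcd r : ℤ) * (((d / d.gcd r : ℕ) : ℤ) * X) := by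
      rw [← h4, ← mul_assoc, ← h5]
      exact h
    have h7 := Int.dvd_of_mul_dvd_mul_left hg' h6
    exact IsCoprime.dvd_of_dvd_mul_left (Nat.isCoprime_iff_coprime.2 h3.symm) h7
  · intro h
    have h6 : (r : ℤ) ∣ (d.gcd r : ℤ) * X := by
      rw [h4]
      exact mul_dvd_mul_left _ h
    rw [h5, mul_comm (d.gcd r : ℤ), mul_assoc]
    exact h6.mul_left _

variable {r d B D K : ℕ}

theorem LogPar.r1_pos (h : LogPar r d B D K) : 0 < r / d.gcd r :=
  Nat.div_pos (Nat.le_of_dvd h.hr (Nat.gcd_dvd_right _ _)) (Nat.gcd_pos_of_pos_right _ h.hr)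

theorem LogPar.r1_dvd (_ : LogPar r d B D K) : r / d.gcd r ∣ r :=
  Nat.div_dvd_of_dvd (Nat.gcd_dvd_right _ _)

theorem LogPar.add1 (h : LogPar r d B D K) (y z : ℤ) :
    ((r / d.gcd r : ℕ) : ℤ) ∣ Lam d B K (y + z + d * y * z) - Lam d B K y - Lam d B K z :=
  (dvd_mul_iff h.hr _).1 (h.add y z)

theorem Lam_sub_dvd (d B K : ℕ) (y z : ℤ) : y - z ∣ Lam d B K y - Lam d B K z := by
  rw [← eval_LamP, ← eval_LamP]
  exact Polynomial.sub_dvd_eval_sub _ _ _

theorem LogPar.dvd_of_Lam (h : LogPar r d B D K) {c : ℤ}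
    (hc : ((r / d.gcd r : ℕ) : ℤ) ∣ Lam d B K c) : ((r / d.gcd r : ℕ) : ℤ) ∣ c := by
  rw [Lam_eq] at hc
  have h1 : IsCoprime (ww d B K c) ((r / d.gcd r : ℕ) : ℤ) :=
    (h.ww_coprime c).of_isCoprime_of_dvd_right (Int.natCast_dvd_natCast.2 h.r1_dvd)
  exact h1.symm.dvd_of_dvd_mul_right hc

theorem LogPar.coprime_one_add (h : LogPar r d B D K) (z : ℤ) :
    IsCoprime (1 + d * z) (r : ℤ) := by
  rw [Int.isCoprime_iff_gcd_eq_one]
  by_contra hcon
  obtain ⟨p, hp, hpd⟩ := Nat.exists_prime_and_dvd hcon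
  have h2 : (p : ℤ) ∣ 1 + d * z := (Int.natCast_dvd_natCast.2 hpd).trans (Int.gcd_dvd_left ..)
  have h3 : (p : ℤ) ∣ (r : ℤ) := (Int.natCast_dvd_natCast.2 hpd).trans (Int.gcd_dvd_right ..)
  have h4 : (p : ℤ) ∣ d := Int.natCast_dvd_natCast.2 (h.primed p hp (Int.natCast_dvd_natCast.1 h3))
  have h5 : (p : ℤ) ∣ 1 := (dvd_add_left (h4.mul_right z)).1 h2
  exact hp.one_lt.ne' (by exact_mod_cast Int.eq_one_of_dvd_one (by positivity) h5)

theorem LogPar.inj (h : LogPar r d B D K) {y z : ℤ}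
    (hyz : ((r / d.gcd r : ℕ) : ℤ) ∣ Lam d B K y - Lam d B K z) :
    ((r / d.gcd r : ℕ) : ℤ) ∣ y - z := by
  obtain ⟨u, v, huv⟩ := h.coprime_one_add z
  set c : ℤ := (y - z) * u with hc
  have hr1 : ((r / d.gcd r : ℕ) : ℤ) ∣ (r : ℤ) := Int.natCast_dvd_natCast.2 h.r1_dvd
  have h1 : z + c + d * z * c - y = (r : ℤ) * (-(v * (y - z))) := by
    rw [hc]
    linear_combination (y - z) * huv
  have h2 : ((r / d.gcd r : ℕ) : ℤ) ∣ Lam d B K (z + c + d * z * c) - Lam d B K y :=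
    (hr1.trans (by rw [h1]; exact dvd_mul_right _ _)).trans (Lam_sub_dvd d B K _ _)
  have h3 := h.add1 z c
  have h4 : ((r / d.gcd r : ℕ) : ℤ) ∣ Lam d B K c := by
    have h5 := (h2.sub h3).add hyz
    have h6 : Lam d B K (z + c + d * z * c) - Lam d B K y -
        (Lam d B K (z + c + d * z * c) - Lam d B K z - Lam d B K c) +
        (Lam d B K y - Lam d B K z) = Lam d B K c := by ring
    rwa [h6] at h5
  have h5 := h.dvd_of_Lam h4
  have h6 : IsCoprime u ((r / d.gcd r : ℕ) : ℤ) := by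
    refine IsCoprime.of_isCoprime_of_dvd_right (y := (r : ℤ)) ?_ hr1
    exact ⟨1 + d * z, v, by linear_combination huv⟩
  exact h6.symm.dvd_of_dvd_mul_right h5

theorem LogPar.surj (h : LogPar r d B D K) (t : ℤ) :
    ∃ y : ℤ, ((r / d.gcd r : ℕ) : ℤ) ∣ Lam d B K y - t := by
  have : NeZero (r / d.gcd r) := ⟨h.r1_pos.ne'⟩
  set φ : ZMod (r / d.gcd r) → ZMod (r / d.gcd r) := fun a => ((Lam d B K (a.val : ℤ) : ℤ)) with hφ
  have hinj : Function.Injective φ := by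
    intro a b hab
    have h1 : ((r / d.gcd r : ℕ) : ℤ) ∣ Lam d B K (a.val : ℤ) - Lam d B K (b.val : ℤ) := by
      rw [← ZMod.intCast_zmod_eq_zero_iff_dvd, Int.cast_sub, sub_eq_zero]
      exact hab
    have h2 := h.inj h1
    rw [← ZMod.intCast_zmod_eq_zero_iff_dvd, Int.cast_sub, sub_eq_zero] at h2
    simpa using h2
  obtain ⟨a, ha⟩ := Finite.surjective_of_injective hinj (t : ZMod (r / d.gcd r))
  refine ⟨a.val, ?_⟩
  rw [← ZMod.intCast_zmod_eq_zero_iff_dvd, Int.cast_sub, sub_eq_zero]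
  exact ha

/-- the values of a character -/
theorem LogPar.exists_c (h : LogPar r d B D K) (χ : DirichletCharacter ℂ r) : ∃ c : ℤ, ∀ y : ℤ,
    χ ((1 + d * y : ℤ) : ZMod r) = e (c * Lam d B K y / (r / d.gcd r : ℕ)) := by
  choose Y hY using h.surj
  set r1 : ℕ := r / d.gcd r with hr1
  have hr1p : 0 < r1 := h.r1_pos
  have hr1' : ((r1 : ℕ) : ℝ) ≠ 0 := by exact_mod_cast hr1p.ne'
  have key : ∀ y t : ℤ, (r1 : ℤ) ∣ Lam d B K y - t →
      χ ((1 + d * y : ℤ) : ZMod r) = χ ((1 + d * Y t : ℤ) : ZMod r) := by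
    intro y t hyt
    have h1 : (r1 : ℤ) ∣ Lam d B K y - Lam d B K (Y t) := by
      have h2 := hyt.sub (hY t)
      have h3 : Lam d B K y - t - (Lam d B K (Y t) - t) = Lam d B K y - Lam d B K (Y t) := by ring
      rwa [h3] at h2
    have h2 := (dvd_mul_iff h.hr _).2 (h.inj h1)
    congr 1
    rw [← sub_eq_zero, ← Int.cast_sub, ZMod.intCast_zmod_eq_zero_iff_dvd]
    have h3 : 1 + d * y - (1 + d * Y t) = (d : ℤ) * (y - Y t) := by ring
    rw [h3]
    exact h2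
  set ρ : ℤ → ℂ := fun t => χ ((1 + d * Y t : ℤ) : ZMod r) with hρ
  have hρy : ∀ y : ℤ, χ ((1 + d * y : ℤ) : ZMod r) = ρ (Lam d B K y) := fun y =>
    key y _ (by rw [sub_self]; exact dvd_zero _)
  have hmul : ∀ s t, ρ (s + t) = ρ s * ρ t := by
    intro s t
    have h1 : (r1 : ℤ) ∣ Lam d B K (Y s + Y t + d * Y s * Y t) - (s + t) := by
      have h2 := ((h.add1 (Y s) (Y t)).add (hY s)).add (hY t)
      have h3 : Lam d B K (Y s + Y t + d * Y s * Y t) - Lam d B K (Y s) - Lam d B K (Y t) +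
          (Lam d B K (Y s) - s) + (Lam d B K (Y t) - t) =
          Lam d B K (Y s + Y t + d * Y s * Y t) - (s + t) := by ring
      rwa [h3] at h2
    have h2 := key _ _ h1
    rw [hρ]
    simp only
    rw [← h2, ← map_mul, ← Int.cast_mul]
    congr 2
    ring
  have hper : ∀ s t, (r1 : ℤ) ∣ s - t → ρ s = ρ t := by
    intro s t hst
    refine key (Y s) t ?_
    have h2 := (hY s).add hst
    have h3 : Lam d B K (Y s) - s + (s - t) = Lam d B K (Y s) - t := by ring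
    rwa [h3] at h2
  have h0 : ρ 0 = 1 := by
    have h1 := key 0 0 (by rw [Lam_zero, sub_self]; exact dvd_zero _)
    rw [hρ]
    simp only
    rw [← h1]
    simp
  have hpow : ∀ n : ℕ, ρ n = ρ 1 ^ n := by
    intro n
    induction n with
    | zero => simpa using h0
    | succ n ih => rw [Nat.cast_succ, hmul, ih, pow_succ]
  have h1 : ρ 1 ^ r1 = 1 := by
    rw [← hpow, hper r1 0 (by rw [sub_zero]), h0]
  have : NeZero r1 := ⟨hr1p.ne'⟩
  obtain ⟨c, -, hc⟩ := (Complex.isPrimitiveRoot_exp r1 hr1p.ne').eq_pow_of_pow_eq_one h1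
  have hc' : ρ 1 = e (c / r1) := by
    rw [← hc, ← Complex.exp_nat_mul]
    unfold e
    congr 1
    push_cast
    ring
  refine ⟨c, fun y => ?_⟩
  rw [hρy]
  set t := Lam d B K y with ht
  have h2 : 0 ≤ t % r1 := Int.emod_nonneg _ (by exact_mod_cast hr1p.ne')
  have h3 : t = t % r1 + r1 * (t / r1) := (Int.emod_add_mul_ediv t r1).symm
  set n : ℕ := (t % r1).toNat with hn
  have hn' : (n : ℤ) = t % r1 := Int.toNat_of_nonneg h2
  have h4 : ρ t = ρ n := hper _ _ (by rw [hn', h3]; simp)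
  rw [h4, hpow, hc', ← add_e_pow]
  have h5 : (n : ℝ) * (c / r1) = c * t / r1 - ((c * (t / r1) : ℤ) : ℝ) := by
    have h6 : (t : ℝ) = n + r1 * ((t / (r1 : ℤ) : ℤ) : ℝ) := by
      rw [← hn'] at h3
      exact_mod_cast h3
    rw [h6]
    push_cast
    field_simp
    ring
  rw [h5, add_e_sub_int]
  push_cast
  rfl

/-- for primitive characters the number `c` is a unit -/
theorem LogPar.c_coprime (h : LogPar r d B D K) {χ : DirichletCharacter ℂ r}
    (hχ : χ.IsPrimitive) {c : ℤ}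
    (hc : ∀ y : ℤ, χ ((1 + d * y : ℤ) : ZMod r) = e (c * Lam d B K y / (r / d.gcd r : ℕ))) :
    IsCoprime c ((r / d.gcd r : ℕ) : ℤ) := by
  set r1 : ℕ := r / d.gcd r with hr1
  have hr1p : 0 < r1 := h.r1_pos
  have hr0 : NeZero r := ⟨h.hr.ne'⟩
  rw [Int.isCoprime_iff_gcd_eq_one]
  by_contra hcon
  obtain ⟨p, hp, hpd⟩ := Nat.exists_prime_and_dvd hcon
  have hpc : (p : ℤ) ∣ c := (Int.natCast_dvd_natCast.2 hpd).trans (Int.gcd_dvd_left ..)
  have hpr1 : p ∣ r1 :=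
    Int.natCast_dvd_natCast.1 ((Int.natCast_dvd_natCast.2 hpd).trans (Int.gcd_dvd_right ..))
  have hpr : p ∣ r := hpr1.trans h.r1_dvd
  have hg : 0 < d.gcd r := Nat.gcd_pos_of_pos_right _ h.hr
  have h1 : d.gcd r * r1 = r := Nat.mul_div_cancel' (Nat.gcd_dvd_right _ _)
  have h2 : d.gcd r * (d / d.gcd r) = d := Nat.mul_div_cancel' (Nat.gcd_dvd_left _ _)
  have h3 : (d / d.gcd r).Coprime r1 := Nat.coprime_div_gcd_div_gcd hg
  set d' : ℕ := d / d.gcd r with hd'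
  obtain ⟨r2, hr2⟩ := hpr1
  obtain ⟨c', hc'⟩ := hpc
  have hr2' : (r1 : ℝ) = p * r2 := by exact_mod_cast hr2
  have hr1' : (r1 : ℝ) ≠ 0 := by exact_mod_cast hr1p.ne'
  have hp0 : (p : ℝ) ≠ 0 := by exact_mod_cast hp.ne_zero
  have hr20 : (r2 : ℝ) ≠ 0 := by
    intro h4
    rw [h4, mul_zero] at hr2'
    exact hr1' hr2'
  -- the character is trivial on the `1 + d r2 t`
  have h4 : ∀ t : ℤ, χ ((1 + d * (r2 * t) : ℤ) : ZMod r) = 1 := by
    intro t
    rw [hc, Lam_eq]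
    have h5 : (c : ℝ) * ((r2 * t * ww d B K (r2 * t) : ℤ) : ℝ) / (r1 : ℕ) =
        ((c' * t * ww d B K (r2 * t) : ℤ) : ℝ) := by
      rw [hc', hr2']
      push_cast
      field_simp
    rw [h5, add_e_int]
  have hrp : r / p = d.gcd r * r2 := by
    refine Nat.div_eq_of_eq_mul_right hp.pos ?_
    calc r = d.gcd r * r1 := h1.symm
      _ = d.gcd r * (p * r2) := by rw [hr2]
      _ = p * (d.gcd r * r2) := by ring
  have h5 : r / p ∈ χ.conductorSet := by
    rw [DirichletCharacter.mem_conductorSet_iff,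
      DirichletCharacter.factorsThrough_iff_ker_unitsMap (Nat.div_dvd_of_dvd hpr)]
    intro u hu
    rw [MonoidHom.mem_ker] at hu ⊢
    have h6 : ((u : ZMod r).cast : ZMod (r / p)) = 1 := by
      have h7 := congrArg Units.val hu
      rwa [ZMod.unitsMap_val, Units.val_one] at h7
    have h7 : ((r / p : ℕ) : ℤ) ∣ ((u : ZMod r).val : ℤ) - 1 := by
      rw [← ZMod.intCast_zmod_eq_zero_iff_dvd, Int.cast_sub, sub_eq_zero, Int.cast_one,
        Int.cast_natCast, ← h6]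
      rw [ZMod.cast_eq_val]
    obtain ⟨s, hs⟩ := h7
    have h8 : IsCoprime (d' : ℤ) (p : ℤ) :=
      Nat.isCoprime_iff_coprime.2 (h3.coprime_dvd_right ⟨r2, hr2⟩)
    obtain ⟨a, b, hab⟩ := h8
    have h9 : (u : ZMod r) = ((1 + d * (r2 * (a * s)) : ℤ) : ZMod r) := by
      have h10 : ((u : ZMod r).val : ℤ) - (1 + d * (r2 * (a * s))) = r * (b * s) := by
        have h11 : ((u : ZMod r).val : ℤ) = 1 + (r / p : ℕ) * s := by linarith
        rw [h11, hrp]
        have h12 : (d : ℤ) = d.gcd r * d' := by exact_mod_cast h2.symm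
        have h13 : (r : ℤ) = d.gcd r * (p * r2) := by
          calc (r : ℤ) = d.gcd r * r1 := by exact_mod_cast h1.symm
            _ = _ := by rw [hr2]; push_cast; ring
        have h14 : (d.gcd r : ℤ) * (d' : ℤ) * (r2 * (a * s)) + (d.gcd r : ℤ) * (p * r2) * (b * s) =
            (d.gcd r : ℤ) * r2 * s := by
          linear_combination (d.gcd r : ℤ) * r2 * s * hab
        push_cast
        rw [h13]
        calc _ = (d.gcd r : ℤ) * r2 * s - (d : ℤ) * (r2 * (a * s)) := by ring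
          _ = (d.gcd r : ℤ) * r2 * s - (d.gcd r : ℤ) * (d' : ℤ) * (r2 * (a * s)) := by rw [← h12]
          _ = _ := by rw [← h14]; ring
      have h11 : (((u : ZMod r).val : ℤ) : ZMod r) = ((1 + d * (r2 * (a * s)) : ℤ) : ZMod r) := by
        rw [← sub_eq_zero, ← Int.cast_sub, ZMod.intCast_zmod_eq_zero_iff_dvd, h10]
        exact dvd_mul_right _ _
      rw [← h11]
      simp
    rw [← Units.val_inj]
    show χ (u : ZMod r) = 1
    rw [h9, h4]
  have h6 : χ.conductor ≤ r / p := Nat.sInf_le h5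
  rw [(DirichletCharacter.isPrimitive_def χ).1 hχ] at h6
  exact absurd h6 (not_le.2 (Nat.div_lt_self h.hr hp.one_lt))

end Pool.Agent.PW
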