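import Pool.Agent.Work.MP_92f640_nt.PW.PosB
import Pool.Agent.Work.MP_92f640_nt.PW.CSDefs

/-! # The phase and its denominators -/

namespace Pool.Agent.PW

open Finset Pool.Agent.BV

variable {r d B D K : ℕ}

/-- reduced fractions -/
theorem exists_reduced (a : ℤ) {q : ℕ} (hq : 0 < q) : ∃ (A : ℤ) (Q : ℕ), 0 < Q ∧
    IsCoprime A (Q : ℤ) ∧ (a : ℝ) / q = A / Q ∧ Q * a.gcd q = q := by
  have hg : 0 < a.gcd q := Int.gcd_pos_of_ne_zero_right _ (by exact_mod_cast hq.ne')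
  have h1 : ((a.gcd q : ℕ) : ℤ) ∣ a := Int.gcd_dvd_left ..
  have h2 : a.gcd q ∣ q := by
    have := Int.gcd_dvd_right (a := a) (b := (q : ℤ))
    exact_mod_cast this
  obtain ⟨A, hA⟩ := h1
  obtain ⟨Q, hQ⟩ := h2
  have hQ0 : 0 < Q := by
    rcases Nat.eq_zero_or_pos Q with h | h
    · rw [h, mul_zero] at hQ
      omega
    · exact h
  refine ⟨A, Q, hQ0, ?_, ?_, by rw [mul_comm]; exact hQ.symm⟩
  · rw [Int.isCoprime_iff_gcd_eq_one]
    generalize hgg : a.gcd q = g at hg hA hQ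
    have h3 : g = g * A.gcd Q := by
      calc g = a.gcd q := hgg.symm
        _ = ((g : ℤ) * A).gcd ((g : ℤ) * Q) := by rw [hA, hQ]; push_cast; rfl
        _ = g * A.gcd Q := by rw [Int.gcd_mul_left]; simp
    exact (Nat.mul_eq_left hg.ne').1 h3.symm
  · have h4 : ((a.gcd q : ℕ) : ℝ) ≠ 0 := by exact_mod_cast hg.ne'
    have h5 : (a : ℝ) = (a.gcd q : ℕ) * A := by exact_mod_cast hA
    have h6 : (q : ℝ) = (a.gcd q : ℕ) * Q := by exact_mod_cast hQ
    have h7 : (Q : ℝ) ≠ 0 := by exact_mod_cast hQ0.ne'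
    rw [div_eq_div_iff (by rw [h6]; positivity) h7]
    rw [h5]
    conv_rhs => rw [h6]
    ring

theorem LogPar.exists_phase (h : LogPar r d B D K) (hd : 0 < d) {χ : DirichletCharacter ℂ r}
    (hχ : χ.IsPrimitive) {κ : ℕ} (hκ : r ∣ d ^ κ) {n : ℤ} (hn : IsCoprime n (r : ℤ)) :
    ∃ α : Fin K → ℝ,
      (∀ y : ℤ, χ ((n + d * y : ℤ) : ZMod r) =
        χ (n : ZMod r) * e (∑ j, α j * (y : ℝ) ^ (j.1 + 1))) ∧
      ∀ j : Fin K, j.1 + 1 ≤ κ → ∃ (A : ℤ) (Q : ℕ), 0 < Q ∧ IsCoprime A (Q : ℤ) ∧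
        α j = A / Q ∧ r ≤ Q * d ^ (j.1 + 1) ∧
        Q ^ κ ≤ (j.1 + 1) ^ κ * r ^ (κ - (j.1 + 1)) := by
  obtain ⟨c, hc⟩ := h.exists_c χ
  have hcop := h.c_coprime hχ hc
  set r1 : ℕ := r / d.gcd r with hr1
  have hr1p : 0 < r1 := h.r1_pos
  obtain ⟨nb, v, hnb⟩ := hn
  have h1 : d.gcd r * r1 = r := Nat.mul_div_cancel' (Nat.gcd_dvd_right _ _)
  have hg0 : 0 < d.gcd r := Nat.gcd_pos_of_pos_left _ hd
  have hnbc : IsCoprime nb (r1 : ℤ) := by
    refine IsCoprime.of_isCoprime_of_dvd_right (y := (r : ℤ)) ?_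
      (Int.natCast_dvd_natCast.2 h.r1_dvd)
    exact ⟨n, v, by linear_combination hnb⟩
  refine ⟨fun j => ((c * ((-1) ^ j.1 * (cf d B (j.1 + 1) : ℤ) * nb ^ (j.1 + 1)) : ℤ) : ℝ) / r1,
    fun y => ?_, fun j hj => ?_⟩
  · have h2 : ((n + d * y : ℤ) : ZMod r) = ((n * (1 + d * (nb * y)) : ℤ) : ZMod r) := by
      rw [← sub_eq_zero, ← Int.cast_sub, ZMod.intCast_zmod_eq_zero_iff_dvd]
      have h3 : n + d * y - n * (1 + d * (nb * y)) = r * (v * (d * y)) := by
        linear_combination (-(d : ℤ) * y) * hnb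
      rw [h3]
      exact dvd_mul_right _ _
    rw [h2, Int.cast_mul, map_mul, hc]
    congr 2
    unfold Lam
    rw [← Finset.sum_subset (s₁ := (range K).image (· + 1)) (s₂ := Icc 1 K),
      Finset.sum_image (by intro a _ b _ hab; simpa using hab), Finset.sum_range]
    · push_cast
      rw [Finset.mul_sum, Finset.sum_div]
      refine Finset.sum_congr rfl fun j _ => ?_
      rw [mul_pow]
      ring
    · intro j hj
      simp only [Finset.mem_image, Finset.mem_range, Finset.mem_Icc] at hj ⊢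
      omega
    · intro j hj hj'
      exfalso
      simp only [Finset.mem_image, Finset.mem_range, Finset.mem_Icc, not_exists, not_and] at hj hj'
      exact hj' (j - 1) (by omega) (by omega)
  · set i : ℕ := j.1 + 1 with hi
    have hiK : i ≤ K := j.2
    set a : ℤ := c * ((-1) ^ j.1 * (cf d B i : ℤ) * nb ^ i) with ha
    obtain ⟨A, Q, hQ, hAQ, heq, hgq⟩ := exists_reduced a hr1p
    refine ⟨A, Q, hQ, hAQ, heq, ?_⟩
    -- the gcd
    have hgcd : a.gcd r1 = (cf d B i).gcd r1 := by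
      have h2 : IsCoprime (c * (-1) ^ j.1 * nb ^ i) (r1 : ℤ) :=
        (hcop.mul_left ((isCoprime_one_left.neg_left).pow_left)).mul_left hnbc.pow_left
      have h3 : a = (cf d B i : ℤ) * (c * (-1) ^ j.1 * nb ^ i) := by rw [ha]; ring
      rw [h3]
      have h4 : ((cf d B i : ℤ) * (c * (-1) ^ j.1 * nb ^ i)).gcd r1 = ((cf d B i : ℕ) : ℤ).gcd r1 := by
        refine Nat.dvd_antisymm ?_ ?_
        · rw [← Int.natCast_dvd_natCast]
          refine Int.dvd_coe_gcd ?_ (Int.gcd_dvd_right ..)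
          have h5 : IsCoprime ((((cf d B i : ℤ) * (c * (-1) ^ j.1 * nb ^ i)).gcd r1 : ℕ) : ℤ)
              (c * (-1) ^ j.1 * nb ^ i) :=
            (IsCoprime.of_isCoprime_of_dvd_right h2 (Int.gcd_dvd_right ..)).symm
          exact h5.dvd_of_dvd_mul_right (Int.gcd_dvd_left ..)
        · rw [← Int.natCast_dvd_natCast]
          exact Int.dvd_coe_gcd ((Int.gcd_dvd_left ..).mul_right _) (Int.gcd_dvd_right ..)
      rw [h4]
      exact Int.gcd_natCast_natCast _ _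
    set g : ℕ := (cf d B i).gcd r1 with hg
    rw [hgcd] at hgq
    have hi1 : 1 ≤ i := by omega
    have hcf := h.cf_mul hi1 hiK
    have hgd : g ∣ d ^ (i - 1) := by
      have h2 : g ∣ B * d ^ (i - 1) := by
        rw [← hcf]
        exact (Nat.gcd_dvd_left _ _).mul_left _
      have h3 : g.Coprime B :=
        (h.cop.symm.coprime_dvd_left ((Nat.gcd_dvd_right _ _).trans h.r1_dvd))
      exact h3.dvd_of_dvd_mul_left h2
    constructor
    · have h2 : g ≤ d ^ (i - 1) := Nat.le_of_dvd (by positivity) hgd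
      calc r = d.gcd r * (Q * g) := by rw [hgq, h1]
        _ ≤ d * (Q * d ^ (i - 1)) :=
          Nat.mul_le_mul (Nat.le_of_dvd hd (Nat.gcd_dvd_left _ _)) (Nat.mul_le_mul_left _ h2)
        _ = Q * d ^ i := by
          have h3 : d ^ i = d * d ^ (i - 1) := by
            rw [← pow_succ', Nat.sub_add_cancel hi1]
          rw [h3]
          ring
    · -- the upper bound
      have ht : r1.gcd (d ^ (i - 1)) ∣ i * g := by
        rw [hg, ← Nat.gcd_mul_left, hcf]
        exact Nat.dvd_gcd ((Nat.gcd_dvd_right _ _).mul_left _) ((Nat.gcd_dvd_left _ _).mul_left _)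
      have ht2 : r.gcd (d ^ i) ∣ d.gcd r * r1.gcd (d ^ (i - 1)) := by
        rw [← Nat.gcd_mul_left, h1]
        refine Nat.dvd_gcd (Nat.gcd_dvd_left _ _) ?_
        rw [← Nat.gcd_mul_right]
        refine Nat.dvd_gcd ?_ ((Nat.gcd_dvd_left _ _).mul_right _)
        rw [← pow_succ', Nat.sub_add_cancel hi1]
        exact Nat.gcd_dvd_right _ _
      have hg1 : 0 < g := Nat.gcd_pos_of_pos_right _ hr1p
      have h2 : r.gcd (d ^ i) ≤ d.gcd r * (i * g) :=
        Nat.le_of_dvd (by positivity) (ht2.trans (mul_dvd_mul_left _ ht))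
      have h3 : Q * r.gcd (d ^ i) ≤ i * r := by
        calc Q * r.gcd (d ^ i) ≤ Q * (d.gcd r * (i * g)) := Nat.mul_le_mul_left _ h2
          _ = i * (d.gcd r * (Q * g)) := by ring
          _ = i * r := by rw [hgq, h1]
      have h4 : r ^ i ≤ (r.gcd (d ^ i)) ^ κ := by
        refine Nat.le_of_dvd (pow_pos (Nat.gcd_pos_of_pos_left _ h.hr) _) ?_
        have h5 : (r.gcd (d ^ i)) ^ κ = (r ^ κ).gcd ((d ^ i) ^ κ) := Nat.pow_gcd_pow.symm
        rw [h5]
        refine Nat.dvd_gcd (pow_dvd_pow _ hj) ?_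
        rw [← pow_mul, mul_comm, pow_mul]
        exact pow_dvd_pow_of_dvd hκ i
      have h5 : Q ^ κ * r ^ i ≤ i ^ κ * r ^ (κ - i) * r ^ i := by
        calc Q ^ κ * r ^ i ≤ Q ^ κ * (r.gcd (d ^ i)) ^ κ := Nat.mul_le_mul_left _ h4
          _ = (Q * r.gcd (d ^ i)) ^ κ := by rw [mul_pow]
          _ ≤ (i * r) ^ κ := Nat.pow_le_pow_left h3 _
          _ = i ^ κ * r ^ (κ - i) * r ^ i := by
            rw [mul_pow, mul_assoc, ← pow_add, Nat.sub_add_cancel hj]
      exact Nat.le_of_mul_le_mul_right h5 (pow_pos h.hr _)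

end Pool.Agent.PW
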