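import Pool.Agent.Work.MP_92f640_nt.PW.PosC

/-! # The parameters for Postnikov's formula -/

namespace Pool.Agent.PW

open Finset Pool.Agent.BV

theorem fac_prod (S : Finset ℕ) (hS : ∀ p ∈ S, p.Prime) (f : ℕ → ℕ) (q : ℕ) :
    (∏ p ∈ S, p ^ f p).factorization q = if q ∈ S then f q else 0 := by
  rw [Nat.factorization_prod (fun p hp => pow_ne_zero _ (hS p hp).ne_zero),
    Finsupp.finsetSum_apply, Finset.sum_congr rfl (fun p hp => by
      rw [(hS p hp).factorization_pow, Finsupp.single_apply]), Finset.sum_ite_eq']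

/-- the exponents -/
def bP (r κ p : ℕ) : ℕ := (r.factorization p + κ - 1) / κ

/-- the difference of the progressions, without the factor 2 -/
def dP (r κ : ℕ) : ℕ := ∏ p ∈ r.primeFactors, p ^ bP r κ p

/-- the part of `K!` prime to `r` -/
def BP (r K : ℕ) : ℕ :=
  ∏ p ∈ (K.factorial).primeFactors.filter (fun p => ¬ p ∣ r), p ^ (K.factorial).factorization p

theorem le_bP {r κ : ℕ} (hκ : 0 < κ) (p : ℕ) : r.factorization p ≤ κ * bP r κ p := by
  unfold bP
  have h1 := Nat.div_add_mod (r.factorization p + κ - 1) κ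
  have h2 := Nat.mod_lt (r.factorization p + κ - 1) hκ
  omega

theorem bP_le {r κ : ℕ} (p : ℕ) : κ * bP r κ p ≤ r.factorization p + κ := by
  unfold bP
  have h1 := Nat.mul_div_le (r.factorization p + κ - 1) κ
  omega

theorem bP_pos {r κ : ℕ} (hκ : 0 < κ) (hr : r ≠ 0) {p : ℕ} (hp : p.Prime) (hpr : p ∣ r) :
    1 ≤ bP r κ p := by
  have h1 := le_bP (r := r) hκ p
  have h2 : 0 < r.factorization p := hp.factorization_pos_of_dvd hr hpr
  rcases Nat.eq_zero_or_pos (bP r κ p) with h | h
  · rw [h, mul_zero] at h1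
    omega
  · exact h

theorem dP_pos (r κ : ℕ) : 0 < dP r κ :=
  Finset.prod_pos fun _ hp => pow_pos (Nat.prime_of_mem_primeFactors hp).pos _

theorem BP_pos (r K : ℕ) : 0 < BP r K :=
  Finset.prod_pos fun _ hp =>
    pow_pos (Nat.prime_of_mem_primeFactors (Finset.mem_filter.1 hp).1).pos _

theorem rd_pos (r : ℕ) : 0 < rd r :=
  Finset.prod_pos fun _ hp => (Nat.prime_of_mem_primeFactors hp).pos

theorem fac_dP {r κ : ℕ} (hr : r ≠ 0) {p : ℕ} (hp : p.Prime) :
    (dP r κ).factorization p = if p ∣ r then bP r κ p else 0 := by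
  unfold dP
  rw [fac_prod _ (fun p hp => Nat.prime_of_mem_primeFactors hp)]
  simp [hp, hr]

theorem fac_rd {r : ℕ} (hr : r ≠ 0) {p : ℕ} (hp : p.Prime) :
    (rd r).factorization p = if p ∣ r then 1 else 0 := by
  unfold rd
  have h1 := fac_prod r.primeFactors (fun p hp => Nat.prime_of_mem_primeFactors hp) (fun _ => 1) p
  simp only [pow_one] at h1
  rw [h1]
  simp [hp, hr]

theorem fac_BP {r K p : ℕ} (hp : p.Prime) :
    (BP r K).factorization p = if p ∣ r then 0 else (K.factorial).factorization p := by
  unfold BP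
  rw [fac_prod _ (fun p hp => Nat.prime_of_mem_primeFactors (Finset.mem_filter.1 hp).1)]
  simp only [Finset.mem_filter, Nat.mem_primeFactors]
  by_cases h : p ∣ r
  · simp [h]
  · simp only [h, not_false_eq_true, and_true, if_false]
    by_cases h2 : p ∣ K.factorial
    · simp [hp, h2, Nat.factorial_ne_zero]
    · simp [h2, Nat.factorization_eq_zero_of_not_dvd h2]

theorem BP_coprime (r K : ℕ) : (BP r K).Coprime r := by
  unfold BP
  refine Nat.Coprime.prod_left fun p hp => ?_
  rw [Finset.mem_filter] at hp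
  exact Nat.Coprime.pow_left _
    ((Nat.Prime.coprime_iff_not_dvd (Nat.prime_of_mem_primeFactors hp.1)).2 hp.2)

theorem dvd_dP {r κ : ℕ} (hκ : 0 < κ) (hr : r ≠ 0) {p : ℕ} (hp : p.Prime) (hpr : p ∣ r) :
    p ∣ dP r κ := by
  refine (dvd_pow_self p (Nat.one_le_iff_ne_zero.1 (bP_pos hκ hr hp hpr))).trans
    (Finset.dvd_prod_of_mem (fun p => p ^ bP r κ p) (Nat.mem_primeFactors.2 ⟨hp, hpr, hr⟩))

theorem dvd_rd {r : ℕ} (hr : r ≠ 0) {p : ℕ} (hp : p.Prime) (hpr : p ∣ r) : p ∣ rd r :=
  Finset.dvd_prod_of_mem (fun p => p) (Nat.mem_primeFactors.2 ⟨hp, hpr, hr⟩)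

theorem dvd_dP_pow {r κ : ℕ} (hκ : 0 < κ) (hr : r ≠ 0) : r ∣ dP r κ ^ κ := by
  conv_lhs => rw [← Nat.prod_factorization_pow_eq_self hr]
  rw [Finsupp.prod, Nat.support_factorization, dP, ← Finset.prod_pow]
  refine Finset.prod_dvd_prod_of_dvd _ _ fun p _ => ?_
  rw [← pow_mul]
  refine pow_dvd_pow _ ?_
  rw [mul_comm]
  exact le_bP hκ p

theorem dP_pow_le {r κ : ℕ} (hr : r ≠ 0) : dP r κ ^ κ ≤ r * rd r ^ κ := by
  conv_rhs => rw [← Nat.prod_factorization_pow_eq_self hr]
  rw [Finsupp.prod, Nat.support_factorization]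
  have h0 : rd (∏ a ∈ r.primeFactors, a ^ r.factorization a) = rd r := by
    congr 1
    have h2 := Nat.prod_factorization_pow_eq_self hr
    rwa [Finsupp.prod, Nat.support_factorization] at h2
  rw [h0, rd, ← Finset.prod_pow, dP, ← Finset.prod_pow, ← Finset.prod_mul_distrib]
  refine Finset.prod_le_prod' fun p hp => ?_
  rw [← pow_mul, ← pow_add]
  refine Nat.pow_le_pow_right (Nat.prime_of_mem_primeFactors hp).pos ?_
  rw [mul_comm]
  exact bP_le p

theorem add_two_le_three_pow {v : ℕ} (hv : 1 ≤ v) : v + 2 ≤ 3 ^ v := by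
  induction v, hv using Nat.le_induction with
  | base => norm_num
  | succ v _ ih => rw [pow_succ]; omega

theorem LogPar.of {r m : ℕ} (hr : 1 < r) (hm : 12 ≤ m) :
    LogPar r (2 * dP r (11 * m)) (BP r (12 * m)) (rd r) (12 * m) where
  hr := by omega
  hK := by omega
  cop := BP_coprime _ _
  primeD := fun p hp hpr => dvd_rd (by omega) hp hpr
  primed := fun p hp hpr => (dvd_dP (by omega) (by omega) hp hpr).mul_left _
  dvd1 := by
    intro j hj hjK
    have hr0 : r ≠ 0 := by omega
    have hd0 : dP r (11 * m) ≠ 0 := (dP_pos _ _).ne'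
    have hB0 : BP r (12 * m) ≠ 0 := (BP_pos _ _).ne'
    have hD0 : rd r ≠ 0 := (rd_pos _).ne'
    rw [← Nat.factorization_prime_le_iff_dvd (by positivity) (by positivity)]
    intro p hp
    rw [Nat.factorization_mul (by omega) hD0, Nat.factorization_mul hB0 (by positivity),
      Nat.factorization_pow, Nat.factorization_mul (by norm_num) hd0]
    simp only [Finsupp.add_apply, Finsupp.smul_apply, smul_eq_mul]
    rw [fac_rd hr0 hp, fac_BP hp, fac_dP hr0 hp]
    by_cases hpr : p ∣ r
    · simp only [hpr, if_true, zero_add]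
      have hb := bP_pos (κ := 11 * m) (by omega) hr0 hp hpr
      have hpj : p ^ j.factorization p ≤ j := Nat.ordProj_le p (by omega)
      rcases hp.two_le.eq_or_lt with rfl | h2
      · have h3 : (2 : ℕ).factorization 2 = 1 := by simp [Nat.Prime.factorization_self Nat.prime_two]
        rw [h3]
        have h4 : j.factorization 2 < 2 ^ j.factorization 2 := Nat.lt_two_pow_self
        calc j.factorization 2 + 1 ≤ (j - 1) * 2 := by omega
          _ ≤ (j - 1) * (1 + bP r (11 * m) 2) := Nat.mul_le_mul_left _ (by omega)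
      · have h5 : j.factorization p + 1 ≤ (j - 1) * 1 := by
          rcases Nat.eq_zero_or_pos (j.factorization p) with h6 | h6
          · omega
          · have h7 := add_two_le_three_pow h6
            have h8 : 3 ^ j.factorization p ≤ p ^ j.factorization p :=
              Nat.pow_le_pow_left (by omega) _
            omega
        exact h5.trans (Nat.mul_le_mul_left _ (by omega))
    · simp only [hpr, if_false, add_zero]
      have h1 : j ∣ (12 * m).factorial := Nat.dvd_factorial (by omega) hjK
      have h2 := (Nat.factorization_le_iff_dvd (by omega) (Nat.factorial_ne_zero _)).2 h1 p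
      omega
  dvd2 := by
    intro i hi hiK
    have hr0 : r ≠ 0 := by omega
    have hd0 : dP r (11 * m) ≠ 0 := (dP_pos _ _).ne'
    have hB0 : BP r (12 * m) ≠ 0 := (BP_pos _ _).ne'
    rw [← Nat.factorization_prime_le_iff_dvd (by positivity) (by positivity)]
    intro p hp
    rw [Nat.factorization_mul (by omega) hr0, Nat.factorization_mul hB0 (by positivity),
      Nat.factorization_pow, Nat.factorization_mul (by norm_num) hd0]
    simp only [Finsupp.add_apply, Finsupp.smul_apply, smul_eq_mul]
    rw [fac_BP hp, fac_dP hr0 hp]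
    by_cases hpr : p ∣ r
    · simp only [hpr, if_true, zero_add]
      have hb := bP_pos (κ := 11 * m) (by omega) hr0 hp hpr
      have hb2 := le_bP (r := r) (κ := 11 * m) (by omega) p
      have hpi : p ^ i.factorization p ≤ i := Nat.ordProj_le p (by omega)
      have h3 : i.factorization p ≤ m + 1 := by
        by_contra hcon
        have h4 : 2 ^ (m + 2) ≤ p ^ i.factorization p :=
          (Nat.pow_le_pow_left hp.two_le _).trans (Nat.pow_le_pow_right hp.pos (by omega))
        have h5 : 12 * m < 2 ^ (m + 2) := by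
          clear * - hm
          induction m, hm using Nat.le_induction with
          | base => norm_num
          | succ v _ ih => rw [show v + 1 + 2 = (v + 2) + 1 by ring, pow_succ]; omega
        omega
      calc i.factorization p + r.factorization p
          ≤ (m + 1) * bP r (11 * m) p + 11 * m * bP r (11 * m) p := by
            refine Nat.add_le_add ?_ hb2
            calc i.factorization p ≤ (m + 1) * 1 := by omega
              _ ≤ (m + 1) * bP r (11 * m) p := Nat.mul_le_mul_left _ hb
        _ = (12 * m + 1) * bP r (11 * m) p := by ring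
        _ ≤ _ := Nat.mul_le_mul_left _ (by omega)
    · have h1 : i ∣ (12 * m).factorial := Nat.dvd_factorial (by omega) hiK
      have h2 := (Nat.factorization_le_iff_dvd (by omega) (Nat.factorial_ne_zero _)).2 h1 p
      have h3 : r.factorization p = 0 := Nat.factorization_eq_zero_of_not_dvd hpr
      simp only [hpr, if_false, h3, add_zero]
      omega

end Pool.Agent.PW
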