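import Pool.Agent.Work.MP_92f640_nt.PW.PosD

/-!
# Postnikov's formula for composite moduli (MP_92f640_nt, PW, part C1), owner helper84
-/

namespace Pool.Agent.PW

open Finset Pool.Agent.BV

/-- **Postnikov's formula** for composite moduli. -/
theorem phase {r : ℕ} (hr : 1 < r) {χ : DirichletCharacter ℂ r} (hχ : χ.IsPrimitive) {m : ℕ}
    (hm : 12 ≤ m) : ∃ d : ℕ, 0 < d ∧ (∀ p : ℕ, p.Prime → p ∣ r → p ∣ d) ∧
    d ^ (11 * m) ≤ 4 ^ (11 * m) * (r * rd r ^ (11 * m)) ∧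
    ∀ n : ℤ, IsCoprime n (r : ℤ) → ∃ α : Fin (12 * m) → ℝ,
      (∀ y : ℤ, χ ((n + d * y : ℤ) : ZMod r) =
        χ (n : ZMod r) * e (∑ j, α j * (y : ℝ) ^ (j.1 + 1))) ∧
      ∀ j : Fin (12 * m), j.1 + 1 ≤ 11 * m → ∃ (A : ℤ) (Q : ℕ), 0 < Q ∧ IsCoprime A (Q : ℤ) ∧
        α j = A / Q ∧ r ≤ Q * d ^ (j.1 + 1) ∧
        Q ^ (11 * m) ≤ (j.1 + 1) ^ (11 * m) * r ^ (11 * m - (j.1 + 1)) := by
  have h := LogPar.of hr hm
  have hr0 : r ≠ 0 := by omega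
  have hd0 := dP_pos r (11 * m)
  refine ⟨2 * dP r (11 * m), by positivity, h.primed, ?_, fun n hn => ?_⟩
  · calc (2 * dP r (11 * m)) ^ (11 * m) = 2 ^ (11 * m) * dP r (11 * m) ^ (11 * m) := by
          rw [mul_pow]
      _ ≤ 4 ^ (11 * m) * (r * rd r ^ (11 * m)) :=
          Nat.mul_le_mul (Nat.pow_le_pow_left (by norm_num) _) (dP_pow_le hr0)
  · refine h.exists_phase (by positivity) hχ ?_ hn
    rw [mul_pow]
    exact (dvd_dP_pow (by omega) hr0).mul_left _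

end Pool.Agent.PW
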