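import Mathlib
import Pool.Agent.Work.BV.Defs

/-! # Rough L-functions: definitions (cell PW, MP_92f640_nt)

`R` is a huge modulus whose prime divisors are exactly the primes up to `y`, so a Dirichlet character
mod `R` is supported on the integers all of whose primes are `> y`, and every theorem on `Lser`, `Dser`,
`LFunction` for Dirichlet characters applies to it. All bounds are uniform in `y`, `R` and the
character. -/

namespace Pool.Agent.PW

open Finset Pool.Agent.BV

noncomputable section

/-- the primes dividing `R` are exactly the primes up to `y` -/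
structure RM (y R : ℕ) : Prop where
  ne : R ≠ 0
  iff : ∀ p : ℕ, p.Prime → (p ∣ R ↔ p ≤ y)

/-- cancellation in the partial sums of `χ` -/
def SB (y : ℕ) {R : ℕ} (χ : DirichletCharacter ℂ R) : Prop := ∀ N : ℕ,
  ‖∑ n ∈ Icc 1 N, χ (n : ZMod R)‖ ≤
    N * (Real.log y) ^ 5 * Real.exp (-(Real.log N / (4 * Real.log y)))

/-- the size parameter -/
def WW (y : ℕ) (t : ℝ) : ℝ := Real.log (Real.log y) + Real.log (|t| + 3)

end

end Pool.Agent.PW
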