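import Pool.Agent.Work.MP_92f640_nt.PW.RoughSum
import Pool.Agent.Work.BV.LBound

/-! # Cell PW: the number of rough integers, and a generic tail estimate by Abel summation -/

namespace Pool.Agent.PW

open Finset Pool.Agent.BV

/-- the product `∏_{p ≤ y} (1 - 1/p)` -/
noncomputable def VP (y : ℕ) : ℝ := ∏ p ∈ prs y, (1 - 1 / (p : ℝ))

lemma VP_nonneg (y : ℕ) : 0 ≤ VP y := by
  refine prod_nonneg fun p hp => ?_
  have h1 : (1 : ℝ) ≤ p := by exact_mod_cast (mem_prs.1 hp).2.one_lt.le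
  have : 1 / (p : ℝ) ≤ 1 := by
    rw [div_le_one (by linarith)]; exact h1
  linarith

theorem VP_le : ∃ C : ℝ, 0 < C ∧ ∀ y : ℕ, 3 ≤ y → VP y ≤ C / Real.log y := by
  obtain ⟨C, hC0, hC⟩ := Work.MP_e4117e_nt.mertens2
  refine ⟨Real.exp C, Real.exp_pos _, fun y hy => ?_⟩
  have hy1 : (1 : ℝ) < y := by exact_mod_cast (by omega : 1 < y)
  have hl : 0 < Real.log y := Real.log_pos hy1
  have h1 : VP y ≤ Real.exp (∑ p ∈ prs y, -(1 / (p : ℝ))) := by
    rw [Real.exp_sum]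
    refine prod_le_prod (fun p hp => ?_) fun p _ => ?_
    · have h1 : (1 : ℝ) ≤ p := by exact_mod_cast (mem_prs.1 hp).2.one_lt.le
      have : 1 / (p : ℝ) ≤ 1 := by
        rw [div_le_one (by linarith)]; exact h1
      linarith
    · have := Real.add_one_le_exp (-(1 / (p : ℝ)))
      linarith
  have h5 := (abs_le.1 (hC y (by omega))).1
  have h6 : Real.log (Real.log y) - C ≤ ∑ p ∈ prs y, (1 : ℝ) / p := by
    unfold prs; linarith
  calc VP y ≤ Real.exp (∑ p ∈ prs y, -(1 / (p : ℝ))) := h1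
    _ ≤ Real.exp (C - Real.log (Real.log y)) := by
        apply Real.exp_le_exp.2
        rw [sum_neg_distrib]
        linarith
    _ = Real.exp C / Real.log y := by
        rw [Real.exp_sub, Real.exp_log hl]

lemma VP_eq (y : ℕ) : VP y =
    ∑ T ∈ (prs y).powerset, (-1 : ℝ) ^ T.card * (1 / ((∏ p ∈ T, p : ℕ) : ℝ)) := by
  unfold VP
  have h1 : ∀ p ∈ prs y, (1 - 1 / (p : ℝ)) = 1 + -(1 / (p : ℝ)) := fun p _ => by ring
  rw [prod_congr rfl h1, prod_one_add]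
  refine sum_congr rfl fun T _ => ?_
  rw [prod_neg]
  congr 1
  push_cast
  simp

lemma small_card (y : ℕ) (D : ℝ) (hD : 0 ≤ D) :
    (((prs y).powerset.filter (fun T => ¬ D ≤ ((∏ p ∈ T, p : ℕ) : ℝ))).card : ℝ) ≤ D := by
  have hS : ∀ p ∈ prs y, p.Prime := fun p hp => (mem_prs.1 hp).2
  have h1 : ((prs y).powerset.filter (fun T => ¬ D ≤ ((∏ p ∈ T, p : ℕ) : ℝ))).card ≤
      (Icc 1 ⌊D⌋₊).card := by
    refine card_le_card_of_injOn (fun T => ∏ p ∈ T, p) ?_ ?_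
    · intro T hT
      obtain ⟨hT1, hT2⟩ := mem_filter.1 hT
      push Not at hT2
      rw [mem_coe, mem_Icc]
      exact ⟨Nat.succ_le_of_lt (prod_pos fun p hp => (hS p (mem_powerset.1 hT1 hp)).pos),
        Nat.le_floor hT2.le⟩
    · intro T hT T' hT' h
      rw [mem_coe, mem_filter] at hT hT'
      exact prod_primes_inj (fun p hp => hS p (mem_powerset.1 hT.1 hp))
        (fun p hp => hS p (mem_powerset.1 hT'.1 hp)) h
  rw [Nat.card_Icc, Nat.add_sub_cancel] at h1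
  calc _ ≤ ((⌊D⌋₊ : ℕ) : ℝ) := by exact_mod_cast h1
    _ ≤ D := Nat.floor_le hD

/-- the number of rough integers up to `N` -/
theorem rough_count : ∃ C : ℝ, 0 < C ∧ ∀ y N : ℕ, 3 ≤ y → 1 ≤ N →
    |∑ n ∈ Icc 1 N, (if ∀ p ∈ prs y, ¬ p ∣ n then (1 : ℝ) else 0) - N * VP y| ≤
      N * (C * (Real.log y) ^ 2 * Real.exp (-(Real.log N / (4 * Real.log y)))) := by
  obtain ⟨C, hC0, hC⟩ := rankin_sum
  refine ⟨C + 1, by linarith, fun y N hy hN => ?_⟩
  have hS : ∀ p ∈ prs y, p.Prime := fun p hp => (mem_prs.1 hp).2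
  have hN1 : (1 : ℝ) ≤ N := by exact_mod_cast hN
  have hN0 : (0 : ℝ) < N := by linarith
  have hlN : 0 ≤ Real.log N := Real.log_nonneg hN1
  have hl1 : 1 ≤ Real.log y := by
    rw [Real.le_log_iff_exp_le (by exact_mod_cast (by omega : 0 < y))]
    have h3 : (3 : ℝ) ≤ y := by exact_mod_cast hy
    have := Real.exp_one_lt_d9
    linarith
  set l : ℝ := Real.log y with hl
  set E : ℝ := Real.exp (-(Real.log N / (4 * l))) with hE
  have hE0 : 0 < E := Real.exp_pos _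
  set D : ℝ := Real.sqrt N with hD
  have hD0 : 0 < D := Real.sqrt_pos.2 hN0
  have hDD : D * D = N := Real.mul_self_sqrt hN0.le
  have hlD : Real.log D = Real.log N / 2 := by
    rw [hD, Real.log_sqrt hN0.le]
  -- the identity
  have hid : ∑ n ∈ Icc 1 N, (if ∀ p ∈ prs y, ¬ p ∣ n then (1 : ℝ) else 0) =
      ∑ T ∈ (prs y).powerset, (-1 : ℝ) ^ T.card * ((N / ∏ p ∈ T, p : ℕ) : ℝ) := by
    have h1 := sieve_sum (1 : DirichletCharacter ℂ 1) y N
    have h2 : ∀ n : ℕ, (1 : DirichletCharacter ℂ 1) (n : ZMod 1) = 1 := by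
      intro n
      apply MulChar.one_apply
      exact (ZMod.isUnit_iff_coprime n 1).2 (Nat.coprime_one_right n)
    simp only [h2] at h1
    have h3 : ((∑ n ∈ Icc 1 N, (if ∀ p ∈ prs y, ¬ p ∣ n then (1 : ℝ) else 0) : ℝ) : ℂ) =
        ((∑ T ∈ (prs y).powerset, (-1 : ℝ) ^ T.card * ((N / ∏ p ∈ T, p : ℕ) : ℝ) : ℝ) : ℂ) := by
      have h4 : ((∑ n ∈ Icc 1 N, (if ∀ p ∈ prs y, ¬ p ∣ n then (1 : ℝ) else 0) : ℝ) : ℂ) =
          ∑ n ∈ Icc 1 N, (if ∀ p ∈ prs y, ¬ p ∣ n then (1 : ℂ) else 0) := by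
        rw [Complex.ofReal_sum]
        refine sum_congr rfl fun n _ => ?_
        split_ifs <;> simp
      rw [h4, h1]
      push_cast
      refine sum_congr rfl fun T _ => ?_
      simp
    exact_mod_cast h3
  rw [hid, VP_eq, mul_sum, ← sum_sub_distrib]
  refine (abs_sum_le_sum_abs _ _).trans ?_
  rw [← sum_filter_add_sum_filter_not (prs y).powerset
    (fun T => D ≤ ((∏ p ∈ T, p : ℕ) : ℝ))]
  have hterm : ∀ T : Finset ℕ, |(-1 : ℝ) ^ T.card * ((N / ∏ p ∈ T, p : ℕ) : ℝ) -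
      N * ((-1 : ℝ) ^ T.card * (1 / ((∏ p ∈ T, p : ℕ) : ℝ)))| =
      |((N / ∏ p ∈ T, p : ℕ) : ℝ) - N / ((∏ p ∈ T, p : ℕ) : ℝ)| := by
    intro T
    have h1 : (-1 : ℝ) ^ T.card * ((N / ∏ p ∈ T, p : ℕ) : ℝ) -
      N * ((-1 : ℝ) ^ T.card * (1 / ((∏ p ∈ T, p : ℕ) : ℝ))) =
      (-1 : ℝ) ^ T.card * (((N / ∏ p ∈ T, p : ℕ) : ℝ) - N / ((∏ p ∈ T, p : ℕ) : ℝ)) := by ring
    rw [h1, abs_mul, abs_pow, abs_neg, abs_one, one_pow, one_mul]
  have hdiv : ∀ d : ℕ, 0 < d → |((N / d : ℕ) : ℝ) - N / (d : ℝ)| ≤ 1 ∧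
      |((N / d : ℕ) : ℝ) - N / (d : ℝ)| ≤ N / (d : ℝ) := by
    intro d hd
    have hd0 : (0 : ℝ) < d := by exact_mod_cast hd
    have h1 : ((N / d : ℕ) : ℝ) ≤ N / (d : ℝ) := Nat.cast_div_le
    have h2 : (N : ℝ) / d < ((N / d : ℕ) : ℝ) + 1 := by
      rw [div_lt_iff₀ hd0]
      have h6 := Nat.lt_div_mul_add hd (a := N)
      have h7 : (N : ℝ) < ((N / d : ℕ) : ℝ) * (d : ℝ) + (d : ℝ) := by exact_mod_cast h6
      linarith
    have h3 : (0 : ℝ) ≤ ((N / d : ℕ) : ℝ) := Nat.cast_nonneg _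
    constructor
    · rw [abs_le]; constructor <;> linarith
    · rw [abs_le]; constructor <;> linarith
  have hpos : ∀ T ∈ (prs y).powerset, 0 < ∏ p ∈ T, p := fun T hT =>
    prod_pos fun p hp => (hS p (mem_powerset.1 hT hp)).pos
  have hDE : D ^ (-(1 / (2 * l))) = E := by
    rw [Real.rpow_def_of_pos hD0, hlD, hE]
    congr 1
    field_simp
    ring
  have h1 : ∑ T ∈ (prs y).powerset.filter (fun T => D ≤ ((∏ p ∈ T, p : ℕ) : ℝ)),
      |(-1 : ℝ) ^ T.card * ((N / ∏ p ∈ T, p : ℕ) : ℝ) -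
      N * ((-1 : ℝ) ^ T.card * (1 / ((∏ p ∈ T, p : ℕ) : ℝ)))| ≤ N * (C * l ^ 2 * E) := by
    have h2 := mul_le_mul_of_nonneg_left (hC y hy D hD0) hN0.le
    rw [← hl, hDE] at h2
    refine le_trans ?_ h2
    rw [mul_sum]
    refine sum_le_sum fun T hT => ?_
    rw [hterm]
    refine (hdiv _ (hpos T (mem_filter.1 hT).1)).2.trans (le_of_eq ?_)
    ring
  have h2 : ∑ T ∈ (prs y).powerset.filter (fun T => ¬ D ≤ ((∏ p ∈ T, p : ℕ) : ℝ)),
      |(-1 : ℝ) ^ T.card * ((N / ∏ p ∈ T, p : ℕ) : ℝ) -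
      N * ((-1 : ℝ) ^ T.card * (1 / ((∏ p ∈ T, p : ℕ) : ℝ)))| ≤ N * (1 * l ^ 2 * E) := by
    calc _ ≤ ∑ T ∈ (prs y).powerset.filter (fun T => ¬ D ≤ ((∏ p ∈ T, p : ℕ) : ℝ)), (1 : ℝ) := by
          refine sum_le_sum fun T hT => ?_
          rw [hterm]
          exact (hdiv _ (hpos T (mem_filter.1 hT).1)).1
      _ = (((prs y).powerset.filter (fun T => ¬ D ≤ ((∏ p ∈ T, p : ℕ) : ℝ))).card : ℝ) := by simp
      _ ≤ D := small_card y D hD0.le
      _ ≤ N * E := by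
          have h3 : D = N * Real.exp (-(Real.log N / 2)) := by
            rw [Real.exp_neg, ← hlD, Real.exp_log hD0, ← hDD]
            field_simp
          rw [h3]
          refine mul_le_mul_of_nonneg_left (Real.exp_le_exp.2 ?_) hN0.le
          rw [neg_le_neg_iff]
          rw [div_le_div_iff₀ (by positivity) (by norm_num)]
          nlinarith
      _ ≤ N * (1 * l ^ 2 * E) := by
          refine mul_le_mul_of_nonneg_left ?_ hN0.le
          rw [one_mul]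
          refine le_mul_of_one_le_left hE0.le ?_
          exact one_le_pow₀ hl1
  calc _ ≤ N * (C * l ^ 2 * E) + N * (1 * l ^ 2 * E) := add_le_add h1 h2
    _ = N * ((C + 1) * l ^ 2 * E) := by ring

/-- the sum of `n^(-1-β)` over `n > N` -/
lemma tail_rpow {β : ℝ} (hβ : 0 < β) {N M : ℕ} (hN : 1 ≤ N) (hNM : N ≤ M) :
    ∑ n ∈ Ioc N M, (n : ℝ) ^ (-1 - β) ≤ (1 / β) * ((N : ℝ) ^ (-β) - (M : ℝ) ^ (-β)) := by
  induction M, hNM using Nat.le_induction with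
  | base => simp
  | succ M hM ih =>
    rw [Finset.sum_Ioc_succ_top (by omega)]
    have hM1 : (1 : ℝ) ≤ M := by exact_mod_cast hN.trans hM
    have hM0 : (0 : ℝ) < M := by linarith
    set m : ℝ := ((M + 1 : ℕ) : ℝ) with hm
    have hmM : m = M + 1 := by rw [hm]; push_cast; ring
    have hm0 : 0 < m := by linarith
    have h1 : β * m ^ (-1 - β) ≤ (M : ℝ) ^ (-β) - m ^ (-β) := by
      have h2 : m ^ (-1 - β) = m ^ (-β) * (1 / m) := by
        rw [show (-1 - β) = -β + -1 by ring, Real.rpow_add hm0, Real.rpow_neg_one, one_div]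
      have h3 : (M : ℝ) ^ (-β) = m ^ (-β) * (M / m) ^ (-β) := by
        rw [← Real.mul_rpow hm0.le (by positivity)]
        congr 1
        field_simp
      have h4 : 1 + β * (1 / m) ≤ (M / m) ^ (-β) := by
        rw [Real.rpow_def_of_pos (by positivity)]
        have h5 : Real.log (M / m) ≤ -(1 / m) := by
          have h6 := Real.log_le_sub_one_of_pos (x := M / m) (by positivity)
          have h7 : M / m - 1 = -(1 / m) := by
            rw [hmM]; field_simp; ring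
          linarith
        have h8 := Real.add_one_le_exp (Real.log (M / m) * -β)
        have h9 : β * (1 / m) ≤ Real.log (M / m) * -β := by nlinarith
        linarith
      rw [h2, h3]
      have h10 : 0 < m ^ (-β) := Real.rpow_pos_of_pos hm0 _
      nlinarith
    have h2 : m ^ (-1 - β) ≤ (1 / β) * ((M : ℝ) ^ (-β) - m ^ (-β)) := by
      rw [one_div, ← div_eq_inv_mul, le_div_iff₀ hβ]
      linarith
    calc _ ≤ (1 / β) * ((N : ℝ) ^ (-β) - (M : ℝ) ^ (-β)) +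
        (1 / β) * ((M : ℝ) ^ (-β) - m ^ (-β)) := add_le_add ih h2
      _ = _ := by ring

/-- tails of a series whose coefficients have partial sums `≤ K n^(1-β)` -/
theorem abel_tail (a : ℕ → ℂ) (K β : ℝ) (hβ : 0 < β) (hβ1 : β ≤ 1) (hK : 0 ≤ K)
    (ha : ∀ N : ℕ, 1 ≤ N → ‖∑ n ∈ Icc 1 N, a n‖ ≤ K * (N : ℝ) ^ (1 - β))
    (s : ℂ) (hs : 1 < s.re) (N M : ℕ) (hN : 3 ≤ N) (hNM : N ≤ M) :
    ‖∑ n ∈ Ioc N M, a n * (n : ℂ) ^ (-s)‖ ≤ 2 * K * (1 + ‖s‖ / β) * (N : ℝ) ^ (-β) := by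
  have hpart : ∀ n : ℕ, N ≤ n → ‖∑ k ∈ Ioc N n, a k‖ ≤ 2 * K * (n : ℝ) ^ (1 - β) := by
    intro n hn
    have e0 : ∀ m : ℕ, Icc 1 m = Ioc 0 m := by
      intro m; ext; simp only [mem_Icc, mem_Ioc]; omega
    have h3 := Finset.sum_Ioc_consecutive (fun n => a n) (Nat.zero_le N) hn
    have h4 : ∑ k ∈ Ioc N n, a k = ∑ k ∈ Ioc 0 n, a k - ∑ k ∈ Ioc 0 N, a k := by
      rw [← h3]; ring
    rw [h4]
    refine (norm_sub_le _ _).trans ?_
    have h5 := ha n (by omega)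
    have h6 := ha N (by omega)
    rw [e0] at h5 h6
    have h7 : (N : ℝ) ^ (1 - β) ≤ (n : ℝ) ^ (1 - β) :=
      Real.rpow_le_rpow (Nat.cast_nonneg _) (by exact_mod_cast hn) (by linarith)
    have h8 : K * (N : ℝ) ^ (1 - β) ≤ K * (n : ℝ) ^ (1 - β) := by gcongr
    linarith
  rw [LBound_abel a (fun n => (n : ℂ) ^ (-s)) N M hNM]
  refine (norm_sub_le _ _).trans ?_
  have hN0 : (0 : ℝ) < N := by exact_mod_cast (by omega : 0 < N)
  have hM0 : (0 : ℝ) < M := by exact_mod_cast (by omega : 0 < M)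
  have hfirst : ‖(∑ n ∈ Ioc N M, a n) * (fun n : ℕ => (n : ℂ) ^ (-s)) (M + 1)‖ ≤
      2 * K * (N : ℝ) ^ (-β) := by
    rw [norm_mul]
    have h1 := hpart M hNM
    have h2 : ‖(fun n : ℕ => (n : ℂ) ^ (-s)) (M + 1)‖ ≤ 1 / (M : ℝ) := by
      refine (LBound_cpow_norm hs.le (by omega)).trans ?_
      push_cast
      gcongr
      linarith
    calc _ ≤ 2 * K * (M : ℝ) ^ (1 - β) * (1 / (M : ℝ)) :=
          mul_le_mul h1 h2 (norm_nonneg _) (by positivity)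
      _ = 2 * K * (M : ℝ) ^ (-β) := by
          rw [show (1 - β) = -β + 1 by ring, Real.rpow_add hM0, Real.rpow_one]
          field_simp
      _ ≤ 2 * K * (N : ℝ) ^ (-β) := by
          have : (M : ℝ) ^ (-β) ≤ (N : ℝ) ^ (-β) :=
            Real.rpow_le_rpow_of_nonpos hN0 (by exact_mod_cast hNM) (by linarith)
          gcongr
  have hg : ∀ n : ℕ, N < n → ‖((n + 1 : ℕ) : ℂ) ^ (-s) - (n : ℂ) ^ (-s)‖ ≤
      ‖s‖ / (n : ℝ) ^ 2 := by
    intro n hn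
    have h1 := LBound_g_diff 0 hs (n := n) (by omega)
    unfold LBound_g at h1
    simpa using h1
  have hsec : ‖∑ n ∈ Ioc N M, (∑ k ∈ Ioc N n, a k) *
      ((fun n : ℕ => (n : ℂ) ^ (-s)) (n + 1) - (fun n : ℕ => (n : ℂ) ^ (-s)) n)‖ ≤
      2 * K * (‖s‖ / β) * (N : ℝ) ^ (-β) := by
    refine (norm_sum_le _ _).trans ?_
    have h1 : ∀ n ∈ Ioc N M, ‖(∑ k ∈ Ioc N n, a k) *
      ((fun n : ℕ => (n : ℂ) ^ (-s)) (n + 1) - (fun n : ℕ => (n : ℂ) ^ (-s)) n)‖ ≤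
        2 * K * ‖s‖ * (n : ℝ) ^ (-1 - β) := by
      intro n hn
      rw [mem_Ioc] at hn
      have hn0 : (0 : ℝ) < n := by exact_mod_cast (by omega : 0 < n)
      rw [norm_mul]
      have h2 : ‖(fun n : ℕ => (n : ℂ) ^ (-s)) (n + 1) - (fun n : ℕ => (n : ℂ) ^ (-s)) n‖ ≤
          ‖s‖ / (n : ℝ) ^ 2 := hg n hn.1
      calc _ ≤ 2 * K * (n : ℝ) ^ (1 - β) * (‖s‖ / (n : ℝ) ^ 2) :=
            mul_le_mul (hpart n hn.1.le) h2 (norm_nonneg _) (by positivity)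
        _ = 2 * K * ‖s‖ * (n : ℝ) ^ (-1 - β) := by
            rw [show (1 - β) = (-1 - β) + 2 by ring, Real.rpow_add hn0, Real.rpow_two]
            field_simp
    refine (sum_le_sum h1).trans ?_
    rw [← mul_sum]
    have h2 := tail_rpow hβ (by omega : 1 ≤ N) hNM
    have h3 : 0 ≤ (M : ℝ) ^ (-β) := Real.rpow_nonneg hM0.le _
    calc 2 * K * ‖s‖ * ∑ n ∈ Ioc N M, (n : ℝ) ^ (-1 - β)
        ≤ 2 * K * ‖s‖ * ((1 / β) * ((N : ℝ) ^ (-β) - (M : ℝ) ^ (-β))) := by gcongr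
      _ ≤ 2 * K * ‖s‖ * ((1 / β) * (N : ℝ) ^ (-β)) := by gcongr; linarith
      _ = _ := by ring
  calc _ ≤ 2 * K * (N : ℝ) ^ (-β) + 2 * K * (‖s‖ / β) * (N : ℝ) ^ (-β) := add_le_add hfirst hsec
    _ = _ := by ring

end Pool.Agent.PW
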