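import Pool.Agent.Work.MP_92f640_nt.PW.Rough
import Pool.Agent.Work.MP_b30479_gt.Mertens

/-! # Module M2a: Mertens for rough integers

`∑_{n ≤ Z, (n,R)=1} 1/n ≤ ∏_{y<p≤Z} (1-1/p)^(-1) ≤ exp (∑_{y<p≤Z} 1/p + 1) ≤ C log Z/log y`
(`mertens_second` of MP_b30479_gt). -/

namespace Pool.Agent.PW

open Finset Pool.Agent.BV

/-- `n ↦ 1/n` as a monoid homomorphism -/
noncomputable def LB_inv : ℕ →* ℝ where
  toFun n := ((n : ℝ))⁻¹
  map_one' := by simp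
  map_mul' a b := by push_cast; rw [mul_inv]

/-- `∏_{y < p ≤ N} (1 - 1/p)⁻¹ ≤ C log N / log y` -/
theorem LB_prod : ∃ C : ℝ, 0 < C ∧ ∀ y z : ℝ, 2 ≤ y → y ≤ z →
    ∏ p ∈ (Ioc ⌊y⌋₊ ⌊z⌋₊).filter Nat.Prime, (1 - ((p : ℕ) : ℝ)⁻¹)⁻¹ ≤
      C * (Real.log z / Real.log y) := by
  obtain ⟨C, hC, h⟩ := Pool.Agent.Work.MP_b30479_gt.Mertens.mertens_second
  refine ⟨Real.exp (C / Real.log 2 + 1), Real.exp_pos _, ?_⟩
  intro y z hy hyz
  have hl2 : 0 < Real.log 2 := Real.log_pos (by norm_num)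
  have hly : 0 < Real.log y := Real.log_pos (by linarith)
  have hlz : 0 < Real.log z := Real.log_pos (by linarith)
  have h1 := h y z hy hyz
  unfold Pool.Agent.Work.MP_b30479_gt.Mertens.PB at h1
  have h2 : Real.log 2 ≤ Real.log y := Real.log_le_log (by norm_num) hy
  have h3 : C / Real.log y ≤ C / Real.log 2 := by gcongr
  -- `(1 - 1/p)⁻¹ ≤ exp (1/p + 1/(p (p-1)))`
  have h5 : ∀ p ∈ (Ioc ⌊y⌋₊ ⌊z⌋₊).filter Nat.Prime, (1 - ((p : ℕ) : ℝ)⁻¹)⁻¹ ≤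
      Real.exp ((1 : ℝ) / p + ((1 : ℝ) / ((p : ℝ) - 1) - 1 / p)) := by
    intro p hp
    rw [mem_filter, mem_Ioc] at hp
    have hp2 : (2 : ℝ) ≤ p := by exact_mod_cast hp.2.two_le
    have hp0 : (0 : ℝ) < p := by linarith
    have e1 : (1 - ((p : ℕ) : ℝ)⁻¹)⁻¹ = 1 + 1 / ((p : ℝ) - 1) := by
      have h0 : (p : ℝ) - 1 ≠ 0 := by linarith
      have h01 : (1 : ℝ) - (p : ℝ)⁻¹ = ((p : ℝ) - 1) / p := by field_simp
      rw [h01, inv_div]
      field_simp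
      ring
    rw [e1]
    have := Real.add_one_le_exp (1 / ((p : ℝ) - 1))
    calc 1 + 1 / ((p : ℝ) - 1) ≤ Real.exp (1 / ((p : ℝ) - 1)) := by linarith
      _ = _ := by congr 1; ring
  have hfy : 2 ≤ ⌊y⌋₊ := Nat.le_floor (by exact_mod_cast hy)
  have hfz : ⌊y⌋₊ ≤ ⌊z⌋₊ := Nat.floor_mono hyz
  have h6 : ∑ p ∈ (Ioc ⌊y⌋₊ ⌊z⌋₊).filter Nat.Prime, ((1 : ℝ) / ((p : ℝ) - 1) - 1 / p) ≤ 1 := by
    generalize ⌊y⌋₊ = m at hfy hfz
    generalize ⌊z⌋₊ = n at hfz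
    calc ∑ p ∈ (Ioc m n).filter Nat.Prime, ((1 : ℝ) / ((p : ℝ) - 1) - 1 / p)
        ≤ ∑ p ∈ Ioc m n, ((1 : ℝ) / ((p : ℝ) - 1) - 1 / p) := by
          apply sum_le_sum_of_subset_of_nonneg (filter_subset _ _)
          intro p hp _
          rw [mem_Ioc] at hp
          have hp2 : (2 : ℝ) ≤ p := by exact_mod_cast (by omega : 2 ≤ p)
          rw [sub_nonneg]
          apply one_div_le_one_div_of_le <;> linarith
      _ = 1 / (m : ℝ) - 1 / (n : ℝ) := by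
          induction n, hfz using Nat.le_induction with
          | base => simp
          | succ n hn ih =>
            rw [Finset.sum_Ioc_succ_top (by omega), ih]
            push_cast
            ring
      _ ≤ 1 := by
          have : (2 : ℝ) ≤ m := by exact_mod_cast hfy
          have h7 : 1 / (m : ℝ) ≤ 1 := by rw [div_le_one (by linarith)]; linarith
          have : 0 ≤ 1 / (n : ℝ) := by positivity
          linarith
  calc ∏ p ∈ (Ioc ⌊y⌋₊ ⌊z⌋₊).filter Nat.Prime, (1 - ((p : ℕ) : ℝ)⁻¹)⁻¹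
      ≤ ∏ p ∈ (Ioc ⌊y⌋₊ ⌊z⌋₊).filter Nat.Prime,
        Real.exp ((1 : ℝ) / p + ((1 : ℝ) / ((p : ℝ) - 1) - 1 / p)) := by
        apply prod_le_prod
        · intro p hp
          rw [mem_filter] at hp
          have hp2 : (2 : ℝ) ≤ p := by exact_mod_cast hp.2.two_le
          rw [inv_nonneg, sub_nonneg]
          exact inv_le_one_of_one_le₀ (by linarith)
        · exact h5
    _ = Real.exp (∑ p ∈ (Ioc ⌊y⌋₊ ⌊z⌋₊).filter Nat.Prime,
          ((1 : ℝ) / p + ((1 : ℝ) / ((p : ℝ) - 1) - 1 / p))) := (Real.exp_sum _ _).symm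
    _ ≤ Real.exp (Real.log (Real.log z / Real.log y) + (C / Real.log 2 + 1)) := by
        apply Real.exp_le_exp.2
        rw [sum_add_distrib]
        linarith
    _ = _ := by
        rw [Real.exp_add, Real.exp_log (by positivity)]
        ring

/-- the sum of `1/n` over `n ≤ z` all of whose prime factors exceed `y` -/
theorem LB_rough : ∃ C : ℝ, 0 < C ∧ ∀ y z : ℝ, 2 ≤ y → y ≤ z → ∀ S : Finset ℕ,
    (∀ n ∈ S, 1 ≤ n ∧ (n : ℝ) ≤ z ∧ ∀ p : ℕ, p.Prime → p ∣ n → y < p) →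
    ∑ n ∈ S, (1 : ℝ) / n ≤ C * (Real.log z / Real.log y) := by
  obtain ⟨C, hC, h⟩ := LB_prod
  refine ⟨C, hC, ?_⟩
  intro y z hy hyz S hS
  refine le_trans ?_ (h y z hy hyz)
  set T := (Ioc ⌊y⌋₊ ⌊z⌋₊).filter Nat.Prime with hT
  have hT2 : T.filter (fun p => p.Prime) = T := by
    rw [hT, filter_filter]
    simp
  have hs := (EulerProduct.summable_and_hasSum_factoredNumbers_prod_filter_prime_geometric
    (f := LB_inv) (by
      intro p hp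
      have h2 : (1 : ℝ) < p := by exact_mod_cast hp.one_lt
      change ‖((p : ℝ))⁻¹‖ < 1
      rw [norm_inv, Real.norm_of_nonneg (by positivity)]
      exact inv_lt_one_of_one_lt₀ h2) T).2
  have hW' : ∀ w ∈ S, w ∈ Nat.factoredNumbers T := by
    intro w hw
    obtain ⟨h1, h2, h3⟩ := hS w hw
    rw [Nat.mem_factoredNumbers_iff_primeFactors_subset]
    refine ⟨by omega, fun p hp => ?_⟩
    have hpp := Nat.prime_of_mem_primeFactors hp
    have hpd := Nat.dvd_of_mem_primeFactors hp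
    rw [hT, mem_filter, mem_Ioc]
    refine ⟨⟨(Nat.floor_lt (by linarith)).2 (h3 p hpp hpd), Nat.le_floor ?_⟩, hpp⟩
    exact le_trans (by exact_mod_cast Nat.le_of_dvd (by omega) hpd) h2
  rw [hT2] at hs
  have e1 : ∏ p ∈ T, (1 - LB_inv p)⁻¹ = ∏ p ∈ T, (1 - ((p : ℕ) : ℝ)⁻¹)⁻¹ := rfl
  rw [e1] at hs
  classical
  have h2 : ∑ w ∈ S, (1 : ℝ) / w =
      ∑ w ∈ S.subtype (fun w => w ∈ Nat.factoredNumbers T), LB_inv (w : ℕ) := by
    rw [Finset.sum_subtype_of_mem (fun w : ℕ => LB_inv w) hW']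
    refine sum_congr rfl (fun w _ => ?_)
    change (1 : ℝ) / (w : ℕ) = ((w : ℕ) : ℝ)⁻¹
    rw [one_div]
  rw [h2]
  apply sum_le_hasSum _ _ hs
  intro i _
  change 0 ≤ ((i : ℕ) : ℝ)⁻¹
  positivity

/-- Mertens for rough integers -/
theorem rough_harm : ∃ C : ℝ, 0 < C ∧ ∃ y₁ : ℕ, ∀ y R Z : ℕ, y₁ ≤ y → RM y R → y ≤ Z →
    ∑ n ∈ (Icc 1 Z).filter (fun n => n.Coprime R), (1 : ℝ) / n ≤ C * (Real.log Z / Real.log y) := by
  obtain ⟨C, hC, h⟩ := LB_rough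
  refine ⟨C, hC, 2, ?_⟩
  intro y R Z hy hR hyZ
  refine h y Z (by exact_mod_cast hy) (by exact_mod_cast hyZ) _ ?_
  intro n hn
  rw [mem_filter, mem_Icc] at hn
  refine ⟨hn.1.1, by exact_mod_cast hn.1.2, fun p hp hpn => ?_⟩
  by_contra hcon
  push Not at hcon
  have h1 : p ∣ R := (hR.iff p hp).2 (by exact_mod_cast hcon)
  exact hp.one_lt.ne' (Nat.dvd_one.1 (hn.2 ▸ Nat.dvd_gcd hpn h1))

end Pool.Agent.PW
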