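import Mathlib
import Pool.Agent.Work.VK.Local

/-! The local factor of the double sum estimate at a rational number with a large denominator. -/

namespace Pool.Agent.PW

open Finset
open Pool.Agent.BV
open Pool.Agent.Work.VK

noncomputable section

/-- the geometric sum at a residue class -/
def GQ (n : ℕ) {Q : ℕ} (c : ZMod Q) : ℝ :=
  ‖∑ w ∈ Finset.Icc (-(n : ℤ)) n, e (w * ((c.valMinAbs : ℤ) / (Q : ℝ)))‖

lemma norm_sum_eq_GQ {Q : ℕ} [NeZero Q] (n : ℕ) (A z : ℤ) :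
    ‖∑ w ∈ Finset.Icc (-(n : ℤ)) n, e ((A : ℝ) / Q * w * z)‖ = GQ n ((A * z : ℤ) : ZMod Q) := by
  unfold GQ
  congr 1
  refine Finset.sum_congr rfl fun w _ => ?_
  have hQ : (Q : ℝ) ≠ 0 := Nat.cast_ne_zero.2 (NeZero.ne Q)
  set c : ZMod Q := ((A * z : ℤ) : ZMod Q) with hc
  have h1 : ((A * z : ℤ) : ZMod Q) = ((c.valMinAbs : ℤ) : ZMod Q) := by
    rw [ZMod.coe_valMinAbs]
  have h2 := (ZMod.intCast_eq_intCast_iff_dvd_sub _ _ _).1 h1.symm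
  obtain ⟨k, hk⟩ := h2
  have h3 : (A : ℝ) * z = (c.valMinAbs : ℤ) + (Q : ℝ) * k := by
    have : A * z = c.valMinAbs + (Q : ℤ) * k := by linarith
    exact_mod_cast this
  have h4 : (A : ℝ) / Q * w * z = w * ((c.valMinAbs : ℤ) / (Q : ℝ)) + ((w * k : ℤ) : ℝ) := by
    have : (A : ℝ) / Q * w * z = w * ((A * z) / Q) := by ring
    rw [this, h3]
    push_cast
    field_simp
  rw [h4, add_e_add, add_e_int, mul_one]

lemma card_class_le {Q : ℕ} [NeZero Q] (n : ℕ) (c : ZMod Q) :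
    (#{z ∈ Finset.Icc (-(n : ℤ)) (n : ℤ) | ((z : ℤ) : ZMod Q) = c} : ℝ) ≤ (2 * n + 1) / Q + 1 := by
  have hQ : 0 < Q := Nat.pos_of_ne_zero (NeZero.ne Q)
  have hQr : (0 : ℝ) < Q := by exact_mod_cast hQ
  have hQz : (0 : ℤ) < Q := by exact_mod_cast hQ
  have h1 : ({z ∈ Finset.Icc (-(n : ℤ)) (n : ℤ) | ((z : ℤ) : ZMod Q) = c}) =
      {z ∈ Finset.Ico (-(n : ℤ)) (n + 1) | z ≡ (c.val : ℤ) [ZMOD (Q : ℤ)]} := by
    ext z
    rw [mem_filter, mem_filter, Finset.mem_Icc, Finset.mem_Ico]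
    refine and_congr (by constructor <;> (intro h; constructor <;> omega)) ?_
    rw [← ZMod.intCast_eq_intCast_iff]
    simp
  rw [h1]
  have h2 := Int.Ico_filter_modEq_card (-(n : ℤ)) (n + 1) hQz (c.val : ℤ)
  have h3 : ((#{z ∈ Finset.Ico (-(n : ℤ)) (n + 1) | z ≡ (c.val : ℤ) [ZMOD (Q : ℤ)]} : ℤ) : ℝ) ≤
      (2 * n + 1) / Q + 1 := by
    rw [h2, Int.cast_max, max_le_iff]
    constructor
    · push_cast
      have h4 : ((⌈(((n : ℤ) + 1 : ℤ) - (c.val : ℤ) : ℚ) / (Q : ℤ)⌉ : ℤ) : ℚ) <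
          (((n : ℤ) + 1 : ℤ) - (c.val : ℤ) : ℚ) / (Q : ℤ) + 1 := Int.ceil_lt_add_one _
      have h5 : ((-(n : ℤ) : ℤ) - (c.val : ℤ) : ℚ) / (Q : ℤ) ≤
        ((⌈((-(n : ℤ) : ℤ) - (c.val : ℤ) : ℚ) / (Q : ℤ)⌉ : ℤ) : ℚ) := Int.le_ceil _
      have h6 : ((⌈(((n : ℤ) + 1 : ℤ) - (c.val : ℤ) : ℚ) / (Q : ℤ)⌉ : ℤ) : ℚ) -
        ((⌈((-(n : ℤ) : ℤ) - (c.val : ℤ) : ℚ) / (Q : ℤ)⌉ : ℤ) : ℚ) ≤ (2 * n + 1) / Q + 1 := by
        have h7 : (((n : ℤ) + 1 : ℤ) - (c.val : ℤ) : ℚ) / (Q : ℤ) + 1 -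
          ((-(n : ℤ) : ℤ) - (c.val : ℤ) : ℚ) / (Q : ℤ) = (2 * n + 1) / Q + 1 := by
          push_cast; ring
        linarith
      have h8 := (Rat.cast_le (K := ℝ)).2 h6
      push_cast at h8
      exact h8
    · push_cast; positivity
  exact_mod_cast h3

lemma GQ_zero_le {Q : ℕ} (n : ℕ) : GQ n (0 : ZMod Q) ≤ 2 * n + 1 := by
  unfold GQ
  rw [← card_Icc_neg]
  exact norm_sum_e_le _ _

lemma GQ_le {Q : ℕ} [NeZero Q] (n : ℕ) {c : ZMod Q} (hc : c ≠ 0) :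
    GQ n c ≤ Q / 2 * (1 / |((c.valMinAbs : ℤ) : ℝ)|) := by
  have hQ : 0 < Q := Nat.pos_of_ne_zero (NeZero.ne Q)
  have hQr : (0 : ℝ) < Q := by exact_mod_cast hQ
  have h0 : (c.valMinAbs : ℤ) ≠ 0 := by
    rwa [Ne, ZMod.valMinAbs_eq_zero]
  have h0r : ((c.valMinAbs : ℤ) : ℝ) ≠ 0 := by exact_mod_cast h0
  have h1 := c.natAbs_valMinAbs_le
  have h2 : |((c.valMinAbs : ℤ) : ℝ)| ≤ Q / 2 := by
    have h3 : ((c.valMinAbs.natAbs : ℕ) : ℝ) = |((c.valMinAbs : ℤ) : ℝ)| := by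
      rw [← Int.cast_abs, Int.abs_eq_natAbs]; simp
    rw [← h3]
    have h4 : ((c.valMinAbs.natAbs : ℕ) : ℝ) ≤ ((Q / 2 : ℕ) : ℝ) := by exact_mod_cast h1
    exact h4.trans Nat.cast_div_le
  have h3 : |((c.valMinAbs : ℤ) : ℝ) / Q| ≤ 1 / 2 := by
    rw [abs_div, abs_of_pos hQr, div_le_iff₀ hQr]
    linarith
  refine (geom_le n _ (div_ne_zero h0r hQr.ne') h3).trans (le_of_eq ?_)
  rw [abs_div, abs_of_pos hQr]
  have : 0 < |((c.valMinAbs : ℤ) : ℝ)| := abs_pos.2 h0r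
  field_simp

lemma sum_GQ_le {Q : ℕ} [NeZero Q] (n : ℕ) :
    ∑ c : ZMod Q, GQ n c ≤ 2 * n + 1 + Q * (1 + Real.log Q) := by
  classical
  have hQ : 0 < Q := Nat.pos_of_ne_zero (NeZero.ne Q)
  have hQr : (0 : ℝ) < Q := by exact_mod_cast hQ
  rw [← Finset.add_sum_erase _ _ (Finset.mem_univ (0 : ZMod Q))]
  refine add_le_add (GQ_zero_le n) ?_
  calc ∑ c ∈ (Finset.univ : Finset (ZMod Q)).erase 0, GQ n c
      ≤ ∑ c ∈ (Finset.univ : Finset (ZMod Q)).erase 0, (Q : ℝ) / 2 * (1 / |((c.valMinAbs : ℤ) : ℝ)|) :=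
        Finset.sum_le_sum fun c hc => GQ_le n (Finset.ne_of_mem_erase hc)
    _ = (Q : ℝ) / 2 * ∑ c ∈ (Finset.univ : Finset (ZMod Q)).erase 0,
        (1 / |((c.valMinAbs : ℤ) : ℝ)|) := by rw [Finset.mul_sum]
    _ = (Q : ℝ) / 2 * ∑ z ∈ ((Finset.univ : Finset (ZMod Q)).erase 0).image
        (fun c => (c.valMinAbs : ℤ)), (1 / |(z : ℝ)|) := by
        rw [Finset.sum_image fun x _ y _ h => ZMod.injective_valMinAbs h]
    _ ≤ (Q : ℝ) / 2 * ∑ z ∈ (Finset.Icc (-(Q : ℤ)) Q).erase 0, (1 / |(z : ℝ)|) := by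
        refine mul_le_mul_of_nonneg_left ?_ (by positivity)
        refine Finset.sum_le_sum_of_subset_of_nonneg ?_ fun _ _ _ => by positivity
        intro z hz
        rw [Finset.mem_image] at hz
        obtain ⟨c, hc, rfl⟩ := hz
        rw [Finset.mem_erase] at hc
        rw [Finset.mem_erase, Finset.mem_Icc]
        have h1 := c.natAbs_valMinAbs_le
        refine ⟨by rw [Ne, ZMod.valMinAbs_eq_zero]; exact hc.1, ?_⟩
        constructor <;> omega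
    _ ≤ (Q : ℝ) / 2 * (2 * (1 + Real.log Q)) :=
        mul_le_mul_of_nonneg_left (sum_inv_abs_le Q) (by positivity)
    _ = _ := by ring

lemma sum_rat_le {Q : ℕ} (hQ : 0 < Q) {A : ℤ} (hA : IsCoprime A (Q : ℤ)) (n : ℕ) :
    ∑ z ∈ Finset.Icc (-(n : ℤ)) n, ‖∑ w ∈ Finset.Icc (-(n : ℤ)) n, e ((A : ℝ) / Q * w * z)‖ ≤
      ((2 * n + 1) / Q + 1) * (2 * n + 1 + Q * (1 + Real.log Q)) := by
  classical
  haveI : NeZero Q := ⟨hQ.ne'⟩
  have hQr : (0 : ℝ) < Q := by exact_mod_cast hQ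
  obtain ⟨B, C, hBC⟩ := hA
  have hunit : (B : ZMod Q) * (A : ZMod Q) = 1 := by
    have h1 := congrArg (fun x : ℤ => (x : ZMod Q)) hBC
    simp only [Int.cast_add, Int.cast_mul, Int.cast_natCast, ZMod.natCast_self, mul_zero, add_zero,
      Int.cast_one] at h1
    exact h1
  let E : ZMod Q ≃ ZMod Q :=
    { toFun := fun c => (A : ZMod Q) * c
      invFun := fun c => (B : ZMod Q) * c
      left_inv := fun c => by
        show (B : ZMod Q) * ((A : ZMod Q) * c) = c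
        rw [← mul_assoc, hunit, one_mul]
      right_inv := fun c => by
        show (A : ZMod Q) * ((B : ZMod Q) * c) = c
        rw [← mul_assoc, mul_comm (A : ZMod Q), hunit, one_mul] }
  calc ∑ z ∈ Finset.Icc (-(n : ℤ)) n, ‖∑ w ∈ Finset.Icc (-(n : ℤ)) n, e ((A : ℝ) / Q * w * z)‖
      = ∑ z ∈ Finset.Icc (-(n : ℤ)) n, GQ n ((A : ZMod Q) * (z : ZMod Q)) := by
        refine Finset.sum_congr rfl fun z _ => ?_
        rw [norm_sum_eq_GQ]; push_cast; rfl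
    _ = ∑ c : ZMod Q, ∑ z ∈ Finset.Icc (-(n : ℤ)) (n : ℤ) with ((z : ℤ) : ZMod Q) = c,
        GQ n ((A : ZMod Q) * (z : ZMod Q)) := by
        rw [Finset.sum_fiberwise]
    _ = ∑ c : ZMod Q, (#{z ∈ Finset.Icc (-(n : ℤ)) (n : ℤ) | ((z : ℤ) : ZMod Q) = c} : ℝ) *
        GQ n ((A : ZMod Q) * c) := by
        refine Finset.sum_congr rfl fun c _ => ?_
        rw [← nsmul_eq_mul, ← Finset.sum_const]
        refine Finset.sum_congr rfl fun z hz => ?_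
        rw [(Finset.mem_filter.1 hz).2]
    _ ≤ ∑ c : ZMod Q, ((2 * n + 1) / Q + 1) * GQ n ((A : ZMod Q) * c) := by
        refine Finset.sum_le_sum fun c _ => ?_
        exact mul_le_mul_of_nonneg_right (card_class_le n c) (norm_nonneg _)
    _ = ((2 * n + 1) / Q + 1) * ∑ c : ZMod Q, GQ n c := by
        rw [← Finset.mul_sum]
        congr 1
        exact Equiv.sum_comp E (fun c => GQ n c)
    _ ≤ _ := mul_le_mul_of_nonneg_left (sum_GQ_le n) (by positivity)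

/-- a good coefficient: the local factor is small -/
lemma Wj_rat {m s U J Q : ℕ} (hm : 12 ≤ m) (hs : 1 ≤ s) {t : ℝ} (ht : 128 ≤ t)
    (htm : 9 * (m : ℝ) ≤ t) (hU2 : t ≤ 2 * U) (hJ1 : 7 * m ≤ J + 1) {A : ℤ}
    (hA : IsCoprime A (Q : ℤ)) (hQ1 : 3 * t ^ (3 * m) ≤ Q) (hQ2 : (Q : ℝ) ≤ t ^ (8 * m + 1)) :
    Wj s U U ((A : ℝ) / Q) J ≤ 9 * (s : ℝ) ^ 2 * (t ^ (3 * m))⁻¹ * (U : ℝ) ^ (2 * (J + 1)) := by
  have ht0 : 0 < t := by linarith
  have ht1 : 1 ≤ t := by linarith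
  have hm1 : (12 : ℝ) ≤ m := by exact_mod_cast hm
  have hT0 : 0 < t ^ (3 * m) := by positivity
  have hQr : (0 : ℝ) < Q := lt_of_lt_of_le (by positivity) hQ1
  have hQ : 0 < Q := by exact_mod_cast hQr
  have hU0 : (0 : ℝ) < U := by linarith
  have hU1 : 1 ≤ U := by exact_mod_cast (Nat.cast_pos.1 hU0)
  rw [Wj_eq]
  refine (sum_rat_le hQ hA _).trans ?_
  set n := s * U ^ (J + 1) with hn
  have hnr : (n : ℝ) = s * (U : ℝ) ^ (J + 1) := by rw [hn]; push_cast; rfl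
  have hsr : (1 : ℝ) ≤ s := by exact_mod_cast hs
  -- lower bound for n
  have hn1 : t ^ (6 * m) ≤ n := by
    rw [hnr]
    have h1 : t ^ (6 * m) ≤ (t / 2) ^ (7 * m) := by
      rw [pow_mul, pow_mul]
      refine pow_le_pow_left₀ (by positivity) ?_ m
      rw [div_pow]
      rw [le_div_iff₀ (by norm_num)]
      have : t ^ 7 = t ^ 6 * t := by ring
      rw [this]
      have h6 : 0 < t ^ 6 := by positivity
      nlinarith
    have h2 : (t / 2) ^ (7 * m) ≤ (U : ℝ) ^ (J + 1) := by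
      calc (t / 2) ^ (7 * m) ≤ (t / 2) ^ (J + 1) := pow_le_pow_right₀ (by linarith) hJ1
        _ ≤ (U : ℝ) ^ (J + 1) := pow_le_pow_left₀ (by positivity) (by linarith) _
    calc t ^ (6 * m) ≤ 1 * (U : ℝ) ^ (J + 1) := by rw [one_mul]; exact h1.trans h2
      _ ≤ s * (U : ℝ) ^ (J + 1) := mul_le_mul_of_nonneg_right hsr (by positivity)
  have hn1' : (1 : ℝ) ≤ n := (one_le_pow₀ ht1).trans hn1
  have hn0 : (0 : ℝ) < n := by linarith
  -- the logarithm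
  have hlog : 1 + (1 + Real.log Q) ≤ t ^ 3 := by
    have h1 : Real.log Q ≤ (8 * m + 1 : ℕ) * Real.log t := by
      rw [← Real.log_pow]
      exact Real.log_le_log hQr hQ2
    have h2 : Real.log t ≤ t := Real.log_le_self ht0.le
    have h3 : Real.log Q ≤ (8 * m + 1 : ℕ) * t :=
      h1.trans (mul_le_mul_of_nonneg_left h2 (Nat.cast_nonneg _))
    have h4 : ((8 * m + 1 : ℕ) : ℝ) ≤ t := by
      push_cast
      linarith
    have h5 : ((8 * m + 1 : ℕ) : ℝ) * t ≤ t * t := mul_le_mul_of_nonneg_right h4 ht0.le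
    nlinarith
  have hlog0 : 0 ≤ Real.log Q := Real.log_nonneg (by
    have : (1 : ℝ) ≤ t ^ (3 * m) := one_le_pow₀ ht1
    linarith)
  -- three terms
  have hsplit : ((2 * (n : ℝ) + 1) / Q + 1) * (2 * n + 1 + Q * (1 + Real.log Q)) =
      (2 * (n : ℝ) + 1) * (2 * n + 1) / Q + (2 * (n : ℝ) + 1) * (1 + (1 + Real.log Q)) +
      Q * (1 + Real.log Q) := by
    field_simp
    ring
  rw [hsplit]
  have hfin : 9 * (s : ℝ) ^ 2 * (t ^ (3 * m))⁻¹ * (U : ℝ) ^ (2 * (J + 1)) =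
      3 * ((n : ℝ) ^ 2 * (t ^ (3 * m))⁻¹) + 3 * ((n : ℝ) ^ 2 * (t ^ (3 * m))⁻¹) +
      3 * ((n : ℝ) ^ 2 * (t ^ (3 * m))⁻¹) := by
    rw [hnr, mul_comm 2 (J + 1), pow_mul]; ring
  rw [hfin]
  have b1 : (2 * (n : ℝ) + 1) * (2 * n + 1) / Q ≤ 3 * ((n : ℝ) ^ 2 * (t ^ (3 * m))⁻¹) := by
    calc (2 * (n : ℝ) + 1) * (2 * n + 1) / Q ≤ 9 * (n : ℝ) ^ 2 / (3 * t ^ (3 * m)) := by
          refine div_le_div₀ (by positivity) ?_ (by positivity) hQ1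
          nlinarith
      _ = _ := by field_simp; norm_num
  have b2 : (2 * (n : ℝ) + 1) * (1 + (1 + Real.log Q)) ≤ 3 * ((n : ℝ) ^ 2 * (t ^ (3 * m))⁻¹) := by
    have h1 : t ^ 3 ≤ (n : ℝ) * (t ^ (3 * m))⁻¹ := by
      rw [← div_eq_mul_inv, le_div_iff₀ hT0, ← pow_add]
      exact (pow_le_pow_right₀ ht1 (by omega)).trans hn1
    calc (2 * (n : ℝ) + 1) * (1 + (1 + Real.log Q)) ≤ (3 * n) * (n * (t ^ (3 * m))⁻¹) := by
          refine mul_le_mul (by linarith) (hlog.trans h1) (by linarith) (by positivity)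
      _ = _ := by ring
  have b3 : (Q : ℝ) * (1 + Real.log Q) ≤ 3 * ((n : ℝ) ^ 2 * (t ^ (3 * m))⁻¹) := by
    have h1 : (Q : ℝ) * (1 + Real.log Q) ≤ t ^ (8 * m + 1) * t ^ 3 :=
      mul_le_mul hQ2 (by linarith) (by linarith) (by positivity)
    have h2 : t ^ (8 * m + 1) * t ^ 3 ≤ (n : ℝ) ^ 2 * (t ^ (3 * m))⁻¹ := by
      rw [← div_eq_mul_inv, le_div_iff₀ hT0, ← pow_add, ← pow_add]
      calc t ^ (8 * m + 1 + 3 + 3 * m) ≤ t ^ (6 * m * 2) := pow_le_pow_right₀ ht1 (by omega)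
        _ = (t ^ (6 * m)) ^ 2 := by rw [pow_mul]
        _ ≤ (n : ℝ) ^ 2 := pow_le_pow_left₀ (by positivity) hn1 2
    have h3 : 0 < (n : ℝ) ^ 2 * (t ^ (3 * m))⁻¹ := by positivity
    linarith
  linarith

end

end Pool.Agent.PW
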