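import Mathlib
import Pool.Agent.Work.VK.Weyl2
import Pool.Agent.Work.MP_92f640_nt.PW.WRat

/-! The double sum with rational coefficients of moderately large denominators. -/

namespace Pool.Agent.PW

open Finset
open Pool.Agent.BV
open Pool.Agent.Work.VK

noncomputable section

/-- the double sum bound from the product of the local factors -/
theorem weyl_double_gen {q : ℕ} (hq : 24 ≤ q) {t : ℝ} (ht : 2 ^ 200 ≤ t)
    {U : ℕ} (hU : (U : ℝ) ≤ t) (hU2 : t ≤ 2 * U) (α : Fin (6 * q) → ℝ)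
    (hP : ∏ j : Fin (6 * q), Wj (180 * q ^ 2) U U (α j) j.1 ≤
      (9 * ((180 * q ^ 2 : ℕ) : ℝ) ^ 2) ^ (6 * q) * t ^ (-(3 / 2 * (q : ℝ) ^ 2)) *
        (U : ℝ) ^ (6 * q * (6 * q + 1))) :
    ‖∑ u ∈ Finset.Icc (1 : ℤ) U, ∑ v ∈ Finset.Icc (1 : ℤ) U,
      e (∑ j, α j * (u : ℝ) ^ (j.1 + 1) * (v : ℝ) ^ (j.1 + 1))‖
      ≤ 2 * (U : ℝ) ^ 2 * t ^ (-(1 / (200000 * (q : ℝ) ^ 2))) := by
  have hN := nine_part hq ht
  have ht100 : (100 : ℝ) ≤ t := le_trans (by norm_num) ht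
  clear ht
  have ht1 : (1 : ℝ) ≤ t := by linarith
  have ht0 : 0 < t := by linarith
  have hU0 : (0 : ℝ) < U := by linarith
  have hU1 : 1 ≤ U := by exact_mod_cast (Nat.cast_pos.1 hU0)
  have hU1r : (1 : ℝ) ≤ U := by exact_mod_cast hU1
  have hqr : (24 : ℝ) ≤ q := by exact_mod_cast hq
  set M := 180 * q ^ 2 with hM
  have hMr : (M : ℝ) = 180 * (q : ℝ) ^ 2 := by rw [hM]; push_cast; rfl
  have hM1 : 1 ≤ M := by rw [hM]; nlinarith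
  have hJ := JY_bound hq hU1
  rw [← hM] at hJ
  have hD := double_sum (k := 6 * q) (s := M) (U := U) (V := U) hM1 α
  set S := ‖∑ u ∈ Finset.Icc (1 : ℤ) U, ∑ v ∈ Finset.Icc (1 : ℤ) U,
      e (∑ j, α j * (u : ℝ) ^ (j.1 + 1) * (v : ℝ) ^ (j.1 + 1))‖ with hS
  have hS0 : 0 ≤ S := norm_nonneg _
  set E := 2 * (180 * (q : ℝ) ^ 2) - 6 * q * (6 * q + 1) / 2 + 34 / 100 * (q : ℝ) ^ 2 with hE
  have hUE : 0 < (U : ℝ) ^ E := Real.rpow_pos_of_pos hU0 _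
  set δ := 1 / (200000 * (q : ℝ) ^ 2) with hδ
  have hδ0 : 0 < δ := by rw [hδ]; positivity
  have hfin : S ^ (4 * M ^ 2) ≤ (2 * (U : ℝ) ^ 2 * t ^ (-δ)) ^ (4 * M ^ 2) := by
    have hJJ : (JY (6 * q) M U : ℝ) * JY (6 * q) M U
        ≤ 2 ^ (4 * M ^ 2) * ((U : ℝ) ^ E * (U : ℝ) ^ E) := by
      calc (JY (6 * q) M U : ℝ) * JY (6 * q) M U
          ≤ (2 ^ (2 * M ^ 2) * (U : ℝ) ^ E) * (2 ^ (2 * M ^ 2) * (U : ℝ) ^ E) :=
            mul_le_mul hJ hJ (Nat.cast_nonneg _) (by positivity)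
        _ = _ := by
            have : (2 : ℝ) ^ (4 * M ^ 2) = 2 ^ (2 * M ^ 2) * 2 ^ (2 * M ^ 2) := by
              rw [← pow_add]; congr 1; ring
            rw [this]; ring
    have hW0 : 0 ≤ ∏ j : Fin (6 * q), Wj M U U (α j) j.1 :=
      Finset.prod_nonneg fun j _ => Finset.sum_nonneg fun _ _ => norm_nonneg _
    have hT0 : 0 < t ^ (-(3 / 2 * (q : ℝ) ^ 2)) := Real.rpow_pos_of_pos ht0 _
    have hT1 : 0 < t ^ (6 / 100 * (q : ℝ) ^ 2) := Real.rpow_pos_of_pos ht0 _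
    have hT2 : 0 < t ^ (68 / 100 * (q : ℝ) ^ 2) := Real.rpow_pos_of_pos ht0 _
    -- powers of U
    have hUpow : (U : ℝ) ^ (2 * M * (2 * M - 1)) * (U : ℝ) ^ (2 * M * (2 * M - 1)) *
        ((U : ℝ) ^ E * (U : ℝ) ^ E) * (U : ℝ) ^ (6 * q * (6 * q + 1))
        = ((U : ℝ) ^ 2) ^ (4 * M ^ 2) * (U : ℝ) ^ (68 / 100 * (q : ℝ) ^ 2) := by
      rw [← pow_mul, ← Real.rpow_natCast, ← Real.rpow_natCast (U : ℝ) (6 * q * (6 * q + 1)),
        ← Real.rpow_natCast (U : ℝ) (2 * (4 * M ^ 2)), ← Real.rpow_add hU0, ← Real.rpow_add hU0,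
        ← Real.rpow_add hU0, ← Real.rpow_add hU0, ← Real.rpow_add hU0]
      congr 1
      have h1 : ((2 * M * (2 * M - 1) : ℕ) : ℝ) = 2 * M * (2 * M - 1) := by
        rw [Nat.cast_mul, Nat.cast_sub (by omega)]; push_cast; ring
      rw [h1, hE]
      push_cast
      rw [hMr]
      ring
    calc S ^ (4 * M ^ 2)
        ≤ ((U : ℝ) ^ (2 * M * (2 * M - 1)) * (U : ℝ) ^ (2 * M * (2 * M - 1))) *
        (JY (6 * q) M U * JY (6 * q) M U) * ∏ j : Fin (6 * q), Wj M U U (α j) j.1 := hD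
      _ ≤ ((U : ℝ) ^ (2 * M * (2 * M - 1)) * (U : ℝ) ^ (2 * M * (2 * M - 1))) *
        (2 ^ (4 * M ^ 2) * ((U : ℝ) ^ E * (U : ℝ) ^ E)) *
        ((9 * (M : ℝ) ^ 2) ^ (6 * q) * t ^ (-(3 / 2 * (q : ℝ) ^ 2)) *
        (U : ℝ) ^ (6 * q * (6 * q + 1))) := by
          refine mul_le_mul ?_ hP hW0 (by positivity)
          exact mul_le_mul_of_nonneg_left hJJ (by positivity)
      _ ≤ ((U : ℝ) ^ (2 * M * (2 * M - 1)) * (U : ℝ) ^ (2 * M * (2 * M - 1))) *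
        (2 ^ (4 * M ^ 2) * ((U : ℝ) ^ E * (U : ℝ) ^ E)) *
        (t ^ (6 / 100 * (q : ℝ) ^ 2) * t ^ (-(3 / 2 * (q : ℝ) ^ 2)) *
        (U : ℝ) ^ (6 * q * (6 * q + 1))) := by gcongr
      _ = 2 ^ (4 * M ^ 2) * ((U : ℝ) ^ (2 * M * (2 * M - 1)) * (U : ℝ) ^ (2 * M * (2 * M - 1)) *
        ((U : ℝ) ^ E * (U : ℝ) ^ E) * (U : ℝ) ^ (6 * q * (6 * q + 1))) *
        (t ^ (6 / 100 * (q : ℝ) ^ 2) * t ^ (-(3 / 2 * (q : ℝ) ^ 2))) := by ring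
      _ = 2 ^ (4 * M ^ 2) * (((U : ℝ) ^ 2) ^ (4 * M ^ 2) * (U : ℝ) ^ (68 / 100 * (q : ℝ) ^ 2)) *
        (t ^ (6 / 100 * (q : ℝ) ^ 2) * t ^ (-(3 / 2 * (q : ℝ) ^ 2))) := by rw [hUpow]
      _ ≤ 2 ^ (4 * M ^ 2) * (((U : ℝ) ^ 2) ^ (4 * M ^ 2) * t ^ (68 / 100 * (q : ℝ) ^ 2)) *
        (t ^ (6 / 100 * (q : ℝ) ^ 2) * t ^ (-(3 / 2 * (q : ℝ) ^ 2))) := by
          have h1 : (U : ℝ) ^ (68 / 100 * (q : ℝ) ^ 2) ≤ t ^ (68 / 100 * (q : ℝ) ^ 2) :=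
            Real.rpow_le_rpow hU0.le hU (by positivity)
          gcongr
      _ = (2 * (U : ℝ) ^ 2) ^ (4 * M ^ 2) * t ^ (-(76 / 100 * (q : ℝ) ^ 2)) := by
          have h1 : t ^ (-(76 / 100 * (q : ℝ) ^ 2)) = t ^ (68 / 100 * (q : ℝ) ^ 2) *
            (t ^ (6 / 100 * (q : ℝ) ^ 2) * t ^ (-(3 / 2 * (q : ℝ) ^ 2))) := by
            rw [← Real.rpow_add ht0, ← Real.rpow_add ht0]
            congr 1; ring
          rw [h1, mul_pow]; ring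
      _ ≤ (2 * (U : ℝ) ^ 2) ^ (4 * M ^ 2) * (t ^ (-δ)) ^ (4 * M ^ 2) := by
          refine mul_le_mul_of_nonneg_left ?_ (by positivity)
          rw [← Real.rpow_natCast (t ^ (-δ)), ← Real.rpow_mul ht0.le]
          refine Real.rpow_le_rpow_of_exponent_le ht1 ?_
          push_cast
          rw [hMr, hδ]
          have : -(1 / (200000 * (q : ℝ) ^ 2)) * (4 * (180 * (q : ℝ) ^ 2) ^ 2)
              = -(648 / 1000 * (q : ℝ) ^ 2) := by field_simp; ring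
          rw [this]
          nlinarith
      _ = _ := by rw [← mul_pow]
  have hB0 : 0 ≤ 2 * (U : ℝ) ^ 2 * t ^ (-δ) := by
    have := Real.rpow_pos_of_pos ht0 (-δ)
    positivity
  exact le_of_pow_le_pow_left₀ (by positivity) hB0 hfin

/-- the product of the local factors, for rational coefficients in the block `[7m, 9m)` -/
lemma prod_Wj_rat {m : ℕ} (hm : 12 ≤ m) {t : ℝ} (ht : 128 ≤ t) (htm : 9 * (m : ℝ) ≤ t)
    {U : ℕ} (hU2 : t ≤ 2 * U) (α : Fin (6 * (2 * m)) → ℝ)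
    (hα : ∀ j, 7 * m ≤ j.1 + 1 → j.1 + 1 < 9 * m → ∃ (A : ℤ) (Q : ℕ), IsCoprime A (Q : ℤ) ∧
      α j = (A : ℝ) / Q ∧ 3 * t ^ (3 * m) ≤ Q ∧ (Q : ℝ) ≤ t ^ (8 * m + 1)) :
    ∏ j : Fin (6 * (2 * m)), Wj (180 * (2 * m) ^ 2) U U (α j) j.1 ≤
      (9 * ((180 * (2 * m) ^ 2 : ℕ) : ℝ) ^ 2) ^ (6 * (2 * m)) *
        t ^ (-(3 / 2 * ((2 * m : ℕ) : ℝ) ^ 2)) *
        (U : ℝ) ^ (6 * (2 * m) * (6 * (2 * m) + 1)) := by
  have ht1 : (1 : ℝ) ≤ t := by linarith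
  have ht0 : 0 < t := by linarith
  have hU0 : (0 : ℝ) < U := by linarith
  have hU1 : 1 ≤ U := by exact_mod_cast (Nat.cast_pos.1 hU0)
  have hM1 : 1 ≤ 180 * (2 * m) ^ 2 := by nlinarith
  set T := (t ^ (3 * m))⁻¹ with hT
  have hT0 : 0 < T := by positivity
  have hT1 : T ≤ 1 := inv_le_one_of_one_le₀ (one_le_pow₀ ht1)
  let g : ℕ → ℝ := fun j => if 7 * m ≤ j + 1 ∧ j + 1 < 9 * m then T else 1
  have hg0 : ∀ j, 0 < g j := fun j => by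
    simp only [g]; split_ifs
    · exact hT0
    · norm_num
  have h1 : ∀ j : Fin (6 * (2 * m)), Wj (180 * (2 * m) ^ 2) U U (α j) j.1 ≤
      9 * ((180 * (2 * m) ^ 2 : ℕ) : ℝ) ^ 2 * g j.1 * (U : ℝ) ^ (2 * (j.1 + 1)) := by
    intro j
    simp only [g]
    split_ifs with h
    · obtain ⟨A, Q, hA, hj, hQ1, hQ2⟩ := hα j h.1 h.2
      rw [hj]
      exact Wj_rat hm hM1 ht htm hU2 h.1 hA hQ1 hQ2
    · rw [mul_one]
      exact Wj_trivial hM1 hU1 _ _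
  have hW0 : ∀ j : Fin (6 * (2 * m)), 0 ≤ Wj (180 * (2 * m) ^ 2) U U (α j) j.1 := fun j =>
    Finset.sum_nonneg fun _ _ => norm_nonneg _
  refine (Finset.prod_le_prod (fun j _ => hW0 j) fun j _ => h1 j).trans ?_
  rw [Finset.prod_mul_distrib, Finset.prod_mul_distrib, Finset.prod_const, Finset.card_univ,
    Fintype.card_fin]
  have h2 : ∏ j : Fin (6 * (2 * m)), g j.1 ≤ t ^ (-(3 / 2 * ((2 * m : ℕ) : ℝ) ^ 2)) := by
    rw [Fin.prod_univ_eq_prod_range (fun j => g j) (6 * (2 * m))]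
    have h3 : ∏ j ∈ Finset.range (6 * (2 * m)), g j ≤
        ∏ j ∈ Finset.Ico (7 * m - 1) (9 * m - 1), g j := by
      have hsub : Finset.Ico (7 * m - 1) (9 * m - 1) ⊆ Finset.range (6 * (2 * m)) := by
        intro j hj
        rw [Finset.mem_Ico] at hj
        rw [Finset.mem_range]; omega
      rw [← Finset.prod_sdiff hsub]
      refine mul_le_of_le_one_left (Finset.prod_nonneg fun j _ => (hg0 j).le) ?_
      refine Finset.prod_le_one (fun j _ => (hg0 j).le) fun j _ => ?_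
      simp only [g]
      split_ifs
      · exact hT1
      · exact le_rfl
    refine h3.trans (le_of_eq ?_)
    have h4 : ∀ j ∈ Finset.Ico (7 * m - 1) (9 * m - 1), g j = T := by
      intro j hj
      rw [Finset.mem_Ico] at hj
      simp only [g]
      rw [if_pos (by constructor <;> omega)]
    rw [Finset.prod_congr rfl h4, Finset.prod_const, Nat.card_Ico]
    have h5 : 9 * m - 1 - (7 * m - 1) = 2 * m := by omega
    rw [h5, hT, inv_pow, ← pow_mul, Real.rpow_neg ht0.le, ← Real.rpow_natCast]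
    congr 2
    push_cast; ring
  have h3 : ∏ j : Fin (6 * (2 * m)), (U : ℝ) ^ (2 * (j.1 + 1)) =
      (U : ℝ) ^ (6 * (2 * m) * (6 * (2 * m) + 1)) := by
    rw [Finset.prod_pow_eq_pow_sum]
    congr 1
    rw [Fin.sum_univ_eq_sum_range (fun j => 2 * (j + 1)) (6 * (2 * m)), ← Finset.mul_sum]
    have := Finset.sum_range_id_mul_two (6 * (2 * m) + 1)
    rw [Finset.sum_range_succ' (fun i => i)] at this
    simp only [add_zero, Nat.add_sub_cancel] at this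
    linarith
  rw [h3]
  refine mul_le_mul_of_nonneg_right ?_ (by positivity)
  exact mul_le_mul_of_nonneg_left h2 (by positivity)

/-- the double sum with rational coefficients in the block `[7m, 9m)` -/
theorem weyl_rat {m k : ℕ} (hm : 12 ≤ m) (hk : k = 6 * (2 * m)) {t : ℝ} (ht : 2 ^ 200 ≤ t)
    (htm : 9 * (m : ℝ) ≤ t) {U : ℕ} (hU : (U : ℝ) ≤ t) (hU2 : t ≤ 2 * U) (α : Fin k → ℝ)
    (hα : ∀ j, 7 * m ≤ j.1 + 1 → j.1 + 1 < 9 * m → ∃ (A : ℤ) (Q : ℕ), IsCoprime A (Q : ℤ) ∧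
      α j = (A : ℝ) / Q ∧ 3 * t ^ (3 * m) ≤ Q ∧ (Q : ℝ) ≤ t ^ (8 * m + 1)) :
    ‖∑ u ∈ Finset.Icc (1 : ℤ) U, ∑ v ∈ Finset.Icc (1 : ℤ) U,
      e (∑ j, α j * (u : ℝ) ^ (j.1 + 1) * (v : ℝ) ^ (j.1 + 1))‖
      ≤ 2 * (U : ℝ) ^ 2 * t ^ (-(1 / (800000 * (m : ℝ) ^ 2))) := by
  subst hk
  have ht128 : (128 : ℝ) ≤ t := le_trans (by norm_num) ht
  have h1 := weyl_double_gen (q := 2 * m) (by omega) ht hU hU2 α
    (prod_Wj_rat hm ht128 htm hU2 α hα)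
  refine h1.trans (le_of_eq ?_)
  congr 3
  push_cast
  ring

end

end Pool.Agent.PW
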