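import Pool.Agent.Work.MP_92f640_nt.PW.Postnikov
import Pool.Agent.Work.MP_92f640_nt.PW.WDouble
import Pool.Agent.Work.VK.Smooth

/-!
# The character sum through the double sum (MP_92f640_nt, PW, part C1), owner helper59
-/

namespace Pool.Agent.PW

open Finset
open Pool.Agent.BV
open Pool.Agent.Work.VK

noncomputable section

/-- the inner double sum at a coprime point -/
lemma inner_le {r : ℕ} {m : ℕ} (hm : 12 ≤ m) {t : ℝ} (ht : 2 ^ 200 ≤ t)
    (htr : t ^ (22 * m) = r) (htm : 9 * (m : ℝ) ≤ t) (hrad : (4 * (rd r : ℝ)) ^ 18 ≤ t)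
    {d : ℕ} (hd : (d : ℝ) ≤ 4 * rd r * t ^ 2) {U : ℕ} (hU : (U : ℝ) ≤ t) (hU2 : t ≤ 2 * U)
    (α : Fin (12 * m) → ℝ)
    (hα : ∀ j : Fin (12 * m), j.1 + 1 ≤ 11 * m → ∃ (A : ℤ) (Q : ℕ), 0 < Q ∧ IsCoprime A (Q : ℤ) ∧
        α j = A / Q ∧ r ≤ Q * d ^ (j.1 + 1) ∧
        Q ^ (11 * m) ≤ (j.1 + 1) ^ (11 * m) * r ^ (11 * m - (j.1 + 1))) :
    ‖∑ u ∈ Finset.Icc (1 : ℤ) U, ∑ v ∈ Finset.Icc (1 : ℤ) U,
      e (∑ j, α j * (u : ℝ) ^ (j.1 + 1) * (v : ℝ) ^ (j.1 + 1))‖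
      ≤ 2 * (U : ℝ) ^ 2 * t ^ (-(1 / (800000 * (m : ℝ) ^ 2))) := by
  have ht100 : (128 : ℝ) ≤ t := le_trans (by norm_num) ht
  have ht1 : (1 : ℝ) ≤ t := by linarith
  have ht0 : 0 < t := by linarith
  refine weyl_rat hm (by ring) ht htm hU hU2 α fun j hj1 hj2 => ?_
  obtain ⟨A, Q, hQ0, hA, hj, hQ1, hQ2⟩ := hα j (by omega)
  have hQr : (0 : ℝ) < Q := by exact_mod_cast hQ0
  set i := j.1 + 1 with hi
  set ρ := 4 * (rd r : ℝ) with hρ
  have hρ1 : 1 ≤ ρ := by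
    have : (1 : ℝ) ≤ rd r := by exact_mod_cast rd_pos r
    rw [hρ]; linarith
  have hρ0 : 0 < ρ := by linarith
  refine ⟨A, Q, hA, hj, ?_, ?_⟩
  · -- lower bound
    have h1 : (r : ℝ) ≤ Q * (ρ ^ i * t ^ (2 * i)) := by
      calc (r : ℝ) ≤ (Q : ℝ) * (d : ℝ) ^ i := by exact_mod_cast hQ1
        _ ≤ (Q : ℝ) * (ρ * t ^ 2) ^ i := by gcongr
        _ = _ := by rw [mul_pow, ← pow_mul]
    have h2 : 3 * t ^ (3 * m) * (ρ ^ i * t ^ (2 * i)) ≤ (r : ℝ) := by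
      have h3 : ρ ^ i ≤ t ^ m := by
        calc ρ ^ i ≤ ρ ^ (18 * m) := pow_le_pow_right₀ hρ1 (by omega)
          _ = (ρ ^ 18) ^ m := by rw [pow_mul]
          _ ≤ t ^ m := pow_le_pow_left₀ (by positivity) hrad _
      have h4 : (3 : ℝ) ≤ t ^ 2 := by nlinarith
      calc 3 * t ^ (3 * m) * (ρ ^ i * t ^ (2 * i)) ≤ t ^ 2 * t ^ (3 * m) * (t ^ m * t ^ (2 * i)) := by
            gcongr
        _ = t ^ (2 + 3 * m + (m + 2 * i)) := by rw [← pow_add, ← pow_add, ← pow_add]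
        _ ≤ t ^ (22 * m) := pow_le_pow_right₀ ht1 (by omega)
        _ = r := htr
    have h5 : 0 < ρ ^ i * t ^ (2 * i) := by positivity
    exact le_of_mul_le_mul_right (h2.trans h1) h5
  · -- upper bound
    have h1 : (Q : ℝ) ^ (11 * m) ≤ ((i : ℝ) * t ^ (2 * (11 * m - i))) ^ (11 * m) := by
      calc (Q : ℝ) ^ (11 * m) ≤ (i : ℝ) ^ (11 * m) * (r : ℝ) ^ (11 * m - i) := by exact_mod_cast hQ2
        _ = _ := by
          rw [← htr, mul_pow, ← pow_mul, ← pow_mul]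
          congr 2
          ring
    have h2 : (Q : ℝ) ≤ (i : ℝ) * t ^ (2 * (11 * m - i)) :=
      le_of_pow_le_pow_left₀ (by omega) (by positivity) h1
    have h3 : (i : ℝ) ≤ t := by
      have : (i : ℝ) ≤ ((9 * m : ℕ) : ℝ) := by exact_mod_cast hj2.le
      push_cast at this
      linarith
    calc (Q : ℝ) ≤ (i : ℝ) * t ^ (2 * (11 * m - i)) := h2
      _ ≤ t * t ^ (8 * m) := by
          refine mul_le_mul h3 (pow_le_pow_right₀ ht1 (by omega)) (by positivity) ht0.le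
      _ = t ^ (8 * m + 1) := by rw [pow_succ]; ring

theorem shift_main {r : ℕ} (hr : 1 < r) {χ : DirichletCharacter ℂ r} (hχ : χ.IsPrimitive)
    {m : ℕ} (hm : 12 ≤ m) {t : ℝ} (ht : 2 ^ 200 ≤ t) (htr : t ^ (22 * m) = r)
    (htm : 9 * (m : ℝ) ≤ t) (hrad : (4 * (rd r : ℝ)) ^ 18 ≤ t) {N : ℕ} (hN : t ^ 6 ≤ N) :
    ‖∑ n ∈ Icc 1 N, χ (n : ZMod r)‖ ≤ 4 * N * t ^ (-(1 / (800000 * (m : ℝ) ^ 2))) := by
  have ht100 : (128 : ℝ) ≤ t := le_trans (by norm_num) ht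
  have ht1 : (1 : ℝ) ≤ t := by linarith
  have ht0 : 0 < t := by linarith
  have hmr : (12 : ℝ) ≤ m := by exact_mod_cast hm
  obtain ⟨d, hd0, hd1, hd2, hd3⟩ := phase hr hχ hm
  have hdr : (d : ℝ) ≤ 4 * rd r * t ^ 2 := by
    have h1 : (d : ℝ) ^ (11 * m) ≤ (4 * rd r * t ^ 2) ^ (11 * m) := by
      calc (d : ℝ) ^ (11 * m) ≤ 4 ^ (11 * m) * (r * (rd r : ℝ) ^ (11 * m)) := by
            exact_mod_cast hd2
        _ = _ := by
            rw [← htr, mul_pow, mul_pow, ← pow_mul]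
            rw [show 2 * (11 * m) = 22 * m by ring]
            ring
    exact le_of_pow_le_pow_left₀ (by omega) (by positivity) h1
  obtain ⟨U, hU⟩ : ∃ U : ℕ, U = ⌊t⌋₊ := ⟨_, rfl⟩
  have hU1 : (U : ℝ) ≤ t := by rw [hU]; exact Nat.floor_le ht0.le
  have hU2 : t ≤ 2 * U := by
    have := Nat.lt_floor_add_one t
    rw [← hU] at this
    linarith
  have hU0 : (0 : ℝ) < U := by linarith
  set δ := 1 / (800000 * (m : ℝ) ^ 2) with hδ
  have hδ1 : δ ≤ 1 := by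
    rw [hδ, div_le_one (by positivity)]
    nlinarith
  have htd : 0 < t ^ (-δ) := Real.rpow_pos_of_pos ht0 _
  set I := Finset.Icc (1 : ℤ) U with hI
  have hIcard : (#I : ℝ) = U := by rw [hI]; simp
  set f : ℕ → ℂ := fun n => χ (n : ZMod r) with hf
  have hf1 : ∀ n, ‖f n‖ ≤ 1 := fun n => DirichletCharacter.norm_le_one χ _
  -- the pointwise bound
  have hpt : ∀ n ∈ Ioc 0 N, ‖∑ u ∈ I, ∑ v ∈ I, f (n + d * (u.toNat * v.toNat))‖ ≤
      2 * (U : ℝ) ^ 2 * t ^ (-δ) := by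
    intro n _
    by_cases hn : n.Coprime r
    · obtain ⟨α, hα1, hα2⟩ := hd3 n (Nat.isCoprime_iff_coprime.2 hn)
      have h1 : ∑ u ∈ I, ∑ v ∈ I, f (n + d * (u.toNat * v.toNat)) = χ (n : ZMod r) *
          ∑ u ∈ I, ∑ v ∈ I, e (∑ j, α j * (u : ℝ) ^ (j.1 + 1) * (v : ℝ) ^ (j.1 + 1)) := by
        rw [mul_sum]
        refine sum_congr rfl fun u hu => ?_
        rw [mul_sum]
        refine sum_congr rfl fun v hv => ?_
        rw [hI, Finset.mem_Icc] at hu hv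
        obtain ⟨u', rfl⟩ := Int.eq_ofNat_of_zero_le (by omega : 0 ≤ u)
        obtain ⟨v', rfl⟩ := Int.eq_ofNat_of_zero_le (by omega : 0 ≤ v)
        have h2 := hα1 ((u' : ℤ) * v')
        have h3 : (((n : ℤ) + d * ((u' : ℤ) * v') : ℤ) : ZMod r) =
            ((n + d * (u' * v') : ℕ) : ZMod r) := by push_cast; rfl
        rw [h3] at h2
        simp only [hf, Int.toNat_natCast]
        rw [h2]
        congr 1
        · simp
        · congr 1
          refine sum_congr rfl fun j _ => ?_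
          push_cast
          rw [mul_pow]; ring
      rw [h1, norm_mul]
      have h2 := inner_le hm ht htr htm hrad hdr hU1 hU2 α hα2
      calc _ ≤ 1 * ‖∑ u ∈ I, ∑ v ∈ I, e (∑ j, α j * (u : ℝ) ^ (j.1 + 1) * (v : ℝ) ^ (j.1 + 1))‖ :=
            mul_le_mul_of_nonneg_right (DirichletCharacter.norm_le_one χ _) (norm_nonneg _)
        _ ≤ _ := by rw [one_mul]; exact h2
    · have h1 : ∑ u ∈ I, ∑ v ∈ I, f (n + d * (u.toNat * v.toNat)) = 0 := by
        refine sum_eq_zero fun u _ => sum_eq_zero fun v _ => ?_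
        obtain ⟨p, hp, hpn, hpr⟩ := Nat.Prime.not_coprime_iff_dvd.1 hn
        have hpd := hd1 p hp hpr
        refine MulChar.map_nonunit _ ?_
        rw [ZMod.isUnit_iff_coprime]
        refine Nat.Prime.not_coprime_iff_dvd.2 ⟨p, hp, ?_, hpr⟩
        exact dvd_add hpn (hpd.mul_right _)
      rw [h1, norm_zero]
      positivity
  -- averaging
  have hIcc : Icc 1 N = Ioc 0 N := by
    ext n; rw [Finset.mem_Icc, Finset.mem_Ioc]; omega
  rw [hIcc]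
  set S := ∑ n ∈ Ioc 0 N, χ (n : ZMod r) with hS
  have hav : (U : ℝ) ^ 2 * ‖S‖ ≤ (U : ℝ) ^ 2 * (2 * (d * (U : ℝ) ^ 2)) +
      N * (2 * (U : ℝ) ^ 2 * t ^ (-δ)) := by
    have e1 : ((U : ℂ)) ^ 2 * S =
        ∑ u ∈ I, ∑ v ∈ I, (S - ∑ n ∈ Ioc 0 N, f (n + d * (u.toNat * v.toNat))) +
        ∑ n ∈ Ioc 0 N, ∑ u ∈ I, ∑ v ∈ I, f (n + d * (u.toNat * v.toNat)) := by
      have e2 : ∑ n ∈ Ioc 0 N, ∑ u ∈ I, ∑ v ∈ I, f (n + d * (u.toNat * v.toNat)) =
          ∑ u ∈ I, ∑ v ∈ I, ∑ n ∈ Ioc 0 N, f (n + d * (u.toNat * v.toNat)) := by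
        rw [sum_comm]
        exact sum_congr rfl fun u _ => sum_comm
      rw [e2, ← sum_add_distrib]
      simp_rw [← sum_add_distrib, sub_add_cancel, sum_const, nsmul_eq_mul]
      have : (#I : ℂ) = U := by exact_mod_cast hIcard
      rw [this]; ring
    have e3 : ‖(U : ℂ) ^ 2 * S‖ = (U : ℝ) ^ 2 * ‖S‖ := by
      rw [norm_mul, norm_pow, Complex.norm_natCast]
    rw [← e3, e1]
    refine (norm_add_le _ _).trans (add_le_add ?_ ?_)
    · refine (norm_sum_le _ _).trans ?_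
      have h1 : ∀ u ∈ I, ‖∑ v ∈ I, (S - ∑ n ∈ Ioc 0 N, f (n + d * (u.toNat * v.toNat)))‖ ≤
          U * (2 * (d * (U : ℝ) ^ 2)) := by
        intro u hu
        rw [← hIcard, ← nsmul_eq_mul]
        refine (norm_sum_le _ _).trans (sum_le_card_nsmul _ _ _ fun v hv => ?_)
        rw [hI, Finset.mem_Icc] at hu hv
        rw [hIcard]
        have h2 := shift_le f hf1 (Nat.zero_le N) (d * (u.toNat * v.toNat))
        refine h2.trans ?_
        refine mul_le_mul_of_nonneg_left ?_ (by norm_num)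
        have hu' : u.toNat ≤ U := by omega
        have hv' : v.toNat ≤ U := by omega
        have h3 : d * (u.toNat * v.toNat) ≤ d * U ^ 2 := by
          rw [sq]; exact Nat.mul_le_mul_left _ (Nat.mul_le_mul hu' hv')
        exact_mod_cast h3
      refine (sum_le_card_nsmul _ _ _ h1).trans ?_
      rw [nsmul_eq_mul, hIcard]
      exact le_of_eq (by ring)
    · refine (norm_sum_le _ _).trans ((sum_le_card_nsmul _ _ _ hpt).trans ?_)
      rw [nsmul_eq_mul, Nat.card_Ioc, Nat.sub_zero]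
  have h6 : ‖S‖ ≤ 2 * (d * (U : ℝ) ^ 2) + N * (2 * t ^ (-δ)) := by
    have hU2p : (0 : ℝ) < (U : ℝ) ^ 2 := by positivity
    refine le_of_mul_le_mul_left (hav.trans (le_of_eq ?_)) hU2p
    ring
  refine h6.trans ?_
  have h7 : t⁻¹ ≤ t ^ (-δ) := by
    rw [← Real.rpow_neg_one]
    exact Real.rpow_le_rpow_of_exponent_le ht1 (by linarith)
  have hρt : 4 * (rd r : ℝ) ≤ t := by
    have h1 : (1 : ℝ) ≤ rd r := by exact_mod_cast rd_pos r
    exact (le_self_pow₀ (by linarith : (1 : ℝ) ≤ 4 * rd r) (by norm_num)).trans hrad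
  have h8 : (d : ℝ) * (U : ℝ) ^ 2 ≤ t ^ 5 := by
    calc (d : ℝ) * (U : ℝ) ^ 2 ≤ (t * t ^ 2) * t ^ 2 := by
          refine mul_le_mul (hdr.trans ?_) (pow_le_pow_left₀ hU0.le hU1 2) (by positivity)
            (by positivity)
          exact mul_le_mul_of_nonneg_right hρt (by positivity)
      _ = t ^ 5 := by ring
  have h9 : t ^ 5 ≤ N * t⁻¹ := by
    rw [← div_eq_mul_inv, le_div_iff₀ ht0]
    have : t ^ 5 * t = t ^ 6 := by ring
    rw [this]
    exact hN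
  have h10 : (N : ℝ) * t⁻¹ ≤ N * t ^ (-δ) := mul_le_mul_of_nonneg_left h7 (Nat.cast_nonneg _)
  calc 2 * (d * (U : ℝ) ^ 2) + N * (2 * t ^ (-δ)) ≤ 2 * (N * t ^ (-δ)) + N * (2 * t ^ (-δ)) := by
        linarith
    _ = _ := by ring

end

end Pool.Agent.PW
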