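import Pool.Agent.Work.BV.Lower

/-! # ZetaAux: the sum of `m^(-σ)` over the integers coprime to a modulus all of whose prime
factors are `≤ y` -/

namespace Pool.Agent.PW

open Finset

/-- partial sums of `n^(-σ)` near `1` -/
lemma harm_rpow_ge {y : ℕ} (hy : 3 ≤ y) {σ : ℝ} (h2 : (σ - 1) * Real.log y ≤ 1) :
    Real.exp (-1) * Real.log y ≤ ∑ n ∈ Icc 1 y, 1 / (n : ℝ) ^ σ := by
  have hy0 : (0 : ℝ) < y := by exact_mod_cast (by omega : 0 < y)
  have h3 : Real.log y ≤ ∑ n ∈ Icc 1 y, 1 / (n : ℝ) := by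
    have h4 := log_add_one_le_harmonic y
    have h5 : ((harmonic y : ℚ) : ℝ) = ∑ n ∈ Icc 1 y, 1 / (n : ℝ) := by
      rw [harmonic_eq_sum_Icc]
      push_cast
      simp
    rw [← h5]
    refine le_trans (Real.log_le_log hy0 ?_) h4
    push_cast
    linarith
  rw [show Real.exp (-1) * Real.log y = Real.log y * Real.exp (-1) by ring]
  refine le_trans (mul_le_mul_of_nonneg_right h3 (Real.exp_pos _).le) ?_
  rw [sum_mul]
  refine sum_le_sum fun n hn => ?_
  rw [mem_Icc] at hn
  have hn1 : (1 : ℝ) ≤ n := by exact_mod_cast hn.1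
  have hn0 : (0 : ℝ) < n := by linarith
  have hny : (n : ℝ) ≤ y := by exact_mod_cast hn.2
  have hlog : 0 ≤ Real.log n := Real.log_nonneg hn1
  have hlog2 : Real.log n ≤ Real.log y := Real.log_le_log hn0 hny
  rw [Real.rpow_def_of_pos hn0, one_div, one_div, ← Real.exp_neg]
  have h6 : (n : ℝ)⁻¹ = Real.exp (-Real.log n) := by
    rw [Real.exp_neg, Real.exp_log hn0]
  rw [h6, ← Real.exp_add]
  apply Real.exp_le_exp.2
  have h7 : (σ - 1) * Real.log n ≤ 1 := by
    rcases le_total 0 (σ - 1) with h | h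
    · exact (mul_le_mul_of_nonneg_left hlog2 h).trans h2
    · nlinarith
  nlinarith

open Classical in
/-- the sum over the rough integers -/
noncomputable def roughZ (R : ℕ) (σ : ℝ) : ℝ :=
  ∑' m : ℕ, if m.Coprime R then 1 / (m : ℝ) ^ σ else 0

open Classical in
lemma roughZ_summable (R : ℕ) {σ : ℝ} (h1 : 1 < σ) :
    Summable (fun m : ℕ => if m.Coprime R then 1 / (m : ℝ) ^ σ else 0) := by
  refine Summable.of_nonneg_of_le (fun m => ?_) (fun m => ?_)
    (Real.summable_one_div_nat_rpow.2 h1)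
  · split_ifs
    · positivity
    · exact le_rfl
  · split_ifs
    · exact le_rfl
    · positivity

open Classical in
lemma roughZ_mul_le {y R : ℕ}
    (hp : ∀ p : ℕ, p.Prime → p ≤ y → p ∣ R) {σ : ℝ} (h1 : 1 < σ) (h2 : σ ≤ 2) :
    (∑ n ∈ Icc 1 y, 1 / (n : ℝ) ^ σ) * roughZ R σ ≤ 2 / (σ - 1) := by
  set H : ℝ := ∑ n ∈ Icc 1 y, 1 / (n : ℝ) ^ σ with hH
  have hH0 : 0 ≤ H := sum_nonneg fun n _ => by positivity
  unfold roughZ
  rw [← tsum_mul_left]
  refine Real.tsum_le_of_sum_le (fun m => ?_) (fun F => ?_)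
  · refine mul_nonneg hH0 ?_
    split_ifs
    · positivity
    · exact le_rfl
  · rw [← mul_sum, ← sum_filter, hH, sum_mul_sum, ← sum_product']
    set G := F.filter (fun m => m.Coprime R) with hG
    have hmul : ∀ p ∈ Icc 1 y ×ˢ G, 1 / (p.1 : ℝ) ^ σ * (1 / (p.2 : ℝ) ^ σ) =
        1 / (((p.1 * p.2 : ℕ) : ℝ)) ^ σ := by
      intro p _
      push_cast
      rw [Real.mul_rpow (by positivity) (by positivity)]
      field_simp
    rw [sum_congr rfl hmul]
    have hinj : Set.InjOn (fun p : ℕ × ℕ => p.1 * p.2) (↑(Icc 1 y ×ˢ G) : Set (ℕ × ℕ)) := by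
      rintro ⟨a, m⟩ hp1 ⟨b, n⟩ hp2 heq
      simp only [coe_product, Set.mem_prod, mem_coe, mem_Icc, hG, mem_filter] at hp1 hp2 heq
      obtain ⟨⟨ha1, hay⟩, -, hm⟩ := hp1
      obtain ⟨⟨hb1, hby⟩, -, hn⟩ := hp2
      have hcop : ∀ a' m' : ℕ, 1 ≤ a' → a' ≤ y → m'.Coprime R → a'.Coprime m' := by
        intro a' m' h1' h2' h3'
        rw [Nat.coprime_iff_gcd_eq_one] 
        by_contra hne
        obtain ⟨p, hpp, hpd⟩ := Nat.exists_prime_and_dvd hne
        have hpa : p ∣ a' := hpd.trans (Nat.gcd_dvd_left _ _)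
        have hpm : p ∣ m' := hpd.trans (Nat.gcd_dvd_right _ _)
        have hpR : p ∣ R := hp p hpp ((Nat.le_of_dvd (by omega) hpa).trans h2')
        have := Nat.dvd_gcd hpm hpR
        rw [h3'] at this
        exact hpp.one_lt.ne' (Nat.dvd_one.1 this)
      have hab : a ∣ b := by
        have h3 : a ∣ b * n := by rw [← heq]; exact dvd_mul_right _ _
        exact (hcop a n ha1 hay hn).dvd_of_dvd_mul_right h3
      have hba : b ∣ a := by
        have h3 : b ∣ a * m := by rw [heq]; exact dvd_mul_right _ _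
        exact (hcop b m hb1 hby hm).dvd_of_dvd_mul_right h3
      have h4 : a = b := Nat.dvd_antisymm hab hba
      subst h4
      have h5 : m = n := Nat.eq_of_mul_eq_mul_left (by omega) heq
      rw [h5]
    rw [← sum_image (f := fun n : ℕ => 1 / (n : ℝ) ^ σ) (g := fun p : ℕ × ℕ => p.1 * p.2) hinj]
    refine le_trans ?_ (Pool.Agent.BV.lower_zeta h1 h2)
    exact (Real.summable_one_div_nat_rpow.2 h1).sum_le_tsum _ (fun n _ => by positivity)

lemma roughZ_nonneg (R : ℕ) (σ : ℝ) : 0 ≤ roughZ R σ := by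
  unfold roughZ
  exact tsum_nonneg fun m => by
    split_ifs
    · positivity
    · exact le_rfl

lemma roughZ_anti (R : ℕ) {σ τ : ℝ} (h1 : 1 < σ) (h : σ ≤ τ) : roughZ R τ ≤ roughZ R σ := by
  unfold roughZ
  refine (roughZ_summable R (by linarith)).tsum_le_tsum (fun m => ?_) (roughZ_summable R h1)
  split_ifs with hm
  · rcases Nat.eq_zero_or_pos m with rfl | hm0
    · rw [Nat.cast_zero, Real.zero_rpow (by linarith), Real.zero_rpow (by linarith)]
    · have : (1 : ℝ) ≤ m := by exact_mod_cast hm0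
      gcongr
  · exact le_rfl

/-- Mertens' upper bound for the rough zeta function -/
theorem roughZ_le {y R : ℕ} (hy : 3 ≤ y)
    (hp : ∀ p : ℕ, p.Prime → p ≤ y → p ∣ R) {σ : ℝ} (h1 : 1 < σ) (h2 : σ ≤ 2) :
    roughZ R σ ≤ 6 * (1 + 1 / ((σ - 1) * Real.log y)) := by
  have hy0 : (0 : ℝ) < y := by exact_mod_cast (by omega : 0 < y)
  have hlog : 1 ≤ Real.log y := by
    rw [Real.le_log_iff_exp_le hy0]
    have h3 := Real.exp_one_lt_d9
    have h4 : (3 : ℝ) ≤ y := by exact_mod_cast hy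
    linarith
  have key : ∀ τ : ℝ, 1 < τ → τ ≤ 2 → (τ - 1) * Real.log y ≤ 1 →
      roughZ R τ ≤ 6 * (1 / ((τ - 1) * Real.log y)) := by
    intro τ h3 h4 h5
    have h6 := roughZ_mul_le (y := y) hp h3 h4
    have h7 := harm_rpow_ge hy h5
    have h8 : Real.exp (-1) * Real.log y * roughZ R τ ≤ 2 / (τ - 1) :=
      (mul_le_mul_of_nonneg_right h7 (roughZ_nonneg R τ)).trans h6
    have h9 : Real.exp 1 < 2.7182818286 := Real.exp_one_lt_d9
    have h10 : Real.exp (-1) * Real.exp 1 = 1 := by rw [← Real.exp_add]; simp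
    have h11 : 0 < τ - 1 := by linarith
    have h12 : 0 < Real.log y := by linarith
    have h13 : roughZ R τ = Real.exp 1 / Real.log y * (Real.exp (-1) * Real.log y * roughZ R τ) := by
      have : Real.exp 1 / Real.log y * (Real.exp (-1) * Real.log y * roughZ R τ) =
          (Real.exp (-1) * Real.exp 1) * roughZ R τ := by field_simp
      rw [this, h10, one_mul]
    rw [h13]
    calc Real.exp 1 / Real.log y * (Real.exp (-1) * Real.log y * roughZ R τ)
        ≤ Real.exp 1 / Real.log y * (2 / (τ - 1)) := by gcongr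
      _ = 2 * Real.exp 1 * (1 / ((τ - 1) * Real.log y)) := by field_simp
      _ ≤ 6 * (1 / ((τ - 1) * Real.log y)) := by
          apply mul_le_mul_of_nonneg_right _ (by positivity)
          linarith
  rcases le_total ((σ - 1) * Real.log y) 1 with h | h
  · refine (key σ h1 h2 h).trans ?_
    linarith
  · have h3 : 0 < 1 / Real.log y := by positivity
    have h4 : 1 / Real.log y ≤ σ - 1 := by
      rw [div_le_iff₀ (by linarith)]; linarith
    have h5 := key (1 + 1 / Real.log y) (by linarith) (by linarith) (by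
      rw [add_sub_cancel_left, one_div, inv_mul_cancel₀ (by linarith)])
    have h6 := roughZ_anti R (σ := 1 + 1 / Real.log y) (τ := σ) (by linarith) (by linarith)
    have h7 : (1 + 1 / Real.log y - 1) * Real.log y = 1 := by
      rw [add_sub_cancel_left, one_div, inv_mul_cancel₀ (by linarith)]
    rw [h7] at h5
    have h8 : 0 ≤ 1 / ((σ - 1) * Real.log y) := by positivity
    linarith

end Pool.Agent.PW
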