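import Pool.Agent.Work.MP_92f640_nt.PW.RoughCount
import Pool.Agent.Work.MP_92f640_nt.PW.RoughH

/-! # Cell PW: the rough zeta function off the real axis

`1_{(n,R)=1} = V + e(n)`, `V = ∏_{p ≤ y} (1 - 1/p) ≤ C/log y`, partial sums of `e` from `rough_count`, cut at
`Z = ⌈exp (60 W log y)⌉`: head `rough_harm`, tail `abel_tail` and `LBound_zeta_tail`. -/

namespace Pool.Agent.PW

open Finset Pool.Agent.BV

theorem zetaT : ∃ C : ℝ, 0 < C ∧ ∃ y₁ : ℕ, ∀ y R : ℕ, y₁ ≤ y → RM y R → ∀ [NeZero R],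
    ∀ s : ℂ, 1 < s.re → s.re ≤ 2 → s.im ≠ 0 →
    ‖(1 : DirichletCharacter ℂ R).LFunction s‖ ≤
      C * (WW y s.im + 1 / (|s.im| * Real.log y)) := by
  obtain ⟨C1, hC1, y1, h1⟩ := rough_harm
  obtain ⟨C2, hC2, h2⟩ := rough_count
  obtain ⟨C3, hC3, h3⟩ := VP_le
  refine ⟨61 * C1 + 12 * C2 + 2 * C3 + C3, by positivity, max y1 27,
    fun y R hy hR _ s hs1 hs2 hs0 => ?_⟩
  have hy1 : y1 ≤ y := (le_max_left _ _).trans hy
  have hy27 : 27 ≤ y := (le_max_right _ _).trans hy
  have hy0 : (0 : ℝ) < y := by exact_mod_cast (by omega : 0 < y)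
  set l : ℝ := Real.log y with hl
  have hl3 : 3 ≤ l := by
    rw [hl, Real.le_log_iff_exp_le hy0]
    have h4 : Real.exp 3 = Real.exp 1 ^ 3 := by rw [← Real.exp_nat_mul]; norm_num
    rw [h4]
    have h5 : Real.exp 1 < 3 := by linarith [Real.exp_one_lt_d9]
    calc Real.exp 1 ^ 3 ≤ 3 ^ 3 := by gcongr
      _ = 27 := by norm_num
      _ ≤ y := by exact_mod_cast hy27
  have hl0 : 0 < l := by linarith
  set t : ℝ := s.im with ht
  have ht0 : 0 ≤ |t| := abs_nonneg t
  set W : ℝ := WW y t with hW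
  have hlogl : 1 ≤ Real.log l := by
    rw [Real.le_log_iff_exp_le hl0]
    linarith [Real.exp_one_lt_d9]
  have hlogt : 1 ≤ Real.log (|t| + 3) := by
    rw [Real.le_log_iff_exp_le (by linarith)]
    linarith [Real.exp_one_lt_d9]
  have hWdef : W = Real.log l + Real.log (|t| + 3) := rfl
  have hW2 : 2 ≤ W := by rw [hWdef]; linarith
  have hW1 : 1 ≤ W := by linarith
  have hexpW : Real.exp W = l * (|t| + 3) := by
    rw [hWdef, Real.exp_add, Real.exp_log hl0, Real.exp_log (by linarith)]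
  -- the cut
  set Z : ℕ := ⌈Real.exp (60 * W * l)⌉₊ with hZ
  have hZle : Real.exp (60 * W * l) ≤ Z := Nat.le_ceil _
  have hZlt : (Z : ℝ) < Real.exp (60 * W * l) + 1 :=
    Nat.ceil_lt_add_one (Real.exp_pos _).le
  have hWl : W + l ≤ 60 * W * l := by nlinarith
  have hZ1 : Real.exp (W + l) ≤ Z := (Real.exp_le_exp.2 hWl).trans hZle
  have hZy : (y : ℝ) ≤ Z := by
    refine le_trans ?_ hZ1
    rw [Real.exp_add, Real.exp_log hy0]
    refine le_mul_of_one_le_left hy0.le ?_
    exact Real.one_le_exp (by linarith)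
  have hZW : l * (|t| + 3) ≤ Z := by
    rw [← hexpW]
    exact (Real.exp_le_exp.2 (by linarith)).trans hZ1
  have hZyN : y ≤ Z := by exact_mod_cast hZy
  have hZ0 : (0 : ℝ) < Z := by linarith
  have hlogZ : Real.log Z ≤ 61 * W * l := by
    have h4 : (Z : ℝ) ≤ Real.exp (61 * W * l) := by
      have h5 : Real.exp (61 * W * l) = Real.exp (60 * W * l) * Real.exp (W * l) := by
        rw [← Real.exp_add]; ring_nf
      have h6 : (2 : ℝ) ≤ Real.exp (W * l) := by
        have := Real.add_one_le_exp (W * l)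
        nlinarith
      have h7 : (1 : ℝ) ≤ Real.exp (60 * W * l) := Real.one_le_exp (by positivity)
      rw [h5]
      nlinarith
    calc Real.log Z ≤ Real.log (Real.exp (61 * W * l)) := Real.log_le_log hZ0 h4
      _ = 61 * W * l := Real.log_exp _
  set β : ℝ := 1 / (4 * l) with hβ
  have hβ0 : 0 < β := by positivity
  have hβ1 : β ≤ 1 := by
    rw [hβ, div_le_one (by positivity)]; linarith
  have hZβ : (Z : ℝ) ^ (-β) ≤ 1 / (l * (|t| + 3)) ^ 15 := by
    have h4 : (Z : ℝ) ^ (-β) ≤ (Real.exp (60 * W * l)) ^ (-β) :=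
      Real.rpow_le_rpow_of_nonpos (Real.exp_pos _) hZle (by linarith)
    refine h4.trans (le_of_eq ?_)
    rw [← Real.exp_mul, ← hexpW, ← Real.exp_nat_mul, one_div, ← Real.exp_neg]
    congr 1
    rw [hβ]
    field_simp
    norm_num
  -- the series
  rw [DirichletCharacter.LFunction_eq_LSeries _ hs1]
  have hind : ∀ n : ℕ, (1 : DirichletCharacter ℂ R) (n : ZMod R) =
      ((if ∀ p ∈ prs y, ¬ p ∣ n then (1 : ℝ) else 0 : ℝ) : ℂ) := by
    intro n
    split_ifs with hn
    · rw [MulChar.one_apply ((ZMod.isUnit_iff_coprime n R).2 ((hR.coprime_iff n).2 hn))]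
      simp
    · rw [MulChar.map_nonunit _ (fun h => hn ((hR.coprime_iff n).1
        ((ZMod.isUnit_iff_coprime n R).1 h)))]
      simp
  refine LBound_le_of_partial
    (DirichletCharacter.LSeriesSummable_of_one_lt_re (1 : DirichletCharacter ℂ R) hs1) Z ?_
  intro M hM
  rw [← Finset.sum_Ioc_consecutive _ (Nat.zero_le Z) hM]
  set V : ℝ := VP y with hV
  have hV0 : 0 ≤ V := VP_nonneg y
  have hVle : V ≤ C3 / l := h3 y (by omega)
  have hhead : ‖∑ n ∈ Ioc 0 Z, (1 : DirichletCharacter ℂ R) (n : ZMod R) * (n : ℂ) ^ (-s)‖ ≤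
      61 * C1 * W := by
    refine (norm_sum_le _ _).trans ?_
    have e0 : Ioc 0 Z = Icc 1 Z := by ext; simp only [mem_Icc, mem_Ioc]; omega
    have h4 := h1 y R Z hy1 hR hZyN
    rw [← hl] at h4
    have h5 : ∑ n ∈ Ioc 0 Z, ‖(1 : DirichletCharacter ℂ R) (n : ZMod R) * (n : ℂ) ^ (-s)‖ ≤
        ∑ n ∈ (Icc 1 Z).filter (fun n => n.Coprime R), (1 : ℝ) / n := by
      rw [e0, sum_filter]
      refine sum_le_sum fun n hn => ?_
      rw [mem_Icc] at hn
      rw [norm_mul, hind]
      have h6 := LBound_cpow_norm hs1.le hn.1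
      have h7 := hR.coprime_iff n
      by_cases hc : n.Coprime R
      · rw [if_pos hc, if_pos (h7.1 hc)]
        simpa using h6
      · rw [if_neg hc, if_neg (fun h => hc (h7.2 h))]
        simp
    refine h5.trans (h4.trans ?_)
    have h8 : Real.log Z / l ≤ 61 * W := by
      rw [div_le_iff₀ hl0]; exact hlogZ
    calc C1 * (Real.log Z / l) ≤ C1 * (61 * W) := by gcongr
      _ = _ := by ring
  have hsplit : ∑ n ∈ Ioc Z M, (1 : DirichletCharacter ℂ R) (n : ZMod R) * (n : ℂ) ^ (-s) =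
      ∑ n ∈ Ioc Z M, ((1 : DirichletCharacter ℂ R) (n : ZMod R) - (V : ℂ)) * (n : ℂ) ^ (-s) +
        (V : ℂ) * ∑ n ∈ Ioc Z M, (n : ℂ) ^ (-s) := by
    rw [mul_sum, ← sum_add_distrib]
    exact sum_congr rfl fun n _ => by ring
  have hZ3 : 3 ≤ Z := by omega
  have hsn : ‖s‖ ≤ |t| + 3 := by
    have := Complex.norm_le_abs_re_add_abs_im s
    rw [abs_of_pos (by linarith : (0 : ℝ) < s.re)] at this
    linarith
  have htail1 : ‖∑ n ∈ Ioc Z M, ((1 : DirichletCharacter ℂ R) (n : ZMod R) - (V : ℂ)) *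
      (n : ℂ) ^ (-s)‖ ≤ 12 * C2 * W := by
    have h4 := abel_tail (fun n : ℕ => (1 : DirichletCharacter ℂ R) (n : ZMod R) - (V : ℂ))
      (C2 * l ^ 2) β hβ0 hβ1 (by positivity) (by
        intro N hN
        have h5 := h2 y N (by omega) hN
        have hN0 : (0 : ℝ) < N := by exact_mod_cast hN
        have h6 : ∑ n ∈ Icc 1 N, ((1 : DirichletCharacter ℂ R) (n : ZMod R) - (V : ℂ)) =
            ((∑ n ∈ Icc 1 N, (if ∀ p ∈ prs y, ¬ p ∣ n then (1 : ℝ) else 0) - N * V : ℝ) : ℂ) := by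
          rw [sum_sub_distrib, Complex.ofReal_sub, Complex.ofReal_sum]
          congr 1
          · exact sum_congr rfl fun n _ => hind n
          · simp
        rw [h6, Complex.norm_real, Real.norm_eq_abs]
        refine h5.trans (le_of_eq ?_)
        have h7 : Real.exp (-(Real.log N / (4 * Real.log y))) = (N : ℝ) ^ (-β) := by
          rw [Real.rpow_def_of_pos hN0, hβ, ← hl]
          congr 1
          field_simp
        rw [h7, show (1 - β) = 1 + -β by ring, Real.rpow_add hN0, Real.rpow_one]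
        ring) s hs1 Z M hZ3 hM
    refine h4.trans ?_
    have h7 : 1 ≤ l * (|t| + 3) := by
      have : 3 * 3 ≤ l * (|t| + 3) := mul_le_mul hl3 (by linarith) (by norm_num) hl0.le
      linarith
    have h5 : 1 + ‖s‖ / β ≤ 5 * (l * (|t| + 3)) := by
      have h6 : ‖s‖ / β = 4 * (l * ‖s‖) := by rw [hβ]; field_simp
      have h8 : l * ‖s‖ ≤ l * (|t| + 3) := mul_le_mul_of_nonneg_left hsn hl0.le
      rw [h6]
      linarith
    have hlu0 : l ≤ l * (|t| + 3) := le_mul_of_one_le_right hl0.le (by linarith)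
    clear_value β
    generalize hu : l * (|t| + 3) = u at *
    have hlu : l ≤ u := hlu0
    have hu0 : 0 < u := by linarith
    have hns : 0 ≤ 1 + ‖s‖ / β := by positivity
    calc 2 * (C2 * l ^ 2) * (1 + ‖s‖ / β) * (Z : ℝ) ^ (-β)
        ≤ 2 * (C2 * u ^ 2) * (5 * u) * (1 / u ^ 15) := by gcongr
      _ = 10 * C2 * (1 / u ^ 12) := by
          field_simp
          norm_num
      _ ≤ 10 * C2 * 1 := by
          have : 1 / u ^ 12 ≤ 1 := by
            rw [div_le_one (by positivity)]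
            exact one_le_pow₀ h7
          gcongr
      _ ≤ 12 * C2 * W := by
          have : C2 * 1 ≤ C2 * W := mul_le_mul_of_nonneg_left hW1 hC2.le
          linarith
  have htail2 : ‖(V : ℂ) * ∑ n ∈ Ioc Z M, (n : ℂ) ^ (-s)‖ ≤
      2 * C3 * (1 / (|t| * l)) + C3 * W := by
    have h4 := LBound_zeta_tail hs1 Z M (by omega) hM
    rw [norm_mul, Complex.norm_real, Real.norm_eq_abs, abs_of_nonneg hV0]
    have htp : 0 < |t| := abs_pos.2 hs0
    have h5 : |t| ≤ ‖s - 1‖ := by
      have := Complex.abs_im_le_norm (s - 1)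
      simpa using this
    have h6 : 2 / ‖s - 1‖ ≤ 2 / |t| := by gcongr
    have h7 : ‖s‖ / Z ≤ 1 := by
      rw [div_le_one hZ0]
      refine hsn.trans (le_trans ?_ hZW)
      exact le_mul_of_one_le_left (by linarith) (by linarith)
    calc V * ‖∑ n ∈ Ioc Z M, (n : ℂ) ^ (-s)‖ ≤ C3 / l * (2 / |t| + 1) := by
          have h8 : ‖∑ n ∈ Ioc Z M, (n : ℂ) ^ (-s)‖ ≤ 2 / |t| + 1 := by linarith
          gcongr
      _ = 2 * C3 * (1 / (|t| * l)) + C3 / l := by field_simp
      _ ≤ 2 * C3 * (1 / (|t| * l)) + C3 * W := by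
          have : C3 / l ≤ C3 * W := by
            rw [div_le_iff₀ hl0, mul_assoc]
            refine le_mul_of_one_le_right hC3.le ?_
            exact one_le_mul_of_one_le_of_one_le hW1 (by linarith)
          linarith
  have hP : 0 ≤ 1 / (|t| * l) := by positivity
  rw [hsplit]
  calc _ ≤ 61 * C1 * W + (12 * C2 * W + (2 * C3 * (1 / (|t| * l)) + C3 * W)) := by
        refine (norm_add_le _ _).trans (add_le_add hhead ?_)
        exact (norm_add_le _ _).trans (add_le_add htail1 htail2)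
    _ ≤ (61 * C1 + 12 * C2 + 2 * C3 + C3) * (W + 1 / (|t| * l)) := by
        have h4 : 0 ≤ C1 * (1 / (|t| * l)) := by positivity
        have h5 : 0 ≤ C2 * (1 / (|t| * l)) := by positivity
        have h6 : 0 ≤ C3 * (1 / (|t| * l)) := by positivity
        have h7 : 0 ≤ C3 * W := by positivity
        have h8 : (61 * C1 + 12 * C2 + 2 * C3 + C3) * (W + 1 / (|t| * l)) =
          61 * C1 * W + 12 * C2 * W + 3 * (C3 * W) + 61 * (C1 * (1 / (|t| * l))) +
            12 * (C2 * (1 / (|t| * l))) + 3 * (C3 * (1 / (|t| * l))) := by ring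
        rw [h8]
        linarith

end Pool.Agent.PW
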